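import Pool.Agent.Work.MP_118406_si.Interface

set_option autoImplicit false

/-! # Block ALC: the elements of `Alg k` -/

open scoped InnerProductSpace ComplexConjugate Topology
open Set Filter

noncomputable section

namespace Pool.SI

theorem ALC_mem {k : ℕ} (hSPN : Stmt_SPN) (C : Set (Fk k →L[ℂ] Fk k)) (hC : IsClosed C)
    (h0 : (0 : Fk k →L[ℂ] Fk k) ∈ C) (ha : ∀ x ∈ C, ∀ y ∈ C, x + y ∈ C)
    (hs : ∀ (c : ℂ), ∀ x ∈ C, c • x ∈ C) (hm : ∀ w : List (Fin k), mon w ∈ C) :
    ∀ x ∈ Alg k, x ∈ C := by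
  intro x hx
  have h1 : x ∈ ((Alg k : StarSubalgebra ℂ (Fk k →L[ℂ] Fk k)) : Set (Fk k →L[ℂ] Fk k)) := hx
  rw [(hSPN k).2.1] at h1
  refine closure_minimal ?_ hC h1
  intro y hy
  refine Submodule.span_induction (p := fun z _ => z ∈ C) ?_ h0 ?_ ?_ hy
  · rintro z ⟨w, rfl⟩
    exact hm w
  · intro a b _ _ h2 h3
    exact ha a h2 b h3
  · intro c a _ h2
    exact hs c a h2

theorem ALC_mon_cons {k : ℕ} (i : Fin k) (w : List (Fin k)) :
    (mon (i :: w) : Fk k →L[ℂ] Fk k) = sc i * mon w := by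
  simp [mon]

theorem ALC_mon_comm {k : ℕ} (hCOM : Stmt_COM) (j : Fin k) (w : List (Fin k)) :
    (mon w : Fk k →L[ℂ] Fk k) * rs j = rs j * mon w := by
  induction w with
  | nil => simp [mon]
  | cons i w ih =>
    rw [ALC_mon_cons, mul_assoc, ih, ← mul_assoc, (hCOM k).2.2.1 i j, mul_assoc]

theorem ALC_rs_vac {k : ℕ} (hBAS : Stmt_BAS) (i : Fin k) :
    (rs i : Fk k →L[ℂ] Fk k) (vac k) = sc i (vac k) := by
  have h := (hBAS k).2.2.1 i
  simp only [rs, sc, ContinuousLinearMap.add_apply, h.1, h.2, add_zero]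
  rw [vac, rc_bs, lc_bs, List.nil_append]

theorem ALC_mon_J {k : ℕ} (hBAS : Stmt_BAS) (hJOP : Stmt_JOP) (hCOM : Stmt_COM)
    (w : List (Fin k)) :
    Jf ((mon w : Fk k →L[ℂ] Fk k) (vac k)) = (mon w.reverse : Fk k →L[ℂ] Fk k) (vac k) := by
  induction w with
  | nil =>
    simp only [mon, List.map_nil, List.prod_nil, List.reverse_nil, ContinuousLinearMap.one_apply]
    rw [vac, (hJOP k).2.2.2.1, List.reverse_nil]
  | cons i w ih =>
    rw [ALC_mon_cons, ContinuousLinearMap.mul_apply, (hCOM k).2.2.2 i, ih,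
      ← ContinuousLinearMap.mul_apply, ← ALC_mon_comm hCOM i, ContinuousLinearMap.mul_apply,
      ALC_rs_vac hBAS i, ← ContinuousLinearMap.mul_apply]
    congr 1
    simp [mon]

theorem p_ALC (hBAS : Stmt_BAS) (hJOP : Stmt_JOP) (hCOM : Stmt_COM) (hSPN : Stmt_SPN) :
    Stmt_ALC := by
  intro k
  have h1 : ∀ x ∈ Alg k, ∀ j : Fin k, x * rs j = rs j * x := by
    intro x hx j
    refine ALC_mem hSPN {x | x * rs j = rs j * x} ?_ ?_ ?_ ?_ ?_ x hx
    · exact isClosed_eq (by fun_prop) (by fun_prop)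
    · show (0 : Fk k →L[ℂ] Fk k) * rs j = rs j * 0
      rw [zero_mul, mul_zero]
    · intro a ha b hb
      show (a + b) * rs j = rs j * (a + b)
      rw [add_mul, mul_add, show a * rs j = rs j * a from ha, show b * rs j = rs j * b from hb]
    · intro c a ha
      show (c • a) * rs j = rs j * (c • a)
      rw [smul_mul_assoc, mul_smul_comm, show a * rs j = rs j * a from ha]
    · intro w
      exact ALC_mon_comm hCOM j w
  have h2 : ∀ x ∈ Alg k, Jf (x (vac k)) = (star x) (vac k) := by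
    intro x hx
    refine ALC_mem hSPN {x | Jf (x (vac k)) = (star x) (vac k)} ?_ ?_ ?_ ?_ ?_ x hx
    · refine isClosed_eq ?_ ?_
      · exact (hJOP k).2.2.2.2.2.2.comp (ContinuousLinearMap.apply ℂ (Fk k) (vac k)).continuous
      · exact (ContinuousLinearMap.apply ℂ (Fk k) (vac k)).continuous.comp continuous_star
    · show Jf ((0 : Fk k →L[ℂ] Fk k) (vac k)) = (star (0 : Fk k →L[ℂ] Fk k)) (vac k)
      rw [star_zero, ContinuousLinearMap.zero_apply]
      have := (hJOP k).2.1 0 0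
      simpa using this
    · intro a ha b hb
      show Jf ((a + b) (vac k)) = (star (a + b)) (vac k)
      rw [star_add, ContinuousLinearMap.add_apply, ContinuousLinearMap.add_apply, (hJOP k).1,
        show Jf (a (vac k)) = (star a) (vac k) from ha,
        show Jf (b (vac k)) = (star b) (vac k) from hb]
    · intro c a ha
      show Jf ((c • a) (vac k)) = (star (c • a)) (vac k)
      rw [star_smul, ContinuousLinearMap.smul_apply, ContinuousLinearMap.smul_apply,
        (hJOP k).2.1, show Jf (a (vac k)) = (star a) (vac k) from ha]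
      rfl
    · intro w
      show Jf ((mon w : Fk k →L[ℂ] Fk k) (vac k)) = (star (mon w : Fk k →L[ℂ] Fk k)) (vac k)
      rw [(hSPN k).2.2 w]
      exact ALC_mon_J hBAS hJOP hCOM w
  have h4 : ∀ (x y : Fk k →L[ℂ] Fk k),
      ⟪vac k, (x * y) (vac k)⟫_ℂ = ⟪(star x) (vac k), y (vac k)⟫_ℂ := by
    intro x y
    rw [ContinuousLinearMap.star_eq_adjoint, ContinuousLinearMap.adjoint_inner_left,
      ContinuousLinearMap.mul_apply]
  refine ⟨h1, h2, ?_⟩
  intro x hx y hy
  rw [h4 x y, h4 y x, ← h2 x hx, ← h2 y hy]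
  have h3 := (hJOP k).2.2.2.2.2.1 (x (vac k)) (Jf (y (vac k)))
  rw [(hJOP k).2.2.1] at h3
  exact h3

end Pool.SI
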