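import Pool.Agent.Work.MP_118406_si.Interface

set_option autoImplicit false

open scoped InnerProductSpace ComplexConjugate Topology
open Set Filter

noncomputable section

namespace Pool.SI

theorem CCN_sum {k : ℕ} (a : ℕ) (g : List (Fin k) → ℂ) (w : List (Fin k)) :
    (∑ u : Fin a → Fin k, g (wd u) * (if w = wd u then 1 else 0)) =
      if w.length = a then g w else 0 := by
  by_cases h : w.length = a
  · subst h
    rw [if_pos rfl, Finset.sum_eq_single (w.get : Fin w.length → Fin k)]
    · have h1 : wd (w.get : Fin w.length → Fin k) = w := List.ofFn_get w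
      rw [h1, if_pos rfl, mul_one]
    · intro u _ hu
      rw [if_neg, mul_zero]
      intro h2
      apply hu
      apply List.ofFn_injective
      rw [List.ofFn_get]
      exact h2.symm
    · intro h2
      exact absurd (Finset.mem_univ _) h2
  · rw [if_neg h]
    refine Finset.sum_eq_zero fun u _ => ?_
    rw [if_neg, mul_zero]
    intro h2
    apply h
    rw [h2, wd, List.length_ofFn]

/-- the projection onto the words of length `a` -/
def CCN_Q (k a : ℕ) : Fk k →L[ℂ] Fk k :=
  ∑ u : Fin a → Fin k, (innerSL ℂ (bs (wd u) : Fk k)).smulRight (bs (wd u))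

theorem CCN_Q_apply {k : ℕ} (a : ℕ) (ξ : Fk k) :
    CCN_Q k a ξ = ∑ u : Fin a → Fin k, (ξ (wd u)) • (bs (wd u) : Fk k) := by
  rw [CCN_Q, _root_.sum_apply]
  refine Finset.sum_congr rfl fun u _ => ?_
  rw [ContinuousLinearMap.smulRight_apply, innerSL_apply_apply, bs_inner]

theorem CCN_coord {k : ℕ} {ι : Type} (s : Finset ι) (c : ι → ℂ) (l : ι → List (Fin k))
    (w : List (Fin k)) :
    (∑ u ∈ s, c u • (bs (l u) : Fk k) : Fk k) w = ∑ u ∈ s, c u * (if w = l u then 1 else 0) := by
  classical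
  induction s using Finset.induction_on with
  | empty => simp
  | insert u s hu ih =>
    rw [Finset.sum_insert hu, Finset.sum_insert hu, lp.coeFn_add, Pi.add_apply, ih,
      lp.coeFn_smul, Pi.smul_apply, bs_apply, smul_eq_mul]

theorem CCN_Q_coord {k : ℕ} (a : ℕ) (ξ : Fk k) (w : List (Fin k)) :
    (CCN_Q k a ξ) w = if w.length = a then ξ w else 0 := by
  rw [CCN_Q_apply, CCN_coord, CCN_sum a (fun w => ξ w)]

theorem CCN_JQ1 {k : ℕ} (a : ℕ) (ξ : Fk k) :
    Jf (CCN_Q k a ξ) =
      ∑ u : Fin a → Fin k, conj (ξ (wd u).reverse) • (bs (wd u) : Fk k) := by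
  apply lp.ext
  funext w
  rw [CCN_coord, CCN_sum a (fun w => conj (ξ w.reverse))]
  show conj ((CCN_Q k a ξ) w.reverse) = _
  rw [CCN_Q_coord, List.length_reverse]
  by_cases h : w.length = a
  · rw [if_pos h, if_pos h]
  · rw [if_neg h, if_neg h, map_zero]

theorem CCN_JQ2 {k : ℕ} (b : ℕ) (ξ : Fk k) :
    Jf (CCN_Q k b ξ) =
      ∑ v : Fin b → Fin k, conj (ξ (wd v)) • (bs (wd v).reverse : Fk k) := by
  apply lp.ext
  funext w
  rw [CCN_coord]
  have h1 : ∀ v : Fin b → Fin k, conj (ξ (wd v)) * (if w = (wd v).reverse then 1 else 0) =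
      conj (ξ (wd v)) * (if w.reverse = wd v then 1 else 0) := by
    intro v
    have h2 : w = (wd v).reverse ↔ w.reverse = wd v := by
      constructor
      · intro h
        rw [h, List.reverse_reverse]
      · intro h
        rw [← h, List.reverse_reverse]
    by_cases h : w = (wd v).reverse
    · rw [if_pos h, if_pos (h2.1 h)]
    · rw [if_neg h, if_neg fun h3 => h (h2.2 h3)]
  rw [Finset.sum_congr rfl fun v _ => h1 v, CCN_sum b (fun w => conj (ξ w))]
  show conj ((CCN_Q k b ξ) w.reverse) = _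
  rw [CCN_Q_coord]
  by_cases h : w.reverse.length = b
  · rw [if_pos h, if_pos h]
  · rw [if_neg h, if_neg h, map_zero]

theorem p_CCN (_hBAS : Stmt_BAS) (_hJOP : Stmt_JOP) : Stmt_CCN := by
  intro k
  refine ⟨CCN_Q k, fun a ξ w => CCN_Q_coord a ξ w, ?_⟩
  intro S T α β _ hS a b
  have h1 : ∀ (u : Fin a → Fin k) (v : Fin b → Fin k),
      HasSum (fun n => ⟪bs (wd u), T (bs (wd v).reverse)⟫_ℂ *
        (conj (β n (wd v)) * α n (wd u).reverse))
        (⟪bs (wd u), T (bs (wd v).reverse)⟫_ℂ * ⟪bs (wd u).reverse, S (bs (wd v))⟫_ℂ) := by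
    intro u v
    have h2 := (innerSL ℂ (bs (wd u).reverse : Fk k)).hasSum (hS (bs (wd v)))
    refine (h2.congr_fun ?_).mul_left _
    intro n
    rw [innerSL_apply_apply, inner_smul_right, bs_inner, ← inner_conj_symm, bs_inner]
  have h3 : HasSum (fun n => ∑ u : Fin a → Fin k, ∑ v : Fin b → Fin k,
      ⟪bs (wd u), T (bs (wd v).reverse)⟫_ℂ * (conj (β n (wd v)) * α n (wd u).reverse))
      (cc S T a b) :=
    hasSum_sum fun u _ => hasSum_sum fun v _ => h1 u v
  refine h3.congr_fun ?_
  intro n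
  rw [CCN_JQ1, CCN_JQ2, map_sum, sum_inner]
  refine Finset.sum_congr rfl fun u _ => ?_
  rw [inner_smul_left, Complex.conj_conj, inner_sum, Finset.mul_sum]
  refine Finset.sum_congr rfl fun v _ => ?_
  rw [map_smul, inner_smul_right]
  ring

end Pool.SI
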