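import Pool.Agent.Work.MP_118406_si.Interface

set_option autoImplicit false

open scoped InnerProductSpace ComplexConjugate Topology
open Set Filter

noncomputable section

namespace Pool.SI

theorem CCS_rev {k n : ℕ} (u : Fin n → Fin k) : wd (fun i => u (Fin.rev i)) = (wd u).reverse := by
  unfold wd
  apply List.ext_getElem
  · simp
  · intro i h1 h2
    rw [List.getElem_ofFn, List.getElem_reverse, List.getElem_ofFn]
    congr 1
    apply Fin.ext
    simp [Fin.rev, Nat.sub_sub, Nat.add_comm]

theorem p_CCS : Stmt_CCS := by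
  intro k S T a b
  unfold cc
  have e : ∀ n : ℕ, ∀ F : (Fin n → Fin k) → ℂ, ∑ u : Fin n → Fin k, F u = ∑ u : Fin n → Fin k, F (fun i => u (Fin.rev i)) := by
    intro n F
    exact (Equiv.sum_comp (Equiv.arrowCongr (Fin.revPerm (n := n)) (Equiv.refl (Fin k))) F).symm
  rw [e a]
  refine Finset.sum_congr rfl fun u _ => ?_
  rw [e b]
  refine Finset.sum_congr rfl fun v _ => ?_
  rw [CCS_rev, CCS_rev, List.reverse_reverse, List.reverse_reverse, mul_comm]

end Pool.SI
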