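import Pool.Agent.Work.MP_118406_si.Interface

set_option autoImplicit false

/-! # Block COM: commutation relations -/

open scoped InnerProductSpace ComplexConjugate Topology
open Set Filter

noncomputable section

namespace Pool.SI

theorem COM_Pv_apply {k : ℕ} (ξ : Fk k) : Pv k ξ = (ξ []) • vac k := by
  rw [Pv, ContinuousLinearMap.smulRight_apply, innerSL_apply_apply, vac, bs_inner]

theorem COM_Pv_star (k : ℕ) : star (Pv k) = Pv k := by
  rw [ContinuousLinearMap.star_eq_adjoint, eq_comm, ContinuousLinearMap.eq_adjoint_iff]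
  intro x y
  rw [COM_Pv_apply, COM_Pv_apply, inner_smul_left, inner_smul_right, vac, bs_inner,
    ← inner_conj_symm x, bs_inner]
  ring

theorem COM_ll {k : ℕ} (hBAS : Stmt_BAS) (i j : Fin k) :
    ContinuousLinearMap.adjoint (rc i) * ContinuousLinearMap.adjoint (lc j) =
      ContinuousLinearMap.adjoint (lc j) * ContinuousLinearMap.adjoint (rc i) := by
  obtain ⟨h1, h2, -⟩ := hBAS k
  ext ξ v
  rw [ContinuousLinearMap.mul_apply, ContinuousLinearMap.mul_apply, h2, h1, h1, h2]
  rfl

theorem COM_lr {k : ℕ} (hBAS : Stmt_BAS) (i j : Fin k) :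
    ContinuousLinearMap.adjoint (rc i) * lc j =
      lc j * ContinuousLinearMap.adjoint (rc i) + (if i = j then Pv k else 0) := by
  obtain ⟨-, -, h3, h4, h5, -⟩ := hBAS k
  have hP : ∀ w : List (Fin k), (if i = j then Pv k else 0) (bs w) =
      if i = j then (if w = [] then vac k else 0) else 0 := by
    intro w
    split_ifs with h h'
    · rw [COM_Pv_apply, bs_apply, h', if_pos rfl, one_smul]
    · rw [COM_Pv_apply, bs_apply, if_neg (fun h => h' h.symm), zero_smul]
    · rfl
  apply h5
  intro w
  rw [ContinuousLinearMap.mul_apply, lc_bs, ContinuousLinearMap.add_apply,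
    ContinuousLinearMap.mul_apply, hP]
  rcases List.eq_nil_or_concat w with h | ⟨u, m, h⟩
  · subst h
    have h6 := (h4 i j []).2
    rw [List.nil_append] at h6
    have h7 := (h3 i).2
    rw [vac] at h7
    rw [h6, h7, map_zero, zero_add, if_pos rfl]
    rfl
  · rw [List.concat_eq_append] at h
    subst h
    rw [← List.cons_append, (h4 i m (j :: u)).2, (h4 i m u).2]
    have h8 : (if i = j then (if u ++ [m] = [] then vac k else 0) else 0) = (0 : Fk k) := by
      rw [if_neg (by simp : ¬ (u ++ [m] = []))]
      split_ifs <;> rfl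
    rw [h8, add_zero]
    split_ifs
    · rw [lc_bs]
    · rw [map_zero]

theorem p_COM (hBAS : Stmt_BAS) (hJOP : Stmt_JOP) : Stmt_COM := by
  intro k
  obtain ⟨h1, h2, h3, h4, h5, h6, h7, h8⟩ := hBAS k
  obtain ⟨j1, j2, j3, j4, j5, j6, j7⟩ := hJOP k
  have c1 : ∀ i j : Fin k, dq i (sc j : Fk k →L[ℂ] Fk k) = if i = j then Pv k else 0 := by
    intro i j
    rw [dq, sc, mul_add, add_mul, COM_ll hBAS, COM_lr hBAS]
    abel
  have c2 : ∀ i j : Fin k,
      (sc i : Fk k →L[ℂ] Fk k) * rc j - rc j * sc i = if i = j then Pv k else 0 := by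
    intro i j
    have h9 := congrArg star (c1 j i)
    rw [dq, star_sub, star_mul, star_mul, h7, ContinuousLinearMap.star_eq_adjoint,
      ContinuousLinearMap.adjoint_adjoint] at h9
    rw [h9]
    by_cases h : i = j
    · rw [if_pos h, if_pos h.symm, COM_Pv_star]
    · rw [if_neg h, if_neg (fun h' => h h'.symm), star_zero]
  refine ⟨c1, c2, ?_, ?_⟩
  · intro i j
    have e1 := c1 j i
    have e2 := c2 i j
    rw [dq] at e1
    have e3 : (if i = j then Pv k else 0) = (if j = i then Pv k else 0) := by
      by_cases h : i = j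
      · rw [if_pos h, if_pos h.symm]
      · rw [if_neg h, if_neg (fun h' => h h'.symm)]
    rw [e3, ← e1, sub_eq_iff_eq_add] at e2
    rw [rs, mul_add, add_mul, e2]
    abel
  · intro i
    have ja : ∀ ξ : Fk k, Jf (ContinuousLinearMap.adjoint (lc i) ξ) =
        ContinuousLinearMap.adjoint (rc i) (Jf ξ) := by
      intro ξ
      ext v
      rw [h2]
      show conj ((ContinuousLinearMap.adjoint (lc i) ξ : Fk k) v.reverse) =
        conj (ξ (v ++ [i]).reverse)
      rw [h1, List.reverse_append]
      rfl
    have hc : (fun ξ : Fk k => Jf (sc i ξ)) = fun ξ => rs i (Jf ξ) := by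
      refine Continuous.ext_on h6 (j7.comp (sc i).continuous) ((rs i).continuous.comp j7) ?_
      intro ξ hξ
      have hξ' : ξ ∈ Submodule.span ℂ (range (bs : List (Fin k) → Fk k)) := hξ
      show Jf (sc i ξ) = rs i (Jf ξ)
      induction hξ' using Submodule.span_induction with
      | mem x hx =>
        obtain ⟨w, rfl⟩ := hx
        rw [sc, ContinuousLinearMap.add_apply, j1, ja, lc_bs, j4, j4, rs,
          ContinuousLinearMap.add_apply, rc_bs, List.reverse_cons]
      | zero =>
        have hz : Jf (0 : Fk k) = 0 := by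
          have := j2 0 0
          rwa [zero_smul, map_zero, zero_smul] at this
        rw [map_zero, hz, map_zero]
      | add x y hx hy ihx ihy =>
        rw [map_add, j1, j1, map_add, ihx hx, ihy hy]
      | smul a x hx ih =>
        rw [map_smul, j2, j2, map_smul, ih hx]
    intro ξ
    exact congrFun hc ξ

end Pool.SI
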