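import Pool.Agent.Work.MP_118406_si.Interface

/-! Block CYC (helper69): the vacuum vector is cyclic. -/

set_option autoImplicit false

open scoped InnerProductSpace ComplexConjugate Topology
open Set Filter

noncomputable section

namespace Pool.SI

theorem CYC_aux (hBAS : Stmt_BAS) (k : ℕ) : ∀ (n : ℕ) (w : List (Fin k)), w.length ≤ n →
    ∃ x ∈ StarAlgebra.adjoin ℂ (Set.range (sc : Fin k → (Fk k →L[ℂ] Fk k))),
      x (vac k) = bs w := by
  obtain ⟨-, -, h3, h4, -, -, -, -⟩ := hBAS k
  have hs : ∀ i : Fin k, (sc i : Fk k →L[ℂ] Fk k) ∈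
      StarAlgebra.adjoin ℂ (Set.range (sc : Fin k → (Fk k →L[ℂ] Fk k))) :=
    fun i => StarAlgebra.subset_adjoin ℂ _ ⟨i, rfl⟩
  intro n
  induction n with
  | zero =>
    intro w hw
    have : w = [] := List.length_eq_zero_iff.1 (by omega)
    subst this
    exact ⟨1, one_mem _, rfl⟩
  | succ n ih =>
    intro w hw
    cases w with
    | nil => exact ⟨1, one_mem _, rfl⟩
    | cons i w =>
      simp only [List.length_cons] at hw
      obtain ⟨x, hx, hxw⟩ := ih w (by omega)
      have e : (sc i : Fk k →L[ℂ] Fk k) (bs w) =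
          bs (i :: w) + ContinuousLinearMap.adjoint (lc i) (bs w) := by
        rw [sc, ContinuousLinearMap.add_apply, lc_bs]
      cases w with
      | nil =>
        refine ⟨sc i * x, mul_mem (hs i) hx, ?_⟩
        rw [ContinuousLinearMap.mul_apply, hxw, e]
        have := (h3 i).1
        rw [vac] at this
        rw [this, add_zero]
      | cons j v =>
        simp only [List.length_cons] at hw
        obtain ⟨y, hy, hyv⟩ := ih v (by omega)
        rw [(h4 i j v).1] at e
        by_cases hij : i = j
        · refine ⟨sc i * x - y, sub_mem (mul_mem (hs i) hx) hy, ?_⟩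
          rw [ContinuousLinearMap.sub_apply, ContinuousLinearMap.mul_apply, hxw, e, hyv, if_pos hij,
            add_sub_cancel_right]
        · refine ⟨sc i * x, mul_mem (hs i) hx, ?_⟩
          rw [ContinuousLinearMap.mul_apply, hxw, e, if_neg hij, add_zero]

theorem p_CYC (hBAS : Stmt_BAS) : Stmt_CYC := fun k w => CYC_aux hBAS k w.length w le_rfl

end Pool.SI
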