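import Pool.Agent.Work.MP_118406_si.Interface

set_option autoImplicit false

/-!
# Block ENT: the entries of the difference quotient
-/

open scoped InnerProductSpace ComplexConjugate Topology
open Set Filter

noncomputable section

namespace Pool.SI

theorem ENT_rr (hBAS : Stmt_BAS) (k : ℕ) (i j : Fin k) :
    ContinuousLinearMap.adjoint (rc i) * (rc j : Fk k →L[ℂ] Fk k) = if i = j then 1 else 0 := by
  obtain ⟨-, -, -, h4, h5, -, -, -⟩ := hBAS k
  apply h5
  intro w
  rw [mul_apply_eq_comp, rc_bs, (h4 i j w).2]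
  by_cases h : i = j
  · rw [if_pos h, if_pos h]
    rfl
  · rw [if_neg h, if_neg h]
    rfl

theorem ENT_key (hBAS : Stmt_BAS) (hALC : Stmt_ALC) (k : ℕ) (x : Fk k →L[ℂ] Fk k)
    (hx : x ∈ Alg k) (i j : Fin k) :
    dq i x * rc j = ContinuousLinearMap.adjoint (rc i) * dq j x := by
  have h1 := (hALC k).1 x hx j
  have h2 := ENT_rr hBAS k i j
  unfold rs at h1
  unfold dq
  have h3 : ContinuousLinearMap.adjoint (rc i) * (x * (rc j + ContinuousLinearMap.adjoint (rc j))) =
      ContinuousLinearMap.adjoint (rc i) * ((rc j + ContinuousLinearMap.adjoint (rc j)) * x) := by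
    rw [h1]
  have h4 : x * (ContinuousLinearMap.adjoint (rc i) * (rc j : Fk k →L[ℂ] Fk k)) =
      (ContinuousLinearMap.adjoint (rc i) * (rc j : Fk k →L[ℂ] Fk k)) * x := by
    rw [h2]
    by_cases h : i = j
    · rw [if_pos h, mul_one, one_mul]
    · rw [if_neg h, mul_zero, zero_mul]
  have h5 : ContinuousLinearMap.adjoint (rc i) * (x * rc j) +
      ContinuousLinearMap.adjoint (rc i) * (x * ContinuousLinearMap.adjoint (rc j)) =
      (ContinuousLinearMap.adjoint (rc i) * rc j) * x +
      ContinuousLinearMap.adjoint (rc i) * (ContinuousLinearMap.adjoint (rc j) * x) := by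
    rw [← mul_add, ← mul_add, h3, add_mul, mul_add, mul_assoc]
  rw [sub_mul, mul_sub, mul_assoc, mul_assoc, h4]
  exact sub_eq_sub_iff_add_eq_add.2 (by rw [h5, add_comm])

theorem p_ENT (hBAS : Stmt_BAS) (hALC : Stmt_ALC) : Stmt_ENT := by
  intro k x hx i u v
  induction v using List.reverseRecOn generalizing i u with
  | nil =>
    rw [bs_inner]
    unfold dq
    have h1 : (ContinuousLinearMap.adjoint (rc i) * x - x * ContinuousLinearMap.adjoint (rc i)) (bs []) =
        ContinuousLinearMap.adjoint (rc i) (x (vac k)) := by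
      change ContinuousLinearMap.adjoint (rc i) (x (vac k)) -
        x (ContinuousLinearMap.adjoint (rc i) (vac k)) = _
      rw [((hBAS k).2.2.1 i).2, map_zero, sub_zero]
    rw [h1, (hBAS k).2.1 i (x (vac k)) u, List.reverse_nil]
  | append_singleton v j ih =>
    have h1 : dq i x (bs (v ++ [j])) = ContinuousLinearMap.adjoint (rc i) (dq j x (bs v)) := by
      rw [← rc_bs]
      have h2 := ENT_key hBAS hALC k x hx i j
      exact congrArg (fun T : Fk k →L[ℂ] Fk k => T (bs v)) h2
    rw [h1, bs_inner, (hBAS k).2.1 i _ u, ← bs_inner, ih j (u ++ [i])]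
    simp

end Pool.SI
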