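import Pool.Agent.Work.MP_118406_si.Interface

set_option autoImplicit false

/-! # THEOREM SI, block FEX: the two parts of the algebra -/

open scoped InnerProductSpace ComplexConjugate Topology
open Set Filter

noncomputable section

namespace Pool.SI

/-- The operator `bs u ↦ bs (u ++ w)`. -/
def FEX_R {k : ℕ} : List (Fin k) → (Fk k →L[ℂ] Fk k)
  | [] => 1
  | a :: w => FEX_R w * rc a

theorem FEX_R_bs {k : ℕ} (w u : List (Fin k)) : FEX_R w (bs u) = bs (u ++ w) := by
  induction w generalizing u with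
  | nil => simp [FEX_R]
  | cons a w ih =>
    rw [FEX_R, mul_apply_eq_comp, rc_bs, ih]
    simp

theorem FEX_adjoin {k : ℕ} (G : Set (Fk k →L[ℂ] Fk k)) (hG : ∀ x ∈ G, star x = x)
    (P : (Fk k →L[ℂ] Fk k) → Prop) (h1 : ∀ x ∈ G, P x)
    (h2 : ∀ c : ℂ, P (algebraMap ℂ (Fk k →L[ℂ] Fk k) c))
    (h3 : ∀ x y, P x → P y → P (x + y)) (h4 : ∀ x y, P x → P y → P (x * y)) :
    ∀ x ∈ StarAlgebra.adjoin ℂ G, P x := by
  intro x hx
  have hx' : x ∈ Algebra.adjoin ℂ (G ∪ star G) := by
    rw [← StarAlgebra.adjoin_toSubalgebra]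
    exact hx
  clear hx
  induction hx' using Algebra.adjoin_induction with
  | mem x hx =>
    rcases hx with hx | hx
    · exact h1 x hx
    · have h5 := hG _ (Set.mem_star.1 hx)
      rw [star_star] at h5
      exact h1 x (by rw [h5]; exact hx)
  | algebraMap c => exact h2 c
  | add x y _ _ hx hy => exact h3 x y hx hy
  | mul x y _ _ hx hy => exact h4 x y hx hy

theorem FEX_closure {k : ℕ} (G : Set (Fk k →L[ℂ] Fk k)) (C : Set (Fk k →L[ℂ] Fk k))
    (hC : IsClosed C) (h : ∀ x ∈ StarAlgebra.adjoin ℂ G, x ∈ C) :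
    ∀ x ∈ (StarAlgebra.adjoin ℂ G).topologicalClosure, x ∈ C := by
  intro x hx
  have h1 : x ∈ closure ((StarAlgebra.adjoin ℂ G : StarSubalgebra ℂ (Fk k →L[ℂ] Fk k)) :
      Set (Fk k →L[ℂ] Fk k)) := by
    rw [← StarSubalgebra.topologicalClosure_coe]
    exact hx
  exact closure_minimal (fun y hy => h y hy) hC h1

theorem FEX_lc (hB : Stmt_BAS) {k : ℕ} (j : Fin k) (ξ : Fk k) (v : List (Fin k))
    (h : ∀ u, v = j :: u → ξ u = 0) : (lc j ξ : Fk k) v = 0 := by
  obtain ⟨-, -, h3, h4, -, -, -, -⟩ := hB k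
  rw [← bs_inner, ← ContinuousLinearMap.adjoint_inner_left]
  rcases v with _ | ⟨a, u⟩
  · rw [show (bs [] : Fk k) = vac k from rfl, (h3 j).1, inner_zero_left]
  · rw [(h4 j a u).1]
    split_ifs with hja
    · subst hja
      rw [bs_inner]
      exact h u rfl
    · rw [inner_zero_left]

theorem FEX_rc (hB : Stmt_BAS) {k : ℕ} (j : Fin k) (ξ : Fk k) (v : List (Fin k))
    (h : ∀ u, v = u ++ [j] → ξ u = 0) : (rc j ξ : Fk k) v = 0 := by
  obtain ⟨-, -, h3, h4, -, -, -, -⟩ := hB k
  rw [← bs_inner, ← ContinuousLinearMap.adjoint_inner_left]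
  rcases List.eq_nil_or_concat' v with hv | ⟨u, a, hv⟩
  · rw [hv, show (bs [] : Fk k) = vac k from rfl, (h3 j).2, inner_zero_left]
  · rw [hv, (h4 j a u).2]
    split_ifs with hja
    · subst hja
      rw [bs_inner]
      exact h u hv
    · rw [inner_zero_left]

theorem FEX_Rcoord (hB : Stmt_BAS) {k : ℕ} (w : List (Fin k)) : ∀ (ξ : Fk k) (v : List (Fin k)),
    (∀ u, v = u ++ w → ξ u = 0) → (FEX_R w ξ : Fk k) v = 0 := by
  induction w with
  | nil =>
    intro ξ v h
    rw [FEX_R, one_apply_eq_self]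
    exact h v (by simp)
  | cons a w ih =>
    intro ξ v h
    rw [FEX_R, mul_apply_eq_comp]
    apply ih
    intro u hu
    apply FEX_rc hB
    intro u' hu'
    apply h u'
    rw [hu, hu']
    simp

theorem FEX_comm (hB : Stmt_BAS) {k : ℕ} (j : Fin k) (w : List (Fin k)) (hw : w.head? ≠ some j) :
    (sc j : Fk k →L[ℂ] Fk k) * FEX_R w = FEX_R w * sc j := by
  obtain ⟨-, -, h3, h4, h5, -, -, -⟩ := hB k
  apply h5
  intro u
  rw [mul_apply_eq_comp, mul_apply_eq_comp, FEX_R_bs]
  simp only [sc, add_apply, map_add, lc_bs, FEX_R_bs]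
  rw [List.cons_append]
  congr 1
  rcases u with _ | ⟨a, u⟩
  · rw [show (bs [] : Fk k) = vac k from rfl, (h3 j).1, map_zero, List.nil_append]
    rcases w with _ | ⟨b, w⟩
    · exact (h3 j).1
    · rw [(h4 j b w).1, if_neg]
      intro h
      apply hw
      rw [h]
      rfl
  · rw [List.cons_append, (h4 j a _).1, (h4 j a _).1]
    split_ifs with hja
    · rw [FEX_R_bs]
    · rw [map_zero]

theorem FEX_main (hB : Stmt_BAS) {k : ℕ} (L : Fin k → Prop) (x : Fk k →L[ℂ] Fk k)
    (hx : x ∈ (StarAlgebra.adjoin ℂ {y : Fk k →L[ℂ] Fk k | ∃ j, L j ∧ y = sc j}).topologicalClosure)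
    (h0 : ⟪vac k, x (vac k)⟫_ℂ = 0) (w : List (Fin k)) (hw : ∀ j, L j → w.head? ≠ some j)
    (v : List (Fin k)) (hv : ∀ j, L j → v.head? ≠ some j) : (x (bs w)) v = 0 := by
  have hsa : ∀ y ∈ {y : Fk k →L[ℂ] Fk k | ∃ j, L j ∧ y = sc j}, star y = y := by
    rintro y ⟨j, -, rfl⟩
    exact (hB k).2.2.2.2.2.2.1 j
  -- commutation with `FEX_R w`
  have hc : x * FEX_R w = FEX_R w * x := by
    refine FEX_closure _ {y : Fk k →L[ℂ] Fk k | y * FEX_R w = FEX_R w * y} ?_ ?_ x hx
    · exact isClosed_eq (continuous_id.mul continuous_const) (continuous_const.mul continuous_id)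
    · refine FEX_adjoin _ hsa (fun y => y * FEX_R w = FEX_R w * y) ?_ ?_ ?_ ?_
      · rintro y ⟨j, hj, rfl⟩
        exact FEX_comm hB j w (hw j hj)
      · intro c
        exact Algebra.commutes c (FEX_R w)
      · intro y z hy hz
        rw [add_mul, mul_add, hy, hz]
      · intro y z hy hz
        rw [mul_assoc, hz, ← mul_assoc, hy, mul_assoc]
  -- the invariant subspace
  have hV : ∀ u : List (Fin k), (∃ a ∈ u, ¬ L a) → (x (vac k) : Fk k) u = 0 := by
    intro u hu
    refine FEX_closure _ {y : Fk k →L[ℂ] Fk k | (y (vac k) : Fk k) u = 0} ?_ ?_ x hx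
    · have h1 : {y : Fk k →L[ℂ] Fk k | (y (vac k) : Fk k) u = 0}
          = {y : Fk k →L[ℂ] Fk k | ⟪bs u, y (vac k)⟫_ℂ = 0} := by
        ext y
        simp only [Set.mem_ofPred_eq, bs_inner]
      rw [h1]
      refine isClosed_eq ?_ continuous_const
      exact continuous_const.inner
        (ContinuousLinearMap.continuous (ContinuousLinearMap.apply ℂ (Fk k) (vac k)))
    · intro y hy
      have h2 : ∀ ξ : Fk k, (∀ u : List (Fin k), (∃ a ∈ u, ¬ L a) → ξ u = 0) →
          ∀ u : List (Fin k), (∃ a ∈ u, ¬ L a) → (y ξ : Fk k) u = 0 := by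
        refine FEX_adjoin _ hsa (fun y => ∀ ξ : Fk k,
          (∀ u : List (Fin k), (∃ a ∈ u, ¬ L a) → ξ u = 0) →
          ∀ u : List (Fin k), (∃ a ∈ u, ¬ L a) → (y ξ : Fk k) u = 0) ?_ ?_ ?_ ?_ y hy
        · rintro y ⟨j, hj, rfl⟩ ξ hξ u ⟨a, hau, ha⟩
          rw [sc, add_apply, lp.coeFn_add, Pi.add_apply, (hB k).1 j ξ u,
            hξ (j :: u) ⟨a, List.mem_cons_of_mem _ hau, ha⟩, add_zero]
          apply FEX_lc hB
          intro u' hu'
          apply hξ u' ⟨a, ?_, ha⟩
          rw [hu'] at hau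
          rcases List.mem_cons.1 hau with h | h
          · exact absurd (h ▸ hj) ha
          · exact h
        · intro c ξ hξ u hu
          rw [Algebra.algebraMap_eq_smul_one, smul_apply,
            one_apply_eq_self, lp.coeFn_smul, Pi.smul_apply, hξ u hu, smul_zero]
        · intro y z hy hz ξ hξ u hu
          rw [add_apply, lp.coeFn_add, Pi.add_apply, hy ξ hξ u hu,
            hz ξ hξ u hu, add_zero]
        · intro y z hy hz ξ hξ u hu
          rw [mul_apply_eq_comp]
          exact hy _ (hz ξ hξ) u hu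
      apply h2 _ _ u hu
      intro u' ⟨a, ha, _⟩
      rw [vac, bs_apply, if_neg]
      rintro rfl
      simp at ha
  have h1 : x (bs w) = FEX_R w (x (vac k)) := by
    have h2 := congrArg (fun T : Fk k →L[ℂ] Fk k => T (vac k)) hc
    simp only [mul_apply_eq_comp] at h2
    rw [← h2, vac, FEX_R_bs, List.nil_append]
  rw [h1]
  apply FEX_Rcoord hB
  intro u hu
  rcases u with _ | ⟨a, u⟩
  · rw [← h0, ← bs_inner]
    rfl
  · apply hV
    refine ⟨a, by simp, fun ha => hv a ha ?_⟩
    rw [hu]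
    rfl

/-- **Block FEX.** -/
theorem p_FEX (hB : Stmt_BAS) : Stmt_FEX := by
  intro k i
  constructor
  · intro x hx h0 w hw v hv
    refine FEX_main hB (fun j => j ≠ i) x hx h0 w ?_ v ?_
    · intro j hj h
      rcases hw with hw | hw
      · rw [hw] at h; simp at h
      · rw [hw] at h; exact hj (Option.some_injective _ h).symm
    · intro j hj h
      rcases hv with hv | hv
      · rw [hv] at h; simp at h
      · rw [hv] at h; exact hj (Option.some_injective _ h).symm
  · intro x hx h0 w hw v hv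
    have hset : ({sc i} : Set (Fk k →L[ℂ] Fk k)) = {y | ∃ j, j = i ∧ y = sc j} := by
      ext y
      simp
    rw [Aone, hset] at hx
    refine FEX_main hB (fun j => j = i) x hx h0 w ?_ v ?_
    · intro j hj h
      subst hj
      rcases hw with hw | hw
      · rw [hw] at h; simp at h
      · exact hw h
    · intro j hj h
      subst hj
      rcases hv with hv | hv
      · rw [hv] at h; simp at h
      · exact hv h

end Pool.SI
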