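import Pool.Agent.Work.MP_118406_si.Interface

set_option autoImplicit false

/-!
# Block FRE: freeness of one semicircular generator and the others
-/

open scoped InnerProductSpace ComplexConjugate Topology
open Set Filter

noncomputable section

namespace Pool.SI

theorem FRE_sum {k : ℕ} (c : Fk k →L[ℂ] Fk k) (ξ : Fk k) (v : List (Fin k))
    (h : ∀ w : List (Fin k), ξ w = 0 ∨ (c (bs w)) v = 0) : (c ξ) v = 0 := by
  have h1 : HasSum (fun w : List (Fin k) => lp.single 2 w (ξ w)) ξ :=
    lp.hasSum_single (by norm_num) ξ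
  have h2 := h1.mapL ((innerSL ℂ (bs v : Fk k)).comp c)
  have h3 : ∀ w : List (Fin k),
      ((innerSL ℂ (bs v : Fk k)).comp c) (lp.single 2 w (ξ w)) = 0 := by
    intro w
    have e : (lp.single 2 w (ξ w) : Fk k) = ξ w • bs w := by
      rw [bs, ← lp.single_smul, smul_eq_mul, mul_one]
    rw [e, map_smul]
    rcases h w with h4 | h4
    · rw [h4, zero_smul]
    · rw [ContinuousLinearMap.comp_apply, innerSL_apply_apply, bs_inner, h4, smul_zero]
  have h5 : ((innerSL ℂ (bs v : Fk k)).comp c) ξ = 0 := by
    refine h2.unique ?_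
    have e : (fun w : List (Fin k) =>
        ((innerSL ℂ (bs v : Fk k)).comp c) (lp.single 2 w (ξ w))) = fun _ => 0 := by
      funext w
      exact h3 w
    rw [e]
    exact hasSum_zero
  rwa [ContinuousLinearMap.comp_apply, innerSL_apply_apply, bs_inner] at h5

theorem FRE_main (k : ℕ) (i : Fin k) (hFEX : Stmt_FEX) :
    ∀ (l : List (Fk k →L[ℂ] Fk k)) (b : Bool), Alt (Aone i) (Aoth i) (vac k) b l → l ≠ [] →
      (b = true → ∀ v : List (Fin k), (v = [] ∨ v.head? ≠ some i) → (l.prod (vac k)) v = 0) ∧
      (b = false → ∀ v : List (Fin k), (v = [] ∨ v.head? = some i) → (l.prod (vac k)) v = 0) := by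
  obtain ⟨hB, hA⟩ := hFEX k i
  intro l
  induction l with
  | nil => intro b _ h; exact absurd rfl h
  | cons c l ih =>
    intro b hl _
    rw [Alt] at hl
    obtain ⟨h1, h2, h3⟩ := hl
    have hprod : (c :: l).prod (vac k) = c (l.prod (vac k)) := by
      rw [List.prod_cons, ContinuousLinearMap.mul_apply]
    rw [hprod]
    by_cases hl0 : l = []
    · subst hl0
      rw [List.prod_nil, ContinuousLinearMap.one_apply]
      constructor
      · intro hb v hv
        rw [if_pos hb] at h1
        exact hA c h1 h2 [] (Or.inl rfl) v hv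
      · intro hb v hv
        rw [if_neg (by rw [hb]; decide)] at h1
        exact hB c h1 h2 [] (Or.inl rfl) v hv
    · obtain ⟨ih1, ih2⟩ := ih (!b) h3 hl0
      constructor
      · intro hb v hv
        rw [if_pos hb] at h1
        apply FRE_sum
        intro w
        by_cases hw : w = [] ∨ w.head? = some i
        · left
          exact ih2 (by rw [hb]; rfl) w hw
        · right
          push Not at hw
          exact hA c h1 h2 w (Or.inr hw.2) v hv
      · intro hb v hv
        rw [if_neg (by rw [hb]; decide)] at h1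
        apply FRE_sum
        intro w
        by_cases hw : w = [] ∨ w.head? ≠ some i
        · left
          exact ih1 (by rw [hb]; rfl) w hw
        · right
          push Not at hw
          exact hB c h1 h2 w (Or.inr hw.2) v hv

theorem p_FRE (_hBAS : Stmt_BAS) (hFEX : Stmt_FEX) : Stmt_FRE := by
  intro k i b l hl hne
  obtain ⟨h1, h2⟩ := FRE_main k i hFEX l b hl hne
  have e : ⟪vac k, l.prod (vac k)⟫_ℂ = (l.prod (vac k)) [] := bs_inner _ _
  rw [e]
  rcases Bool.eq_false_or_eq_true b with h | h
  · exact h1 h [] (Or.inl rfl)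
  · exact h2 h [] (Or.inl rfl)

end Pool.SI
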