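import Pool.Agent.Work.MP_118406_si.Interface

set_option autoImplicit false

/-! # HAA: a Haar unitary in the C*-algebra of a semicircular operator -/

open scoped InnerProductSpace ComplexConjugate Topology
open Set Filter

noncomputable section

namespace Pool.SI

theorem HAA_spec {k : ℕ} (s : Fk k →L[ℂ] Fk k) (hs : IsSelfAdjoint s) (hn : ‖s‖ ≤ 2) (z : ℂ)
    (hz : z ∈ spectrum ℂ s) : z = (z.re : ℂ) ∧ z.re ∈ Icc (-2 : ℝ) 2 := by
  have h1 := spectrum.norm_le_norm_mul_of_mem hz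
  have h2 : ‖(1 : Fk k →L[ℂ] Fk k)‖ ≤ 1 := ContinuousLinearMap.norm_id_le
  have h3 : ‖z‖ ≤ 2 := by
    refine h1.trans ?_
    nlinarith [norm_nonneg s, norm_nonneg (1 : Fk k →L[ℂ] Fk k)]
  exact ⟨hs.mem_spectrum_eq_re hz, abs_le.mp ((Complex.abs_re_le_norm z).trans h3)⟩

/-- the functional calculus of real functions -/
def HAA_c {k : ℕ} (s : Fk k →L[ℂ] Fk k) (f : ℝ → ℝ) : Fk k →L[ℂ] Fk k :=
  cfc (fun z : ℂ => ((f z.re : ℝ) : ℂ)) s

theorem HAA_approx {k : ℕ} (s : Fk k →L[ℂ] Fk k) (hs : IsSelfAdjoint s) (hn : ‖s‖ ≤ 2)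
    (f : ℝ → ℝ) (hf : Continuous f) (ε : ℝ) (hε : 0 < ε) :
    ∃ p : Polynomial ℝ, (∀ x ∈ Icc (-2 : ℝ) 2, |p.eval x - f x| < ε) ∧
      ‖Polynomial.aeval s p - HAA_c s f‖ ≤ ε := by
  obtain ⟨p, hp⟩ := exists_polynomial_near_of_continuousOn (-2) 2 f hf.continuousOn ε hε
  refine ⟨p, hp, ?_⟩
  have hsn : IsStarNormal s := hs.isStarNormal
  have h1 : Polynomial.aeval s p = Polynomial.aeval s (p.map (algebraMap ℝ ℂ)) :=
    (Polynomial.aeval_map_algebraMap ℂ s p).symm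
  have h2 : Continuous fun z : ℂ => ((f z.re : ℝ) : ℂ) :=
    Complex.continuous_ofReal.comp (hf.comp Complex.continuous_re)
  rw [h1, HAA_c, ← cfc_polynomial (p.map (algebraMap ℝ ℂ)) s hsn,
    ← cfc_sub (fun z : ℂ => (p.map (algebraMap ℝ ℂ)).eval z) (fun z : ℂ => ((f z.re : ℝ) : ℂ)) s
    (p.map (algebraMap ℝ ℂ)).continuous.continuousOn h2.continuousOn]
  refine norm_cfc_le hε.le fun z hz => ?_
  obtain ⟨h3, h4⟩ := HAA_spec s hs hn z hz
  have h5 : (p.map (algebraMap ℝ ℂ)).eval z = ((p.eval z.re : ℝ) : ℂ) := by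
    conv_lhs => rw [h3]
    rw [Polynomial.eval_map]
    exact Polynomial.eval₂_at_apply (algebraMap ℝ ℂ) z.re
  rw [h5, ← Complex.ofReal_sub, Complex.norm_real, Real.norm_eq_abs]
  exact (hp z.re h4).le

/-- the moments of the semicircular distribution -/
def HAA_m (f : ℝ → ℝ) : ℝ :=
  (2 / Real.pi) * ∫ θ in (0 : ℝ)..Real.pi, f (2 * Real.cos θ) * Real.sin θ ^ 2

theorem HAA_m_sub (f g : ℝ → ℝ) (hf : Continuous f) (hg : Continuous g) (ε : ℝ) (hε : 0 ≤ ε)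
    (h : ∀ x ∈ Icc (-2 : ℝ) 2, |f x - g x| ≤ ε) : |HAA_m f - HAA_m g| ≤ 2 * ε := by
  have hc : ∀ f : ℝ → ℝ, Continuous f →
      Continuous fun θ : ℝ => f (2 * Real.cos θ) * Real.sin θ ^ 2 := fun f hf =>
    (hf.comp (continuous_const.mul Real.continuous_cos)).mul (Real.continuous_sin.pow 2)
  rw [HAA_m, HAA_m, ← mul_sub, ← intervalIntegral.integral_sub
    ((hc f hf).intervalIntegrable _ _) ((hc g hg).intervalIntegrable _ _), abs_mul,
    abs_of_pos (div_pos two_pos Real.pi_pos)]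
  have h1 : ‖∫ θ in (0 : ℝ)..Real.pi, (f (2 * Real.cos θ) * Real.sin θ ^ 2 -
      g (2 * Real.cos θ) * Real.sin θ ^ 2)‖ ≤ ε * |Real.pi - 0| := by
    refine intervalIntegral.norm_integral_le_of_norm_le_const fun θ _ => ?_
    rw [← sub_mul, norm_mul, Real.norm_eq_abs, Real.norm_eq_abs]
    have h2 : |f (2 * Real.cos θ) - g (2 * Real.cos θ)| ≤ ε :=
      h _ ⟨by linarith [Real.neg_one_le_cos θ], by linarith [Real.cos_le_one θ]⟩
    have h3 : |Real.sin θ ^ 2| ≤ 1 := by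
      rw [abs_of_nonneg (sq_nonneg _)]
      nlinarith [Real.sin_sq_add_cos_sq θ, sq_nonneg (Real.cos θ)]
    calc |f (2 * Real.cos θ) - g (2 * Real.cos θ)| * |Real.sin θ ^ 2| ≤ ε * 1 :=
          mul_le_mul h2 h3 (abs_nonneg _) hε
      _ = ε := mul_one _
  rw [Real.norm_eq_abs, sub_zero, abs_of_pos Real.pi_pos] at h1
  calc 2 / Real.pi * |∫ θ in (0 : ℝ)..Real.pi, (f (2 * Real.cos θ) * Real.sin θ ^ 2 -
      g (2 * Real.cos θ) * Real.sin θ ^ 2)| ≤ 2 / Real.pi * (ε * Real.pi) :=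
        mul_le_mul_of_nonneg_left h1 (div_pos two_pos Real.pi_pos).le
    _ = 2 * ε := by
        have := Real.pi_ne_zero
        field_simp

theorem HAA_mom (hBAS : Stmt_BAS) (hSCM : Stmt_SCM) {k : ℕ} (i : Fin k) (f : ℝ → ℝ)
    (hf : Continuous f) : ⟪vac k, HAA_c (sc i) f (vac k)⟫_ℂ = (HAA_m f : ℂ) := by
  have hs : IsSelfAdjoint (sc i : Fk k →L[ℂ] Fk k) := (hBAS k).2.2.2.2.2.2.1 i
  have hn : ‖(sc i : Fk k →L[ℂ] Fk k)‖ ≤ 2 := (hBAS k).2.2.2.2.2.2.2 i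
  have hΩ : ‖vac k‖ = 1 := bs_orthonormal.1 []
  refine eq_of_forall_dist_le fun ε hε => ?_
  obtain ⟨p, hp1, hp2⟩ := HAA_approx (sc i) hs hn f hf (ε / 3) (by positivity)
  have h1 : ⟪vac k, (Polynomial.aeval (sc i : Fk k →L[ℂ] Fk k) p) (vac k)⟫_ℂ =
      (HAA_m (fun x => p.eval x) : ℂ) := hSCM k i p
  have h2 : ‖⟪vac k, (Polynomial.aeval (sc i : Fk k →L[ℂ] Fk k) p) (vac k)⟫_ℂ -
      ⟪vac k, HAA_c (sc i) f (vac k)⟫_ℂ‖ ≤ ε / 3 := by
    rw [← inner_sub_right, ← sub_apply]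
    refine (norm_inner_le_norm _ _).trans ?_
    rw [hΩ, one_mul]
    refine (ContinuousLinearMap.le_opNorm _ _).trans ?_
    rw [hΩ, mul_one]
    exact hp2
  have h3 : ‖(HAA_m (fun x => p.eval x) : ℂ) - (HAA_m f : ℂ)‖ ≤ 2 * (ε / 3) := by
    rw [← Complex.ofReal_sub, Complex.norm_real, Real.norm_eq_abs]
    exact HAA_m_sub _ _ p.continuous hf _ (by positivity) fun x hx => (hp1 x hx).le
  rw [h1] at h2
  rw [dist_eq_norm]
  calc ‖⟪vac k, HAA_c (sc i) f (vac k)⟫_ℂ - (HAA_m f : ℂ)‖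
      = ‖((HAA_m (fun x => p.eval x) : ℂ) - (HAA_m f : ℂ)) -
          ((HAA_m (fun x => p.eval x) : ℂ) - ⟪vac k, HAA_c (sc i) f (vac k)⟫_ℂ)‖ := by
        congr 1
        ring
    _ ≤ 2 * (ε / 3) + ε / 3 := (norm_sub_le _ _).trans (add_le_add h3 h2)
    _ = ε := by ring

/-! ## The phase -/

/-- the phase -/
def HAA_g (x : ℝ) : ℝ := 2 * Real.arccos (x / 2) - Real.sin (2 * Real.arccos (x / 2))

theorem HAA_g_cont : Continuous HAA_g := by
  unfold HAA_g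
  have h1 : Continuous fun x : ℝ => Real.arccos (x / 2) :=
    Real.continuous_arccos.comp (continuous_id.div_const 2)
  exact (continuous_const.mul h1).sub (Real.continuous_sin.comp (continuous_const.mul h1))

theorem HAA_g_cos (θ : ℝ) (h : θ ∈ Icc 0 Real.pi) :
    HAA_g (2 * Real.cos θ) = 2 * θ - Real.sin (2 * θ) := by
  rw [HAA_g, mul_div_cancel_left₀ _ two_ne_zero, Real.arccos_cos h.1 h.2]

theorem HAA_der (n : ℕ) (θ : ℝ) :
    HasDerivAt (fun θ : ℝ => (n : ℝ) * (2 * θ - Real.sin (2 * θ)))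
      ((n : ℝ) * (4 * Real.sin θ ^ 2)) θ := by
  have h1 : HasDerivAt (fun θ : ℝ => 2 * θ) 2 θ := by
    simpa using (hasDerivAt_id θ).const_mul 2
  have h2 : HasDerivAt (fun θ : ℝ => Real.sin (2 * θ)) (Real.cos (2 * θ) * 2) θ :=
    (Real.hasDerivAt_sin (2 * θ)).comp θ h1
  have h3 := (h1.sub h2).const_mul (n : ℝ)
  have h4 : 2 - Real.cos (2 * θ) * 2 = 4 * Real.sin θ ^ 2 := by
    rw [Real.cos_two_mul]
    have := Real.sin_sq_add_cos_sq θ
    linarith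
  rw [h4] at h3
  exact h3

theorem HAA_cos (n : ℕ) (hn : 0 < n) : HAA_m (fun x => Real.cos (n * HAA_g x)) = 0 := by
  have hn0 : (n : ℝ) ≠ 0 := Nat.cast_ne_zero.mpr hn.ne'
  have h1 : ∫ θ in (0 : ℝ)..Real.pi, Real.cos (n * HAA_g (2 * Real.cos θ)) * Real.sin θ ^ 2 =
      ∫ θ in (0 : ℝ)..Real.pi, Real.cos (n * (2 * θ - Real.sin (2 * θ))) * Real.sin θ ^ 2 := by
    refine intervalIntegral.integral_congr fun θ hθ => ?_
    rw [uIcc_of_le Real.pi_pos.le] at hθ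
    simp only [HAA_g_cos θ hθ]
  have h2 : ∫ θ in (0 : ℝ)..Real.pi, Real.cos (n * (2 * θ - Real.sin (2 * θ))) * Real.sin θ ^ 2 =
      (fun θ : ℝ => Real.sin (n * (2 * θ - Real.sin (2 * θ))) / (4 * n)) Real.pi -
      (fun θ : ℝ => Real.sin (n * (2 * θ - Real.sin (2 * θ))) / (4 * n)) 0 := by
    refine intervalIntegral.integral_eq_sub_of_hasDerivAt (E := ℝ)
      (f := fun θ : ℝ => Real.sin (n * (2 * θ - Real.sin (2 * θ))) / (4 * n)) (fun θ _ => ?_) ?_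
    · have h3 := ((Real.hasDerivAt_sin _).comp θ (HAA_der n θ)).div_const (4 * (n : ℝ))
      have h4 : Real.cos (n * (2 * θ - Real.sin (2 * θ))) * ((n : ℝ) * (4 * Real.sin θ ^ 2)) /
          (4 * n) = Real.cos (n * (2 * θ - Real.sin (2 * θ))) * Real.sin θ ^ 2 := by
        field_simp
      rw [h4] at h3
      exact h3
    · exact Continuous.intervalIntegrable (by fun_prop) _ _
  rw [HAA_m, h1, h2]
  have h5 : Real.sin (n * (2 * Real.pi)) = 0 := by
    have := Real.sin_nat_mul_pi (2 * n)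
    push_cast at this
    rw [← this]
    congr 1
    ring
  simp [Real.sin_two_pi, h5]

theorem HAA_sin (n : ℕ) (hn : 0 < n) : HAA_m (fun x => Real.sin (n * HAA_g x)) = 0 := by
  have hn0 : (n : ℝ) ≠ 0 := Nat.cast_ne_zero.mpr hn.ne'
  have h1 : ∫ θ in (0 : ℝ)..Real.pi, Real.sin (n * HAA_g (2 * Real.cos θ)) * Real.sin θ ^ 2 =
      ∫ θ in (0 : ℝ)..Real.pi, Real.sin (n * (2 * θ - Real.sin (2 * θ))) * Real.sin θ ^ 2 := by
    refine intervalIntegral.integral_congr fun θ hθ => ?_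
    rw [uIcc_of_le Real.pi_pos.le] at hθ
    simp only [HAA_g_cos θ hθ]
  have h2 : ∫ θ in (0 : ℝ)..Real.pi, Real.sin (n * (2 * θ - Real.sin (2 * θ))) * Real.sin θ ^ 2 =
      (fun θ : ℝ => -Real.cos (n * (2 * θ - Real.sin (2 * θ))) / (4 * n)) Real.pi -
      (fun θ : ℝ => -Real.cos (n * (2 * θ - Real.sin (2 * θ))) / (4 * n)) 0 := by
    refine intervalIntegral.integral_eq_sub_of_hasDerivAt (E := ℝ)
      (f := fun θ : ℝ => -Real.cos (n * (2 * θ - Real.sin (2 * θ))) / (4 * n)) (fun θ _ => ?_) ?_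
    · have h3 := (((Real.hasDerivAt_cos _).comp θ (HAA_der n θ)).neg).div_const (4 * (n : ℝ))
      have h4 : -(-Real.sin (n * (2 * θ - Real.sin (2 * θ))) * ((n : ℝ) * (4 * Real.sin θ ^ 2))) /
          (4 * n) = Real.sin (n * (2 * θ - Real.sin (2 * θ))) * Real.sin θ ^ 2 := by
        field_simp
      rw [h4] at h3
      exact h3
    · exact Continuous.intervalIntegrable (by fun_prop) _ _
  rw [HAA_m, h1, h2]
  simp [Real.sin_two_pi, Real.cos_nat_mul_two_pi]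

/-! ## The unitary -/

/-- the function of the unitary -/
def HAA_F (z : ℂ) : ℂ := Complex.exp (Complex.I * (HAA_g z.re : ℂ))

theorem HAA_F_cont : Continuous HAA_F := by
  unfold HAA_F
  exact Complex.continuous_exp.comp (continuous_const.mul
    (Complex.continuous_ofReal.comp (HAA_g_cont.comp Complex.continuous_re)))

theorem HAA_F_star (z : ℂ) : star (HAA_F z) * HAA_F z = 1 := by
  have h1 : HAA_F z = Complex.exp ((HAA_g z.re : ℂ) * Complex.I) := by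
    rw [HAA_F, mul_comm]
  rw [Complex.star_def, mul_comm, Complex.mul_conj, Complex.normSq_eq_norm_sq, h1,
    Complex.norm_exp_ofReal_mul_I]
  norm_num

theorem HAA_F_pow (n : ℕ) (z : ℂ) : HAA_F z ^ n =
    ((Real.cos (n * HAA_g z.re) : ℝ) : ℂ) + Complex.I * ((Real.sin (n * HAA_g z.re) : ℝ) : ℂ) := by
  rw [HAA_F, ← Complex.exp_nat_mul, Complex.ofReal_cos, Complex.ofReal_sin]
  have h1 : (n : ℂ) * (Complex.I * (HAA_g z.re : ℂ)) =
      ((n * HAA_g z.re : ℝ) : ℂ) * Complex.I := by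
    push_cast
    ring
  rw [h1, Complex.exp_mul_I]
  ring

theorem p_HAA (hBAS : Stmt_BAS) (hSCM : Stmt_SCM) : Stmt_HAA := by
  intro k i
  have hs : IsSelfAdjoint (sc i : Fk k →L[ℂ] Fk k) := (hBAS k).2.2.2.2.2.2.1 i
  have hsn : IsStarNormal (sc i : Fk k →L[ℂ] Fk k) := hs.isStarNormal
  have hu : cfc HAA_F (sc i : Fk k →L[ℂ] Fk k) ∈ unitary (Fk k →L[ℂ] Fk k) :=
    (cfc_unitary_iff HAA_F (sc i : Fk k →L[ℂ] Fk k) hsn HAA_F_cont.continuousOn).mpr
      fun z _ => HAA_F_star z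
  refine ⟨cfc HAA_F (sc i : Fk k →L[ℂ] Fk k), cfc_mem_elemental HAA_F _,
    Unitary.star_mul_self_of_mem hu, Unitary.mul_star_self_of_mem hu, fun n hn => ?_⟩
  have c1 : Continuous fun x : ℝ => Real.cos (n * HAA_g x) :=
    Real.continuous_cos.comp (continuous_const.mul HAA_g_cont)
  have c2 : Continuous fun x : ℝ => Real.sin (n * HAA_g x) :=
    Real.continuous_sin.comp (continuous_const.mul HAA_g_cont)
  have c1' : Continuous fun z : ℂ => ((Real.cos (n * HAA_g z.re) : ℝ) : ℂ) :=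
    Complex.continuous_ofReal.comp (c1.comp Complex.continuous_re)
  have c2' : Continuous fun z : ℂ => ((Real.sin (n * HAA_g z.re) : ℝ) : ℂ) :=
    Complex.continuous_ofReal.comp (c2.comp Complex.continuous_re)
  have h1 : cfc HAA_F (sc i : Fk k →L[ℂ] Fk k) ^ n =
      HAA_c (sc i) (fun x => Real.cos (n * HAA_g x)) +
        Complex.I • HAA_c (sc i) (fun x => Real.sin (n * HAA_g x)) := by
    rw [← cfc_pow HAA_F n (sc i : Fk k →L[ℂ] Fk k) HAA_F_cont.continuousOn hsn, HAA_c, HAA_c,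
      ← cfc_const_mul Complex.I (fun z : ℂ => ((Real.sin (n * HAA_g z.re) : ℝ) : ℂ))
        (sc i : Fk k →L[ℂ] Fk k) c2'.continuousOn,
      ← cfc_add (sc i : Fk k →L[ℂ] Fk k) (fun z : ℂ => ((Real.cos (n * HAA_g z.re) : ℝ) : ℂ))
        (fun z : ℂ => Complex.I * ((Real.sin (n * HAA_g z.re) : ℝ) : ℂ))
        c1'.continuousOn (continuous_const.mul c2').continuousOn]
    exact cfc_congr fun z _ => HAA_F_pow n z
  rw [h1, add_apply, smul_apply, inner_add_right, inner_smul_right,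
    HAA_mom hBAS hSCM i _ c1, HAA_mom hBAS hSCM i _ c2, HAA_cos n hn, HAA_sin n hn]
  simp

end Pool.SI
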