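import Pool.Agent.Work.MP_118406_si.Interface

set_option autoImplicit false

/-!
# Block HPR: the pairing of Hilbert-Schmidt operators
-/

open scoped InnerProductSpace ComplexConjugate Topology
open Set Filter

noncomputable section

namespace Pool.SI

theorem HPR_norm {k : ℕ} (ξ : Fk k) : HasSum (fun u => ‖ξ u‖ ^ 2) (‖ξ‖ ^ 2) := by
  have h := lp.hasSum_norm (p := 2) (by norm_num) ξ
  simpa using h

/-- the pairs of words, by their lengths -/
def HPR_e (k : ℕ) : (Σ p : ℕ × ℕ, (Fin p.1 → Fin k) × (Fin p.2 → Fin k)) ≃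
    List (Fin k) × List (Fin k) :=
  Equiv.ofBijective (fun x => (wd x.2.1, wd x.2.2)) (by
    constructor
    · rintro ⟨⟨a, b⟩, ⟨u, v⟩⟩ ⟨⟨a', b'⟩, ⟨u', v'⟩⟩ h
      simp only [Prod.mk.injEq, wd] at h
      obtain ⟨h1, h2⟩ := h
      have h3 := List.ofFn_inj'.mp h1
      have h4 := List.ofFn_inj'.mp h2
      cases h3
      cases h4
      rfl
    · rintro ⟨u, v⟩
      refine ⟨⟨(u.length, v.length), (u.get, v.get)⟩, ?_⟩
      simp [wd])

theorem HPR_sum {k : ℕ} {T : Fk k →L[ℂ] Fk k} (hT : HS T) :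
    Summable (fun p : List (Fin k) × List (Fin k) => ‖(T (bs p.1) : Fk k) p.2‖ ^ 2) := by
  rw [summable_prod_of_nonneg (fun p => by positivity)]
  refine ⟨fun v => (HPR_norm (T (bs v))).summable, ?_⟩
  have : (fun v : List (Fin k) => ∑' u, ‖(T (bs v) : Fk k) u‖ ^ 2) = fun v => ‖T (bs v)‖ ^ 2 :=
    funext fun v => (HPR_norm (T (bs v))).tsum_eq
  exact this ▸ hT

/-- the reversal of words -/
def HPR_r (k : ℕ) : Equiv.Perm (List (Fin k)) := List.reverse_involutive.toPerm _

theorem HPR_r_apply {k : ℕ} (w : List (Fin k)) : HPR_r k w = w.reverse := rfl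

theorem p_HPR (_hBAS : Stmt_BAS) (hJOP : Stmt_JOP) : Stmt_HPR := by
  intro k S T hS hT
  obtain ⟨_, _, _, hJ4, _, _, _⟩ := hJOP k
  -- the double family, `v` first
  set F : List (Fin k) × List (Fin k) → ℂ := fun p =>
    ⟪bs p.2, T (bs p.1.reverse)⟫_ℂ * ⟪bs p.2.reverse, S (bs p.1)⟫_ℂ with hF
  have hsum : Summable F := by
    have h1 : Summable (fun p : List (Fin k) × List (Fin k) =>
        ‖(T (bs p.1.reverse) : Fk k) p.2‖ ^ 2) := by
      have := (Equiv.prodCongr (HPR_r k) (Equiv.refl _)).summable_iff.2 (HPR_sum hT)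
      simpa only [Function.comp_def, Equiv.prodCongr_apply, Prod.map, HPR_r_apply,
        Equiv.refl_apply] using this
    have h2 : Summable (fun p : List (Fin k) × List (Fin k) =>
        ‖(S (bs p.1) : Fk k) p.2.reverse‖ ^ 2) := by
      have := (Equiv.prodCongr (Equiv.refl _) (HPR_r k)).summable_iff.2 (HPR_sum hS)
      simpa only [Function.comp_def, Equiv.prodCongr_apply, Prod.map, HPR_r_apply,
        Equiv.refl_apply] using this
    refine Summable.of_norm_bounded (h1.add h2) fun p => ?_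
    rw [hF]
    simp only [bs_inner, norm_mul]
    nlinarith [sq_nonneg (‖(T (bs p.1.reverse) : Fk k) p.2‖ - ‖(S (bs p.1) : Fk k) p.2.reverse‖),
      norm_nonneg ((T (bs p.1.reverse) : Fk k) p.2), norm_nonneg ((S (bs p.1) : Fk k) p.2.reverse)]
  have hrow : ∀ v : List (Fin k), HasSum (fun u => F (v, u))
      ⟪Jf (T (Jf (bs v))), S (bs v)⟫_ℂ := by
    intro v
    have h1 := lp.hasSum_inner (𝕜 := ℂ) (Jf (T (Jf (bs v)))) (S (bs v))
    have h2 := (HPR_r k).hasSum_iff.2 h1
    have e1 : (fun u => F (v, u)) = (fun i => ⟪(Jf (T (Jf (bs v))) : Fk k) i,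
        (S (bs v) : Fk k) i⟫_ℂ) ∘ (HPR_r k) := by
      funext u
      have e2 : (Jf (T (bs v.reverse)) : Fk k) u.reverse = conj ((T (bs v.reverse) : Fk k) u) := by
        change conj ((T (bs v.reverse) : Fk k) u.reverse.reverse) = _
        rw [List.reverse_reverse]
      simp only [hF, Function.comp_apply, HPR_r_apply, bs_inner, RCLike.inner_apply, hJ4]
      rw [e2, Complex.conj_conj, mul_comm]
    rw [e1]
    exact h2
  have hmain : HasSum F (hp S T) := by
    have h1 : ∑' p, F p = hp S T := by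
      rw [hsum.tsum_prod]
      exact tsum_congr fun v => (hrow v).tsum_eq
    rw [← h1]
    exact hsum.hasSum
  have h3 : HasSum (fun p : ℕ × ℕ => cc S T p.1 p.2) (hp S T) := by
    have h4 := (Equiv.prodComm _ _).hasSum_iff.2 hmain
    have h5 := (HPR_e k).hasSum_iff.2 h4
    refine h5.sigma fun p => ?_
    have h6 : cc S T p.1 p.2 = ∑ x : (Fin p.1 → Fin k) × (Fin p.2 → Fin k),
        ⟪bs (wd x.1), T (bs (wd x.2).reverse)⟫_ℂ * ⟪bs (wd x.1).reverse, S (bs (wd x.2))⟫_ℂ := by
      rw [cc, Fintype.sum_prod_type]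
    rw [h6]
    exact hasSum_fintype _
  have h7 := Finset.HasAntidiagonal.sigmaAntidiagonalEquivProd.hasSum_iff.2 h3
  refine h7.sigma fun m => ?_
  rw [← Finset.sum_coe_sort]
  exact hasSum_fintype _

end Pool.SI

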