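import Pool.Agent.Work.MP_118406_si.Interface

set_option autoImplicit false

open scoped InnerProductSpace ComplexConjugate Topology
open Set Filter

noncomputable section

namespace Pool.SI

variable {H : Type} [NormedAddCommGroup H] [InnerProductSpace ℂ H]

/-- Parseval -/
theorem HSB_parseval {ι : Type} (e : HilbertBasis ι ℂ H) (x : H) :
    ∑' v, ENNReal.ofReal (‖⟪e v, x⟫_ℂ‖ ^ 2) = ENNReal.ofReal (‖x‖ ^ 2) := by
  have h1 := e.hasSum_inner_mul_inner x x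
  have h2 : HasSum (fun v => ‖⟪e v, x⟫_ℂ‖ ^ 2) (‖x‖ ^ 2) := by
    have h3 := Complex.hasSum_re h1
    have h4 : (⟪x, x⟫_ℂ).re = ‖x‖ ^ 2 := by
      rw [inner_self_eq_norm_sq_to_K]
      norm_cast
    rw [h4] at h3
    refine h3.congr_fun ?_
    intro v
    rw [← inner_conj_symm x (e v), Complex.conj_mul']
    norm_cast
  rw [← h2.tsum_eq, ENNReal.ofReal_tsum_of_nonneg (fun v => sq_nonneg _) h2.summable]

variable [CompleteSpace H]

/-- the Hilbert-Schmidt norm with respect to two bases -/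
theorem HSB_swap {ι κ : Type} (e : HilbertBasis ι ℂ H) (f : HilbertBasis κ ℂ H)
    (A : H →L[ℂ] H) :
    ∑' w, ENNReal.ofReal (‖A (f w)‖ ^ 2) =
      ∑' v, ENNReal.ofReal (‖(ContinuousLinearMap.adjoint A) (e v)‖ ^ 2) := by
  calc ∑' w, ENNReal.ofReal (‖A (f w)‖ ^ 2)
      = ∑' w, ∑' v, ENNReal.ofReal (‖⟪e v, A (f w)⟫_ℂ‖ ^ 2) := by
        refine tsum_congr fun w => ?_
        rw [HSB_parseval e]
    _ = ∑' v, ∑' w, ENNReal.ofReal (‖⟪e v, A (f w)⟫_ℂ‖ ^ 2) := ENNReal.tsum_comm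
    _ = ∑' v, ENNReal.ofReal (‖(ContinuousLinearMap.adjoint A) (e v)‖ ^ 2) := by
        refine tsum_congr fun v => ?_
        rw [← HSB_parseval f]
        refine tsum_congr fun w => ?_
        rw [ContinuousLinearMap.adjoint_inner_right, norm_inner_symm]

theorem HSB_norm {ι κ : Type} (e : HilbertBasis ι ℂ H) (f : HilbertBasis κ ℂ H)
    (A : H →L[ℂ] H) (h : Summable (fun v => ‖A (e v)‖ ^ 2)) :
    HasSum (fun w => ‖A (f w)‖ ^ 2) (∑' v, ‖A (e v)‖ ^ 2) := by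
  have h1 : ∑' w, ENNReal.ofReal (‖A (f w)‖ ^ 2) = ∑' v, ENNReal.ofReal (‖A (e v)‖ ^ 2) := by
    rw [HSB_swap e f A, HSB_swap e e A]
  have h2 : ∑' v, ENNReal.ofReal (‖A (e v)‖ ^ 2) = ENNReal.ofReal (∑' v, ‖A (e v)‖ ^ 2) :=
    (ENNReal.ofReal_tsum_of_nonneg (fun v => sq_nonneg _) h).symm
  have h3 : ∑' w, ENNReal.ofReal (‖A (f w)‖ ^ 2) ≠ ⊤ := by
    rw [h1, h2]
    exact ENNReal.ofReal_ne_top
  have h4 : Summable (fun w => ‖A (f w)‖ ^ 2) := by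
    have h5 := ENNReal.summable_toReal h3
    refine h5.congr fun w => ?_
    rw [ENNReal.toReal_ofReal (sq_nonneg _)]
  have h6 : ENNReal.ofReal (∑' w, ‖A (f w)‖ ^ 2) = ENNReal.ofReal (∑' v, ‖A (e v)‖ ^ 2) := by
    rw [ENNReal.ofReal_tsum_of_nonneg (fun w => sq_nonneg _) h4, h1, h2]
  have h7 : ∑' w, ‖A (f w)‖ ^ 2 = ∑' v, ‖A (e v)‖ ^ 2 :=
    (ENNReal.ofReal_eq_ofReal_iff (tsum_nonneg fun w => sq_nonneg _)
      (tsum_nonneg fun v => sq_nonneg _)).1 h6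
  rw [← h7]
  exact h4.hasSum

omit [CompleteSpace H] in
theorem HSB_comb {ι : Type} (e : ι → H) (S T : H →L[ℂ] H) (c : ℂ)
    (hT : Summable (fun v => ‖T (e v)‖ ^ 2)) (hS : Summable (fun v => ‖S (e v)‖ ^ 2)) :
    Summable (fun v => ‖(T + c • S) (e v)‖ ^ 2) := by
  refine Summable.of_nonneg_of_le (fun v => sq_nonneg _) (fun v => ?_)
    ((hT.mul_left 2).add (hS.mul_left (2 * ‖c‖ ^ 2)))
  have h1 : ‖(T + c • S) (e v)‖ ≤ ‖T (e v)‖ + ‖c‖ * ‖S (e v)‖ := by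
    have h2 : (T + c • S) (e v) = T (e v) + c • S (e v) := rfl
    rw [h2]
    refine (norm_add_le _ _).trans ?_
    rw [norm_smul]
  have h3 : ‖(T + c • S) (e v)‖ ^ 2 ≤ (‖T (e v)‖ + ‖c‖ * ‖S (e v)‖) ^ 2 :=
    pow_le_pow_left₀ (norm_nonneg _) h1 2
  nlinarith [sq_nonneg (‖T (e v)‖ - ‖c‖ * ‖S (e v)‖)]

omit [CompleteSpace H] in
theorem HSB_polar {ι : Type} (e : ι → H) (S T : H →L[ℂ] H) (a : ℂ → ℝ)
    (h : ∀ c : ℂ, HasSum (fun v => ‖(T + c • S) (e v)‖ ^ 2) (a c)) :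
    HasSum (fun v => ⟪T (e v), S (e v)⟫_ℂ)
      (((a 1 : ℂ) - (a (-1) : ℂ) + ((a (-Complex.I) : ℂ) - (a Complex.I : ℂ)) * Complex.I) / 4) := by
  have hC : ∀ c : ℂ, HasSum (fun v => ((‖(T + c • S) (e v)‖ ^ 2 : ℝ) : ℂ)) (a c : ℂ) :=
    fun c => Complex.hasSum_ofReal.2 (h c)
  have h1 := (((hC 1).sub (hC (-1))).add (((hC (-Complex.I)).sub (hC Complex.I)).mul_right
    Complex.I)).div_const 4
  refine h1.congr_fun ?_
  intro v
  rw [inner_eq_sum_norm_sq_div_four (T (e v)) (S (e v))]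
  have e1 : ∀ c : ℂ, (T + c • S) (e v) = T (e v) + c • S (e v) := fun c => rfl
  rw [e1, e1, e1, e1, one_smul, neg_smul, one_smul, neg_smul, ← sub_eq_add_neg, ← sub_eq_add_neg]
  push_cast
  simp

theorem p_HSB : Stmt_HSB := by
  intro H _ _ _ ι κ e f S T hT hS
  have hc := fun c : ℂ => HSB_comb e S T c hT hS
  refine ⟨(HSB_norm e f T hT).summable, ?_, ?_⟩
  · refine Summable.of_nonneg_of_le (fun v => norm_nonneg _) (fun v => ?_) (hT.add hS)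
    refine (norm_inner_le_norm _ _).trans ?_
    nlinarith [sq_nonneg (‖T (e v)‖ - ‖S (e v)‖), sq_nonneg (‖T (e v)‖), sq_nonneg (‖S (e v)‖)]
  · have h1 := HSB_polar f S T (fun c => ∑' v, ‖(T + c • S) (e v)‖ ^ 2)
      (fun c => HSB_norm e f _ (hc c))
    have h2 := HSB_polar e S T (fun c => ∑' v, ‖(T + c • S) (e v)‖ ^ 2)
      (fun c => (hc c).hasSum)
    rw [h2.tsum_eq]
    exact h1

end Pool.SI
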