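import Pool.Agent.Work.MP_118406_si.Interface

set_option autoImplicit false

/-!
# Block HSU: invariance of the pairing
-/

open scoped InnerProductSpace ComplexConjugate Topology
open Set Filter

noncomputable section

namespace Pool.SI

/-- The Hilbert basis of words. -/
theorem HSU_basis (h1 : Stmt_BAS) (k : ℕ) :
    ∃ e : HilbertBasis (List (Fin k)) ℂ (Fk k), ∀ w, e w = bs w := by
  have hd := (h1 k).2.2.2.2.2.1
  refine ⟨HilbertBasis.mk bs_orthonormal ?_, fun w => ?_⟩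
  · intro x _
    exact hd x
  · rw [HilbertBasis.coe_mk]

/-- The Hilbert basis transported by a unitary. -/
theorem HSU_basis2 (h1 : Stmt_BAS) (k k' : ℕ) (U : Fk k' ≃ₗᵢ[ℂ] Fk k) :
    ∃ e : HilbertBasis (List (Fin k')) ℂ (Fk k), ∀ w, e w = U (bs w) := by
  obtain ⟨e, he⟩ := HSU_basis h1 k'
  refine ⟨HilbertBasis.ofRepr (U.symm.trans e.repr), fun w => ?_⟩
  have h2 : (HilbertBasis.ofRepr (U.symm.trans e.repr)) w
      = (U.symm.trans e.repr).symm (lp.single 2 w (1 : ℂ)) :=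
    (HilbertBasis.repr_symm_single _ w).symm
  have h3 : e.repr.symm (lp.single 2 w (1 : ℂ)) = e w := HilbertBasis.repr_symm_single e w
  rw [h2, ← he w, ← h3]
  rfl

theorem HSU_cj {k k' : ℕ} (U : Fk k' ≃ₗᵢ[ℂ] Fk k) (L : Fk k' →L[ℂ] Fk k') (ξ : Fk k) :
    cj U L ξ = U (L (U.symm ξ)) := rfl

theorem HSU_cj' {k k' : ℕ} (U : Fk k' ≃ₗᵢ[ℂ] Fk k) (K : Fk k →L[ℂ] Fk k) (ξ : Fk k') :
    cj U.symm K ξ = U.symm (K (U ξ)) := rfl

theorem HSU_one (h1 : Stmt_BAS) (h3 : Stmt_HSB) (k k' : ℕ) (U : Fk k' ≃ₗᵢ[ℂ] Fk k)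
    (L : Fk k' →L[ℂ] Fk k') (hL : HS L) : HS (cj U L) := by
  obtain ⟨f, hf⟩ := HSU_basis2 h1 k k' U
  obtain ⟨e, he⟩ := HSU_basis h1 k
  have hs : Summable (fun v => ‖(cj U L) (f v)‖ ^ 2) := by
    refine (summable_congr fun v => ?_).1 hL
    rw [hf v, HSU_cj, LinearIsometryEquiv.symm_apply_apply, LinearIsometryEquiv.norm_map]
  have h := (h3 (Fk k) _ _ f e (cj U L) (cj U L) hs hs).1
  refine (summable_congr fun v => ?_).1 h
  rw [he v]

/-- The linear operator `J T J`. -/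
theorem HSU_conj (h2 : Stmt_JOP) (k : ℕ) (T : Fk k →L[ℂ] Fk k) :
    ∃ M : Fk k →L[ℂ] Fk k, ∀ ξ, M ξ = Jf (T (Jf ξ)) := by
  obtain ⟨hadd, hsmul, hinv, hbs, hnorm, hin, hcont⟩ := h2 k
  refine ⟨⟨⟨⟨fun ξ => Jf (T (Jf ξ)), fun x y => ?_⟩, fun c x => ?_⟩, ?_⟩, fun ξ => rfl⟩
  · show Jf (T (Jf (x + y))) = Jf (T (Jf x)) + Jf (T (Jf y))
    rw [hadd, map_add, hadd]
  · show Jf (T (Jf (c • x))) = (RingHom.id ℂ) c • Jf (T (Jf x))
    rw [hsmul, map_smul, hsmul, Complex.conj_conj]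
    rfl
  · exact hcont.comp (T.continuous.comp hcont)

/-- BLOCK HSU. -/
theorem p_HSU (h1 : Stmt_BAS) (h2 : Stmt_JOP) (h3 : Stmt_HSB) : Stmt_HSU := by
  intro k k' U hU
  refine ⟨fun L hL => HSU_one h1 h3 k k' U L hL, fun K hK => HSU_one h1 h3 k' k U.symm K hK, ?_⟩
  intro K L hK hL
  obtain ⟨hadd, hsmul, hinv, hbs, hnorm, hin, hcont⟩ := h2 k
  have hbs' := (h2 k').2.2.2.1
  obtain ⟨f, hf⟩ := HSU_basis2 h1 k k' U
  obtain ⟨e, he⟩ := HSU_basis h1 k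
  obtain ⟨M, hM⟩ := HSU_conj h2 k (cj U L)
  have hLt : HS (cj U L) := HSU_one h1 h3 k k' U L hL
  have hMs : Summable (fun v => ‖M (e v)‖ ^ 2) := by
    have h := (List.reverse_involutive.toPerm
      (List.reverse : List (Fin k) → List (Fin k))).summable_iff.2 hLt
    refine (summable_congr fun v => ?_).1 h
    show ‖(cj U L) (bs v.reverse)‖ ^ 2 = ‖M (e v)‖ ^ 2
    rw [he v, hM, hnorm, hbs]
  have hKs : Summable (fun v => ‖K (e v)‖ ^ 2) := by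
    refine (summable_congr fun v => ?_).1 hK
    rw [he v]
  have hsum := (h3 (Fk k) _ _ e f K M hMs hKs).2.2
  have hA : hp (cj U.symm K) L = ∑' w, ⟪M (f w), K (f w)⟫_ℂ := by
    rw [hp]
    refine tsum_congr fun v => ?_
    rw [HSU_cj', hf v, hM, HSU_cj, ← hU, ← hU, LinearIsometryEquiv.symm_apply_apply]
    rw [← LinearIsometryEquiv.inner_map_map U (Jf (L (Jf (bs v)))) (U.symm (K (U (bs v)))),
      LinearIsometryEquiv.apply_symm_apply]
  rw [hA, hsum.tsum_eq, hp]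
  have hB := (List.reverse_involutive.toPerm
      (List.reverse : List (Fin k) → List (Fin k))).tsum_eq
        (fun v : List (Fin k) => ⟪Jf (K (Jf (bs v))), (cj U L) (bs v)⟫_ℂ)
  rw [← hB]
  refine tsum_congr fun v => ?_
  show ⟪M (e v), K (e v)⟫_ℂ = ⟪Jf (K (Jf (bs v.reverse))), (cj U L) (bs v.reverse)⟫_ℂ
  rw [he v, hM, hbs, hbs, List.reverse_reverse]
  have h := hin ((cj U L) (bs v.reverse)) (Jf (K (bs v)))
  rw [hinv] at h
  exact h

end Pool.SI
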