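import Pool.Agent.Work.MP_118406_si.Interface

set_option autoImplicit false

/-!
# MP_118406_an, THEOREM SI, block IMP: isomorphisms are implemented by unitaries
-/

open scoped InnerProductSpace ComplexConjugate Topology
open Set Filter

noncomputable section

namespace Pool.SI

theorem IMP_closed (k : ℕ) :
    IsClosed ((Alg k : StarSubalgebra ℂ (Fk k →L[ℂ] Fk k)) : Set (Fk k →L[ℂ] Fk k)) :=
  StarSubalgebra.isClosed_topologicalClosure _

theorem IMP_norm {k k' : ℕ} (φ : Alg k' ≃⋆ₐ[ℂ] Alg k) (x : Alg k') : ‖φ x‖ = ‖x‖ := by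
  have := IMP_closed k
  have := IMP_closed k'
  exact NonUnitalStarAlgHom.norm_map φ φ.injective x

theorem IMP_star {k k' : ℕ} (φ : Alg k' ≃⋆ₐ[ℂ] Alg k) (x : Alg k') :
    φ (star x) = star (φ x) := φ.map_star' x

theorem IMP_vac (k : ℕ) : ‖(vac k : Fk k)‖ = 1 := bs_orthonormal.1 []

/-- The vector functional of the image. -/
def IMP_sig {k k' : ℕ} (φ : Alg k' ≃⋆ₐ[ℂ] Alg k) : Alg k' →L[ℂ] ℂ :=
  LinearMap.mkContinuous
    { toFun := fun x => ⟪vac k, (φ x : Fk k →L[ℂ] Fk k) (vac k)⟫_ℂ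
      map_add' := fun x y => by
        rw [map_add]
        change ⟪vac k, ((φ x : Fk k →L[ℂ] Fk k) + (φ y : Fk k →L[ℂ] Fk k)) (vac k)⟫_ℂ = _
        rw [add_apply, inner_add_right]
      map_smul' := fun c x => by
        rw [map_smul, RingHom.id_apply, smul_eq_mul]
        change ⟪vac k, (c • (φ x : Fk k →L[ℂ] Fk k)) (vac k)⟫_ℂ = _
        rw [smul_apply, inner_smul_right] } 1 (fun x => by
      change ‖⟪vac k, (φ x : Fk k →L[ℂ] Fk k) (vac k)⟫_ℂ‖ ≤ 1 * ‖x‖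
      refine (norm_inner_le_norm _ _).trans ?_
      rw [IMP_vac, one_mul, one_mul, ← IMP_norm φ x]
      refine (ContinuousLinearMap.le_opNorm _ _).trans ?_
      rw [IMP_vac, mul_one]
      exact le_rfl)

theorem IMP_sig_apply {k k' : ℕ} (φ : Alg k' ≃⋆ₐ[ℂ] Alg k) (x : Alg k') :
    IMP_sig φ x = ⟪vac k, (φ x : Fk k →L[ℂ] Fk k) (vac k)⟫_ℂ := rfl

theorem IMP_star_inner {k : ℕ} (x y : Alg k) (v : Fk k) :
    ⟪(x : Fk k →L[ℂ] Fk k) v, (y : Fk k →L[ℂ] Fk k) v⟫_ℂ =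
      ⟪v, ((star x * y : Alg k) : Fk k →L[ℂ] Fk k) v⟫_ℂ := by
  have h : ((star x * y : Alg k) : Fk k →L[ℂ] Fk k) v =
      ContinuousLinearMap.adjoint (x : Fk k →L[ℂ] Fk k) ((y : Fk k →L[ℂ] Fk k) v) := rfl
  rw [h, ContinuousLinearMap.adjoint_inner_right]

/-- A closed property of vectors, additive and homogeneous, true on the basis. -/
theorem IMP_ext {k : ℕ} (hB : Stmt_BAS) {S : Set (Fk k)} (hc : IsClosed S)
    (h0 : (0 : Fk k) ∈ S) (ha : ∀ x y, x ∈ S → y ∈ S → x + y ∈ S)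
    (hs : ∀ (c : ℂ) x, x ∈ S → c • x ∈ S) (hb : ∀ w : List (Fin k), bs w ∈ S) (x : Fk k) :
    x ∈ S := by
  have hd := (hB k).2.2.2.2.2.1
  have hsub : (Submodule.span ℂ (range (bs : List (Fin k) → Fk k)) : Set (Fk k)) ⊆ S := by
    intro y hy
    refine Submodule.span_induction (p := fun y _ => y ∈ S) ?_ h0 (fun a b _ _ => ha a b)
      (fun c a _ => hs c a) hy
    rintro _ ⟨w, rfl⟩
    exact hb w
  exact (hc.closure_subset_iff.2 hsub) (hd x)

/-- **IMP**: isomorphisms are implemented by unitaries. -/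
theorem p_IMP (hB : Stmt_BAS) (hJ : Stmt_JOP) (hC : Stmt_CYC) (hA : Stmt_ALC) (hU : Stmt_UTF) :
    Stmt_IMP := by
  intro k k' _ hk' φ
  -- the trace is preserved
  have htr : ∀ x : Alg k', ⟪vac k, (φ x : Fk k →L[ℂ] Fk k) (vac k)⟫_ℂ =
      ⟪vac k', (x : Fk k' →L[ℂ] Fk k') (vac k')⟫_ℂ := by
    intro x
    rw [← IMP_sig_apply]
    refine hU k' hk' (IMP_sig φ) (fun x y => ?_) ?_ x
    · rw [IMP_sig_apply, IMP_sig_apply, map_mul, map_mul]
      exact (hA k).2.2 _ (φ x).2 _ (φ y).2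
    · rw [IMP_sig_apply, map_one]
      change ⟪vac k, vac k⟫_ℂ = 1
      rw [inner_self_eq_norm_sq_to_K, IMP_vac]
      simp
  have hin : ∀ x y : Alg k', ⟪(φ x : Fk k →L[ℂ] Fk k) (vac k), (φ y : Fk k →L[ℂ] Fk k) (vac k)⟫_ℂ =
      ⟪(x : Fk k' →L[ℂ] Fk k') (vac k'), (y : Fk k' →L[ℂ] Fk k') (vac k')⟫_ℂ := by
    intro x y
    rw [IMP_star_inner, IMP_star_inner, ← htr, map_mul, IMP_star]
  -- the elements `x_w`
  have hx : ∀ w : List (Fin k'), ∃ x : Alg k', (x : Fk k' →L[ℂ] Fk k') (vac k') = bs w := by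
    intro w
    obtain ⟨x, hx, hxw⟩ := hC k' w
    exact ⟨⟨x, StarSubalgebra.le_topologicalClosure _ hx⟩, hxw⟩
  have hy : ∀ w : List (Fin k), ∃ x : Alg k, (x : Fk k →L[ℂ] Fk k) (vac k) = bs w := by
    intro w
    obtain ⟨x, hx, hxw⟩ := hC k w
    exact ⟨⟨x, StarSubalgebra.le_topologicalClosure _ hx⟩, hxw⟩
  choose xx hxx using hx
  -- the isometry
  have horth : Orthonormal ℂ (fun w : List (Fin k') => (φ (xx w) : Fk k →L[ℂ] Fk k) (vac k)) := by
    classical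
    rw [orthonormal_iff_ite]
    intro w v
    rw [hin, hxx, hxx]
    exact (orthonormal_iff_ite.1 bs_orthonormal) w v
  obtain ⟨V, hV⟩ : ∃ V : Fk k' →ₗᵢ[ℂ] Fk k, ∀ w, V (bs w) =
      (φ (xx w) : Fk k →L[ℂ] Fk k) (vac k) := by
    refine ⟨horth.orthogonalFamily.linearIsometry, fun w => ?_⟩
    rw [bs]
    simp
  have hVin : ∀ (x : Alg k') (ξ : Fk k'), ⟪V ξ, (φ x : Fk k →L[ℂ] Fk k) (vac k)⟫_ℂ =
      ⟪ξ, (x : Fk k' →L[ℂ] Fk k') (vac k')⟫_ℂ := by
    intro x ξ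
    refine IMP_ext hB (S := {ξ | ⟪V ξ, (φ x : Fk k →L[ℂ] Fk k) (vac k)⟫_ℂ =
      ⟪ξ, (x : Fk k' →L[ℂ] Fk k') (vac k')⟫_ℂ}) ?_ ?_ ?_ ?_ ?_ ξ
    · exact isClosed_eq (V.continuous.inner continuous_const) (continuous_id.inner continuous_const)
    · simp
    · intro a b ha hb
      rw [mem_ofPred_eq] at ha hb ⊢
      rw [map_add, inner_add_left, inner_add_left, ha, hb]
    · intro c a ha
      rw [mem_ofPred_eq] at ha ⊢
      rw [map_smul, inner_smul_left, inner_smul_left, ha]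
    · intro w
      rw [mem_ofPred_eq, hV, hin, hxx]
  have hVx : ∀ x : Alg k', V ((x : Fk k' →L[ℂ] Fk k') (vac k')) =
      (φ x : Fk k →L[ℂ] Fk k) (vac k) := by
    intro x
    have h1 := hVin x ((x : Fk k' →L[ℂ] Fk k') (vac k'))
    have h2 := hin x x
    rw [← sub_eq_zero, ← inner_self_eq_zero (𝕜 := ℂ), inner_sub_left, inner_sub_right,
      inner_sub_right, V.inner_map_map, h1, h2, ← inner_conj_symm _ (V _), h1]
    rw [inner_conj_symm]
    ring
  -- surjectivity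
  have hsurj : Function.Surjective V := by
    intro ξ
    have hcl : IsClosed (range V) := V.isometry.isClosedEmbedding.isClosed_range
    refine IMP_ext hB (S := range V) hcl ⟨0, map_zero _⟩ ?_ ?_ ?_ ξ
    · rintro _ _ ⟨a, rfl⟩ ⟨b, rfl⟩
      exact ⟨a + b, map_add _ _ _⟩
    · rintro c _ ⟨a, rfl⟩
      exact ⟨c • a, map_smul _ _ _⟩
    · intro w
      obtain ⟨y, hy⟩ := hy w
      refine ⟨((φ.symm y : Alg k') : Fk k' →L[ℂ] Fk k') (vac k'), ?_⟩
      rw [hVx, StarAlgEquiv.apply_symm_apply, hy]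
  refine ⟨LinearIsometryEquiv.ofSurjective V hsurj, ?_, ?_, ?_⟩
  · change V (vac k') = vac k
    have h1 := hVx 1
    rw [map_one] at h1
    exact h1
  · intro x ξ
    change V ((x : Fk k' →L[ℂ] Fk k') ξ) = (φ x : Fk k →L[ℂ] Fk k) (V ξ)
    refine IMP_ext hB (S := {ξ | V ((x : Fk k' →L[ℂ] Fk k') ξ) =
      (φ x : Fk k →L[ℂ] Fk k) (V ξ)}) ?_ ?_ ?_ ?_ ?_ ξ
    · exact isClosed_eq (V.continuous.comp (ContinuousLinearMap.continuous _))
        ((ContinuousLinearMap.continuous _).comp V.continuous)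
    · simp
    · intro a b ha hb
      rw [mem_ofPred_eq] at ha hb ⊢
      rw [map_add, map_add, map_add, map_add, ha, hb]
    · intro c a ha
      rw [mem_ofPred_eq] at ha ⊢
      rw [map_smul, map_smul, map_smul, map_smul, ha]
    · intro w
      rw [mem_ofPred_eq, hV, ← hxx w]
      have h1 := hVx (x * xx w)
      rw [map_mul] at h1
      exact h1
  · intro ξ
    change V (Jf ξ) = Jf (V ξ)
    obtain ⟨ja, js, -, -, -, -, jc⟩ := hJ k'
    obtain ⟨ja', js', -, -, -, -, jc'⟩ := hJ k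
    refine IMP_ext hB (S := {ξ | V (Jf ξ) = Jf (V ξ)}) ?_ ?_ ?_ ?_ ?_ ξ
    · exact isClosed_eq (V.continuous.comp jc) (jc'.comp V.continuous)
    · have h0 : Jf (0 : Fk k') = 0 := by
        have := js 0 0
        simpa using this
      have h0' : Jf (0 : Fk k) = 0 := by
        have := js' 0 0
        simpa using this
      rw [mem_ofPred_eq, h0, map_zero, h0']
    · intro a b ha hb
      rw [mem_ofPred_eq] at ha hb ⊢
      rw [ja, map_add, map_add, ja', ha, hb]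
    · intro c a ha
      rw [mem_ofPred_eq] at ha ⊢
      rw [js, map_smul, map_smul, js', ha]
    · intro w
      rw [mem_ofPred_eq, hV, ← hxx w, (hA k').2.1 _ (xx w).2, (hA k).2.1 _ (φ (xx w)).2]
      have h1 := hVx (star (xx w))
      rw [IMP_star] at h1
      exact h1

end Pool.SI
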