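import Pool.Agent.Work.MP_118406_si.Interface

set_option autoImplicit false

open scoped InnerProductSpace ComplexConjugate Topology
open Set Filter

noncomputable section

namespace Pool.SI

theorem JOP_apply {k : ℕ} (x : Fk k) (w : List (Fin k)) : (Jf x : Fk k) w = conj (x w.reverse) := rfl

theorem p_JOP : Stmt_JOP := by
  intro k
  have h6 : ∀ x y : Fk k, ⟪Jf x, Jf y⟫_ℂ = ⟪y, x⟫_ℂ := by
    intro x y
    rw [lp.inner_eq_tsum, lp.inner_eq_tsum]
    rw [← (List.reverse_involutive.toPerm (List.reverse : List (Fin k) → List (Fin k))).tsum_eq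
      (fun w => ⟪y w, x w⟫_ℂ)]
    apply tsum_congr
    intro w
    rw [JOP_apply, JOP_apply]
    simp only [Function.Involutive.coe_toPerm, RCLike.inner_apply, Complex.conj_conj]
    ring
  have h5 : ∀ x : Fk k, ‖Jf x‖ = ‖x‖ := by
    intro x
    have h := h6 x x
    rw [inner_self_eq_norm_sq_to_K, inner_self_eq_norm_sq_to_K] at h
    have h' : ‖Jf x‖ ^ 2 = ‖x‖ ^ 2 := by exact_mod_cast h
    exact (sq_eq_sq₀ (norm_nonneg _) (norm_nonneg _)).1 h'
  have h1 : ∀ x y : Fk k, Jf (x + y) = Jf x + Jf y := by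
    intro x y
    ext w
    rw [lp.coeFn_add, Pi.add_apply, JOP_apply, JOP_apply, JOP_apply, lp.coeFn_add, Pi.add_apply, map_add]
  have h2 : ∀ (c : ℂ) (x : Fk k), Jf (c • x) = conj c • Jf x := by
    intro c x
    ext w
    rw [lp.coeFn_smul, Pi.smul_apply, JOP_apply, JOP_apply, lp.coeFn_smul, Pi.smul_apply, smul_eq_mul,
      smul_eq_mul, map_mul]
  refine ⟨h1, h2, ?_, ?_, h5, h6, ?_⟩
  · intro x
    ext w
    rw [JOP_apply, JOP_apply, List.reverse_reverse, Complex.conj_conj]
  · intro w
    ext v
    rw [JOP_apply, bs_apply, bs_apply]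
    by_cases h : v.reverse = w
    · have h' : v = w.reverse := by rw [← h, List.reverse_reverse]
      rw [if_pos h, if_pos h', map_one]
    · have h' : v ≠ w.reverse := by
        intro hv
        exact h (by rw [hv, List.reverse_reverse])
      rw [if_neg h, if_neg h', map_zero]
  · have hiso : Isometry (Jf : Fk k → Fk k) := by
      apply Isometry.of_dist_eq
      intro x y
      rw [dist_eq_norm, dist_eq_norm, ← h5 (x - y)]
      congr 1
      have hn : Jf (x - y) = Jf x + Jf ((-1 : ℂ) • y) := by
        rw [← h1]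
        congr 1
        rw [neg_one_smul, sub_eq_add_neg]
      rw [hn, h2]
      simp [sub_eq_add_neg]
    exact hiso.continuous

end Pool.SI
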