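import Pool.Agent.Work.MP_118406_si.Interface

set_option autoImplicit false

/-! The combined main theorem: for each pair `(i, j)` one of the two difference quotients is nuclear or
both are Hilbert-Schmidt. -/

open scoped InnerProductSpace ComplexConjugate Topology
open Set Filter

noncomputable section

namespace Pool.SI

/-- The combined theorem. -/
def Stmt_MNC : Prop := ∀ k k' : ℕ, 2 ≤ k → 2 ≤ k' → ∀ φ : Alg k' ≃⋆ₐ[ℂ] Alg k,
  (∀ (i : Fin k) (j : Fin k'), Nuc (dq i (φ (ge j) : Fk k →L[ℂ] Fk k)) ∨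
    Nuc (dq j (φ.symm (ge i) : Fk k' →L[ℂ] Fk k')) ∨
    (HS (dq i (φ (ge j) : Fk k →L[ℂ] Fk k)) ∧
      HS (dq j (φ.symm (ge i) : Fk k' →L[ℂ] Fk k')))) → k = k'

/-- Abel summability. -/
def Abl (c : ℕ → ℂ) (s : ℂ) : Prop :=
  (∀ r : ℝ, 0 ≤ r → r < 1 → Summable (fun m => (r : ℂ) ^ m * c m)) ∧
    Tendsto (fun r : ℝ => ∑' m : ℕ, (r : ℂ) ^ m * c m) (𝓝[<] 1) (𝓝 s)

theorem MNC_unique {c : ℕ → ℂ} {s t : ℂ} (hs : Abl c s) (ht : Abl c t) : s = t :=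
  tendsto_nhds_unique hs.2 ht.2

theorem MNC_near : ∀ᶠ r : ℝ in 𝓝[<] 1, 0 ≤ r ∧ r < 1 := by
  have h1 : ∀ᶠ r : ℝ in 𝓝[<] 1, (0 : ℝ) ≤ r :=
    mem_nhdsWithin_of_mem_nhds (Ici_mem_nhds (by norm_num))
  have h2 : ∀ᶠ r : ℝ in 𝓝[<] 1, r < (1 : ℝ) := self_mem_nhdsWithin
  exact h1.and h2

theorem MNC_sum {ι : Type} [Fintype ι] {c : ι → ℕ → ℂ} {s : ι → ℂ} (h : ∀ i, Abl (c i) (s i)) :
    Abl (fun m => ∑ i, c i m) (∑ i, s i) := by
  constructor
  · intro r h0 h1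
    have : (fun m => (r : ℂ) ^ m * ∑ i, c i m) = fun m => ∑ i, (r : ℂ) ^ m * c i m := by
      funext m
      rw [Finset.mul_sum]
    rw [this]
    exact summable_sum fun i _ => (h i).1 r h0 h1
  · have h2 : Tendsto (fun r : ℝ => ∑ i, ∑' m : ℕ, (r : ℂ) ^ m * c i m) (𝓝[<] 1)
        (𝓝 (∑ i, s i)) := tendsto_finsetSum _ fun i _ => (h i).2
    refine h2.congr' ?_
    filter_upwards [MNC_near] with r hr
    rw [← Summable.tsum_finsetSum (fun i _ => (h i).1 r hr.1 hr.2)]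
    congr 1
    funext m
    rw [Finset.mul_sum]

theorem MNC_hasSum {c : ℕ → ℂ} {s : ℂ} (h : HasSum c s) : Abl c s := by
  have hn : Summable fun m => ‖c m‖ := h.summable.norm
  have hb : ∀ (r : ℝ), 0 ≤ r → r < 1 → ∀ m, ‖(r : ℂ) ^ m * c m‖ ≤ ‖c m‖ := by
    intro r h0 h1 m
    rw [norm_mul, norm_pow, Complex.norm_real, Real.norm_of_nonneg h0]
    exact mul_le_of_le_one_left (norm_nonneg _) (pow_le_one₀ h0 h1.le)
  constructor
  · intro r h0 h1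
    exact Summable.of_norm_bounded hn (hb r h0 h1)
  · rw [← h.tsum_eq]
    refine tendsto_tsum_of_dominated_convergence hn ?_ ?_
    · intro m
      have h3 : Tendsto (fun r : ℝ => (r : ℂ) ^ m * c m) (𝓝 1) (𝓝 (((1 : ℝ) : ℂ) ^ m * c m)) := by
        apply Continuous.tendsto
        fun_prop
      simp only [Complex.ofReal_one, one_pow, one_mul] at h3
      exact h3.mono_left nhdsWithin_le_nhds
    · filter_upwards [MNC_near] with r hr m
      exact hb r hr.1 hr.2 m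

theorem MNC_nuc (hCCN : Stmt_CCN) (hNPR : Stmt_NPR) (hJOP : Stmt_JOP) (k : ℕ)
    (S T : Fk k →L[ℂ] Fk k) (α β : ℕ → Fk k) (h1 : Summable (fun n => ‖α n‖ * ‖β n‖))
    (h2 : ∀ ξ, HasSum (fun n => ⟪β n, ξ⟫_ℂ • α n) (S ξ)) :
    Abl (fun m => ∑ p ∈ Finset.HasAntidiagonal.antidiagonal m, cc S T p.1 p.2)
      (∑' n, ⟪Jf (α n), T (Jf (β n))⟫_ℂ) := by
  refine ⟨?_, hNPR k S T α β h1 h2⟩
  obtain ⟨Q, hQ, hcc⟩ := hCCN k
  have hJn := (hJOP k).2.2.2.2.1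
  have hQn : ∀ a (ξ : Fk k), ‖Q a ξ‖ ≤ ‖ξ‖ := by
    intro a ξ
    have e1 := lp.norm_rpow_eq_tsum (p := 2) (by norm_num) (Q a ξ)
    have e2 := lp.norm_rpow_eq_tsum (p := 2) (by norm_num) ξ
    have s1 := (lp.memℓp (Q a ξ)).summable (by norm_num)
    have s2 := (lp.memℓp ξ).summable (by norm_num)
    have hle : ∑' w, ‖(Q a ξ) w‖ ^ (2 : ENNReal).toReal ≤ ∑' w, ‖ξ w‖ ^ (2 : ENNReal).toReal := by
      refine Summable.tsum_le_tsum (fun w => ?_) s1 s2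
      rw [hQ]
      split
      · exact le_rfl
      · simp
    rw [← e1, ← e2] at hle
    exact (Real.rpow_le_rpow_iff (norm_nonneg _) (norm_nonneg _) (by norm_num)).1 hle
  set C : ℝ := ∑' n, ‖T‖ * (‖α n‖ * ‖β n‖) with hC
  have hs : Summable fun n => ‖T‖ * (‖α n‖ * ‖β n‖) := h1.mul_left _
  have hbound : ∀ a b, ‖cc S T a b‖ ≤ C := by
    intro a b
    have h3 := hcc S T α β h1 h2 a b
    rw [← h3.tsum_eq, hC]
    have hle : ∀ n, ‖⟪Jf (Q a (α n)), T (Jf (Q b (β n)))⟫_ℂ‖ ≤ ‖T‖ * (‖α n‖ * ‖β n‖) := by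
      intro n
      calc ‖⟪Jf (Q a (α n)), T (Jf (Q b (β n)))⟫_ℂ‖
          ≤ ‖Jf (Q a (α n))‖ * ‖T (Jf (Q b (β n)))‖ := norm_inner_le_norm _ _
        _ ≤ ‖α n‖ * (‖T‖ * ‖β n‖) := by
            refine mul_le_mul ?_ ?_ (norm_nonneg _) (norm_nonneg _)
            · rw [hJn]
              exact hQn _ _
            · refine (T.le_opNorm _).trans ?_
              refine mul_le_mul_of_nonneg_left ?_ (norm_nonneg _)
              rw [hJn]
              exact hQn _ _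
        _ = ‖T‖ * (‖α n‖ * ‖β n‖) := by ring
    exact tsum_of_norm_bounded hs.hasSum hle
  intro r h0 h1'
  have hC0 : 0 ≤ C := (norm_nonneg _).trans (hbound 0 0)
  have hg : Summable fun m : ℕ => (((m : ℝ) + 1) * r ^ m) * C := by
    refine Summable.mul_right _ ?_
    have g1 : Summable fun m : ℕ => (m : ℝ) * r ^ m := by
      have := summable_pow_mul_geometric_of_norm_lt_one 1
        (show ‖r‖ < 1 by rw [Real.norm_of_nonneg h0]; exact h1')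
      simpa using this
    have g2 : Summable fun m : ℕ => r ^ m := summable_geometric_of_lt_one h0 h1'
    refine (g1.add g2).congr fun m => ?_
    ring
  refine Summable.of_norm_bounded hg fun m => ?_
  rw [norm_mul, norm_pow, Complex.norm_real, Real.norm_of_nonneg h0]
  have h4 : ‖∑ p ∈ Finset.HasAntidiagonal.antidiagonal m, cc S T p.1 p.2‖ ≤ ((m : ℝ) + 1) * C := by
    refine (norm_sum_le _ _).trans ?_
    refine (Finset.sum_le_sum fun p _ => hbound p.1 p.2).trans ?_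
    rw [Finset.sum_const, Finset.Nat.card_antidiagonal, nsmul_eq_mul]
    push_cast
    exact le_rfl
  calc r ^ m * ‖∑ p ∈ Finset.HasAntidiagonal.antidiagonal m, cc S T p.1 p.2‖
      ≤ r ^ m * (((m : ℝ) + 1) * C) := mul_le_mul_of_nonneg_left h4 (pow_nonneg h0 _)
    _ = (((m : ℝ) + 1) * r ^ m) * C := by ring

theorem MNC_cj_nuc {k k' : ℕ} (U : Fk k' ≃ₗᵢ[ℂ] Fk k) (S : Fk k' →L[ℂ] Fk k') (α β : ℕ → Fk k')
    (h1 : Summable (fun n => ‖α n‖ * ‖β n‖))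
    (h2 : ∀ ξ, HasSum (fun n => ⟪β n, ξ⟫_ℂ • α n) (S ξ)) :
    Summable (fun n => ‖U (α n)‖ * ‖U (β n)‖) ∧
    ∀ ξ, HasSum (fun n => ⟪U (β n), ξ⟫_ℂ • U (α n)) (cj U S ξ) := by
  constructor
  · simpa using h1
  · intro ξ
    have h3 := (h2 (U.symm ξ)).mapL (U : Fk k' →L[ℂ] Fk k)
    have h4 : (U : Fk k' →L[ℂ] Fk k) (S (U.symm ξ)) = cj U S ξ := rfl
    rw [h4] at h3
    refine h3.congr_fun ?_
    intro n
    rw [LinearIsometryEquiv.inner_map_eq_flip]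
    simp

theorem MNC_pair (hJOP : Stmt_JOP) (hCCS : Stmt_CCS) (hCCN : Stmt_CCN) (hNPR : Stmt_NPR)
    (hHPR : Stmt_HPR) (hHSU : Stmt_HSU) {k k' : ℕ} (U : Fk k' ≃ₗᵢ[ℂ] Fk k)
    (hU : ∀ ξ : Fk k', U (Jf ξ) = Jf (U ξ)) (K : Fk k →L[ℂ] Fk k) (L : Fk k' →L[ℂ] Fk k')
    (h : Nuc K ∨ Nuc L ∨ (HS K ∧ HS L)) : ∃ t : ℂ,
    Abl (fun m => ∑ p ∈ Finset.HasAntidiagonal.antidiagonal m, cc (cj U L) K p.1 p.2) t ∧
    Abl (fun m => ∑ p ∈ Finset.HasAntidiagonal.antidiagonal m, cc (cj U.symm K) L p.1 p.2) t := by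
  have hU' : ∀ ξ : Fk k, U.symm (Jf ξ) = Jf (U.symm ξ) := by
    intro ξ
    apply U.injective
    rw [hU]
    simp
  rcases h with h | h | h
  · obtain ⟨α, β, h1, h2⟩ := h
    refine ⟨∑' n, ⟪Jf (α n), cj U L (Jf (β n))⟫_ℂ, ?_, ?_⟩
    · have := MNC_nuc hCCN hNPR hJOP k K (cj U L) α β h1 h2
      simpa only [hCCS k K (cj U L)] using this
    · obtain ⟨g1, g2⟩ := MNC_cj_nuc U.symm K α β h1 h2
      have := MNC_nuc hCCN hNPR hJOP k' (cj U.symm K) L _ _ g1 g2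
      convert this using 1
      refine tsum_congr fun n => ?_
      rw [← hU', ← hU', LinearIsometryEquiv.inner_map_eq_flip]
      rfl
  · obtain ⟨α, β, h1, h2⟩ := h
    refine ⟨∑' n, ⟪Jf (α n), cj U.symm K (Jf (β n))⟫_ℂ, ?_, ?_⟩
    · obtain ⟨g1, g2⟩ := MNC_cj_nuc U L α β h1 h2
      have := MNC_nuc hCCN hNPR hJOP k (cj U L) K _ _ g1 g2
      convert this using 1
      refine tsum_congr fun n => ?_
      rw [← hU, ← hU, LinearIsometryEquiv.inner_map_eq_flip]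
      rfl
    · have := MNC_nuc hCCN hNPR hJOP k' L (cj U.symm K) α β h1 h2
      simpa only [hCCS k' L (cj U.symm K)] using this
  · obtain ⟨hK, hL⟩ := h
    obtain ⟨g1, g2, g3⟩ := hHSU k k' U hU
    refine ⟨hp (cj U L) K, MNC_hasSum (hHPR k _ _ (g1 L hL) hK), ?_⟩
    rw [← g3 K L hK hL]
    exact MNC_hasSum (hHPR k' _ _ (g2 K hK) hL)

theorem p_MNC (hJOP : Stmt_JOP) (hIMP : Stmt_IMP) (hPRS : Stmt_PRS) (hCCS : Stmt_CCS)
    (hCCN : Stmt_CCN) (hNPR : Stmt_NPR) (hCJR : Stmt_CJR) (hHPR : Stmt_HPR) (hHSU : Stmt_HSU) :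
    Stmt_MNC := by
  intro k k' hk hk' φ h
  obtain ⟨U, hU⟩ := hIMP k k' hk hk' φ
  obtain ⟨hc1, hc2⟩ := hCJR k k' φ U hU
  choose t ht1 ht2 using fun (i : Fin k) (j : Fin k') =>
    MNC_pair hJOP hCCS hCCN hNPR hHPR hHSU U hU.2.2 _ _ (h i j)
  have e1 : ∀ j : Fin k', ∑ i : Fin k, t i j = 1 := by
    intro j
    obtain ⟨a1, a2, a3⟩ := hc1 j
    have a4 := hPRS k _ (φ (ge j) : Fk k →L[ℂ] Fk k) (φ (ge j)).2 a1
    rw [a3 j, if_pos rfl] at a4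
    refine MNC_unique (MNC_sum fun i => ht1 i j) ?_
    refine MNC_hasSum ?_
    simpa only [a2] using a4
  have e2 : ∀ i : Fin k, ∑ j : Fin k', t i j = 1 := by
    intro i
    obtain ⟨a1, a2, a3⟩ := hc2 i
    have a4 := hPRS k' _ (φ.symm (ge i) : Fk k' →L[ℂ] Fk k') (φ.symm (ge i)).2 a1
    rw [a3 i, if_pos rfl] at a4
    refine MNC_unique (MNC_sum fun j => ht2 i j) ?_
    refine MNC_hasSum ?_
    simpa only [a2] using a4
  have e3 : (k : ℂ) = (k' : ℂ) := by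
    calc (k : ℂ) = ∑ i : Fin k, ∑ j : Fin k', t i j := by simp [e2]
      _ = ∑ j : Fin k', ∑ i : Fin k, t i j := Finset.sum_comm
      _ = (k' : ℂ) := by simp [e1]
  exact_mod_cast e3

end Pool.SI
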