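import Pool.Agent.Work.MP_118406_si.Interface

set_option autoImplicit false

open scoped InnerProductSpace ComplexConjugate Topology
open Set Filter

noncomputable section

namespace Pool.SI

theorem NPR_sum {k : ℕ} (ξ : Fk k) : HasSum (fun w => ‖ξ w‖ ^ 2) (‖ξ‖ ^ 2) := by
  have h := lp.hasSum_norm (E := fun _ : List (Fin k) => ℂ) (p := 2) (by norm_num) ξ
  simpa using h

theorem NPR_le {k : ℕ} (ξ η : Fk k) (h : ∀ w, ‖ξ w‖ ≤ ‖η w‖) : ‖ξ‖ ≤ ‖η‖ := by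
  have h1 : ‖ξ‖ ^ 2 ≤ ‖η‖ ^ 2 :=
    hasSum_le (fun w => pow_le_pow_left₀ (norm_nonneg _) (h w) 2) (NPR_sum ξ) (NPR_sum η)
  exact (pow_le_pow_iff_left₀ (norm_nonneg _) (norm_nonneg _) two_ne_zero).1 h1

theorem NPR_pow {r : ℝ} (h0 : 0 < r) (h1 : r < 1) (n : ℕ) : ‖(r : ℂ) ^ n‖ ≤ 1 := by
  rw [norm_pow, Complex.norm_real, Real.norm_eq_abs, abs_of_pos h0]
  exact pow_le_one₀ h0.le h1.le

section

variable {k : ℕ} (Q : ℕ → (Fk k →L[ℂ] Fk k))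
  (hQ : ∀ (a : ℕ) (ξ : Fk k) (w : List (Fin k)), (Q a ξ) w = if w.length = a then ξ w else 0)

include hQ

theorem NPR_Qle (a : ℕ) (ξ : Fk k) : ‖Q a ξ‖ ≤ ‖ξ‖ := by
  apply NPR_le
  intro w
  rw [hQ]
  split_ifs
  · exact le_rfl
  · rw [norm_zero]; exact norm_nonneg _

theorem NPR_Nsum {r : ℝ} (h0 : 0 < r) (h1 : r < 1) (ξ : Fk k) :
    Summable (fun a => ((r : ℂ) ^ a) • Q a ξ) := by
  apply Summable.of_norm_bounded (g := fun a => r ^ a * ‖ξ‖)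
    ((summable_geometric_of_lt_one h0.le h1).mul_right _)
  intro a
  rw [norm_smul, norm_pow, Complex.norm_real, Real.norm_eq_abs, abs_of_pos h0]
  exact mul_le_mul_of_nonneg_left (NPR_Qle Q hQ a ξ) (by positivity)

theorem NPR_Napp {r : ℝ} (h0 : 0 < r) (h1 : r < 1) (ξ : Fk k) (w : List (Fin k)) :
    ((∑' a, ((r : ℂ) ^ a) • Q a ξ : Fk k)) w = (r : ℂ) ^ w.length * ξ w := by
  have h2 := (NPR_Nsum Q hQ h0 h1 ξ).hasSum.mapL (innerSL ℂ (bs w : Fk k))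
  have h3 : HasSum (fun a => ⟪(bs w : Fk k), ((r : ℂ) ^ a) • Q a ξ⟫_ℂ)
      (⟪(bs w : Fk k), (∑' a, ((r : ℂ) ^ a) • Q a ξ : Fk k)⟫_ℂ) := h2
  rw [bs_inner] at h3
  have h4 : HasSum (fun a => ⟪(bs w : Fk k), ((r : ℂ) ^ a) • Q a ξ⟫_ℂ) ((r : ℂ) ^ w.length * ξ w) := by
    have h5 := hasSum_single (f := fun a => ⟪(bs w : Fk k), ((r : ℂ) ^ a) • Q a ξ⟫_ℂ) w.length (by
      intro a ha
      show ⟪(bs w : Fk k), ((r : ℂ) ^ a) • Q a ξ⟫_ℂ = 0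
      rw [inner_smul_right, bs_inner, hQ, if_neg (Ne.symm ha), mul_zero])
    have h6 : ⟪(bs w : Fk k), ((r : ℂ) ^ w.length) • Q w.length ξ⟫_ℂ = (r : ℂ) ^ w.length * ξ w := by
      rw [inner_smul_right, bs_inner, hQ, if_pos rfl]
    rw [← h6]
    exact h5
  exact h3.unique h4

theorem NPR_Nle {r : ℝ} (h0 : 0 < r) (h1 : r < 1) (ξ : Fk k) :
    ‖(∑' a, ((r : ℂ) ^ a) • Q a ξ : Fk k)‖ ≤ ‖ξ‖ := by
  apply NPR_le
  intro w
  rw [NPR_Napp Q hQ h0 h1, norm_mul]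
  calc ‖(r : ℂ) ^ w.length‖ * ‖ξ w‖ ≤ 1 * ‖ξ w‖ :=
        mul_le_mul_of_nonneg_right (NPR_pow h0 h1 _) (norm_nonneg _)
    _ = ‖ξ w‖ := one_mul _

theorem NPR_tend (ξ : Fk k) :
    Tendsto (fun r : ℝ => (∑' a, ((r : ℂ) ^ a) • Q a ξ : Fk k)) (𝓝[<] 1) (𝓝 ξ) := by
  rw [tendsto_iff_norm_sub_tendsto_zero]
  have hmem : ∀ᶠ r : ℝ in 𝓝[<] 1, r ∈ Ioo (0 : ℝ) 1 := Ioo_mem_nhdsLT zero_lt_one
  have hG : Tendsto (fun r : ℝ => ∑' w : List (Fin k), ‖((r : ℂ) ^ w.length - 1) * ξ w‖ ^ 2)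
      (𝓝[<] 1) (𝓝 (∑' _ : List (Fin k), (0 : ℝ))) := by
    apply tendsto_tsum_of_dominated_convergence (bound := fun w => ‖ξ w‖ ^ 2) (NPR_sum ξ).summable
    · intro w
      have hc : Continuous (fun r : ℝ => ‖((r : ℂ) ^ w.length - 1) * ξ w‖ ^ 2) := by
        fun_prop
      have := hc.tendsto 1
      simp only [Complex.ofReal_one, one_pow, sub_self, zero_mul, norm_zero] at this
      rw [zero_pow two_ne_zero] at this
      exact this.mono_left nhdsWithin_le_nhds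
    · filter_upwards [hmem] with r hr w
      rw [Real.norm_eq_abs, abs_of_nonneg (by positivity), norm_mul, mul_pow]
      have h1 : ‖(r : ℂ) ^ w.length - 1‖ ≤ 1 := by
        have e : (r : ℂ) ^ w.length - 1 = ((r ^ w.length - 1 : ℝ) : ℂ) := by push_cast; ring
        rw [e, Complex.norm_real, Real.norm_eq_abs, abs_le]
        have h2 : r ^ w.length ≤ 1 := pow_le_one₀ hr.1.le hr.2.le
        have h3 : 0 ≤ r ^ w.length := pow_nonneg hr.1.le _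
        constructor <;> linarith
      calc ‖(r : ℂ) ^ w.length - 1‖ ^ 2 * ‖ξ w‖ ^ 2 ≤ 1 ^ 2 * ‖ξ w‖ ^ 2 :=
            mul_le_mul_of_nonneg_right (pow_le_pow_left₀ (norm_nonneg _) h1 2) (by positivity)
        _ = ‖ξ w‖ ^ 2 := by ring
  rw [tsum_zero] at hG
  have h2 := (Real.continuous_sqrt.tendsto 0).comp hG
  rw [Real.sqrt_zero] at h2
  refine h2.congr' ?_
  filter_upwards [hmem] with r hr
  have h3 := (NPR_sum ((∑' a, ((r : ℂ) ^ a) • Q a ξ : Fk k) - ξ)).tsum_eq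
  have h4 : ∀ w, ((∑' a, ((r : ℂ) ^ a) • Q a ξ : Fk k) - ξ : Fk k) w = ((r : ℂ) ^ w.length - 1) * ξ w := by
    intro w
    rw [lp.coeFn_sub, Pi.sub_apply, NPR_Napp Q hQ hr.1 hr.2]
    ring
  simp only [h4] at h3
  rw [Function.comp_apply, h3, Real.sqrt_sq (norm_nonneg _)]

end

theorem NPR_anti (F : ℕ × ℕ → ℂ) (hF : Summable F) :
    ∑' m : ℕ, ∑ p ∈ Finset.HasAntidiagonal.antidiagonal m, F p = ∑' p, F p := by
  conv_lhs => congr; ext; rw [← Finset.sum_finset_coe, ← tsum_fintype (L := .unconditional _)]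
  rw [← Finset.HasAntidiagonal.sigmaAntidiagonalEquivProd.tsum_eq (F : ℕ × ℕ → ℂ)]
  have hF2 := (Finset.HasAntidiagonal.sigmaAntidiagonalEquivProd (A := ℕ)).summable_iff.2 hF
  exact (hF2.tsum_sigma' (fun n ↦ (hasSum_fintype _).summable)).symm

/-- **NPR.** -/
theorem p_NPR (hJOP : Stmt_JOP) (hCCN : Stmt_CCN) : Stmt_NPR := by
  intro k S T α β hab hS
  obtain ⟨Q, hQ, hcc⟩ := hCCN k
  obtain ⟨J1, J2, J3, J4, J5, J6, J7⟩ := hJOP k
  have hmem : ∀ᶠ r : ℝ in 𝓝[<] 1, r ∈ Ioo (0 : ℝ) 1 := Ioo_mem_nhdsLT zero_lt_one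
  -- the form
  let T' : Fk k →L[ℂ] Fk k := LinearMap.mkContinuous
    { toFun := fun x => Jf (T (Jf x))
      map_add' := by
        intro x y
        rw [J1, map_add, J1]
      map_smul' := by
        intro c x
        rw [J2, map_smul, J2, Complex.conj_conj]
        rfl } ‖T‖ (by
      intro x
      show ‖Jf (T (Jf x))‖ ≤ ‖T‖ * ‖x‖
      rw [J5, ← J5 x]
      exact T.le_opNorm _)
  have hT' : ∀ x, T' x = Jf (T (Jf x)) := fun x => rfl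
  have hB : ∀ x y : Fk k, ⟪Jf x, T (Jf y)⟫_ℂ = ⟪T' y, x⟫_ℂ := by
    intro x y
    rw [hT', ← J3 (T (Jf y)), J6, J3]
  have hbd : ∀ x y : Fk k, ‖⟪Jf x, T (Jf y)⟫_ℂ‖ ≤ ‖T‖ * (‖x‖ * ‖y‖) := by
    intro x y
    calc ‖⟪Jf x, T (Jf y)⟫_ℂ‖ ≤ ‖Jf x‖ * ‖T (Jf y)‖ := norm_inner_le_norm _ _
      _ ≤ ‖x‖ * (‖T‖ * ‖y‖) := by
        rw [J5, ← J5 y]
        exact mul_le_mul_of_nonneg_left (T.le_opNorm _) (norm_nonneg _)
      _ = _ := by ring
  -- the Abel sums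
  have key : ∀ r : ℝ, 0 < r → r < 1 →
      ∑' m : ℕ, (r : ℂ) ^ m * ∑ p ∈ Finset.HasAntidiagonal.antidiagonal m, cc S T p.1 p.2 =
      ∑' n, ⟪Jf (∑' a, ((r : ℂ) ^ a) • Q a (α n) : Fk k), T (Jf (∑' a, ((r : ℂ) ^ a) • Q a (β n) : Fk k))⟫_ℂ := by
    intro r h0 h1
    let g : (ℕ × ℕ) → ℕ → ℂ := fun p n =>
      (r : ℂ) ^ p.1 * (r : ℂ) ^ p.2 * ⟪Jf (Q p.1 (α n)), T (Jf (Q p.2 (β n)))⟫_ℂ
    have hgeo := summable_geometric_of_lt_one h0.le h1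
    have hg : Summable (Function.uncurry g) := by
      apply Summable.of_norm_bounded
        (g := fun q : (ℕ × ℕ) × ℕ => (r ^ q.1.1 * r ^ q.1.2) * (‖T‖ * (‖α q.2‖ * ‖β q.2‖)))
      · refine Summable.mul_of_nonneg (f := fun p : ℕ × ℕ => r ^ p.1 * r ^ p.2)
          (g := fun n => ‖T‖ * (‖α n‖ * ‖β n‖)) ?_ (hab.mul_left _) ?_ ?_
        · exact Summable.mul_of_nonneg hgeo hgeo (fun n => by positivity) (fun n => by positivity)
        · intro p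
          show 0 ≤ r ^ p.1 * r ^ p.2
          positivity
        · intro n
          show 0 ≤ ‖T‖ * (‖α n‖ * ‖β n‖)
          positivity
      · rintro ⟨p, n⟩
        show ‖(r : ℂ) ^ p.1 * (r : ℂ) ^ p.2 * ⟪Jf (Q p.1 (α n)), T (Jf (Q p.2 (β n)))⟫_ℂ‖ ≤ _
        rw [norm_mul, norm_mul, norm_pow, norm_pow, Complex.norm_real, Real.norm_eq_abs, abs_of_pos h0]
        refine mul_le_mul_of_nonneg_left ?_ (by positivity)
        refine (hbd _ _).trans ?_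
        refine mul_le_mul_of_nonneg_left ?_ (norm_nonneg _)
        exact mul_le_mul (NPR_Qle Q hQ _ _) (NPR_Qle Q hQ _ _) (norm_nonneg _) (norm_nonneg _)
    have e1 : ∀ p : ℕ × ℕ, HasSum (g p) ((r : ℂ) ^ p.1 * (r : ℂ) ^ p.2 * cc S T p.1 p.2) := by
      intro p
      exact (hcc S T α β hab hS p.1 p.2).mul_left _
    have hF : Summable (fun p : ℕ × ℕ => (r : ℂ) ^ p.1 * (r : ℂ) ^ p.2 * cc S T p.1 p.2) := by
      have := hg.prod
      refine this.congr ?_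
      intro p
      exact (e1 p).tsum_eq
    have e2 : ∑' m : ℕ, (r : ℂ) ^ m * ∑ p ∈ Finset.HasAntidiagonal.antidiagonal m, cc S T p.1 p.2 =
        ∑' p : ℕ × ℕ, (r : ℂ) ^ p.1 * (r : ℂ) ^ p.2 * cc S T p.1 p.2 := by
      rw [← NPR_anti _ hF]
      apply tsum_congr
      intro m
      rw [Finset.mul_sum]
      apply Finset.sum_congr rfl
      intro p hp
      rw [← pow_add, Finset.HasAntidiagonal.mem_antidiagonal.1 hp]
    have e3 : ∑' p : ℕ × ℕ, (r : ℂ) ^ p.1 * (r : ℂ) ^ p.2 * cc S T p.1 p.2 = ∑' p, ∑' n, g p n := by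
      apply tsum_congr
      intro p
      exact (e1 p).tsum_eq.symm
    rw [e2, e3, ← hg.tsum_comm]
    apply tsum_congr
    intro n
    have hgn : Summable (fun p => g p n) := hg.prod_symm.prod_factor n
    rw [hgn.tsum_prod]
    have hα := (NPR_Nsum Q hQ h0 h1 (α n)).hasSum
    have hβ := (NPR_Nsum Q hQ h0 h1 (β n)).hasSum
    set x : Fk k := ∑' a, ((r : ℂ) ^ a) • Q a (α n) with hx
    set y : Fk k := ∑' a, ((r : ℂ) ^ a) • Q a (β n) with hy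
    have f1 : ∀ z : Fk k, HasSum (fun b => (r : ℂ) ^ b * ⟪T' (Q b (β n)), z⟫_ℂ) ⟪T' y, z⟫_ℂ := by
      intro z
      have h2 : HasSum (fun b => ⟪z, T' (((r : ℂ) ^ b) • Q b (β n))⟫_ℂ) ⟪z, T' y⟫_ℂ :=
        (hβ.mapL T').mapL (innerSL ℂ z)
      have h3 := Complex.hasSum_conj'.2 h2
      rw [inner_conj_symm] at h3
      refine h3.congr_fun ?_
      intro b
      rw [inner_conj_symm, map_smul, inner_smul_left, map_pow, Complex.conj_ofReal]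
    have f2 : ∀ a, ∑' b, g (a, b) n = (r : ℂ) ^ a * ⟪T' y, Q a (α n)⟫_ℂ := by
      intro a
      have := ((f1 (Q a (α n))).mul_left ((r : ℂ) ^ a)).tsum_eq
      rw [← this]
      apply tsum_congr
      intro b
      show (r : ℂ) ^ a * (r : ℂ) ^ b * ⟪Jf (Q a (α n)), T (Jf (Q b (β n)))⟫_ℂ = _
      rw [hB]
      ring
    have f3 : HasSum (fun a => (r : ℂ) ^ a * ⟪T' y, Q a (α n)⟫_ℂ) ⟪T' y, x⟫_ℂ := by
      have h2 : HasSum (fun a => ⟪T' y, ((r : ℂ) ^ a) • Q a (α n)⟫_ℂ) ⟪T' y, x⟫_ℂ :=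
        hα.mapL (innerSL ℂ (T' y))
      refine h2.congr_fun ?_
      intro a
      rw [inner_smul_right]
    rw [hB, ← f3.tsum_eq]
    exact tsum_congr f2
  -- the limit
  have hlim : Tendsto (fun r : ℝ => ∑' n, ⟪Jf (∑' a, ((r : ℂ) ^ a) • Q a (α n) : Fk k),
      T (Jf (∑' a, ((r : ℂ) ^ a) • Q a (β n) : Fk k))⟫_ℂ)
      (𝓝[<] 1) (𝓝 (∑' n, ⟪Jf (α n), T (Jf (β n))⟫_ℂ)) := by
    apply tendsto_tsum_of_dominated_convergence (bound := fun n => ‖T‖ * (‖α n‖ * ‖β n‖))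
      (hab.mul_left _)
    · intro n
      have h1 := NPR_tend Q hQ (α n)
      have h2 := NPR_tend Q hQ (β n)
      exact ((J7.tendsto _).comp h1).inner ((T.continuous.tendsto _).comp ((J7.tendsto _).comp h2))
    · filter_upwards [hmem] with r hr n
      refine (hbd _ _).trans ?_
      refine mul_le_mul_of_nonneg_left ?_ (norm_nonneg _)
      exact mul_le_mul (NPR_Nle Q hQ hr.1 hr.2 _) (NPR_Nle Q hQ hr.1 hr.2 _) (norm_nonneg _) (norm_nonneg _)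
  refine hlim.congr' ?_
  filter_upwards [hmem] with r hr
  exact (key r hr.1 hr.2).symm

end Pool.SI
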