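import Pool.Agent.Work.MP_118406_si.Interface

set_option autoImplicit false

/-!
# Block POL: polynomials have nuclear difference quotients
-/

open scoped InnerProductSpace ComplexConjugate Topology
open Set Filter

noncomputable section

namespace Pool.SI

section POL

variable {H : Type} [NormedAddCommGroup H] [InnerProductSpace ℂ H]

theorem POL_zero : Nuc (0 : H →L[ℂ] H) := by
  refine ⟨fun _ => 0, fun _ => 0, ?_, ?_⟩
  · simp
  · intro x
    simp

theorem POL_add {S T : H →L[ℂ] H} (hS : Nuc S) (hT : Nuc T) : Nuc (S + T) := by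
  obtain ⟨a, b, h1, h2⟩ := hS
  obtain ⟨c, d, h3, h4⟩ := hT
  have e : ℕ ≃ ℕ ⊕ ℕ := Equiv.natSumNatEquivNat.symm
  refine ⟨fun n => Sum.elim a c (e n), fun n => Sum.elim b d (e n), ?_, ?_⟩
  · have h : Summable (fun s : ℕ ⊕ ℕ => ‖Sum.elim a c s‖ * ‖Sum.elim b d s‖) := by
      have h5 : HasSum ((fun s : ℕ ⊕ ℕ => ‖Sum.elim a c s‖ * ‖Sum.elim b d s‖) ∘ Sum.inl)
          (∑' n, ‖a n‖ * ‖b n‖) := h1.hasSum
      have h6 : HasSum ((fun s : ℕ ⊕ ℕ => ‖Sum.elim a c s‖ * ‖Sum.elim b d s‖) ∘ Sum.inr)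
          (∑' n, ‖c n‖ * ‖d n‖) := h3.hasSum
      exact (h5.sum h6).summable
    exact e.summable_iff.2 h
  · intro x
    have h : HasSum (fun s : ℕ ⊕ ℕ => ⟪Sum.elim b d s, x⟫_ℂ • Sum.elim a c s) (S x + T x) := by
      have h5 : HasSum ((fun s : ℕ ⊕ ℕ => ⟪Sum.elim b d s, x⟫_ℂ • Sum.elim a c s) ∘ Sum.inl)
          (S x) := h2 x
      have h6 : HasSum ((fun s : ℕ ⊕ ℕ => ⟪Sum.elim b d s, x⟫_ℂ • Sum.elim a c s) ∘ Sum.inr)
          (T x) := h4 x
      exact h5.sum h6
    exact e.hasSum_iff.2 h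

theorem POL_smul {S : H →L[ℂ] H} (z : ℂ) (hS : Nuc S) : Nuc (z • S) := by
  obtain ⟨a, b, h1, h2⟩ := hS
  refine ⟨fun n => z • a n, b, ?_, ?_⟩
  · have h : (fun n => ‖z • a n‖ * ‖b n‖) = fun n => ‖z‖ * (‖a n‖ * ‖b n‖) := by
      funext n
      rw [norm_smul, mul_assoc]
    rw [h]
    exact h1.mul_left _
  · intro x
    have h := (h2 x).const_smul z
    have h' : (fun n => ⟪b n, x⟫_ℂ • z • a n) = fun n => z • ⟪b n, x⟫_ℂ • a n := by
      funext n
      rw [smul_comm]
    rw [h']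
    exact h

theorem POL_left {S : H →L[ℂ] H} (T : H →L[ℂ] H) (hS : Nuc S) : Nuc (T * S) := by
  obtain ⟨a, b, h1, h2⟩ := hS
  refine ⟨fun n => T (a n), b, ?_, ?_⟩
  · refine Summable.of_nonneg_of_le (fun n => by positivity) (fun n => ?_) (h1.mul_left ‖T‖)
    calc ‖T (a n)‖ * ‖b n‖ ≤ (‖T‖ * ‖a n‖) * ‖b n‖ :=
          mul_le_mul_of_nonneg_right (T.le_opNorm _) (norm_nonneg _)
      _ = ‖T‖ * (‖a n‖ * ‖b n‖) := by ring
  · intro x
    have h := T.hasSum (h2 x)
    have h' : (fun n => ⟪b n, x⟫_ℂ • T (a n)) = fun n => T (⟪b n, x⟫_ℂ • a n) := by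
      funext n
      rw [map_smul]
    rw [h']
    exact h

theorem POL_right [CompleteSpace H] {S : H →L[ℂ] H} (T : H →L[ℂ] H) (hS : Nuc S) :
    Nuc (S * T) := by
  obtain ⟨a, b, h1, h2⟩ := hS
  refine ⟨a, fun n => ContinuousLinearMap.adjoint T (b n), ?_, ?_⟩
  · refine Summable.of_nonneg_of_le (fun n => by positivity) (fun n => ?_)
      (h1.mul_left ‖ContinuousLinearMap.adjoint T‖)
    calc ‖a n‖ * ‖ContinuousLinearMap.adjoint T (b n)‖
        ≤ ‖a n‖ * (‖ContinuousLinearMap.adjoint T‖ * ‖b n‖) :=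
          mul_le_mul_of_nonneg_left ((ContinuousLinearMap.adjoint T).le_opNorm _) (norm_nonneg _)
      _ = ‖ContinuousLinearMap.adjoint T‖ * (‖a n‖ * ‖b n‖) := by ring
  · intro x
    have h := h2 (T x)
    have h' : (fun n => ⟪ContinuousLinearMap.adjoint T (b n), x⟫_ℂ • a n) =
        fun n => ⟪b n, T x⟫_ℂ • a n := by
      funext n
      rw [ContinuousLinearMap.adjoint_inner_left]
    rw [h']
    exact h

end POL

theorem POL_Pv (k : ℕ) : Nuc (Pv k) := by
  refine ⟨fun n => if n = 0 then vac k else 0, fun _ => vac k, ?_, ?_⟩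
  · refine summable_of_ne_finset_zero (s := {0}) (fun n hn => ?_)
    have : n ≠ 0 := by simpa using hn
    simp [this]
  · intro x
    have h : HasSum (fun n : ℕ => ⟪vac k, x⟫_ℂ • (if n = 0 then vac k else 0))
        (⟪vac k, x⟫_ℂ • (if (0 : ℕ) = 0 then vac k else 0)) := by
      refine hasSum_single 0 (fun n hn => ?_)
      rw [if_neg hn, smul_zero]
    simpa [Pv] using h

theorem POL_mon (hC : Stmt_COM) {k : ℕ} (i : Fin k) (w : List (Fin k)) :
    Nuc (dq i (mon w)) := by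
  induction w with
  | nil =>
    have h : dq i (mon ([] : List (Fin k))) = 0 := by
      simp [dq, mon]
    rw [h]
    exact POL_zero
  | cons j w ih =>
    have h1 : (mon (j :: w) : Fk k →L[ℂ] Fk k) = sc j * mon w := by
      simp [mon]
    have h2 : dq i (mon (j :: w)) = dq i (sc j) * mon w + sc j * dq i (mon w) := by
      rw [h1]
      simp only [dq, sub_mul, mul_sub, mul_assoc]
      abel
    rw [h2]
    refine POL_add ?_ (POL_left _ ih)
    rw [(hC k).1 i j]
    refine POL_right _ ?_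
    split_ifs
    · exact POL_Pv k
    · exact POL_zero

theorem POL_span (hC : Stmt_COM) {k : ℕ} (i : Fin k) (x : Fk k →L[ℂ] Fk k)
    (hx : x ∈ Submodule.span ℂ (range (mon : List (Fin k) → (Fk k →L[ℂ] Fk k)))) :
    Nuc (dq i x) := by
  induction hx using Submodule.span_induction with
  | mem y hy =>
    obtain ⟨w, rfl⟩ := hy
    exact POL_mon hC i w
  | zero =>
    have h : dq i (0 : Fk k →L[ℂ] Fk k) = 0 := by simp [dq]
    rw [h]
    exact POL_zero
  | add y z _ _ ihy ihz =>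
    have h : dq i (y + z) = dq i y + dq i z := by
      simp only [dq, mul_add, add_mul]
      abel
    rw [h]
    exact POL_add ihy ihz
  | smul c y _ ihy =>
    have h : dq i (c • y) = c • dq i y := by
      simp only [dq, mul_smul_comm, smul_mul_assoc, smul_sub]
    rw [h]
    exact POL_smul c ihy

theorem p_POL (_hB : Stmt_BAS) (hC : Stmt_COM) (hS : Stmt_SPN) : Stmt_POL := by
  intro k x hx i
  have hx' : x ∈ (Submodule.span ℂ (range (mon : List (Fin k) → (Fk k →L[ℂ] Fk k))) :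
      Set (Fk k →L[ℂ] Fk k)) := by
    rw [← (hS k).1]
    exact hx
  exact POL_span hC i x hx'

end Pool.SI
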