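import Pool.Agent.Work.MP_118406_si.Interface

set_option autoImplicit false

/-! Block POW: Powers averaging. -/

open scoped InnerProductSpace ComplexConjugate Topology
open Set Filter

noncomputable section

namespace Pool.SI

theorem POW_norm {H : Type} [NormedAddCommGroup H] [InnerProductSpace ℂ H] [CompleteSpace H]
    (v : H →L[ℂ] H) (h : star v * v = 1) (x : H) : ‖v x‖ = ‖x‖ := by
  have h1 : ⟪v x, v x⟫_ℂ = ⟪x, x⟫_ℂ := by
    have h2 : ⟪v x, v x⟫_ℂ = ⟪x, (star v * v) x⟫_ℂ := by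
      rw [ContinuousLinearMap.star_eq_adjoint]
      exact (ContinuousLinearMap.adjoint_inner_right v x (v x)).symm
    rw [h2, h]
    rfl
  rw [inner_self_eq_norm_sq_to_K, inner_self_eq_norm_sq_to_K] at h1
  have h3 : ‖v x‖ ^ 2 = ‖x‖ ^ 2 := by exact_mod_cast h1
  exact (pow_left_inj₀ (norm_nonneg _) (norm_nonneg _) two_ne_zero).1 h3

theorem POW_sum {H : Type} [NormedAddCommGroup H] [InnerProductSpace ℂ H] {N : ℕ}
    (w : Fin N → H) (hw : ∀ p q, p ≠ q → ⟪w p, w q⟫_ℂ = 0) : ‖∑ p, w p‖ ^ 2 = ∑ p, ‖w p‖ ^ 2 := by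
  have h1 : ⟪∑ p, w p, ∑ p, w p⟫_ℂ = ∑ p, ⟪w p, w p⟫_ℂ := by
    rw [sum_inner]
    refine Finset.sum_congr rfl fun p _ => ?_
    rw [inner_sum, Finset.sum_eq_single p]
    · intro q _ hq
      exact hw p q (Ne.symm hq)
    · intro h
      exact absurd (Finset.mem_univ p) h
  have h2 := congrArg (RCLike.re : ℂ →+ ℝ) h1
  rw [map_sum] at h2
  simp only [inner_self_eq_norm_sq] at h2
  exact h2

theorem POW_L {H : Type} [NormedAddCommGroup H] [InnerProductSpace ℂ H] [CompleteSpace H]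
    (K : Submodule ℂ H) (Y : H →L[ℂ] H) (N : ℕ) (v : Fin N → (H →L[ℂ] H)) (hY : ∀ x, Y x ∈ K)
    (hv : ∀ p, star (v p) * v p = 1 ∧ v p * star (v p) = 1)
    (ho : ∀ p q, p ≠ q → ∀ x ∈ K, ∀ y ∈ K, ⟪v p x, v q y⟫_ℂ = 0) :
    ‖∑ p, v p * Y * star (v p)‖ ≤ Real.sqrt N * ‖Y‖ := by
  refine ContinuousLinearMap.opNorm_le_bound _ (by positivity) fun ξ => ?_
  have h1 : (∑ p, v p * Y * star (v p)) ξ = ∑ p, v p (Y (star (v p) ξ)) := by
    rw [sum_apply]
    rfl
  rw [h1]
  have h2 := POW_sum (fun p => v p (Y (star (v p) ξ))) fun p q hpq => ho p q hpq _ (hY _) _ (hY _)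
  have h3 : ∀ p, ‖v p (Y (star (v p) ξ))‖ ≤ ‖Y‖ * ‖ξ‖ := by
    intro p
    rw [POW_norm (v p) (hv p).1]
    refine (Y.le_opNorm _).trans ?_
    rw [POW_norm (star (v p)) (by rw [star_star]; exact (hv p).2)]
  have h4 : ‖∑ p, v p (Y (star (v p) ξ))‖ ^ 2 ≤ (Real.sqrt N * ‖Y‖ * ‖ξ‖) ^ 2 := by
    rw [h2]
    have h5 : ∑ p, ‖v p (Y (star (v p) ξ))‖ ^ 2 ≤ ∑ _p : Fin N, (‖Y‖ * ‖ξ‖) ^ 2 :=
      Finset.sum_le_sum fun p _ => pow_le_pow_left₀ (norm_nonneg _) (h3 p) 2
    rw [Finset.sum_const, Finset.card_univ, Fintype.card_fin, nsmul_eq_mul] at h5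
    rw [mul_assoc, mul_pow (Real.sqrt N), Real.sq_sqrt (Nat.cast_nonneg N)]
    exact h5
  exact (pow_le_pow_iff_left₀ (norm_nonneg _) (by positivity) two_ne_zero).1 h4

theorem p_POW : Stmt_POW := by
  intro H _ _ _ K X N v hK hX hv ho
  have : CompleteSpace K := hK.completeSpace_coe
  set P : H →L[ℂ] H := K.starProjection with hP
  have hPs : star P = P := isSelfAdjoint_starProjection K
  have hPn : ‖P‖ ≤ 1 := K.starProjection_norm_le
  have hPK : ∀ x, P x ∈ K := fun x => K.starProjection_apply_mem x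
  have hQ : (1 : H →L[ℂ] H) - P = Kᗮ.starProjection := (K.starProjection_orthogonal').symm
  have hQs : star (1 - P) = 1 - P := by rw [star_sub, star_one, hPs]
  have hQn : ‖(1 : H →L[ℂ] H) - P‖ ≤ 1 := by
    rw [hQ]
    exact Kᗮ.starProjection_norm_le
  have hQK : ∀ x, ((1 : H →L[ℂ] H) - P) x ∈ Kᗮ := fun x => by
    rw [hQ]
    exact Kᗮ.starProjection_apply_mem x
  -- the decomposition
  have h0 : (1 - P) * X * (1 - P) = 0 := by
    ext x
    show (1 - P) (X ((1 - P) x)) = 0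
    have h1 : X ((1 - P) x) ∈ K := hX _ (hQK x)
    have h2 : P (X ((1 - P) x)) = X ((1 - P) x) := K.starProjection_eq_self_iff.2 h1
    rw [sub_apply, h2]
    exact sub_self _
  have hdec : X = P * X + (1 - P) * X * P := by
    have h1 : P * X + (1 - P) * X * P + (1 - P) * X * (1 - P) = X := by noncomm_ring
    rw [h0, add_zero] at h1
    exact h1.symm
  have hb1 := POW_L K (P * X) N v (fun x => hPK _) hv ho
  have hb2 := POW_L K (P * star X * (1 - P)) N v (fun x => hPK _) hv ho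
  have hn1 : ‖P * X‖ ≤ ‖X‖ := by
    refine (norm_mul_le _ _).trans ?_
    have := mul_le_mul_of_nonneg_right hPn (norm_nonneg X)
    linarith
  have hn2 : ‖P * star X * (1 - P)‖ ≤ ‖X‖ := by
    refine (norm_mul_le _ _).trans ?_
    have h1 : ‖P * star X‖ ≤ ‖X‖ := by
      refine (norm_mul_le _ _).trans ?_
      rw [norm_star]
      have := mul_le_mul_of_nonneg_right hPn (norm_nonneg X)
      linarith
    calc ‖P * star X‖ * ‖(1 : H →L[ℂ] H) - P‖ ≤ ‖X‖ * 1 :=
          mul_le_mul h1 hQn (norm_nonneg _) (norm_nonneg _)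
      _ = ‖X‖ := mul_one _
  have hst : ∑ p, v p * ((1 - P) * X * P) * star (v p) =
      star (∑ p, v p * (P * star X * (1 - P)) * star (v p)) := by
    rw [star_sum]
    refine Finset.sum_congr rfl fun p _ => ?_
    rw [star_mul, star_mul, star_star, star_mul, star_mul, star_star, hQs, hPs]
    simp only [mul_assoc]
  have hsum : ∑ p, v p * X * star (v p) = ∑ p, v p * (P * X) * star (v p) +
      ∑ p, v p * ((1 - P) * X * P) * star (v p) := by
    rw [← Finset.sum_add_distrib]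
    refine Finset.sum_congr rfl fun p _ => ?_
    rw [← add_mul, ← mul_add, ← hdec]
  rw [hsum]
  refine (norm_add_le _ _).trans ?_
  rw [hst, norm_star]
  have hs : 0 ≤ Real.sqrt N := Real.sqrt_nonneg _
  have e1 := mul_le_mul_of_nonneg_left hn1 hs
  have e2 := mul_le_mul_of_nonneg_left hn2 hs
  linarith

end Pool.SI
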