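import Pool.Agent.Work.MP_118406_si.Interface

set_option autoImplicit false

/-! Block PRS (helper88): the pairing series. -/

open scoped InnerProductSpace ComplexConjugate Topology
open Set Filter

noncomputable section

namespace Pool.SI

/-- sums over the words of length `n` -/
def PRS_S {k : ℕ} (n : ℕ) (G : List (Fin k) → ℂ) : ℂ := ∑ u : Fin n → Fin k, G (List.ofFn u)

theorem PRS_S0 {k : ℕ} (G : List (Fin k) → ℂ) : PRS_S 0 G = G [] := by
  unfold PRS_S
  rw [Fintype.sum_unique]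
  simp

theorem PRS_Ss {k : ℕ} (n : ℕ) (G : List (Fin k) → ℂ) :
    PRS_S (n + 1) G = ∑ i : Fin k, PRS_S n (fun l => G (i :: l)) := by
  unfold PRS_S
  rw [← (Fin.consEquiv (fun _ : Fin (n + 1) => Fin k)).sum_comp, Fintype.sum_prod_type]
  refine Finset.sum_congr rfl fun i _ => Finset.sum_congr rfl fun u _ => ?_
  simp [Fin.consEquiv, List.ofFn_succ]

theorem PRS_Ssplit {k : ℕ} (a b : ℕ) (G : List (Fin k) → ℂ) :
    PRS_S (a + (b + 1)) G = PRS_S a (fun u => ∑ i : Fin k, PRS_S b (fun v => G (u ++ i :: v))) := by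
  induction a generalizing G with
  | zero =>
    rw [Nat.zero_add, PRS_S0, PRS_Ss]
    simp
  | succ a ih =>
    have e : a + 1 + (b + 1) = a + (b + 1) + 1 := by omega
    rw [e, PRS_Ss, PRS_Ss]
    refine Finset.sum_congr rfl fun j _ => ?_
    rw [ih]
    simp

theorem PRS_G {k : ℕ} (F : List (Fin k) → Fin k → List (Fin k) → ℂ) (a : ℕ)
    (u : Fin a → Fin k) (i : Fin k) (v : List (Fin k)) :
    ((List.ofFn u ++ i :: v)[a]?).elim 0 (fun j => F ((List.ofFn u ++ i :: v).take a) j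
      ((List.ofFn u ++ i :: v).drop (a + 1))) = F (List.ofFn u) i v := by
  have h1 : (List.ofFn u ++ i :: v)[a]? = some i := by
    rw [List.getElem?_append_right (by simp)]
    simp
  have h2 : (List.ofFn u ++ i :: v).take a = List.ofFn u := by
    rw [List.take_append_of_le_length (by simp)]
    simp
  have h3 : (List.ofFn u ++ i :: v).drop (a + 1) = v := by
    rw [List.drop_append]
    simp
  rw [h1, h2, h3]
  rfl

theorem PRS_comb {k : ℕ} (F : List (Fin k) → Fin k → List (Fin k) → ℂ) (m : ℕ) :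
    ∑ w : Fin (m + 1) → Fin k, ∑ p ∈ Finset.range (m + 1), ((List.ofFn w)[p]?).elim 0
      (fun j => F ((List.ofFn w).take p) j ((List.ofFn w).drop (p + 1))) =
    ∑ i : Fin k, ∑ p ∈ Finset.HasAntidiagonal.antidiagonal m,
      ∑ u : Fin p.1 → Fin k, ∑ v : Fin p.2 → Fin k, F (List.ofFn u) i (List.ofFn v) := by
  rw [Finset.sum_comm, Finset.sum_comm (s := (Finset.univ : Finset (Fin k))),
    Finset.Nat.sum_antidiagonal_eq_sum_range_succ_mk]
  refine Finset.sum_congr rfl fun p hp => ?_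
  have hp' : p ≤ m := Nat.lt_succ_iff.mp (Finset.mem_range.mp hp)
  have e : m + 1 = p + ((m - p) + 1) := by omega
  have h := PRS_Ssplit p (m - p) (fun w : List (Fin k) => (w[p]?).elim 0
      (fun j => F (w.take p) j (w.drop (p + 1))))
  rw [← e] at h
  unfold PRS_S at h
  rw [h, Finset.sum_comm]
  refine Finset.sum_congr rfl fun i _ => Finset.sum_congr rfl fun u _ =>
    Finset.sum_congr rfl fun v _ => ?_
  exact PRS_G F p u i _

theorem PRS_word {k : ℕ} (ζ : List (Fin k) → ℂ) (T : List (Fin k) → Fin k → List (Fin k) → ℂ)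
    (w : List (Fin k)) : ζ w * ∑ p : Fin w.length, T (w.take p) (w.get p)
      (w.drop ((p : ℕ) + 1)) = ∑ p ∈ Finset.range w.length, (w[p]?).elim 0
      (fun j => (fun a i b => ζ (a ++ i :: b) * T a i b) (w.take p) j (w.drop (p + 1))) := by
  rw [Finset.sum_range, Finset.mul_sum]
  refine Finset.sum_congr rfl fun p _ => ?_
  have h1 : w[(p : ℕ)]? = some (w.get p) := by
    rw [List.getElem?_eq_getElem p.2]
    rfl
  rw [h1]
  have h2 : w.take p ++ w.get p :: w.drop ((p : ℕ) + 1) = w := by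
    rw [List.get_eq_getElem, List.cons_getElem_drop_succ, List.take_append_drop]
  show _ = ζ (w.take p ++ w.get p :: w.drop ((p : ℕ) + 1)) * _
  rw [h2]

theorem PRS_congr {f g : ℕ → ℂ} {a : ℂ} (h : ∀ m, f m = g m) (hg : HasSum g a) : HasSum f a := by
  have : f = g := funext h
  rw [this]
  exact hg

theorem p_PRS (hE : Stmt_ENT) (hT : Stmt_TEL) : Stmt_PRS := by
  intro k R x hx hR
  set ζ : Fk k := x (vac k) with hζ
  -- the functional
  let L : Fk k →L[ℂ] ℂ := (innerSL ℂ (vac k)).comp R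
  have hL : ∀ ξ, L ξ = ⟪vac k, R ξ⟫_ℂ := fun ξ => rfl
  have s1 : HasSum (fun w : List (Fin k) => ζ w • (bs w : Fk k)) ζ := by
    have := lp.hasSum_single (by norm_num : (2 : ENNReal) ≠ ⊤) ζ
    convert this using 1
    funext w
    rw [bs, ← lp.single_smul, smul_eq_mul, mul_one]
  have s2 : HasSum (fun w : List (Fin k) => ζ w * ⟪vac k, R (bs w)⟫_ℂ) ⟪vac k, R ζ⟫_ℂ := by
    have := L.hasSum s1
    simpa [hL, inner_smul_right] using this
  have s3 := (List.equivSigmaTuple (α := Fin k)).symm.hasSum_iff.mpr s2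
  have s4 := s3.sigma (g := fun n => ∑ u : Fin n → Fin k, ζ (List.ofFn u) *
    ⟪vac k, R (bs (List.ofFn u))⟫_ℂ) (fun n => hasSum_fintype _)
  have s5 := (hasSum_nat_add_iff' 1).mpr s4
  have z : ∑ i ∈ Finset.range 1, ∑ u : Fin i → Fin k, ζ (List.ofFn u) *
    ⟪vac k, R (bs (List.ofFn u))⟫_ℂ = 0 := by
    rw [Finset.sum_range_one, Fintype.sum_unique]
    have : (List.ofFn (default : Fin 0 → Fin k)) = [] := by simp
    rw [this]
    have h2 : R (bs []) = 0 := hR
    rw [h2, inner_zero_right, mul_zero]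
  rw [z, sub_zero] at s5
  refine PRS_congr (fun m => Eq.symm ?_) s5
  show ∑ w : Fin (m + 1) → Fin k, ζ (List.ofFn w) * ⟪vac k, R (bs (List.ofFn w))⟫_ℂ = _
  have h1 : ∀ w : Fin (m + 1) → Fin k, ζ (List.ofFn w) * ⟪vac k, R (bs (List.ofFn w))⟫_ℂ =
      ∑ p ∈ Finset.range (m + 1), ((List.ofFn w)[p]?).elim 0
      (fun j => (fun a i b => ζ (a ++ i :: b) *
        ⟪bs a.reverse, (R * sc i - sc i * R) (bs b)⟫_ℂ) ((List.ofFn w).take p) j
        ((List.ofFn w).drop (p + 1))) := by
    intro w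
    rw [hT k R hR]
    have := PRS_word ζ (fun a i b => ⟪bs a.reverse, (R * sc i - sc i * R) (bs b)⟫_ℂ) (List.ofFn w)
    refine this.trans ?_
    rw [List.length_ofFn]
  rw [Finset.sum_congr rfl fun w _ => h1 w]
  refine (PRS_comb (fun a i b => ζ (a ++ i :: b) *
        ⟪bs a.reverse, (R * sc i - sc i * R) (bs b)⟫_ℂ) m).trans ?_
  refine Finset.sum_congr rfl fun i _ => Finset.sum_congr rfl fun p _ =>
    Finset.sum_congr rfl fun u _ => Finset.sum_congr rfl fun v _ => ?_
  rw [hE k x hx i]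
  simp only [wd, List.reverse_reverse]
  rfl

end Pool.SI
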