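import Pool.Agent.Work.MP_118406_si.Interface

set_option autoImplicit false

/-! Block SCM: the distribution of a semicircular operator. -/

open scoped InnerProductSpace ComplexConjugate Topology
open Set Filter

noncomputable section

namespace Pool.SI

/-- the Chebyshev polynomials `U_n(X / 2)` -/
def SCM_W : ℕ → Polynomial ℝ
  | 0 => 1
  | 1 => Polynomial.X
  | n + 2 => Polynomial.X * SCM_W (n + 1) - SCM_W n

theorem SCM_W2 (n : ℕ) : SCM_W (n + 2) = Polynomial.X * SCM_W (n + 1) - SCM_W n := rfl

theorem SCM_sin (θ : ℝ) (n : ℕ) :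
    (SCM_W n).eval (2 * Real.cos θ) * Real.sin θ = Real.sin (((n : ℝ) + 1) * θ) := by
  have key : ∀ n : ℕ, (SCM_W n).eval (2 * Real.cos θ) * Real.sin θ = Real.sin (((n : ℝ) + 1) * θ) ∧
      (SCM_W (n + 1)).eval (2 * Real.cos θ) * Real.sin θ = Real.sin (((n : ℝ) + 2) * θ) := by
    intro n
    induction n with
    | zero =>
      constructor
      · show (1 : Polynomial ℝ).eval (2 * Real.cos θ) * Real.sin θ = _
        rw [Polynomial.eval_one, one_mul]
        congr 1
        push_cast
        ring
      · show (Polynomial.X : Polynomial ℝ).eval (2 * Real.cos θ) * Real.sin θ = _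
        rw [Polynomial.eval_X]
        have e : (((0 : ℕ) : ℝ) + 2) * θ = 2 * θ := by push_cast; ring
        rw [e, Real.sin_two_mul]
        ring
    | succ n ih =>
      obtain ⟨i1, i2⟩ := ih
      refine ⟨?_, ?_⟩
      · rw [i2]
        congr 1
        push_cast
        ring
      · rw [SCM_W2, Polynomial.eval_sub, Polynomial.eval_mul, Polynomial.eval_X, sub_mul, mul_assoc,
          i2, i1]
        have e1 : (((n + 1 : ℕ) : ℝ) + 2) * θ = ((n : ℝ) + 2) * θ + θ := by push_cast; ring
        have e2 : ((n : ℝ) + 1) * θ = ((n : ℝ) + 2) * θ - θ := by ring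
        rw [e1, e2, Real.sin_add, Real.sin_sub]
        ring
  exact (key n).1

theorem SCM_span (p : Polynomial ℝ) : p ∈ Submodule.span ℝ (range SCM_W) := by
  have hX : ∀ q ∈ Submodule.span ℝ (range SCM_W), Polynomial.X * q ∈ Submodule.span ℝ (range SCM_W) := by
    intro q hq
    induction hq using Submodule.span_induction with
    | mem x hx =>
      obtain ⟨n, rfl⟩ := hx
      rcases n with _ | n
      · have e : (Polynomial.X : Polynomial ℝ) * SCM_W 0 = SCM_W 1 := mul_one _
        rw [e]
        exact Submodule.subset_span ⟨1, rfl⟩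
      · have e : (Polynomial.X : Polynomial ℝ) * SCM_W (n + 1) = SCM_W (n + 2) + SCM_W n := by
          rw [SCM_W2]
          ring
        rw [e]
        exact Submodule.add_mem _ (Submodule.subset_span ⟨n + 2, rfl⟩)
          (Submodule.subset_span ⟨n, rfl⟩)
    | zero => rw [mul_zero]; exact Submodule.zero_mem _
    | add x y _ _ hx hy => rw [mul_add]; exact Submodule.add_mem _ hx hy
    | smul a x _ hx => rw [mul_smul_comm]; exact Submodule.smul_mem _ _ hx
  have hpow : ∀ n : ℕ, (Polynomial.X : Polynomial ℝ) ^ n ∈ Submodule.span ℝ (range SCM_W) := by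
    intro n
    induction n with
    | zero =>
      rw [pow_zero]
      exact Submodule.subset_span ⟨0, rfl⟩
    | succ n ih =>
      rw [pow_succ']
      exact hX _ ih
  induction p using Polynomial.induction_on' with
  | add p q hp hq => exact Submodule.add_mem _ hp hq
  | monomial n a =>
    rw [← Polynomial.C_mul_X_pow_eq_monomial, ← Polynomial.smul_eq_C_mul]
    exact Submodule.smul_mem _ _ (hpow n)

theorem SCM_vec (hB : Stmt_BAS) (k : ℕ) (i : Fin k) (n : ℕ) :
    (Polynomial.aeval (sc i : Fk k →L[ℂ] Fk k) (SCM_W n)) (vac k) = bs (List.replicate n i) := by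
  obtain ⟨b1, b2, b3, b4, b5, b6, b7, b8⟩ := hB k
  have key : ∀ n : ℕ,
      (Polynomial.aeval (sc i : Fk k →L[ℂ] Fk k) (SCM_W n)) (vac k) = bs (List.replicate n i) ∧
      (Polynomial.aeval (sc i : Fk k →L[ℂ] Fk k) (SCM_W (n + 1))) (vac k) =
        bs (List.replicate (n + 1) i) := by
    intro n
    induction n with
    | zero =>
      constructor
      · show (Polynomial.aeval (sc i : Fk k →L[ℂ] Fk k) (1 : Polynomial ℝ)) (vac k) = _
        rw [map_one]
        rfl
      · show (Polynomial.aeval (sc i : Fk k →L[ℂ] Fk k) (Polynomial.X : Polynomial ℝ)) (vac k) = _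
        rw [Polynomial.aeval_X]
        show lc i (vac k) + ContinuousLinearMap.adjoint (lc i) (vac k) = _
        rw [(b3 i).1, add_zero]
        exact lc_bs i []
    | succ n ih =>
      obtain ⟨i1, i2⟩ := ih
      refine ⟨i2, ?_⟩
      rw [SCM_W2, map_sub, map_mul, Polynomial.aeval_X]
      show (sc i) ((Polynomial.aeval (sc i : Fk k →L[ℂ] Fk k) (SCM_W (n + 1))) (vac k)) -
        (Polynomial.aeval (sc i : Fk k →L[ℂ] Fk k) (SCM_W n)) (vac k) = _
      rw [i1, i2]
      show lc i (bs (List.replicate (n + 1) i)) +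
        ContinuousLinearMap.adjoint (lc i) (bs (List.replicate (n + 1) i)) -
          bs (List.replicate n i) = _
      have e : (List.replicate (n + 1) i) = i :: List.replicate n i := rfl
      rw [lc_bs]
      rw [e, (b4 i i _).1, if_pos rfl, add_sub_cancel_right]
      rfl
  exact (key n).1

theorem SCM_left (hB : Stmt_BAS) (k : ℕ) (i : Fin k) (n : ℕ) :
    ⟪vac k, (Polynomial.aeval (sc i : Fk k →L[ℂ] Fk k) (SCM_W n)) (vac k)⟫_ℂ =
      if n = 0 then 1 else 0 := by
  rw [SCM_vec hB, vac, bs_inner, bs_apply]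
  rcases n with _ | n
  · simp
  · rw [if_neg (by simp), if_neg (by omega)]

theorem SCM_cos (n : ℕ) (hn : n ≠ 0) : ∫ θ in (0 : ℝ)..Real.pi, Real.cos ((n : ℝ) * θ) = 0 := by
  have hn' : (n : ℝ) ≠ 0 := by exact_mod_cast hn
  rw [intervalIntegral.integral_comp_mul_left (fun x => Real.cos x) hn', integral_cos,
    Real.sin_nat_mul_pi, mul_zero, Real.sin_zero, sub_zero, smul_zero]

theorem SCM_right (n : ℕ) :
    (2 / Real.pi) * ∫ θ in (0 : ℝ)..Real.pi,
      (SCM_W n).eval (2 * Real.cos θ) * Real.sin θ ^ 2 = if n = 0 then 1 else 0 := by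
  have e1 : (fun θ : ℝ => (SCM_W n).eval (2 * Real.cos θ) * Real.sin θ ^ 2) =
      fun θ : ℝ => Real.sin (((n : ℝ) + 1) * θ) * Real.sin θ := by
    funext θ
    rw [← SCM_sin]
    ring
  rw [e1]
  rcases Nat.eq_zero_or_pos n with h | h
  · rw [if_pos h, h]
    have e2 : (fun θ : ℝ => Real.sin ((((0 : ℕ) : ℝ) + 1) * θ) * Real.sin θ) =
        fun θ : ℝ => Real.sin θ ^ 2 := by
      funext θ
      rw [Nat.cast_zero, zero_add, one_mul, sq]
    rw [e2, integral_sin_sq, Real.sin_zero, Real.sin_pi]
    have := Real.pi_ne_zero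
    field_simp
    ring
  · rw [if_neg (by omega)]
    have e2 : (fun θ : ℝ => Real.sin (((n : ℝ) + 1) * θ) * Real.sin θ) =
        fun θ : ℝ => 1 / 2 * Real.cos ((n : ℝ) * θ) -
          1 / 2 * Real.cos (((n + 2 : ℕ) : ℝ) * θ) := by
      funext θ
      have e3 : (n : ℝ) * θ = ((n : ℝ) + 1) * θ - θ := by ring
      have e4 : ((n + 2 : ℕ) : ℝ) * θ = ((n : ℝ) + 1) * θ + θ := by push_cast; ring
      rw [e3, e4, Real.cos_add, Real.cos_sub]
      ring
    rw [e2, intervalIntegral.integral_sub, intervalIntegral.integral_const_mul,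
      intervalIntegral.integral_const_mul, SCM_cos n (by omega), SCM_cos (n + 2) (by omega)]
    · simp
    · exact Continuous.intervalIntegrable (by fun_prop) _ _
    · exact Continuous.intervalIntegrable (by fun_prop) _ _

theorem SCM_int (p : Polynomial ℝ) : IntervalIntegrable
    (fun θ : ℝ => p.eval (2 * Real.cos θ) * Real.sin θ ^ 2) MeasureTheory.volume 0 Real.pi := by
  apply Continuous.intervalIntegrable
  exact (p.continuous.comp (by fun_prop)).mul (by fun_prop)

theorem p_SCM (hB : Stmt_BAS) : Stmt_SCM := by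
  intro k i p
  have hp := SCM_span p
  induction hp using Submodule.span_induction with
  | mem x hx =>
    obtain ⟨n, rfl⟩ := hx
    rw [SCM_left hB, SCM_right]
    split_ifs <;> simp
  | zero =>
    simp
  | add x y _ _ hx hy =>
    rw [map_add, ContinuousLinearMap.add_apply, inner_add_right, hx, hy, ← Complex.ofReal_add]
    congr 1
    rw [← mul_add, ← intervalIntegral.integral_add (SCM_int x) (SCM_int y)]
    congr 1
    apply intervalIntegral.integral_congr
    intro θ _
    show _ = (x + y).eval (2 * Real.cos θ) * Real.sin θ ^ 2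
    rw [Polynomial.eval_add]
    ring
  | smul a x _ hx =>
    rw [map_smul, ContinuousLinearMap.smul_apply, inner_smul_right_eq_smul, hx, Complex.real_smul,
      ← Complex.ofReal_mul]
    congr 1
    have e : (fun θ : ℝ => (a • x).eval (2 * Real.cos θ) * Real.sin θ ^ 2) =
        fun θ : ℝ => a * (x.eval (2 * Real.cos θ) * Real.sin θ ^ 2) := by
      funext θ
      rw [Polynomial.eval_smul, smul_eq_mul, mul_assoc]
    rw [e, intervalIntegral.integral_const_mul]
    ring

end Pool.SI
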