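import Pool.Agent.Work.MP_118406_si.Interface

set_option autoImplicit false

/-! # Block SPN: monomials -/

open scoped InnerProductSpace ComplexConjugate Topology
open Set Filter

noncomputable section

namespace Pool.SI

theorem SPN_nil {k : ℕ} : (mon [] : Fk k →L[ℂ] Fk k) = 1 := rfl

theorem SPN_append {k : ℕ} (v w : List (Fin k)) :
    (mon (v ++ w) : Fk k →L[ℂ] Fk k) = mon v * mon w := by
  unfold mon
  rw [List.map_append, List.prod_append]

theorem SPN_star (hBAS : Stmt_BAS) {k : ℕ} (w : List (Fin k)) :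
    star (mon w : Fk k →L[ℂ] Fk k) = mon w.reverse := by
  induction w with
  | nil => exact star_one _
  | cons i w ih =>
    have h1 : (mon (i :: w) : Fk k →L[ℂ] Fk k) = sc i * mon w := by
      unfold mon
      rw [List.map_cons, List.prod_cons]
    have h2 : (mon [i] : Fk k →L[ℂ] Fk k) = sc i := by
      unfold mon
      rw [List.map_cons, List.map_nil, List.prod_cons, List.prod_nil, mul_one]
    rw [h1, star_mul, ih, (hBAS k).2.2.2.2.2.2.1 i, List.reverse_cons, SPN_append, h2]

theorem SPN_mul {k : ℕ} {x y : Fk k →L[ℂ] Fk k}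
    (hx : x ∈ Submodule.span ℂ (range (mon : List (Fin k) → (Fk k →L[ℂ] Fk k))))
    (hy : y ∈ Submodule.span ℂ (range (mon : List (Fin k) → (Fk k →L[ℂ] Fk k)))) :
    x * y ∈ Submodule.span ℂ (range (mon : List (Fin k) → (Fk k →L[ℂ] Fk k))) := by
  induction hx using Submodule.span_induction with
  | mem x hx =>
    obtain ⟨v, rfl⟩ := hx
    induction hy using Submodule.span_induction with
    | mem y hy =>
      obtain ⟨w, rfl⟩ := hy
      rw [← SPN_append]
      exact Submodule.subset_span ⟨_, rfl⟩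
    | zero => rw [mul_zero]; exact Submodule.zero_mem _
    | add a b _ _ ha hb => rw [mul_add]; exact Submodule.add_mem _ ha hb
    | smul c a _ ha => rw [mul_smul_comm]; exact Submodule.smul_mem _ _ ha
  | zero => rw [zero_mul]; exact Submodule.zero_mem _
  | add a b _ _ ha hb => rw [add_mul]; exact Submodule.add_mem _ ha hb
  | smul c a _ ha => rw [smul_mul_assoc]; exact Submodule.smul_mem _ _ ha

theorem SPN_st (hBAS : Stmt_BAS) {k : ℕ} {x : Fk k →L[ℂ] Fk k}
    (hx : x ∈ Submodule.span ℂ (range (mon : List (Fin k) → (Fk k →L[ℂ] Fk k)))) :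
    star x ∈ Submodule.span ℂ (range (mon : List (Fin k) → (Fk k →L[ℂ] Fk k))) := by
  induction hx using Submodule.span_induction with
  | mem x hx =>
    obtain ⟨v, rfl⟩ := hx
    rw [SPN_star hBAS]
    exact Submodule.subset_span ⟨_, rfl⟩
  | zero => rw [star_zero]; exact Submodule.zero_mem _
  | add a b _ _ ha hb => rw [star_add]; exact Submodule.add_mem _ ha hb
  | smul c a _ ha => rw [star_smul]; exact Submodule.smul_mem _ _ ha

/-- the span of the monomials as a star subalgebra -/
def SPN_A (hBAS : Stmt_BAS) (k : ℕ) : StarSubalgebra ℂ (Fk k →L[ℂ] Fk k) where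
  carrier := (Submodule.span ℂ (range (mon : List (Fin k) → (Fk k →L[ℂ] Fk k))) :
    Set (Fk k →L[ℂ] Fk k))
  mul_mem' := fun hx hy => SPN_mul hx hy
  add_mem' := fun hx hy => Submodule.add_mem _ hx hy
  algebraMap_mem' := fun c => by
    rw [Algebra.algebraMap_eq_smul_one]
    exact Submodule.smul_mem _ _ (Submodule.subset_span ⟨[], SPN_nil⟩)
  star_mem' := fun hx => SPN_st hBAS hx

theorem SPN_one (hBAS : Stmt_BAS) (k : ℕ) :
    ((StarAlgebra.adjoin ℂ (Set.range (sc : Fin k → (Fk k →L[ℂ] Fk k))) :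
      StarSubalgebra ℂ (Fk k →L[ℂ] Fk k)) : Set (Fk k →L[ℂ] Fk k)) =
    (Submodule.span ℂ (range (mon : List (Fin k) → (Fk k →L[ℂ] Fk k))) : Set (Fk k →L[ℂ] Fk k)) := by
  apply Set.Subset.antisymm
  · have h1 : StarAlgebra.adjoin ℂ (Set.range (sc : Fin k → (Fk k →L[ℂ] Fk k))) ≤ SPN_A hBAS k := by
      apply StarAlgebra.adjoin_le
      rintro _ ⟨i, rfl⟩
      refine Submodule.subset_span ⟨[i], ?_⟩
      unfold mon
      rw [List.map_cons, List.map_nil, List.prod_cons, List.prod_nil, mul_one]
    exact h1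
  · have h2 : ∀ w : List (Fin k), (mon w : Fk k →L[ℂ] Fk k) ∈
        StarAlgebra.adjoin ℂ (Set.range (sc : Fin k → (Fk k →L[ℂ] Fk k))) := by
      intro w
      induction w with
      | nil => exact one_mem _
      | cons i w ih =>
        have h1 : (mon (i :: w) : Fk k →L[ℂ] Fk k) = sc i * mon w := by
          unfold mon
          rw [List.map_cons, List.prod_cons]
        rw [h1]
        exact mul_mem (StarAlgebra.subset_adjoin ℂ _ ⟨i, rfl⟩) ih
    intro x hx
    have hx' : x ∈ Submodule.span ℂ (range (mon : List (Fin k) → (Fk k →L[ℂ] Fk k))) := hx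
    induction hx' using Submodule.span_induction with
    | mem x hx1 =>
      obtain ⟨w, rfl⟩ := hx1
      exact h2 w
    | zero => exact zero_mem _
    | add a b ha' hb' ha hb => exact add_mem (ha ha') (hb hb')
    | smul c a ha' ha => exact SMulMemClass.smul_mem c (ha ha')

theorem p_SPN (hBAS : Stmt_BAS) : Stmt_SPN := by
  intro k
  refine ⟨SPN_one hBAS k, ?_, fun w => SPN_star hBAS w⟩
  rw [← SPN_one hBAS k]
  rfl

end Pool.SI
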