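import Pool.Agent.Work.MP_118406_si.Interface

set_option autoImplicit false

/-! # Block TEL (helper28) -/

open scoped InnerProductSpace ComplexConjugate Topology
open Set Filter

noncomputable section

namespace Pool.SI

/-- the correction term -/
def TEL_C {k : ℕ} (R : Fk k →L[ℂ] Fk k) (u : List (Fin k)) : List (Fin k) → ℂ
  | [] => 0
  | i :: w => ⟪ContinuousLinearMap.adjoint (lc i) (bs u), R (bs w)⟫_ℂ

theorem TEL_aux (hB : Stmt_BAS) {k : ℕ} (R : Fk k →L[ℂ] Fk k) : ∀ (w u : List (Fin k)),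
    ∑ p : Fin w.length, ⟪bs ((w.take p).reverse ++ u),
      (R * sc (w.get p) - sc (w.get p) * R) (bs (w.drop ((p : ℕ) + 1)))⟫_ℂ =
    ⟪bs u, R (bs w)⟫_ℂ - ⟪bs (w.reverse ++ u), R (bs [])⟫_ℂ - TEL_C R u w := by
  obtain ⟨-, -, hvac, hadj, -, -, hstar, -⟩ := hB k
  intro w
  induction w with
  | nil =>
    intro u
    simp [TEL_C]
  | cons i w ih =>
    intro u
    have h0 : ∑ p : Fin (i :: w).length, ⟪bs (((i :: w).take p).reverse ++ u),
        (R * sc ((i :: w).get p) - sc ((i :: w).get p) * R) (bs ((i :: w).drop ((p : ℕ) + 1)))⟫_ℂ =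
        ⟪bs u, (R * sc i - sc i * R) (bs w)⟫_ℂ +
        ∑ p : Fin w.length, ⟪bs ((w.take p).reverse ++ (i :: u)),
          (R * sc (w.get p) - sc (w.get p) * R) (bs (w.drop ((p : ℕ) + 1)))⟫_ℂ := by
      rw [show (∑ p : Fin (i :: w).length, ⟪bs (((i :: w).take p).reverse ++ u),
        (R * sc ((i :: w).get p) - sc ((i :: w).get p) * R) (bs ((i :: w).drop ((p : ℕ) + 1)))⟫_ℂ) = _ from
        Fin.sum_univ_succ (n := w.length) _]
      congr 1
      refine Finset.sum_congr rfl fun p _ => ?_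
      have h1 : ((i :: w).take (p.succ : ℕ)).reverse ++ u = (w.take p).reverse ++ (i :: u) := by
        simp
      rw [h1]
      rfl
    rw [h0, ih (i :: u)]
    have hs : ⟪bs u, (R * sc i - sc i * R) (bs w)⟫_ℂ = ⟪bs u, R (bs (i :: w))⟫_ℂ +
        ⟪bs u, R (ContinuousLinearMap.adjoint (lc i) (bs w))⟫_ℂ - ⟪bs (i :: u), R (bs w)⟫_ℂ -
        ⟪ContinuousLinearMap.adjoint (lc i) (bs u), R (bs w)⟫_ℂ := by
      have e1 : ∀ v : List (Fin k), (sc i : Fk k →L[ℂ] Fk k) (bs v) =
          bs (i :: v) + ContinuousLinearMap.adjoint (lc i) (bs v) := fun v => by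
        show (lc i + ContinuousLinearMap.adjoint (lc i)) (bs v) = _
        rw [add_apply, lc_bs]
      have e2 : ⟪bs u, (sc i : Fk k →L[ℂ] Fk k) (R (bs w))⟫_ℂ = ⟪(sc i : Fk k →L[ℂ] Fk k) (bs u), R (bs w)⟫_ℂ := by
        rw [← ContinuousLinearMap.adjoint_inner_left, ← ContinuousLinearMap.star_eq_adjoint, hstar i]
      show ⟪bs u, R ((sc i : Fk k →L[ℂ] Fk k) (bs w)) - (sc i : Fk k →L[ℂ] Fk k) (R (bs w))⟫_ℂ = _
      rw [inner_sub_right, e2, e1 w, e1 u, map_add, inner_add_right, inner_add_left]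
      ring
    have hc : ⟪bs u, R (ContinuousLinearMap.adjoint (lc i) (bs w))⟫_ℂ = TEL_C R (i :: u) w := by
      cases w with
      | nil =>
        have := (hvac i).1
        rw [show (bs [] : Fk k) = vac k from rfl, this, map_zero, inner_zero_right]
        rfl
      | cons j w' =>
        show _ = ⟪ContinuousLinearMap.adjoint (lc j) (bs (i :: u)), R (bs w')⟫_ℂ
        rw [(hadj i j w').1, (hadj j i u).1]
        by_cases hij : i = j
        · rw [if_pos hij, if_pos hij.symm]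
        · rw [if_neg hij, if_neg (Ne.symm hij), map_zero, inner_zero_right, inner_zero_left]
    rw [hs, hc]
    have hr : (i :: w).reverse ++ u = w.reverse ++ (i :: u) := by simp
    rw [hr]
    show _ = ⟪bs u, R (bs (i :: w))⟫_ℂ - ⟪bs (w.reverse ++ i :: u), R (bs [])⟫_ℂ -
      ⟪ContinuousLinearMap.adjoint (lc i) (bs u), R (bs w)⟫_ℂ
    ring

theorem p_TEL (hB : Stmt_BAS) : Stmt_TEL := by
  intro k R hR w
  have h := TEL_aux hB R w []
  have h1 : TEL_C R [] w = 0 := by
    cases w with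
    | nil => rfl
    | cons i w =>
      show ⟪ContinuousLinearMap.adjoint (lc i) (bs []), R (bs w)⟫_ℂ = 0
      rw [show (bs [] : Fk k) = vac k from rfl, ((hB k).2.2.1 i).1, inner_zero_left]
  rw [h1, show (bs [] : Fk k) = vac k from rfl, hR, inner_zero_right, sub_zero, sub_zero] at h
  rw [← h]
  refine Finset.sum_congr rfl fun p _ => ?_
  rw [List.append_nil]

end Pool.SI
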