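import Pool.Agent.Work.MP_118406_si.Interface

set_option autoImplicit false

/-! # Block UTB: a free product has only one trace (helper79) -/

open scoped InnerProductSpace ComplexConjugate Topology
open Set Filter

noncomputable section

namespace Pool.SI

section

variable {H : Type} [NormedAddCommGroup H] [InnerProductSpace ℂ H] [CompleteSpace H]
  {A B : StarSubalgebra ℂ (H →L[ℂ] H)} {o : H}

/-- the type of the next factor after `n` factors -/
def UTB_fl (b : Bool) (n : ℕ) : Bool := if n % 2 = 0 then b else !b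

/-- the algebra of type `b` -/
def UTB_al (A B : StarSubalgebra ℂ (H →L[ℂ] H)) (b : Bool) : StarSubalgebra ℂ (H →L[ℂ] H) :=
  if b = true then A else B

theorem UTB_cons (b : Bool) (c : H →L[ℂ] H) (l : List (H →L[ℂ] H)) :
    Alt A B o b (c :: l) ↔ c ∈ UTB_al A B b ∧ ⟪o, c o⟫_ℂ = 0 ∧ Alt A B o (!b) l := by
  cases b <;> simp [Alt, UTB_al]

theorem UTB_nil (b : Bool) : Alt A B o b [] := by simp [Alt]

theorem UTB_append (b : Bool) (l m : List (H →L[ℂ] H)) :
    Alt A B o b (l ++ m) ↔ Alt A B o b l ∧ Alt A B o (UTB_fl b l.length) m := by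
  induction l generalizing b with
  | nil => simp [Alt, UTB_fl]
  | cons c l ih =>
    have h : UTB_fl (!b) l.length = UTB_fl b (c :: l).length := by
      unfold UTB_fl
      rw [List.length_cons]
      rcases Nat.mod_two_eq_zero_or_one l.length with h | h
      · rw [if_pos h, if_neg (by omega)]
      · rw [if_neg (by omega), if_pos (by omega), Bool.not_not]
    rw [List.cons_append, UTB_cons, UTB_cons, ih, h, and_assoc, and_assoc]

theorem UTB_le (b : Bool) : UTB_al A B b ≤ A ⊔ B := by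
  cases b
  · exact le_sup_right
  · exact le_sup_left

theorem UTB_prod_mem (b : Bool) (l : List (H →L[ℂ] H)) (h : Alt A B o b l) : l.prod ∈ A ⊔ B := by
  induction l generalizing b with
  | nil =>
    rw [List.prod_nil]
    exact one_mem _
  | cons c l ih =>
    rw [UTB_cons] at h
    rw [List.prod_cons]
    exact mul_mem (UTB_le b h.1) (ih _ h.2.2)

theorem UTB_cen (ho : ‖o‖ = 1) (x : H →L[ℂ] H) :
    ⟪o, (x - ⟪o, x o⟫_ℂ • (1 : H →L[ℂ] H)) o⟫_ℂ = 0 := by
  have h1 : (x - ⟪o, x o⟫_ℂ • (1 : H →L[ℂ] H)) o = x o - ⟪o, x o⟫_ℂ • o := rfl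
  rw [h1, inner_sub_right, inner_smul_right, inner_self_eq_norm_sq_to_K, ho]
  simp

/-- the span of the alternating products -/
def UTB_S (A B : StarSubalgebra ℂ (H →L[ℂ] H)) (o : H) : Submodule ℂ (H →L[ℂ] H) :=
  Submodule.span ℂ {x | ∃ (b : Bool) (l : List (H →L[ℂ] H)), Alt A B o b l ∧ x = l.prod}

theorem UTB_gen {b : Bool} {l : List (H →L[ℂ] H)} (h : Alt A B o b l) : l.prod ∈ UTB_S A B o :=
  Submodule.subset_span ⟨b, l, h, rfl⟩

theorem UTB_key (ho : ‖o‖ = 1) {b : Bool} {x : H →L[ℂ] H} (hx : x ∈ UTB_al A B b)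
    {l : List (H →L[ℂ] H)} (h : Alt A B o (!b) l) : x * l.prod ∈ UTB_S A B o := by
  have h1 : x * l.prod = ⟪o, x o⟫_ℂ • l.prod +
      ((x - ⟪o, x o⟫_ℂ • (1 : H →L[ℂ] H)) :: l).prod := by
    rw [List.prod_cons, sub_mul, smul_mul_assoc, one_mul]
    abel
  rw [h1]
  refine (UTB_S A B o).add_mem ((UTB_S A B o).smul_mem _ (UTB_gen h)) (UTB_gen (b := b) ?_)
  rw [UTB_cons]
  exact ⟨sub_mem hx (SMulMemClass.smul_mem _ (one_mem _)), UTB_cen ho x, h⟩

theorem UTB_left (ho : ‖o‖ = 1) {b : Bool} {x : H →L[ℂ] H} (hx : x ∈ UTB_al A B b) :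
    ∀ s ∈ UTB_S A B o, x * s ∈ UTB_S A B o := by
  intro s hs
  unfold UTB_S at hs
  induction hs using Submodule.span_induction with
  | mem s hs =>
    obtain ⟨b', l, hl, rfl⟩ := hs
    by_cases hb : b' = !b
    · rw [hb] at hl
      exact UTB_key ho hx hl
    · have hb' : b' = b := by
        cases b <;> cases b' <;> simp_all
      rw [hb'] at hl
      cases l with
      | nil => exact UTB_key ho hx (UTB_nil _)
      | cons c l' =>
        rw [UTB_cons] at hl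
        rw [List.prod_cons, ← mul_assoc]
        exact UTB_key ho (mul_mem hx hl.1) hl.2.2
  | zero =>
    rw [mul_zero]
    exact (UTB_S A B o).zero_mem
  | add y z _ _ hy hz =>
    rw [mul_add]
    exact (UTB_S A B o).add_mem hy hz
  | smul r y _ hy =>
    rw [mul_smul_comm]
    exact (UTB_S A B o).smul_mem _ hy

theorem UTB_span (ho : ‖o‖ = 1) (x : H →L[ℂ] H) (hx : x ∈ A ⊔ B) : x ∈ UTB_S A B o := by
  obtain ⟨D, hD⟩ : ∃ D : StarSubalgebra ℂ (H →L[ℂ] H), ∀ x, x ∈ D ↔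
      (∀ s ∈ UTB_S A B o, x * s ∈ UTB_S A B o) ∧ ∀ s ∈ UTB_S A B o, star x * s ∈ UTB_S A B o := by
    refine ⟨{
      carrier := {x | (∀ s ∈ UTB_S A B o, x * s ∈ UTB_S A B o) ∧
        ∀ s ∈ UTB_S A B o, star x * s ∈ UTB_S A B o}
      mul_mem' := ?_
      add_mem' := ?_
      algebraMap_mem' := ?_
      star_mem' := ?_ }, fun x => Iff.rfl⟩
    · rintro x y ⟨h1, h2⟩ ⟨h3, h4⟩
      refine ⟨fun s hs => ?_, fun s hs => ?_⟩
      · rw [mul_assoc]
        exact h1 _ (h3 s hs)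
      · rw [star_mul, mul_assoc]
        exact h4 _ (h2 s hs)
    · rintro x y ⟨h1, h2⟩ ⟨h3, h4⟩
      refine ⟨fun s hs => ?_, fun s hs => ?_⟩
      · rw [add_mul]
        exact (UTB_S A B o).add_mem (h1 s hs) (h3 s hs)
      · rw [star_add, add_mul]
        exact (UTB_S A B o).add_mem (h2 s hs) (h4 s hs)
    · intro r
      refine ⟨fun s hs => ?_, fun s hs => ?_⟩
      · rw [Algebra.algebraMap_eq_smul_one, smul_mul_assoc, one_mul]
        exact (UTB_S A B o).smul_mem _ hs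
      · rw [Algebra.algebraMap_eq_smul_one, star_smul, star_one, smul_mul_assoc, one_mul]
        exact (UTB_S A B o).smul_mem _ hs
    · rintro x ⟨h1, h2⟩
      refine ⟨h2, fun s hs => ?_⟩
      rw [star_star]
      exact h1 s hs
  have hA : A ≤ D := fun y hy => (hD y).2 ⟨UTB_left ho (b := true) hy, UTB_left ho (b := true) (star_mem hy)⟩
  have hB : B ≤ D := fun y hy => (hD y).2 ⟨UTB_left ho (b := false) hy, UTB_left ho (b := false) (star_mem hy)⟩
  have h1 := ((hD x).1 (sup_le hA hB hx)).1 1 (by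
    have h2 := UTB_gen (UTB_nil (A := A) (B := B) (o := o) true)
    rwa [List.prod_nil] at h2)
  rwa [mul_one] at h1

theorem UTB_pow {w : H →L[ℂ] H} (h : star w * w = 1) (h' : w * star w = 1) (p : ℕ) :
    star (w ^ p) * w ^ p = 1 ∧ w ^ p * star (w ^ p) = 1 := by
  have h1 : w ∈ unitary (H →L[ℂ] H) := ⟨h, h'⟩
  have h2 := pow_mem h1 p
  exact ⟨h2.1, h2.2⟩

theorem UTB_norm {w : H →L[ℂ] H} (h : star w * w = 1) : ‖w‖ ≤ 1 := by
  have h1 := CStarRing.norm_star_mul_self (x := w)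
  rw [h] at h1
  have h2 : ‖(1 : H →L[ℂ] H)‖ ≤ 1 := ContinuousLinearMap.norm_id_le
  nlinarith [norm_nonneg w]

theorem UTB_orth (ho : ‖o‖ = 1) {w : H →L[ℂ] H} (hw : Haar w o) :
    Orthonormal ℂ (fun p : ℕ => (w ^ p) o) := by
  obtain ⟨h1, h2, h3⟩ := hw
  have key : ∀ p q : ℕ, ⟪(w ^ p) o, (w ^ (p + q)) o⟫_ℂ = ⟪o, (w ^ q) o⟫_ℂ := by
    intro p q
    have e1 : (w ^ (p + q)) o = (w ^ p) ((w ^ q) o) := by
      rw [pow_add]
      rfl
    rw [e1, ← ContinuousLinearMap.adjoint_inner_right, ← ContinuousLinearMap.star_eq_adjoint]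
    have e2 : (star (w ^ p)) ((w ^ p) ((w ^ q) o)) = (star (w ^ p) * w ^ p) ((w ^ q) o) := rfl
    rw [e2, (UTB_pow h1 h2 p).1]
    rfl
  rw [orthonormal_iff_ite]
  intro p q
  rcases lt_trichotomy p q with h | h | h
  · obtain ⟨r, rfl⟩ := Nat.exists_eq_add_of_lt h
    rw [if_neg h.ne]
    have e : p + r + 1 = p + (r + 1) := by ring
    rw [e, key]
    exact h3 _ (Nat.succ_pos r)
  · rw [if_pos h, ← h]
    have := key p 0
    rw [add_zero] at this
    rw [this, pow_zero]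
    change ⟪o, o⟫_ℂ = 1
    rw [inner_self_eq_norm_sq_to_K, ho]
    simp
  · obtain ⟨r, rfl⟩ := Nat.exists_eq_add_of_lt h
    rw [if_neg h.ne']
    have e : q + r + 1 = q + (r + 1) := by ring
    rw [e, ← inner_conj_symm, key, h3 _ (Nat.succ_pos r), map_zero]

theorem UTB_even (ho : ‖o‖ = 1) {w : H →L[ℂ] H} {b : Bool} (hw : w ∈ UTB_al A B (!b)) (hHw : Haar w o)
    (σ : ((A ⊔ B).topologicalClosure : StarSubalgebra ℂ (H →L[ℂ] H)) →L[ℂ] ℂ)
    (htr : ∀ x y, σ (x * y) = σ (y * x))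
    (hodd : ∀ (b : Bool) (l : List (H →L[ℂ] H)), Alt A B o b l → l.length % 2 = 1 →
      ∀ x : ((A ⊔ B).topologicalClosure : StarSubalgebra ℂ (H →L[ℂ] H)),
        (x : H →L[ℂ] H) = l.prod → σ x = 0)
    (l : List (H →L[ℂ] H)) (hl : Alt A B o b l) (hne : l ≠ []) (hev : l.length % 2 = 0)
    (x : ((A ⊔ B).topologicalClosure : StarSubalgebra ℂ (H →L[ℂ] H)))
    (hx : (x : H →L[ℂ] H) = l.prod) : σ x = 0 := by
  obtain ⟨l', c, hlc⟩ := (List.eq_nil_or_concat l).resolve_left hne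
  rw [List.concat_eq_append] at hlc
  subst hlc
  rw [List.length_append, List.length_singleton] at hev
  have hlen : l'.length % 2 = 1 := by omega
  have hfl : UTB_fl b l'.length = !b := if_neg (by omega)
  rw [UTB_append, hfl, UTB_cons] at hl
  obtain ⟨hl', hc, hc0, -⟩ := hl
  obtain ⟨w1, w2, w3⟩ := id hHw
  have hle : A ⊔ B ≤ (A ⊔ B).topologicalClosure := StarSubalgebra.le_topologicalClosure _
  have hw' := UTB_le (!b) hw
  obtain ⟨W, hW⟩ : ∃ W : ((A ⊔ B).topologicalClosure : StarSubalgebra ℂ (H →L[ℂ] H)),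
    (W : H →L[ℂ] H) = w := ⟨⟨w, hle hw'⟩, rfl⟩
  obtain ⟨V, hV⟩ : ∃ W : ((A ⊔ B).topologicalClosure : StarSubalgebra ℂ (H →L[ℂ] H)),
    (W : H →L[ℂ] H) = star w := ⟨⟨star w, hle (star_mem hw')⟩, rfl⟩
  obtain ⟨Y, hY⟩ : ∃ W : ((A ⊔ B).topologicalClosure : StarSubalgebra ℂ (H →L[ℂ] H)),
    (W : H →L[ℂ] H) = l'.prod := ⟨⟨l'.prod, hle (UTB_prod_mem b l' hl')⟩, rfl⟩
  obtain ⟨Q, hQ⟩ : ∃ W : ((A ⊔ B).topologicalClosure : StarSubalgebra ℂ (H →L[ℂ] H)),
    (W : H →L[ℂ] H) = c := ⟨⟨c, hle (UTB_le (!b) hc)⟩, rfl⟩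
  have hxe : x = Y * Q := by
    apply Subtype.ext
    rw [hx, List.prod_append, List.prod_singleton, MulMemClass.coe_mul, hY, hQ]
  obtain ⟨z, hz⟩ : ∃ z : H, z = ContinuousLinearMap.adjoint c o := ⟨_, rfl⟩
  -- the main identity
  have hmain : ∀ p : ℕ, 0 < p → σ x = ⟪o, (c * w ^ p) o⟫_ℂ * σ (V ^ p * Y) := by
    intro p hp
    obtain ⟨t, ht⟩ : ∃ t : ℂ, t = ⟪o, (c * w ^ p) o⟫_ℂ := ⟨_, rfl⟩
    rw [← ht]
    have e1 : W ^ p * V ^ p = 1 := by
      apply Subtype.ext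
      rw [MulMemClass.coe_mul, SubmonoidClass.coe_pow, SubmonoidClass.coe_pow, hW, hV, ← star_pow,
        (UTB_pow w1 w2 p).2]
      rfl
    have e2 : σ x = σ (V ^ p * (x * W ^ p)) := by
      rw [← htr, mul_assoc, e1, mul_one]
    have e3 : V ^ p * (x * W ^ p) = t • (V ^ p * Y) + V ^ p * (Y * (Q * W ^ p - t • 1)) := by
      rw [hxe, mul_sub, mul_sub, mul_smul_comm, mul_smul_comm, mul_one, mul_assoc Y]
      abel
    have e4 : σ (V ^ p * (Y * (Q * W ^ p - t • 1))) = 0 := by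
      refine hodd (!b) ((star w) ^ p :: (l' ++ [c * w ^ p - t • (1 : H →L[ℂ] H)])) ?_ ?_ _ ?_
      · rw [UTB_cons, UTB_append, Bool.not_not, hfl, UTB_cons]
        refine ⟨pow_mem (star_mem hw) p, ?_, hl', ?_, ?_, UTB_nil _⟩
        · rw [← star_pow, ContinuousLinearMap.star_eq_adjoint, ContinuousLinearMap.adjoint_inner_right,
            ← inner_conj_symm, w3 p hp, map_zero]
        · exact sub_mem (mul_mem hc (pow_mem hw p)) (SMulMemClass.smul_mem _ (one_mem _))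
        · rw [ht]
          exact UTB_cen ho _
      · rw [List.length_cons, List.length_append, List.length_singleton]
        omega
      · rw [List.prod_cons, List.prod_append, List.prod_singleton, ← hV, ← hY, ← hQ, ← hW]
        rfl
    rw [e2, e3, map_add, map_smul, smul_eq_mul, e4, add_zero]
  -- the bound
  have hbd : ∀ p : ℕ, ‖σ x‖ ^ 2 ≤ ‖⟪(w ^ (p + 1)) o, z⟫_ℂ‖ ^ 2 * (‖σ‖ * ‖l'.prod‖) ^ 2 := by
    intro p
    have e1 : ‖⟪o, (c * w ^ (p + 1)) o⟫_ℂ‖ = ‖⟪(w ^ (p + 1)) o, z⟫_ℂ‖ := by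
      have e2 : (c * w ^ (p + 1)) o = c ((w ^ (p + 1)) o) := rfl
      rw [e2, hz, norm_inner_symm, ContinuousLinearMap.adjoint_inner_right]
    have e3 : ‖σ (V ^ (p + 1) * Y)‖ ≤ ‖σ‖ * ‖l'.prod‖ := by
      refine (σ.le_opNorm _).trans (mul_le_mul_of_nonneg_left ?_ (norm_nonneg _))
      have e4 : ‖V ^ (p + 1) * Y‖ = ‖(star w) ^ (p + 1) * l'.prod‖ := by
        have e5 : ‖V ^ (p + 1) * Y‖ = ‖((V ^ (p + 1) * Y :
          ((A ⊔ B).topologicalClosure : StarSubalgebra ℂ (H →L[ℂ] H))) : H →L[ℂ] H)‖ := rfl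
        rw [e5, MulMemClass.coe_mul, SubmonoidClass.coe_pow, hV, hY]
      rw [e4]
      refine (norm_mul_le _ _).trans ?_
      have e6 : ‖(star w) ^ (p + 1)‖ ≤ 1 := by
        rw [← star_pow]
        refine UTB_norm ?_
        rw [star_star]
        exact (UTB_pow w1 w2 (p + 1)).2
      calc ‖(star w) ^ (p + 1)‖ * ‖l'.prod‖ ≤ 1 * ‖l'.prod‖ := mul_le_mul_of_nonneg_right e6 (norm_nonneg _)
        _ = _ := one_mul _
    rw [hmain (p + 1) (Nat.succ_pos p), norm_mul, e1, mul_pow]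
    exact mul_le_mul_of_nonneg_left (pow_le_pow_left₀ (norm_nonneg _) e3 2) (by positivity)
  have hsum := (UTB_orth ho hHw).inner_products_summable z
  have hten := ((hsum.tendsto_atTop_zero.comp (tendsto_add_atTop_nat 1)).mul_const ((‖σ‖ * ‖l'.prod‖) ^ 2))
  have h0 : ‖σ x‖ ^ 2 ≤ 0 * (‖σ‖ * ‖l'.prod‖) ^ 2 := ge_of_tendsto' hten hbd
  rw [zero_mul] at h0
  have h1 : ‖σ x‖ = 0 := by nlinarith [norm_nonneg (σ x)]
  exact norm_eq_zero.1 h1

end

theorem p_UTB (hUTA : Stmt_UTA) : Stmt_UTB := by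
  intro H _ _ _ o A B u v ho hF hu hv hHu hHv hd σ htr h1
  have hodd := hUTA H o A B u v ho hF hu hv hHu hHv hd σ htr
  have hle : A ⊔ B ≤ (A ⊔ B).topologicalClosure := StarSubalgebra.le_topologicalClosure _
  have hS : ∀ y ∈ UTB_S A B o, y ∈ A ⊔ B := by
    intro y hy
    have h2 : UTB_S A B o ≤ Subalgebra.toSubmodule (A ⊔ B).toSubalgebra := by
      unfold UTB_S
      rw [Submodule.span_le]
      rintro _ ⟨b, l, hl, rfl⟩
      exact UTB_prod_mem b l hl
    exact h2 hy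
  have hall : ∀ (b : Bool) (l : List (H →L[ℂ] H)), Alt A B o b l → l ≠ [] →
      ∀ x : ((A ⊔ B).topologicalClosure : StarSubalgebra ℂ (H →L[ℂ] H)),
        (x : H →L[ℂ] H) = l.prod → σ x = 0 := by
    intro b l hl hne x hx
    rcases Nat.mod_two_eq_zero_or_one l.length with h | h
    · cases b with
      | true => exact UTB_even ho (b := true) (w := v) hv hHv σ htr hodd l hl hne h x hx
      | false => exact UTB_even ho (b := false) (w := u) hu hHu σ htr hodd l hl hne h x hx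
    · exact hodd b l hl h x hx
  have hspan : ∀ (y : H →L[ℂ] H) (hy : y ∈ UTB_S A B o), σ ⟨y, hle (hS y hy)⟩ = ⟪o, y o⟫_ℂ := by
    intro y hy
    induction hy using Submodule.span_induction with
    | mem y hy =>
      obtain ⟨b, l, hl, rfl⟩ := hy
      by_cases hne : l = []
      · subst hne
        have e1 : (⟨([] : List (H →L[ℂ] H)).prod, hle (hS _ (UTB_gen hl))⟩ :
            ((A ⊔ B).topologicalClosure : StarSubalgebra ℂ (H →L[ℂ] H))) = 1 := Subtype.ext List.prod_nil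
        rw [e1, h1, List.prod_nil]
        change 1 = ⟪o, o⟫_ℂ
        rw [inner_self_eq_norm_sq_to_K, ho]
        simp
      · rw [hall b l hl hne _ rfl, hF b l hl hne]
    | zero =>
      have e1 : (⟨0, hle (hS 0 (Submodule.zero_mem _))⟩ :
        ((A ⊔ B).topologicalClosure : StarSubalgebra ℂ (H →L[ℂ] H))) = 0 := rfl
      rw [e1, map_zero]
      simp
    | add y z hy hz ihy ihz =>
      have e1 : (⟨y + z, hle (hS _ (Submodule.add_mem _ hy hz))⟩ :
        ((A ⊔ B).topologicalClosure : StarSubalgebra ℂ (H →L[ℂ] H))) =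
          ⟨y, hle (hS y hy)⟩ + ⟨z, hle (hS z hz)⟩ := rfl
      have e2 : (y + z) o = y o + z o := rfl
      rw [e1, map_add, ihy, ihz, e2, inner_add_right]
    | smul r y hy ihy =>
      have e1 : (⟨r • y, hle (hS _ (Submodule.smul_mem _ r hy))⟩ :
        ((A ⊔ B).topologicalClosure : StarSubalgebra ℂ (H →L[ℂ] H))) = r • ⟨y, hle (hS y hy)⟩ := rfl
      have e2 : (r • y) o = r • y o := rfl
      rw [e1, map_smul, ihy, e2, inner_smul_right, smul_eq_mul]
  intro x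
  have hxc : (x : H →L[ℂ] H) ∈ closure ((A ⊔ B : StarSubalgebra ℂ (H →L[ℂ] H)) : Set (H →L[ℂ] H)) := x.2
  rw [mem_closure_iff_seq_limit] at hxc
  obtain ⟨y, hy, hyx⟩ := hxc
  have t1 : Tendsto (fun n => (⟨y n, hle (hy n)⟩ :
      ((A ⊔ B).topologicalClosure : StarSubalgebra ℂ (H →L[ℂ] H)))) atTop (𝓝 x) :=
    tendsto_subtype_rng.2 hyx
  have t2 := (σ.continuous.tendsto x).comp t1
  have hcont : Continuous (fun T : H →L[ℂ] H => ⟪o, T o⟫_ℂ) :=
    Continuous.inner continuous_const (ContinuousLinearMap.apply ℂ H o).continuous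
  have t3 := (hcont.tendsto (x : H →L[ℂ] H)).comp hyx
  have e : (σ ∘ fun n => (⟨y n, hle (hy n)⟩ :
      ((A ⊔ B).topologicalClosure : StarSubalgebra ℂ (H →L[ℂ] H)))) =
      (fun T : H →L[ℂ] H => ⟪o, T o⟫_ℂ) ∘ y := by
    funext n
    exact hspan (y n) (UTB_span ho (y n) (hy n))
  rw [e] at t2
  exact tendsto_nhds_unique t2 t3

end Pool.SI
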