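import Pool.Agent.Work.MP_118406_si.Interface

set_option autoImplicit false

/-! # Block UTF (helper28) -/

open scoped InnerProductSpace ComplexConjugate Topology
open Set Filter

noncomputable section

namespace Pool.SI

/-- uniqueness of the trace on `C` -/
def UTF_P {k : ℕ} (C : StarSubalgebra ℂ (Fk k →L[ℂ] Fk k)) : Prop :=
  ∀ σ : C →L[ℂ] ℂ, (∀ x y, σ (x * y) = σ (y * x)) → σ 1 = 1 →
    ∀ x, σ x = ⟪vac k, (x : Fk k →L[ℂ] Fk k) (vac k)⟫_ℂ

theorem UTF_alg {k : ℕ} (i : Fin k) : Alg k = (Aone i ⊔ Aoth i).topologicalClosure := by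
  have hle1 : (StarAlgebra.adjoin ℂ (Set.range (sc : Fin k → (Fk k →L[ℂ] Fk k)))) ≤ Aone i ⊔ Aoth i := by
    refine StarAlgebra.adjoin_le ?_
    rintro _ ⟨j, rfl⟩
    by_cases h : j = i
    · subst h
      exact (le_sup_left : Aone j ≤ Aone j ⊔ Aoth j) ((StarAlgebra.adjoin ℂ {sc j}).le_topologicalClosure
        (StarAlgebra.subset_adjoin ℂ _ (Set.mem_singleton _)))
    · exact (le_sup_right : Aoth i ≤ Aone i ⊔ Aoth i) ((StarAlgebra.adjoin ℂ _).le_topologicalClosure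
        (StarAlgebra.subset_adjoin ℂ _ ⟨j, h, rfl⟩))
  have hle2 : Aone i ⊔ Aoth i ≤ Alg k := by
    refine sup_le ?_ ?_
    · refine StarSubalgebra.topologicalClosure_mono (StarAlgebra.adjoin_mono ?_)
      rintro _ rfl
      exact ⟨i, rfl⟩
    · refine StarSubalgebra.topologicalClosure_mono (StarAlgebra.adjoin_mono ?_)
      rintro _ ⟨j, -, rfl⟩
      exact ⟨j, rfl⟩
  refine le_antisymm (StarSubalgebra.topologicalClosure_mono hle1) ?_
  exact StarSubalgebra.topologicalClosure_minimal hle2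
    (StarSubalgebra.isClosed_topologicalClosure _)

theorem UTF_le {k : ℕ} (i : Fin k) :
    (StarAlgebra.adjoin ℂ (Set.range (sc : Fin k → (Fk k →L[ℂ] Fk k)))) ≤ Aone i ⊔ Aoth i := by
  refine StarAlgebra.adjoin_le ?_
  rintro _ ⟨j, rfl⟩
  by_cases h : j = i
  · subst h
    exact (le_sup_left : Aone j ≤ Aone j ⊔ Aoth j) ((StarAlgebra.adjoin ℂ {sc j}).le_topologicalClosure
      (StarAlgebra.subset_adjoin ℂ _ (Set.mem_singleton _)))
  · exact (le_sup_right : Aoth i ≤ Aone i ⊔ Aoth i) ((StarAlgebra.adjoin ℂ _).le_topologicalClosure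
      (StarAlgebra.subset_adjoin ℂ _ ⟨j, h, rfl⟩))

theorem p_UTF (hB : Stmt_BAS) (hC : Stmt_CYC) (hF : Stmt_FRE) (hH : Stmt_HAA) (hU : Stmt_UTB) : Stmt_UTF := by
  intro k hk
  set i : Fin k := ⟨0, by omega⟩ with hi
  set j : Fin k := ⟨1, by omega⟩ with hj
  have hij : j ≠ i := by
    intro h
    have := congrArg Fin.val h
    simp [hi, hj] at this
  obtain ⟨u, huA, hu⟩ := hH k i
  obtain ⟨v, hvA, hv⟩ := hH k j
  have hvB : v ∈ Aoth i := by
    refine (StarSubalgebra.topologicalClosure_mono (StarAlgebra.adjoin_mono ?_) : Aone j ≤ Aoth i) hvA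
    rintro _ rfl
    exact ⟨j, hij, rfl⟩
  have hn : ‖vac k‖ = 1 := bs_orthonormal.1 []
  have hd : Dense {y : Fk k | ∃ x ∈ Aone i ⊔ Aoth i, x (vac k) = y} := by
    refine (hB k).2.2.2.2.2.1.mono ?_
    let ev : (Fk k →L[ℂ] Fk k) →ₗ[ℂ] Fk k :=
      { toFun := fun x => x (vac k)
        map_add' := fun x y => rfl
        map_smul' := fun c x => rfl }
    have h1 : Submodule.span ℂ (range (bs : List (Fin k) → Fk k)) ≤
        Submodule.map ev (Subalgebra.toSubmodule (Aone i ⊔ Aoth i).toSubalgebra) := by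
      refine Submodule.span_le.2 ?_
      rintro _ ⟨w, rfl⟩
      obtain ⟨x, hx, hxw⟩ := hC k w
      exact ⟨x, UTF_le i hx, hxw⟩
    intro y hy
    obtain ⟨x, hx, rfl⟩ := h1 hy
    exact ⟨x, hx, rfl⟩
  have hP : UTF_P (Aone i ⊔ Aoth i).topologicalClosure :=
    hU (Fk k) (vac k) (Aone i) (Aoth i) u v hn (hF k i) huA hvB hu hv hd
  rw [← UTF_alg i] at hP
  exact hP

end Pool.SI
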