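import Pool.Agent.Work.MP_118406_si.B_BAS
import Pool.Agent.Work.MP_118406_si.B_JOP
import Pool.Agent.Work.MP_118406_si.B_COM
import Pool.Agent.Work.MP_118406_si.B_SPN
import Pool.Agent.Work.MP_118406_si.B_CYC
import Pool.Agent.Work.MP_118406_si.B_ALC
import Pool.Agent.Work.MP_118406_si.B_ENT
import Pool.Agent.Work.MP_118406_si.B_FEX
import Pool.Agent.Work.MP_118406_si.B_FRE
import Pool.Agent.Work.MP_118406_si.B_POW
import Pool.Agent.Work.MP_118406_si.B_UTA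
import Pool.Agent.Work.MP_118406_si.B_UTB
import Pool.Agent.Work.MP_118406_si.B_SCM
import Pool.Agent.Work.MP_118406_si.B_HAA
import Pool.Agent.Work.MP_118406_si.B_UTF
import Pool.Agent.Work.MP_118406_si.B_IMP
import Pool.Agent.Work.MP_118406_si.B_TEL
import Pool.Agent.Work.MP_118406_si.B_PRS
import Pool.Agent.Work.MP_118406_si.B_CCS
import Pool.Agent.Work.MP_118406_si.B_CCN
import Pool.Agent.Work.MP_118406_si.B_NPR
import Pool.Agent.Work.MP_118406_si.B_CJR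
import Pool.Agent.Work.MP_118406_si.B_POL
import Pool.Agent.Work.MP_118406_si.B_HSB
import Pool.Agent.Work.MP_118406_si.B_HPR
import Pool.Agent.Work.MP_118406_si.B_HSU
import Pool.Agent.Work.MP_118406_si.B_MNC

set_option autoImplicit false

noncomputable section

namespace Pool.SI

theorem t_BAS : Stmt_BAS := p_BAS
theorem t_JOP : Stmt_JOP := p_JOP
theorem t_COM : Stmt_COM := p_COM t_BAS t_JOP
theorem t_SPN : Stmt_SPN := p_SPN t_BAS
theorem t_CYC : Stmt_CYC := p_CYC t_BAS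
theorem t_ALC : Stmt_ALC := p_ALC t_BAS t_JOP t_COM t_SPN
theorem t_ENT : Stmt_ENT := p_ENT t_BAS t_ALC
theorem t_FEX : Stmt_FEX := p_FEX t_BAS
theorem t_FRE : Stmt_FRE := p_FRE t_BAS t_FEX
theorem t_POW : Stmt_POW := p_POW
theorem t_UTA : Stmt_UTA := p_UTA t_POW
theorem t_UTB : Stmt_UTB := p_UTB t_UTA
theorem t_SCM : Stmt_SCM := p_SCM t_BAS
theorem t_HAA : Stmt_HAA := p_HAA t_BAS t_SCM
theorem t_UTF : Stmt_UTF := p_UTF t_BAS t_CYC t_FRE t_HAA t_UTB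
theorem t_IMP : Stmt_IMP := p_IMP t_BAS t_JOP t_CYC t_ALC t_UTF
theorem t_TEL : Stmt_TEL := p_TEL t_BAS
theorem t_PRS : Stmt_PRS := p_PRS t_ENT t_TEL
theorem t_CCS : Stmt_CCS := p_CCS
theorem t_CCN : Stmt_CCN := p_CCN t_BAS t_JOP
theorem t_NPR : Stmt_NPR := p_NPR t_JOP t_CCN
theorem t_CJR : Stmt_CJR := p_CJR t_BAS
theorem t_POL : Stmt_POL := p_POL t_BAS t_COM t_SPN
theorem t_HSB : Stmt_HSB := p_HSB
theorem t_HPR : Stmt_HPR := p_HPR t_BAS t_JOP
theorem t_HSU : Stmt_HSU := p_HSU t_BAS t_JOP t_HSB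
theorem t_MNC : Stmt_MNC := p_MNC t_JOP t_IMP t_PRS t_CCS t_CCN t_NPR t_CJR t_HPR t_HSU

end Pool.SI
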