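import Pool.Agent.Work.MP_118406_si.Interface

/-! # Block UTA: odd alternating products -/

set_option autoImplicit false

open scoped InnerProductSpace ComplexConjugate Topology
open Set Filter

noncomputable section

namespace Pool.SI

section UTA

variable {H : Type} [NormedAddCommGroup H] [InnerProductSpace ℂ H] [CompleteSpace H]
  (A B : StarSubalgebra ℂ (H →L[ℂ] H)) (o : H)

/-- the algebra of type `b` -/
def UTA_C (b : Bool) : StarSubalgebra ℂ (H →L[ℂ] H) := if b = true then A else B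

theorem UTA_mem (b : Bool) (c : H →L[ℂ] H) :
    (if b = true then c ∈ A else c ∈ B) ↔ c ∈ UTA_C A B b := by
  cases b <;> simp [UTA_C]

theorem UTA_cons (b : Bool) (c : H →L[ℂ] H) (l : List (H →L[ℂ] H)) :
    Alt A B o b (c :: l) ↔ c ∈ UTA_C A B b ∧ ⟪o, c o⟫_ℂ = 0 ∧ Alt A B o (!b) l := by
  rw [Alt, UTA_mem]

theorem UTA_nil (b : Bool) : Alt A B o b [] := by
  rw [Alt]
  trivial

theorem UTA_append (b : Bool) (l m : List (H →L[ℂ] H)) :
    Alt A B o b (l ++ m) ↔ Alt A B o b l ∧ Alt A B o (xor b l.length.bodd) m := by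
  induction l generalizing b with
  | nil =>
    have h : xor b (List.length ([] : List (H →L[ℂ] H))).bodd = b := by cases b <;> simp
    rw [h, List.nil_append]
    exact ⟨fun h => ⟨UTA_nil A B o b, h⟩, fun h => h.2⟩
  | cons c l ih =>
    rw [List.cons_append, UTA_cons, UTA_cons, ih, List.length_cons, Nat.bodd_succ]
    have h : xor (!b) l.length.bodd = xor b (!l.length.bodd) := by
      cases b <;> cases l.length.bodd <;> rfl
    rw [h]
    tauto

theorem UTA_reverse (b : Bool) (l : List (H →L[ℂ] H)) (h : Alt A B o b l) :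
    Alt A B o (xor b (!l.length.bodd)) (l.map star).reverse := by
  induction l generalizing b with
  | nil => exact UTA_nil A B o _
  | cons c l ih =>
    rw [UTA_cons] at h
    obtain ⟨h1, h2, h3⟩ := h
    rw [List.map_cons, List.reverse_cons, UTA_append, List.length_cons, Nat.bodd_succ,
      List.length_reverse, List.length_map]
    have e1 : xor b (!!l.length.bodd) = xor (!b) (!l.length.bodd) := by
      cases b <;> cases l.length.bodd <;> rfl
    have e2 : xor (xor b (!!l.length.bodd)) l.length.bodd = b := by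
      cases b <;> cases l.length.bodd <;> rfl
    rw [e2, e1]
    refine ⟨ih _ h3, ?_⟩
    rw [UTA_cons]
    refine ⟨star_mem h1, ?_, UTA_nil A B o _⟩
    rw [ContinuousLinearMap.star_eq_adjoint, ContinuousLinearMap.adjoint_inner_right,
      ← inner_conj_symm, h2, map_zero]


theorem UTA_star_prod (l : List (H →L[ℂ] H)) : ((l.map star).reverse).prod = star l.prod := by
  induction l with
  | nil => simp
  | cons c l ih =>
    rw [List.map_cons, List.reverse_cons, List.prod_append, ih]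
    simp only [List.prod_cons, List.prod_nil, mul_one, star_mul]

theorem UTA_adj (T : H →L[ℂ] H) (x y : H) : ⟪x, (star T) y⟫_ℂ = ⟪T x, y⟫_ℂ := by
  rw [ContinuousLinearMap.star_eq_adjoint, ContinuousLinearMap.adjoint_inner_right]

theorem UTA_orth (hF : Fre A B o) (t : Bool) (m m' : List (H →L[ℂ] H)) (hm : Alt A B o t m)
    (hne : m ≠ []) (hm' : Alt A B o (!t) m') : ⟪m.prod o, m'.prod o⟫_ℂ = 0 := by
  have h1 : Alt A B o (xor t (!m.length.bodd)) ((m.map star).reverse ++ m') := by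
    rw [UTA_append]
    refine ⟨UTA_reverse A B o t m hm, ?_⟩
    have h : xor (xor t (!m.length.bodd)) ((m.map star).reverse.length.bodd) = !t := by
      rw [List.length_reverse, List.length_map]
      cases t <;> cases m.length.bodd <;> rfl
    rw [h]
    exact hm'
  have h2 := hF _ _ h1 (by simp [hne])
  rw [List.prod_append, UTA_star_prod] at h2
  have h3 : (star m.prod * m'.prod) o = star m.prod (m'.prod o) := rfl
  rw [h3, UTA_adj] at h2
  exact h2

/-- the centred part -/
def UTA_cen (c : H →L[ℂ] H) : H →L[ℂ] H := c - ⟪o, c o⟫_ℂ • 1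

theorem UTA_cen_mem (b : Bool) (c : H →L[ℂ] H) (h : c ∈ UTA_C A B b) :
    UTA_cen o c ∈ UTA_C A B b :=
  sub_mem h ((UTA_C A B b).smul_mem (one_mem _) _)

theorem UTA_cen_zero (ho : ‖o‖ = 1) (c : H →L[ℂ] H) : ⟪o, UTA_cen o c o⟫_ℂ = 0 := by
  have h1 : UTA_cen o c o = c o - ⟪o, c o⟫_ℂ • o := rfl
  rw [h1, inner_sub_right, inner_smul_right, inner_self_eq_norm_sq_to_K, ho]
  simp

/-- the span of the alternating products -/
def UTA_V : Submodule ℂ H :=
  Submodule.span ℂ {x | ∃ (b : Bool) (m : List (H →L[ℂ] H)), Alt A B o b m ∧ x = m.prod o}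

theorem UTA_left1 (ho : ‖o‖ = 1) (b : Bool) (e : H →L[ℂ] H) (he : e ∈ UTA_C A B b)
    (m : List (H →L[ℂ] H)) (hm : Alt A B o (!b) m) : e (m.prod o) ∈ UTA_V A B o := by
  have h1 : e (m.prod o) = ⟪o, e o⟫_ℂ • m.prod o + (UTA_cen o e :: m).prod o := by
    have h2 : (UTA_cen o e :: m).prod o = e (m.prod o) - ⟪o, e o⟫_ℂ • m.prod o := by
      rw [List.prod_cons]
      rfl
    rw [h2]
    abel
  rw [h1]
  refine add_mem (Submodule.smul_mem _ _ (Submodule.subset_span ⟨!b, m, hm, rfl⟩))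
    (Submodule.subset_span ⟨b, UTA_cen o e :: m, ?_, rfl⟩)
  rw [UTA_cons]
  exact ⟨UTA_cen_mem A B o b e he, UTA_cen_zero o ho e, hm⟩

theorem UTA_left (ho : ‖o‖ = 1) (b : Bool) (c : H →L[ℂ] H) (hc : c ∈ UTA_C A B b) (x : H)
    (hx : x ∈ UTA_V A B o) : c x ∈ UTA_V A B o := by
  have h0 : UTA_V A B o ≤ (UTA_V A B o).comap (c : H →ₗ[ℂ] H) := by
    refine Submodule.span_le.2 ?_
    rintro _ ⟨b', m, hm, rfl⟩
    show c (m.prod o) ∈ UTA_V A B o
    by_cases hb : b' = !b
    · subst hb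
      exact UTA_left1 A B o ho b c hc m hm
    · have hb' : b' = b := by cases b <;> cases b' <;> simp_all
      subst hb'
      cases m with
      | nil => exact UTA_left1 A B o ho b' c hc [] (UTA_nil A B o _)
      | cons d m =>
        rw [UTA_cons] at hm
        have h1 : c ((d :: m).prod o) = (c * d) (m.prod o) := by
          rw [List.prod_cons]
          rfl
        rw [h1]
        exact UTA_left1 A B o ho b' (c * d) (mul_mem hc hm.1) m hm.2.2
  exact h0 hx

/-- the operators which preserve a subspace, with their adjoints -/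
def UTA_N (V : Submodule ℂ H) : StarSubalgebra ℂ (H →L[ℂ] H) where
  carrier := {x | ∀ w ∈ V, x w ∈ V ∧ star x w ∈ V}
  mul_mem' := by
    intro x y hx hy w hw
    refine ⟨(hx _ (hy w hw).1).1, ?_⟩
    rw [star_mul]
    exact (hy _ (hx w hw).2).2
  one_mem' := by
    intro w hw
    refine ⟨hw, ?_⟩
    rw [star_one]
    exact hw
  add_mem' := by
    intro x y hx hy w hw
    refine ⟨add_mem (hx w hw).1 (hy w hw).1, ?_⟩
    rw [star_add]
    exact add_mem (hx w hw).2 (hy w hw).2
  zero_mem' := by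
    intro w hw
    refine ⟨V.zero_mem, ?_⟩
    rw [star_zero]
    exact V.zero_mem
  algebraMap_mem' := by
    intro r w hw
    have h1 : ∀ s : ℂ, (algebraMap ℂ (H →L[ℂ] H) s) w = s • w := by
      intro s
      rw [Algebra.algebraMap_eq_smul_one]
      rfl
    refine ⟨?_, ?_⟩
    · rw [h1]
      exact V.smul_mem _ hw
    · rw [← algebraMap_star_comm, h1]
      exact V.smul_mem _ hw
  star_mem' := by
    intro x hx w hw
    refine ⟨(hx w hw).2, ?_⟩
    rw [star_star]
    exact (hx w hw).1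

theorem UTA_C_le (ho : ‖o‖ = 1) (b : Bool) : UTA_C A B b ≤ UTA_N (UTA_V A B o) := by
  intro c hc w hw
  exact ⟨UTA_left A B o ho b c hc w hw, UTA_left A B o ho b (star c) (star_mem hc) w hw⟩

theorem UTA_dense (ho : ‖o‖ = 1) (hcyc : Dense {y : H | ∃ x ∈ A ⊔ B, x o = y}) :
    Dense (UTA_V A B o : Set H) := by
  refine hcyc.mono ?_
  rintro _ ⟨x, hx, rfl⟩
  have h1 : A ⊔ B ≤ UTA_N (UTA_V A B o) :=
    sup_le (UTA_C_le A B o ho true) (UTA_C_le A B o ho false)
  have h2 : o ∈ UTA_V A B o := Submodule.subset_span ⟨true, [], UTA_nil A B o _, rfl⟩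
  exact (h1 hx o h2).1

/-- the space `K` -/
def UTA_S (t : Bool) : Submodule ℂ H :=
  Submodule.span ℂ {x | ∃ m : List (H →L[ℂ] H), Alt A B o t m ∧ m ≠ [] ∧ x = m.prod o}

/-- the space `K'` -/
def UTA_S' (t : Bool) : Submodule ℂ H :=
  Submodule.span ℂ {x | ∃ m : List (H →L[ℂ] H), Alt A B o (!t) m ∧ x = m.prod o}

theorem UTA_K_orth (hF : Fre A B o) (t : Bool) :
    (UTA_S' A B o t).topologicalClosure ≤ (UTA_S A B o t)ᗮ := by
  refine Submodule.topologicalClosure_minimal _ ?_ (Submodule.isClosed_orthogonal _)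
  refine Submodule.span_le.2 ?_
  rintro _ ⟨m', hm', rfl⟩
  rw [SetLike.mem_coe, Submodule.mem_orthogonal]
  intro u hu
  have h1 : UTA_S A B o t ≤ (Submodule.span ℂ {m'.prod o})ᗮ := by
    refine Submodule.span_le.2 ?_
    rintro _ ⟨m, hm, hne, rfl⟩
    rw [SetLike.mem_coe, Submodule.mem_orthogonal_singleton_iff_inner_left]
    exact UTA_orth A B o hF t m m' hm hne hm'
  exact (Submodule.mem_orthogonal_singleton_iff_inner_left).1 (h1 hu)

theorem UTA_X (hF : Fre A B o) (ho : ‖o‖ = 1)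
    (hcyc : Dense {y : H | ∃ x ∈ A ⊔ B, x o = y}) (t : Bool) (l : List (H →L[ℂ] H))
    (hl : Alt A B o t l) (hodd : l.length % 2 = 1) :
    ∀ x ∈ ((UTA_S A B o t).topologicalClosure)ᗮ,
      l.prod x ∈ (UTA_S A B o t).topologicalClosure := by
  have hbodd : l.length.bodd = true := by
    rw [Nat.mod_two_of_bodd] at hodd
    cases h : l.length.bodd with
    | true => rfl
    | false =>
      rw [h] at hodd
      simp at hodd
  have hne : l ≠ [] := by
    rintro rfl
    simp at hodd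
  have h1 : (UTA_S' A B o t).topologicalClosure ≤
      (UTA_S A B o t).topologicalClosure.comap (l.prod : H →ₗ[ℂ] H) := by
    refine Submodule.topologicalClosure_minimal _ ?_ ?_
    · refine Submodule.span_le.2 ?_
      rintro _ ⟨m, hm, rfl⟩
      show l.prod (m.prod o) ∈ (UTA_S A B o t).topologicalClosure
      refine Submodule.le_topologicalClosure _ (Submodule.subset_span ⟨l ++ m, ?_, by simp [hne], ?_⟩)
      · rw [UTA_append, hbodd]
        refine ⟨hl, ?_⟩
        have : xor t true = !t := by cases t <;> rfl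
        rw [this]
        exact hm
      · rw [List.prod_append]
        rfl
    · exact (Submodule.isClosed_topologicalClosure _).preimage l.prod.continuous
  intro x hx
  obtain ⟨y, hy, z, hz, hxyz⟩ :=
    ((UTA_S' A B o t).topologicalClosure).exists_add_mem_mem_orthogonal x
  have hy' := UTA_K_orth A B o hF t hy
  rw [Submodule.orthogonal_closure] at hx hz
  have hz' : z ∈ (UTA_S A B o t)ᗮ := by
    have : z = x - y := by rw [hxyz]; abel
    rw [this]
    exact Submodule.sub_mem _ hx hy'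
  have hz0 : z = 0 := by
    refine (UTA_dense A B o ho hcyc).eq_zero_of_inner_right ℂ ?_
    intro v hv
    have h2 : UTA_V A B o ≤ (Submodule.span ℂ {z})ᗮ := by
      refine Submodule.span_le.2 ?_
      rintro _ ⟨b, m, hm, rfl⟩
      rw [SetLike.mem_coe, Submodule.mem_orthogonal_singleton_iff_inner_left]
      by_cases hb : b = !t
      · subst hb
        exact (Submodule.mem_orthogonal _ _).1 hz _ (Submodule.subset_span ⟨m, hm, rfl⟩)
      · have hb' : b = t := by cases b <;> cases t <;> simp_all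
        subst hb'
        cases m with
        | nil =>
          exact (Submodule.mem_orthogonal _ _).1 hz _
            (Submodule.subset_span ⟨[], UTA_nil A B o _, rfl⟩)
        | cons d m =>
          exact (Submodule.mem_orthogonal _ _).1 hz' _
            (Submodule.subset_span ⟨d :: m, hm, by simp, rfl⟩)
    exact (Submodule.mem_orthogonal_singleton_iff_inner_left).1 (h2 hv)
  rw [hz0, add_zero] at hxyz
  rw [hxyz]
  exact h1 hy

theorem UTA_pow (hF : Fre A B o) (t : Bool) (w : H →L[ℂ] H) (hw : w ∈ UTA_C A B (!t))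
    (hH : Haar w o) (n : ℕ) (hn : 0 < n) :
    ∀ x ∈ (UTA_S A B o t).topologicalClosure, ∀ y ∈ (UTA_S A B o t).topologicalClosure,
      ⟪x, (w ^ n) y⟫_ℂ = 0 := by
  have h1 : (UTA_S A B o t).topologicalClosure ≤ (UTA_S A B o t)ᗮ.comap
      ((w ^ n : H →L[ℂ] H) : H →ₗ[ℂ] H) := by
    refine Submodule.topologicalClosure_minimal _ ?_
      ((Submodule.isClosed_orthogonal _).preimage (w ^ n).continuous)
    refine Submodule.span_le.2 ?_
    rintro _ ⟨m, hm, hne, rfl⟩
    show (w ^ n) (m.prod o) ∈ (UTA_S A B o t)ᗮ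
    refine UTA_K_orth A B o hF t (Submodule.le_topologicalClosure _
      (Submodule.subset_span ⟨w ^ n :: m, ?_, ?_⟩))
    · rw [UTA_cons, Bool.not_not]
      exact ⟨pow_mem hw n, hH.2.2 n hn, hm⟩
    · rw [List.prod_cons]
      rfl
  intro x hx y hy
  have h2 : (w ^ n) y ∈ ((UTA_S A B o t).topologicalClosure)ᗮ := by
    rw [Submodule.orthogonal_closure]
    exact h1 hy
  exact (Submodule.mem_orthogonal _ _).1 h2 x hx

end UTA

theorem UTA_main (hPOW : Stmt_POW) (H : Type) [NormedAddCommGroup H] [InnerProductSpace ℂ H]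
    [CompleteSpace H] (o : H) (A B : StarSubalgebra ℂ (H →L[ℂ] H)) (ho : ‖o‖ = 1)
    (hF : Fre A B o) (hcyc : Dense {y : H | ∃ x ∈ A ⊔ B, x o = y})
    (σ : ((A ⊔ B).topologicalClosure : StarSubalgebra ℂ (H →L[ℂ] H)) →L[ℂ] ℂ)
    (hσ : ∀ x y, σ (x * y) = σ (y * x)) (t : Bool) (l : List (H →L[ℂ] H))
    (hl : Alt A B o t l) (hodd : l.length % 2 = 1)
    (w : H →L[ℂ] H) (hw : w ∈ UTA_C A B (!t)) (hH : Haar w o)
    (x : ((A ⊔ B).topologicalClosure : StarSubalgebra ℂ (H →L[ℂ] H)))
    (hx : (x : H →L[ℂ] H) = l.prod) : σ x = 0 := by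
  have hwU : w ∈ unitary (H →L[ℂ] H) := Unitary.mem_iff.2 ⟨hH.1, hH.2.1⟩
  have hwp : ∀ n : ℕ, star (w ^ n) * w ^ n = 1 ∧ w ^ n * star (w ^ n) = 1 := fun n =>
    Unitary.mem_iff.1 (pow_mem hwU n)
  have hwAB : w ∈ (A ⊔ B).topologicalClosure := by
    refine StarSubalgebra.le_topologicalClosure _ ?_
    have h1 : UTA_C A B (!t) ≤ A ⊔ B := by
      cases t
      · exact le_sup_left
      · exact le_sup_right
    exact h1 hw
  have horth : ∀ (N : ℕ) (p q : Fin N), p ≠ q → ∀ x ∈ (UTA_S A B o t).topologicalClosure,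
      ∀ y ∈ (UTA_S A B o t).topologicalClosure,
      ⟪(w ^ (p : ℕ)) x, (w ^ (q : ℕ)) y⟫_ℂ = 0 := by
    have hlt : ∀ (p q : ℕ), p < q → ∀ x ∈ (UTA_S A B o t).topologicalClosure,
        ∀ y ∈ (UTA_S A B o t).topologicalClosure, ⟪(w ^ p) x, (w ^ q) y⟫_ℂ = 0 := by
      intro p q hpq x hx y hy
      have h1 : (w ^ q) y = (w ^ p) ((w ^ (q - p)) y) := by
        have : w ^ q = w ^ p * w ^ (q - p) := by
          rw [← pow_add]
          congr 1
          omega
        rw [this]
        rfl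
      rw [h1, ← UTA_adj]
      have h2 : (star (w ^ p)) ((w ^ p) ((w ^ (q - p)) y)) = (w ^ (q - p)) y := by
        have h3 := congrArg (fun T : H →L[ℂ] H => T ((w ^ (q - p)) y)) (hwp p).1
        exact h3
      rw [h2]
      exact UTA_pow A B o hF t w hw hH (q - p) (by omega) x hx y hy
    intro N p q hpq x hx y hy
    rcases lt_or_gt_of_ne (fun h => hpq (Fin.ext h)) with h | h
    · exact hlt p q h x hx y hy
    · rw [← inner_conj_symm, hlt q p h y hy x hx, map_zero]
  set W : ((A ⊔ B).topologicalClosure : StarSubalgebra ℂ (H →L[ℂ] H)) := ⟨w, hwAB⟩ with hW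
  have hWp : ∀ n : ℕ, star (W ^ n) * W ^ n = 1 := by
    intro n
    apply Subtype.ext
    exact (hwp n).1
  have hbound : ∀ N : ℕ, (N : ℝ) * ‖σ x‖ ≤ ‖σ‖ * (2 * Real.sqrt N * ‖l.prod‖) := by
    intro N
    have h1 := hPOW H (UTA_S A B o t).topologicalClosure l.prod N (fun p => w ^ (p : ℕ))
      (Submodule.isClosed_topologicalClosure _) (UTA_X A B o hF ho hcyc t l hl hodd)
      (fun p => hwp p) (horth N)
    have h2 : σ (∑ p : Fin N, W ^ (p : ℕ) * x * star (W ^ (p : ℕ))) = N * σ x := by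
      rw [map_sum]
      have h3 : ∀ p : Fin N, σ (W ^ (p : ℕ) * x * star (W ^ (p : ℕ))) = σ x := by
        intro p
        rw [hσ, ← mul_assoc, hWp, one_mul]
      rw [Finset.sum_congr rfl fun p _ => h3 p]
      simp
    have h4 : ((∑ p : Fin N, W ^ (p : ℕ) * x * star (W ^ (p : ℕ)) :
        ((A ⊔ B).topologicalClosure : StarSubalgebra ℂ (H →L[ℂ] H))) : H →L[ℂ] H) =
        ∑ p : Fin N, w ^ (p : ℕ) * l.prod * star (w ^ (p : ℕ)) := by
      rw [AddSubmonoidClass.coe_finsetSum]
      refine Finset.sum_congr rfl fun p _ => ?_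
      rw [← hx]
      rfl
    have h5 : ‖(∑ p : Fin N, W ^ (p : ℕ) * x * star (W ^ (p : ℕ)) :
        ((A ⊔ B).topologicalClosure : StarSubalgebra ℂ (H →L[ℂ] H)))‖ ≤
        2 * Real.sqrt N * ‖l.prod‖ := by
      have h6 : ‖(∑ p : Fin N, W ^ (p : ℕ) * x * star (W ^ (p : ℕ)) :
        ((A ⊔ B).topologicalClosure : StarSubalgebra ℂ (H →L[ℂ] H)))‖ =
        ‖((∑ p : Fin N, W ^ (p : ℕ) * x * star (W ^ (p : ℕ)) :
        ((A ⊔ B).topologicalClosure : StarSubalgebra ℂ (H →L[ℂ] H))) : H →L[ℂ] H)‖ := rfl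
      rw [h6, h4]
      exact h1
    have h7 := σ.le_opNorm (∑ p : Fin N, W ^ (p : ℕ) * x * star (W ^ (p : ℕ)))
    rw [h2, norm_mul] at h7
    have h8 : ‖((N : ℂ))‖ = (N : ℝ) := by simp
    rw [h8] at h7
    exact h7.trans (mul_le_mul_of_nonneg_left h5 (norm_nonneg _))
  by_contra hne
  have hpos : 0 < ‖σ x‖ := norm_pos_iff.2 hne
  set c : ℝ := ‖σ‖ * (2 * ‖l.prod‖) with hc
  obtain ⟨n, hn⟩ := exists_nat_gt (c / ‖σ x‖)
  have hcn : 0 ≤ c := by positivity
  have hn0 : 0 < (n : ℝ) := lt_of_le_of_lt (by positivity) hn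
  have h1 := hbound (n ^ 2)
  have h2 : Real.sqrt ((n ^ 2 : ℕ) : ℝ) = n := by
    push_cast
    exact Real.sqrt_sq hn0.le
  rw [h2] at h1
  push_cast at h1
  rw [div_lt_iff₀ hpos] at hn
  have h3 : (n : ℝ) ^ 2 * ‖σ x‖ ≤ c * n := by
    rw [hc]
    linarith
  nlinarith

theorem p_UTA (hPOW : Stmt_POW) : Stmt_UTA := by
  intro H _ _ _ o A B u v ho hF hu hv hHu hHv hcyc σ hσ b l hl hodd x hx
  cases b with
  | true => exact UTA_main hPOW H o A B ho hF hcyc σ hσ true l hl hodd v hv hHv x hx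
  | false => exact UTA_main hPOW H o A B ho hF hcyc σ hσ false l hl hodd u hu hHu x hx

end Pool.SI
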