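import Pool.Agent.Work.MP_118406_si.Interface

set_option autoImplicit false

/-!
# Block BAS (helper12): annihilation operators on the basis
-/

open scoped InnerProductSpace ComplexConjugate Topology
open Set Filter

noncomputable section

namespace Pool.SI

theorem BAS_ext {k : ℕ} {f g : Fk k} (h : ∀ v, f v = g v) : f = g := by
  apply lp.ext
  funext v
  exact h v

theorem BAS_lc {k : ℕ} (i : Fin k) (ξ : Fk k) (v : List (Fin k)) :
    (ContinuousLinearMap.adjoint (lc i) ξ : Fk k) v = ξ (i :: v) := by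
  rw [← bs_inner, ContinuousLinearMap.adjoint_inner_right, lc_bs, bs_inner]

theorem BAS_rc {k : ℕ} (i : Fin k) (ξ : Fk k) (v : List (Fin k)) :
    (ContinuousLinearMap.adjoint (rc i) ξ : Fk k) v = ξ (v ++ [i]) := by
  rw [← bs_inner, ContinuousLinearMap.adjoint_inner_right, rc_bs, bs_inner]

theorem BAS_zero {k : ℕ} (v : List (Fin k)) : (0 : Fk k) v = 0 := rfl

theorem BAS_ite {k : ℕ} (p : Prop) [Decidable p] (w v : List (Fin k)) :
    ((if p then bs w else 0 : Fk k)) v = if p then (if v = w then 1 else 0) else 0 := by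
  split_ifs with h1 h2
  · rw [bs_apply, if_pos h2]
  · rw [bs_apply, if_neg h2]
  · rfl

theorem BAS_single {k : ℕ} (w : List (Fin k)) (c : ℂ) :
    (lp.single 2 w c : Fk k) = c • bs w := by
  rw [bs, ← lp.single_smul]
  simp

theorem BAS_dense {k : ℕ} :
    Dense (Submodule.span ℂ (range (bs : List (Fin k) → Fk k)) : Set (Fk k)) := by
  intro f
  have h := lp.hasSum_single (p := 2) (by norm_num) f
  have h2 : ∀ s : Finset (List (Fin k)), (∑ w ∈ s, (lp.single 2 w (f w) : Fk k)) ∈
      (Submodule.span ℂ (range (bs : List (Fin k) → Fk k)) : Set (Fk k)) := by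
    intro s
    refine Submodule.sum_mem _ fun w _ => ?_
    rw [BAS_single]
    exact Submodule.smul_mem _ _ (Submodule.subset_span ⟨w, rfl⟩)
  exact mem_closure_of_tendsto h (Filter.Eventually.of_forall h2)

theorem p_BAS : Stmt_BAS := by
  intro k
  refine ⟨BAS_lc, BAS_rc, ?_, ?_, ?_, BAS_dense, ?_, ?_⟩
  · intro i
    constructor
    · apply BAS_ext
      intro v
      rw [BAS_lc, vac, bs_apply, if_neg (by simp), BAS_zero]
    · apply BAS_ext
      intro v
      rw [BAS_rc, vac, bs_apply, if_neg (by simp), BAS_zero]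
  · intro i j w
    constructor
    · apply BAS_ext
      intro v
      rw [BAS_lc, bs_apply, BAS_ite]
      by_cases h : i = j
      · subst h
        simp
      · rw [if_neg (by simp [h]), if_neg h]
    · apply BAS_ext
      intro v
      rw [BAS_rc, bs_apply, BAS_ite]
      by_cases h : i = j
      · subst h
        simp
      · rw [if_neg (by simp [h]), if_neg h]
  · intro S T h
    refine ContinuousLinearMap.ext_on BAS_dense ?_
    rintro _ ⟨w, rfl⟩
    exact h w
  · intro i
    rw [sc, star_add, ContinuousLinearMap.star_eq_adjoint, ContinuousLinearMap.star_eq_adjoint,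
      ContinuousLinearMap.adjoint_adjoint, add_comm]
  · intro i
    have h1 : ‖(lc i : Fk k →L[ℂ] Fk k)‖ ≤ 1 := LinearIsometry.norm_toContinuousLinearMap_le _
    have h2 : ‖ContinuousLinearMap.adjoint (lc i : Fk k →L[ℂ] Fk k)‖ =
        ‖(lc i : Fk k →L[ℂ] Fk k)‖ := LinearIsometryEquiv.norm_map _ _
    calc ‖(sc i : Fk k →L[ℂ] Fk k)‖ ≤ ‖(lc i : Fk k →L[ℂ] Fk k)‖ +
          ‖ContinuousLinearMap.adjoint (lc i : Fk k →L[ℂ] Fk k)‖ := norm_add_le _ _
      _ ≤ 2 := by rw [h2]; linarith

end Pool.SI
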