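import Pool.Agent.Work.MP_118406_si.Interface

set_option autoImplicit false

/-!
# Block CJR: conjugation by the unitary of an isomorphism
-/

open scoped InnerProductSpace ComplexConjugate Topology
open Set Filter

noncomputable section

namespace Pool.SI

theorem CJR_symm {k k' : ℕ} {φ : Alg k' ≃⋆ₐ[ℂ] Alg k} {U : Fk k' ≃ₗᵢ[ℂ] Fk k} (h : Imp φ U) :
    Imp φ.symm U.symm := by
  obtain ⟨h1, h2, h3⟩ := h
  refine ⟨?_, fun x ξ => ?_, fun ξ => ?_⟩
  · rw [← h1, U.symm_apply_apply]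
  · apply U.injective
    rw [U.apply_symm_apply, h2, StarAlgEquiv.apply_symm_apply, U.apply_symm_apply]
  · apply U.injective
    rw [U.apply_symm_apply, h3, U.apply_symm_apply]

theorem CJR_apply {k k' : ℕ} (U : Fk k' ≃ₗᵢ[ℂ] Fk k) (T : Fk k' →L[ℂ] Fk k') (ξ : Fk k) :
    cj U T ξ = U (T (U.symm ξ)) := rfl

theorem CJR_half (hBAS : Stmt_BAS) {k k' : ℕ} (φ : Alg k' ≃⋆ₐ[ℂ] Alg k)
    (U : Fk k' ≃ₗᵢ[ℂ] Fk k) (h : Imp φ U) (j : Fin k') :
    (cj U (ContinuousLinearMap.adjoint (rc j))) (vac k) = 0 ∧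
    (∀ i : Fin k, cj U (ContinuousLinearMap.adjoint (rc j)) * sc i -
      sc i * cj U (ContinuousLinearMap.adjoint (rc j)) =
        cj U (dq j (φ.symm (ge i) : Fk k' →L[ℂ] Fk k'))) ∧
    ∀ l : Fin k', ⟪vac k, cj U (ContinuousLinearMap.adjoint (rc j))
      ((φ (ge l) : Fk k →L[ℂ] Fk k) (vac k))⟫_ℂ = if j = l then 1 else 0 := by
  obtain ⟨s1, s2, -⟩ := CJR_symm h
  obtain ⟨h1, h2, h3⟩ := h
  obtain ⟨-, -, b3, b4, -⟩ := hBAS k'
  refine ⟨?_, fun i => ?_, fun l => ?_⟩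
  · rw [CJR_apply, s1, (b3 j).2, map_zero]
  · refine ContinuousLinearMap.ext fun ξ => ?_
    have e1 : U.symm ((sc i : Fk k →L[ℂ] Fk k) ξ) =
        (φ.symm (ge i) : Fk k' →L[ℂ] Fk k') (U.symm ξ) := s2 (ge i) ξ
    have e2 : ∀ η : Fk k', (sc i : Fk k →L[ℂ] Fk k) (U η) =
        U ((φ.symm (ge i) : Fk k' →L[ℂ] Fk k') η) := by
      intro η
      rw [h2, StarAlgEquiv.apply_symm_apply]
      rfl
    have e3 : (cj U (ContinuousLinearMap.adjoint (rc j)) * sc i -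
        sc i * cj U (ContinuousLinearMap.adjoint (rc j))) ξ =
        U (ContinuousLinearMap.adjoint (rc j) (U.symm ((sc i : Fk k →L[ℂ] Fk k) ξ))) -
        (sc i : Fk k →L[ℂ] Fk k) (U (ContinuousLinearMap.adjoint (rc j) (U.symm ξ))) := rfl
    rw [e3, e1, e2, ← map_sub]
    rfl
  · have e1 : (φ (ge l) : Fk k →L[ℂ] Fk k) (vac k) = U ((sc l : Fk k' →L[ℂ] Fk k') (vac k')) := by
      have e2 := h2 (ge l) (vac k')
      rw [h1] at e2
      exact e2.symm
    have e3 : (sc l : Fk k' →L[ℂ] Fk k') (vac k') = bs [l] := by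
      rw [sc, add_apply, (b3 l).1, add_zero, vac, lc_bs]
    have e4 : ContinuousLinearMap.adjoint (rc j) (bs [l] : Fk k') =
        (if j = l then bs [] else 0) := (b4 j l []).2
    rw [e1, CJR_apply, U.symm_apply_apply, e3, e4]
    by_cases hjl : j = l
    · rw [if_pos hjl, if_pos hjl]
      have e5 : U (bs [] : Fk k') = vac k := h1
      rw [e5, vac, bs_inner, bs_apply, if_pos rfl]
    · rw [if_neg hjl, if_neg hjl, map_zero, inner_zero_right]

theorem p_CJR (hBAS : Stmt_BAS) : Stmt_CJR := by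
  intro k k' φ U h
  exact ⟨fun j => CJR_half hBAS φ U h j, fun i => CJR_half hBAS φ.symm U.symm (CJR_symm h) i⟩

end Pool.SI
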