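import Pool.Agent.Work.MP_118406_si.Interface2

set_option autoImplicit false

/-!
# MP_118406_an, THEOREM SI, block CPT: the commutators with `E l` are limits of finite rank operators
-/

open scoped InnerProductSpace ComplexConjugate Topology
open Set Filter

noncomputable section

namespace Pool.SI

section gen

variable {H : Type} [NormedAddCommGroup H] [InnerProductSpace ℂ H] [CompleteSpace H]

/-- The operators `S` with `⟪b x_N, S c y_N⟫ → 0` for all bounded `b`, `c`. -/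
def CPT_S (x y : ℕ → H) (S : H →L[ℂ] H) : Prop :=
  ∀ b c : H →L[ℂ] H, Tendsto (fun N => ⟪b (x N), S (c (y N))⟫_ℂ) atTop (𝓝 0)

theorem CPT_zero (x y : ℕ → H) : CPT_S x y 0 := by
  intro b c
  have h1 : (fun N => ⟪b (x N), (0 : H →L[ℂ] H) (c (y N))⟫_ℂ) = fun _ => (0 : ℂ) := by
    funext N
    rw [ContinuousLinearMap.zero_apply, inner_zero_right]
  rw [h1]
  exact tendsto_const_nhds

theorem CPT_add {x y : ℕ → H} {S T : H →L[ℂ] H} (hS : CPT_S x y S) (hT : CPT_S x y T) :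
    CPT_S x y (S + T) := by
  intro b c
  have h1 : (fun N => ⟪b (x N), (S + T) (c (y N))⟫_ℂ) =
      fun N => ⟪b (x N), S (c (y N))⟫_ℂ + ⟪b (x N), T (c (y N))⟫_ℂ := by
    funext N
    rw [ContinuousLinearMap.add_apply, inner_add_right]
  rw [h1]
  simpa using (hS b c).add (hT b c)

theorem CPT_neg {x y : ℕ → H} {S : H →L[ℂ] H} (hS : CPT_S x y S) : CPT_S x y (-S) := by
  intro b c
  have h1 : (fun N => ⟪b (x N), (-S) (c (y N))⟫_ℂ) = fun N => -⟪b (x N), S (c (y N))⟫_ℂ := by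
    funext N
    rw [ContinuousLinearMap.neg_apply, inner_neg_right]
  rw [h1]
  simpa using (hS b c).neg

theorem CPT_left {x y : ℕ → H} {S : H →L[ℂ] H} (a : H →L[ℂ] H) (hS : CPT_S x y S) :
    CPT_S x y (a * S) := by
  intro b c
  have h1 : (fun N => ⟪b (x N), (a * S) (c (y N))⟫_ℂ) =
      fun N => ⟪(ContinuousLinearMap.adjoint a * b) (x N), S (c (y N))⟫_ℂ := by
    funext N
    rw [ContinuousLinearMap.mul_apply, ContinuousLinearMap.mul_apply,
      ContinuousLinearMap.adjoint_inner_left]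
  rw [h1]
  exact hS _ _

theorem CPT_right {x y : ℕ → H} {S : H →L[ℂ] H} (a : H →L[ℂ] H) (hS : CPT_S x y S) :
    CPT_S x y (S * a) := by
  intro b c
  have h1 : (fun N => ⟪b (x N), (S * a) (c (y N))⟫_ℂ) =
      fun N => ⟪b (x N), S ((a * c) (y N))⟫_ℂ := by
    funext N
    rw [ContinuousLinearMap.mul_apply, ContinuousLinearMap.mul_apply]
  rw [h1]
  exact hS _ _

theorem CPT_closed (x y : ℕ → H) (C D : ℝ) (hx : ∀ N, ‖x N‖ ≤ C) (hy : ∀ N, ‖y N‖ ≤ D) :
    IsClosed {S : H →L[ℂ] H | CPT_S x y S} := by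
  have hC : 0 ≤ C := (norm_nonneg _).trans (hx 0)
  have hD : 0 ≤ D := (norm_nonneg _).trans (hy 0)
  refine isClosed_of_closure_subset ?_
  intro S hS b c
  rw [Metric.tendsto_atTop]
  intro ε hε
  obtain ⟨M, hM⟩ : ∃ M : ℝ, M = ‖b‖ * C * (‖c‖ * D) + 1 := ⟨_, rfl⟩
  have hM0 : 0 < M := by rw [hM]; positivity
  obtain ⟨T, hT, hST⟩ := Metric.mem_closure_iff.1 hS (ε / (2 * M)) (by positivity)
  obtain ⟨N0, hN0⟩ := (Metric.tendsto_atTop.1 (hT b c)) (ε / 2) (by positivity)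
  refine ⟨N0, fun N hN => ?_⟩
  have h1 := hN0 N hN
  rw [dist_zero_right] at h1 ⊢
  have h2 : ⟪b (x N), S (c (y N))⟫_ℂ = ⟪b (x N), (S - T) (c (y N))⟫_ℂ + ⟪b (x N), T (c (y N))⟫_ℂ := by
    rw [ContinuousLinearMap.sub_apply, inner_sub_right, sub_add_cancel]
  have h3 : ‖⟪b (x N), (S - T) (c (y N))⟫_ℂ‖ ≤ ‖b‖ * C * (‖S - T‖ * (‖c‖ * D)) := by
    refine (norm_inner_le_norm _ _).trans ?_
    refine mul_le_mul ?_ ?_ (norm_nonneg _) (by positivity)
    · exact (b.le_opNorm _).trans (mul_le_mul_of_nonneg_left (hx N) (norm_nonneg _))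
    · refine ((S - T).le_opNorm _).trans (mul_le_mul_of_nonneg_left ?_ (norm_nonneg _))
      exact (c.le_opNorm _).trans (mul_le_mul_of_nonneg_left (hy N) (norm_nonneg _))
  have h4 : ‖S - T‖ < ε / (2 * M) := by rwa [dist_eq_norm] at hST
  have h5 : ‖b‖ * C * (‖S - T‖ * (‖c‖ * D)) ≤ ε / 2 := by
    have e1 : ‖b‖ * C * (‖S - T‖ * (‖c‖ * D)) = ‖S - T‖ * (‖b‖ * C * (‖c‖ * D)) := by ring
    rw [e1]
    have e2 : ‖b‖ * C * (‖c‖ * D) ≤ M := by rw [hM]; linarith
    calc ‖S - T‖ * (‖b‖ * C * (‖c‖ * D)) ≤ ε / (2 * M) * M :=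
          mul_le_mul h4.le e2 (by positivity) (by positivity)
      _ = ε / 2 := by field_simp
  rw [h2]
  refine (norm_add_le _ _).trans_lt ?_
  linarith

/-- The star subalgebra of the `y` whose commutators with all `E l` are small. -/
def CPT_T (x y : ℕ → H) {n : ℕ} (E : Fin n → (H →L[ℂ] H)) : StarSubalgebra ℂ (H →L[ℂ] H) where
  carrier := {z | ∀ l, CPT_S x y (E l * z - z * E l) ∧ CPT_S x y (E l * star z - star z * E l)}
  mul_mem' := by
    intro a b ha hb l
    constructor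
    · have h1 : E l * (a * b) - a * b * E l = (E l * a - a * E l) * b + a * (E l * b - b * E l) := by
        rw [sub_mul, mul_sub, mul_assoc, mul_assoc, mul_assoc]
        abel
      rw [h1]
      exact CPT_add (CPT_right b (ha l).1) (CPT_left a (hb l).1)
    · have h1 : E l * star (a * b) - star (a * b) * E l =
          (E l * star b - star b * E l) * star a + star b * (E l * star a - star a * E l) := by
        rw [star_mul, sub_mul, mul_sub, mul_assoc, mul_assoc, mul_assoc]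
        abel
      rw [h1]
      exact CPT_add (CPT_right _ (hb l).2) (CPT_left _ (ha l).2)
  add_mem' := by
    intro a b ha hb l
    constructor
    · have h1 : E l * (a + b) - (a + b) * E l = (E l * a - a * E l) + (E l * b - b * E l) := by
        rw [mul_add, add_mul]
        abel
      rw [h1]
      exact CPT_add (ha l).1 (hb l).1
    · have h1 : E l * star (a + b) - star (a + b) * E l =
          (E l * star a - star a * E l) + (E l * star b - star b * E l) := by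
        rw [star_add, mul_add, add_mul]
        abel
      rw [h1]
      exact CPT_add (ha l).2 (hb l).2
  algebraMap_mem' := by
    intro r l
    constructor
    · rw [← Algebra.commutes r (E l), sub_self]
      exact CPT_zero x y
    · rw [← algebraMap_star_comm, ← Algebra.commutes _ (E l), sub_self]
      exact CPT_zero x y
  star_mem' := by
    intro a ha l
    refine ⟨(ha l).2, ?_⟩
    rw [star_star]
    exact (ha l).1

end gen

theorem CPT_norm {k : ℕ} (v : Fk k →L[ℂ] Fk k) (hv : star v * v = 1) (ξ : Fk k) (N : ℕ) :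
    ‖(v ^ N) ξ‖ = ‖ξ‖ := by
  have h1 : ∀ ζ : Fk k, ‖v ζ‖ = ‖ζ‖ := by
    intro ζ
    have h2 : ‖v ζ‖ ^ 2 = ‖ζ‖ ^ 2 := by
      have h3 : ⟪v ζ, v ζ⟫_ℂ = ⟪ζ, ζ⟫_ℂ := by
        rw [← ContinuousLinearMap.adjoint_inner_right]
        have h4 : (ContinuousLinearMap.adjoint v) (v ζ) = (star v * v) ζ := rfl
        rw [h4, hv]
        rfl
      rw [inner_self_eq_norm_sq_to_K, inner_self_eq_norm_sq_to_K] at h3
      exact_mod_cast h3
    exact (sq_eq_sq₀ (norm_nonneg _) (norm_nonneg _)).1 h2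
  induction N with
  | zero => rw [pow_zero]; rfl
  | succ N ih =>
    rw [pow_succ', ContinuousLinearMap.mul_apply, h1, ih]

theorem p_CPT (hJ : Stmt_JOP) (hW : Stmt_WKZ) : Stmt_CPT := by
  intro k n B E hE v hvA hv y hy l ξ η
  obtain ⟨-, -, hJJ, -, hJn, hJi, -⟩ := hJ k
  obtain ⟨x', hx'⟩ : ∃ x' : ℕ → Fk k, ∀ N, x' N = Jf ((v ^ N) ξ) := ⟨_, fun _ => rfl⟩
  obtain ⟨y', hy'⟩ : ∃ y' : ℕ → Fk k, ∀ N, y' N = Jf ((v ^ N) η) := ⟨_, fun _ => rfl⟩
  have hxn : ∀ N, ‖x' N‖ ≤ ‖ξ‖ := fun N => by rw [hx', hJn, CPT_norm v hv.1]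
  have hyn : ∀ N, ‖y' N‖ ≤ ‖η‖ := fun N => by rw [hy', hJn, CPT_norm v hv.1]
  have hyw : ∀ ζ : Fk k, Tendsto (fun N => ⟪ζ, y' N⟫_ℂ) atTop (𝓝 0) := by
    intro ζ
    have h1 : (fun N => ⟪ζ, y' N⟫_ℂ) = fun N => conj ⟪Jf ζ, (v ^ N) η⟫_ℂ := by
      funext N
      rw [hy', inner_conj_symm, ← hJi, hJJ]
    rw [h1]
    have h2 := hW k v hvA hv (Jf ζ) η
    have h3 := (Complex.continuous_conj.tendsto (0 : ℂ)).comp h2
    rw [map_zero] at h3
    exact h3
  have hP : CPT_S x' y' (Pr (vac k)) := by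
    intro b c
    have h1 : (fun N => ⟪b (x' N), (Pr (vac k)) (c (y' N))⟫_ℂ) =
        fun N => ⟪(ContinuousLinearMap.adjoint c) (vac k), y' N⟫_ℂ * ⟪b (x' N), vac k⟫_ℂ := by
      funext N
      have h2 : (Pr (vac k)) (c (y' N)) = ⟪vac k, c (y' N)⟫_ℂ • vac k := rfl
      rw [h2, inner_smul_right, ContinuousLinearMap.adjoint_inner_left]
    rw [h1]
    have h3 : Tendsto (fun N => ‖b‖ * ‖ξ‖ * ‖vac k‖ *
        ‖⟪(ContinuousLinearMap.adjoint c) (vac k), y' N⟫_ℂ‖) atTop (𝓝 0) := by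
      have h4 := (hyw ((ContinuousLinearMap.adjoint c) (vac k))).norm
      rw [norm_zero] at h4
      simpa using h4.const_mul (‖b‖ * ‖ξ‖ * ‖vac k‖)
    refine squeeze_zero_norm (fun N => ?_) h3
    rw [norm_mul, mul_comm]
    refine mul_le_mul_of_nonneg_right ?_ (norm_nonneg _)
    refine (norm_inner_le_norm _ _).trans (mul_le_mul_of_nonneg_right ?_ (norm_nonneg _))
    exact (b.le_opNorm _).trans (mul_le_mul_of_nonneg_left (hxn N) (norm_nonneg _))
  have hBT : ∀ j, B j ≤ CPT_T x' y' E := by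
    intro j a ha
    have h1 : ∀ a' ∈ B j, ∀ l', CPT_S x' y' (E l' * a' - a' * E l') := by
      intro a' ha' l'
      rw [hE.2 l' j a' ha']
      split_ifs
      · rw [sub_eq_add_neg]
        exact CPT_add (CPT_left _ hP) (CPT_neg (CPT_right _ hP))
      · exact CPT_zero _ _
    intro l'
    exact ⟨h1 a ha l', h1 (star a) (star_mem ha) l'⟩
  have hTc : IsClosed ((CPT_T x' y' E : StarSubalgebra ℂ (Fk k →L[ℂ] Fk k)) :
      Set (Fk k →L[ℂ] Fk k)) := by
    have h1 : ((CPT_T x' y' E : StarSubalgebra ℂ (Fk k →L[ℂ] Fk k)) : Set (Fk k →L[ℂ] Fk k)) =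
        ⋂ l', ((fun z : Fk k →L[ℂ] Fk k => E l' * z - z * E l') ⁻¹' {S | CPT_S x' y' S}) ∩
          ((fun z : Fk k →L[ℂ] Fk k => E l' * star z - star z * E l') ⁻¹' {S | CPT_S x' y' S}) := by
      ext z
      simp only [mem_iInter, mem_inter_iff, mem_preimage]
      rfl
    rw [h1]
    have h2 := CPT_closed x' y' ‖ξ‖ ‖η‖ hxn hyn
    refine isClosed_iInter (fun l' => IsClosed.inter (h2.preimage ?_) (h2.preimage ?_))
    · fun_prop
    · fun_prop
  have hle : (⨆ j, B j : StarSubalgebra ℂ (Fk k →L[ℂ] Fk k)).topologicalClosure ≤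
      CPT_T x' y' E :=
    StarSubalgebra.topologicalClosure_minimal (iSup_le hBT) hTc
  have h1 := (hle hy l).1 1 1
  have h2 : (fun N => ⟪(1 : Fk k →L[ℂ] Fk k) (x' N), (E l * y - y * E l)
      ((1 : Fk k →L[ℂ] Fk k) (y' N))⟫_ℂ) = fun N =>
      ⟪Jf ((v ^ N) ξ), (E l * y - y * E l) (Jf ((v ^ N) η))⟫_ℂ := by
    funext N
    rw [ContinuousLinearMap.one_apply, ContinuousLinearMap.one_apply, hx', hy']
  rw [h2] at h1
  exact h1

end Pool.SI
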