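import Pool.Agent.Work.MP_118406_si.Interface2

set_option autoImplicit false

open scoped InnerProductSpace ComplexConjugate Topology
open Set Filter

noncomputable section

namespace Pool.SI

theorem DEC_iso {k : ℕ} (x : Fk k →L[ℂ] Fk k) (hx : star x * x = 1) (ξ : Fk k) :
    ‖x ξ‖ = ‖ξ‖ :=
  (ContinuousLinearMap.norm_map_iff_adjoint_comp_self x).2 hx ξ

theorem DEC_pow {k : ℕ} (v : Fk k →L[ℂ] Fk k) (h1 : star v * v = 1) (h2 : v * star v = 1)
    (N : ℕ) : star (v ^ N) * v ^ N = 1 ∧ v ^ N * star (v ^ N) = 1 := by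
  have h : v ^ N ∈ unitary (Fk k →L[ℂ] Fk k) := pow_mem (Unitary.mem_iff.2 ⟨h1, h2⟩) N
  exact Unitary.mem_iff.1 h

theorem DEC_dense (hBAS : Stmt_BAS) (hCYC : Stmt_CYC) {k n : ℕ}
    (B : Fin n → StarSubalgebra ℂ (Fk k →L[ℂ] Fk k))
    (hA : Alg k ≤ (⨆ j, B j : StarSubalgebra ℂ (Fk k →L[ℂ] Fk k)).topologicalClosure) :
    Dense {y : Fk k | ∃ x ∈ (⨆ j, B j : StarSubalgebra ℂ (Fk k →L[ℂ] Fk k)), x (vac k) = y} := by
  let M : Submodule ℂ (Fk k) :=
    (Subalgebra.toSubmodule (⨆ j, B j : StarSubalgebra ℂ (Fk k →L[ℂ] Fk k)).toSubalgebra).map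
      (ContinuousLinearMap.apply ℂ (Fk k) (vac k)).toLinearMap
  have hM : {y : Fk k | ∃ x ∈ (⨆ j, B j : StarSubalgebra ℂ (Fk k →L[ℂ] Fk k)), x (vac k) = y} =
      (M : Set (Fk k)) := rfl
  rw [hM]
  have hle : Submodule.span ℂ (range (bs : List (Fin k) → Fk k)) ≤ M.topologicalClosure := by
    rw [Submodule.span_le]
    rintro _ ⟨w, rfl⟩
    obtain ⟨x, hx, hxw⟩ := hCYC k w
    have hx2 : x ∈ (⨆ j, B j : StarSubalgebra ℂ (Fk k →L[ℂ] Fk k)).topologicalClosure :=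
      hA (StarSubalgebra.le_topologicalClosure _ hx)
    have hx3 : x ∈ closure ((⨆ j, B j : StarSubalgebra ℂ (Fk k →L[ℂ] Fk k)) :
        Set (Fk k →L[ℂ] Fk k)) := hx2
    rw [← hxw]
    exact map_mem_closure (f := fun x : Fk k →L[ℂ] Fk k => x (vac k))
      ((ContinuousLinearMap.apply ℂ (Fk k) (vac k)).continuous) hx3 (fun x hx => ⟨x, hx, rfl⟩)
  have hd := (hBAS k).2.2.2.2.2.1
  have h2 : Dense (M.topologicalClosure : Set (Fk k)) := hd.mono hle
  rw [Submodule.topologicalClosure_coe] at h2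
  exact h2.of_closure

theorem DEC_vac (k : ℕ) : ⟪vac k, vac k⟫_ℂ = 1 := by
  rw [inner_self_eq_norm_sq_to_K]
  have h : ‖vac k‖ = 1 := bs_orthonormal.1 []
  rw [h]
  simp

/-- the left side of (I) -/
theorem DEC_left {k n : ℕ} (B : Fin n → StarSubalgebra ℂ (Fk k →L[ℂ] Fk k))
    (E : Fin n → (Fk k →L[ℂ] Fk k)) (hE : Eop B (vac k) E) (j : Fin n) (x : Fk k →L[ℂ] Fk k)
    (hx : x ∈ B j) (hx2 : x * star x = 1) (h0 : ⟪vac k, x (vac k)⟫_ℂ = 0) :
    ⟪vac k, ((E j * x - x * E j) * star x) (vac k)⟫_ℂ = -1 := by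
  have h1 := hE.2 j j x hx
  rw [if_pos rfl] at h1
  rw [h1]
  have h2 : ((x * Pr (vac k) - Pr (vac k) * x) * star x) (vac k) =
      x (Pr (vac k) (star x (vac k))) - Pr (vac k) ((x * star x) (vac k)) := rfl
  have h3 : ⟪vac k, star x (vac k)⟫_ℂ = 0 := by
    rw [ContinuousLinearMap.star_eq_adjoint, ContinuousLinearMap.adjoint_inner_right,
      ← inner_conj_symm, h0, map_zero]
  have h4 : Pr (vac k) (star x (vac k)) = 0 := by
    show ⟪vac k, star x (vac k)⟫_ℂ • vac k = 0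
    rw [h3, zero_smul]
  have h5 : Pr (vac k) (vac k) = vac k := by
    show ⟪vac k, vac k⟫_ℂ • vac k = vac k
    rw [DEC_vac, one_smul]
  rw [h2, h4, hx2, map_zero]
  show ⟪vac k, 0 - Pr (vac k) (vac k)⟫_ℂ = -1
  rw [h5, zero_sub, inner_neg_right, DEC_vac]

theorem p_DEC (hBAS : Stmt_BAS) (hJOP : Stmt_JOP) (hCOM : Stmt_COM) (hCYC : Stmt_CYC)
    (hPNT : Stmt_PNT) (hEXE : Stmt_EXE) (hCPT : Stmt_CPT) (hPIQ : Stmt_PIQ) : Stmt_DEC := by
  intro k n B hB hA hF hH T hT hdq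
  obtain ⟨E, hE⟩ := hEXE (Fk k) n B (vac k) (bs_orthonormal.1 []) hF (DEC_dense hBAS hCYC B hA)
  have hT' : ∀ i j, ∃ α β : ℕ → Fk k, Rep (T i j) α β := fun i j => by
    obtain ⟨a, b, h1, h2⟩ := hT i j
    exact ⟨a, b, h1, h2⟩
  choose α β hR using hT'
  have hsc : ∀ i : Fin k, (sc i : Fk k →L[ℂ] Fk k) ∈
      (⨆ j, B j : StarSubalgebra ℂ (Fk k →L[ℂ] Fk k)).topologicalClosure := fun i => hA (sc_mem i)
  -- (II)
  have hII : ∀ i : Fin k, ∑ j, ∑' m, ⟪Jf (α i j m), (E j * sc i - sc i * E j) (Jf (β i j m))⟫_ℂ =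
      -1 := by
    intro i
    have h1 := hPIQ k n B E (ContinuousLinearMap.adjoint (rc i)) (T i) (α i) (β i) hB hE
      (fun j => hR i j) (fun j b hb => hdq i j b hb) (sc i) (hsc i)
    have h2 : ContinuousLinearMap.adjoint (rc i) * sc i - sc i * ContinuousLinearMap.adjoint (rc i)
        = Pv k := by
      have h3 := (hCOM k).1 i i
      rw [if_pos rfl] at h3
      exact h3
    rw [h2] at h1
    have h4 : ⟪vac k, (Pv k) (vac k)⟫_ℂ = 1 := by
      show ⟪vac k, ⟪vac k, vac k⟫_ℂ • vac k⟫_ℂ = 1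
      rw [DEC_vac, one_smul, DEC_vac]
    rw [h4] at h1
    rw [← neg_eq_iff_eq_neg]
    exact h1.symm
  -- (I)
  have hI : ∀ j : Fin n, ∑ i, ∑' m, ⟪Jf (α i j m), (E j * sc i - sc i * E j) (Jf (β i j m))⟫_ℂ =
      -1 := by
    intro j
    obtain ⟨v, hv, hHv⟩ := hH j
    have hlim : ∀ i : Fin k, Tendsto (fun N : ℕ => ∑' m, ⟪Jf ((v ^ N) (α i j m)),
        (E j * sc i - sc i * E j) (Jf ((v ^ N) (β i j m)))⟫_ℂ) atTop (𝓝 0) := by
      intro i
      have h1 := tendsto_tsum_of_dominated_convergence (β := ℕ) (G := ℂ) (𝓕 := atTop)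
        (f := fun (N : ℕ) m => ⟪Jf ((v ^ N) (α i j m)),
          (E j * sc i - sc i * E j) (Jf ((v ^ N) (β i j m)))⟫_ℂ) (g := fun _ => 0)
        (bound := fun m => ‖E j * sc i - sc i * E j‖ * (‖α i j m‖ * ‖β i j m‖))
        ((hR i j).1.mul_left _)
        (fun m => hCPT k n B E hE v (hB j hv) hHv (sc i) (hsc i) j (α i j m) (β i j m))
        (Eventually.of_forall fun N m => by
          have h2 := (DEC_pow v hHv.1 hHv.2.1 N).1
          calc ‖⟪Jf ((v ^ N) (α i j m)), (E j * sc i - sc i * E j) (Jf ((v ^ N) (β i j m)))⟫_ℂ‖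
              ≤ ‖Jf ((v ^ N) (α i j m))‖ *
                ‖(E j * sc i - sc i * E j) (Jf ((v ^ N) (β i j m)))‖ := norm_inner_le_norm _ _
            _ ≤ ‖Jf ((v ^ N) (α i j m))‖ *
                (‖E j * sc i - sc i * E j‖ * ‖Jf ((v ^ N) (β i j m))‖) := by
                gcongr
                exact ContinuousLinearMap.le_opNorm _ _
            _ = ‖E j * sc i - sc i * E j‖ * (‖α i j m‖ * ‖β i j m‖) := by
                rw [(hJOP k).2.2.2.2.1, (hJOP k).2.2.2.2.1, DEC_iso _ h2, DEC_iso _ h2]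
                ring)
      rw [tsum_zero] at h1
      exact h1
    have hN : ∀ N : ℕ, 0 < N → ∑ i,
        ((∑' m, ⟪Jf (α i j m), (E j * sc i - sc i * E j) (Jf (β i j m))⟫_ℂ) -
        ∑' m, ⟪Jf ((v ^ N) (α i j m)), (E j * sc i - sc i * E j) (Jf ((v ^ N) (β i j m)))⟫_ℂ) =
        -1 := by
      intro N hN
      have hx : v ^ N ∈ B j := pow_mem hv N
      obtain ⟨hx1, hx2⟩ := DEC_pow v hHv.1 hHv.2.1 N
      rw [← DEC_left B E hE j (v ^ N) hx hx2 (hHv.2.2 N hN)]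
      exact (hPNT k (E j) (v ^ N) (fun i => T i j) (fun i => α i j) (fun i => β i j) (hB j hx) hx1
        hx2 (fun i => hR i j) (fun i => hdq i j _ hx)).symm
    have h3 : Tendsto (fun N : ℕ => ∑ i,
        ((∑' m, ⟪Jf (α i j m), (E j * sc i - sc i * E j) (Jf (β i j m))⟫_ℂ) -
        ∑' m, ⟪Jf ((v ^ N) (α i j m)), (E j * sc i - sc i * E j) (Jf ((v ^ N) (β i j m)))⟫_ℂ))
        atTop (𝓝 (∑ i, ((∑' m, ⟪Jf (α i j m), (E j * sc i - sc i * E j) (Jf (β i j m))⟫_ℂ) - 0))) :=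
      tendsto_finset_sum _ fun i _ => tendsto_const_nhds.sub (hlim i)
    have h4 : Tendsto (fun _ : ℕ => (-1 : ℂ)) atTop
        (𝓝 (∑ i, ((∑' m, ⟪Jf (α i j m), (E j * sc i - sc i * E j) (Jf (β i j m))⟫_ℂ) - 0))) := by
      refine h3.congr' ?_
      filter_upwards [eventually_gt_atTop 0] with N hN0
      exact hN N hN0
    have h5 := tendsto_nhds_unique h4 tendsto_const_nhds
    simp only [sub_zero] at h5
    exact h5
  have h1 : ∑ i : Fin k, ∑ j : Fin n,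
      ∑' m, ⟪Jf (α i j m), (E j * sc i - sc i * E j) (Jf (β i j m))⟫_ℂ = -(k : ℂ) := by
    rw [Finset.sum_congr rfl fun i _ => hII i]
    simp
  rw [Finset.sum_comm, Finset.sum_congr rfl fun j _ => hI j] at h1
  have h2 : (n : ℂ) = (k : ℂ) := by
    have h3 : -(n : ℂ) = -(k : ℂ) := by
      rw [← h1]
      simp
    exact neg_injective h3
  exact_mod_cast h2.symm

end Pool.SI
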