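import Pool.Agent.Work.MP_118406_si.Interface2

set_option autoImplicit false

/-!
# MP_118406_an, THEOREM SI, block EXD: isomorphisms from reduced free products to `Alg k`
-/

open scoped InnerProductSpace ComplexConjugate Topology
open Set Filter

noncomputable section

namespace Pool.SI

theorem EXD_norm {H H' : Type} [NormedAddCommGroup H] [InnerProductSpace ℂ H] [CompleteSpace H]
    [NormedAddCommGroup H'] [InnerProductSpace ℂ H'] [CompleteSpace H']
    (P : StarSubalgebra ℂ (H →L[ℂ] H)) (Q : StarSubalgebra ℂ (H' →L[ℂ] H'))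
    (hP : IsClosed (P : Set (H →L[ℂ] H))) (hQ : IsClosed (Q : Set (H' →L[ℂ] H')))
    (φ : P ≃⋆ₐ[ℂ] Q) (x : P) : ‖φ x‖ = ‖x‖ := by
  have := hP
  have := hQ
  exact NonUnitalStarAlgHom.norm_map φ φ.injective x

/-- The vector functional. -/
def EXD_sig {H H' : Type} [NormedAddCommGroup H] [InnerProductSpace ℂ H] [CompleteSpace H]
    [NormedAddCommGroup H'] [InnerProductSpace ℂ H'] [CompleteSpace H']
    (P : StarSubalgebra ℂ (H →L[ℂ] H)) (Q : StarSubalgebra ℂ (H' →L[ℂ] H'))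
    (hP : IsClosed (P : Set (H →L[ℂ] H))) (hQ : IsClosed (Q : Set (H' →L[ℂ] H')))
    (φ : P ≃⋆ₐ[ℂ] Q) (o : H') (ho : ‖o‖ = 1) : P →L[ℂ] ℂ :=
  LinearMap.mkContinuous
    { toFun := fun x => ⟪o, (φ x : H' →L[ℂ] H') o⟫_ℂ
      map_add' := fun x y => by
        rw [map_add]
        change ⟪o, ((φ x : H' →L[ℂ] H') + (φ y : H' →L[ℂ] H')) o⟫_ℂ = _
        rw [add_apply, inner_add_right]
      map_smul' := fun c x => by
        rw [map_smul, RingHom.id_apply, smul_eq_mul]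
        change ⟪o, (c • (φ x : H' →L[ℂ] H')) o⟫_ℂ = _
        rw [smul_apply, inner_smul_right] } 1 (fun x => by
      change ‖⟪o, (φ x : H' →L[ℂ] H') o⟫_ℂ‖ ≤ 1 * ‖x‖
      refine (norm_inner_le_norm _ _).trans ?_
      rw [ho, one_mul, one_mul, ← EXD_norm P Q hP hQ φ x]
      refine (ContinuousLinearMap.le_opNorm _ _).trans ?_
      rw [ho, mul_one]
      exact le_rfl)

theorem EXD_lift {X Y : Type} {n : ℕ} (A : Fin n → Set X) (B : Fin n → Set Y) (g : X → Y)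
    (h : ∀ j, ∀ y ∈ B j, ∃ x ∈ A j, g x = y) (l : List (Fin n × Y)) (hl : ∀ p ∈ l, p.2 ∈ B p.1) :
    ∃ l' : List (Fin n × X), (∀ p ∈ l', p.2 ∈ A p.1) ∧ l = l'.map (fun p => (p.1, g p.2)) := by
  induction l with
  | nil => exact ⟨[], by simp, rfl⟩
  | cons p l ih =>
    obtain ⟨l', h1, h2⟩ := ih (fun q hq => hl q (List.mem_cons_of_mem _ hq))
    obtain ⟨x, hx, hgx⟩ := h p.1 p.2 (hl p List.mem_cons_self)
    refine ⟨(p.1, x) :: l', ?_, ?_⟩
    · intro q hq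
      rcases List.mem_cons.1 hq with rfl | hq
      · exact hx
      · exact h1 q hq
    · rw [List.map_cons, ← h2]
      congr 1
      ext
      · rfl
      · exact hgx.symm

theorem p_EXD (hU : Stmt_UTF) (hD : Stmt_DEC) : Stmt_EXD := by
  intro k n hk H _ _ _ A o ho hFre htr hHaar φ T hNuc hT
  obtain ⟨Q, hQ⟩ : ∃ Q : StarSubalgebra ℂ (H →L[ℂ] H),
    Q = (⨆ j, A j : StarSubalgebra ℂ (H →L[ℂ] H)).topologicalClosure := ⟨_, rfl⟩
  rw [← hQ] at htr
  revert φ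
  rw [← hQ]
  intro φ hT
  have hQc : IsClosed (Q : Set (H →L[ℂ] H)) := by
    rw [hQ]
    exact StarSubalgebra.isClosed_topologicalClosure _
  have hAc : IsClosed ((Alg k : StarSubalgebra ℂ (Fk k →L[ℂ] Fk k)) : Set (Fk k →L[ℂ] Fk k)) :=
    StarSubalgebra.isClosed_topologicalClosure _
  have hAQ : ∀ j, A j ≤ Q := by
    intro j
    rw [hQ]
    exact (le_iSup A j).trans (StarSubalgebra.le_topologicalClosure _)
  -- the trace
  have hτ : ∀ x : Q, ⟪vac k, (φ x : Fk k →L[ℂ] Fk k) (vac k)⟫_ℂ = ⟪o, (x : H →L[ℂ] H) o⟫_ℂ := by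
    intro x
    have h1 := hU k hk (EXD_sig (Alg k) Q hAc hQc φ.symm o ho) (fun x y => ?_) ?_ (φ x)
    · rw [← h1]
      change ⟪o, (φ.symm (φ x) : H →L[ℂ] H) o⟫_ℂ = _
      rw [StarAlgEquiv.symm_apply_apply]
    · change ⟪o, (φ.symm (x * y) : H →L[ℂ] H) o⟫_ℂ = ⟪o, (φ.symm (y * x) : H →L[ℂ] H) o⟫_ℂ
      rw [map_mul, map_mul]
      exact htr _ (φ.symm x).2 _ (φ.symm y).2
    · change ⟪o, (φ.symm 1 : H →L[ℂ] H) o⟫_ℂ = 1
      rw [map_one]
      change ⟪o, o⟫_ℂ = 1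
      rw [inner_self_eq_norm_sq_to_K, ho]
      simp
  -- the subalgebras
  obtain ⟨ψ, hψ⟩ : ∃ ψ : Q →⋆ₐ[ℂ] (Fk k →L[ℂ] Fk k), ∀ x, ψ x = (φ x : Fk k →L[ℂ] Fk k) :=
    ⟨(Alg k).subtype.comp (φ : Q →⋆ₐ[ℂ] Alg k), fun _ => rfl⟩
  obtain ⟨B, hB⟩ : ∃ B : Fin n → StarSubalgebra ℂ (Fk k →L[ℂ] Fk k),
    ∀ j y, y ∈ B j ↔ ∃ x : Q, (x : H →L[ℂ] H) ∈ A j ∧ (φ x : Fk k →L[ℂ] Fk k) = y := by
    refine ⟨fun j => ((A j).comap Q.subtype).map ψ, fun j y => ?_⟩
    rw [StarSubalgebra.mem_map]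
    constructor
    · rintro ⟨x, hx, hxy⟩
      exact ⟨x, hx, by rw [← hψ]; exact hxy⟩
    · rintro ⟨x, hx, hxy⟩
      exact ⟨x, hx, by rw [hψ]; exact hxy⟩
  have hBA : ∀ j, B j ≤ Alg k := by
    intro j y hy
    obtain ⟨x, -, rfl⟩ := (hB j y).1 hy
    exact (φ x).2
  -- generation
  have hgen : Alg k ≤ (⨆ j, B j : StarSubalgebra ℂ (Fk k →L[ℂ] Fk k)).topologicalClosure := by
    obtain ⟨D, hDd⟩ : ∃ D : StarSubalgebra ℂ (Fk k →L[ℂ] Fk k),
      D = (⨆ j, B j : StarSubalgebra ℂ (Fk k →L[ℂ] Fk k)).topologicalClosure := ⟨_, rfl⟩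
    rw [← hDd]
    have hDc : IsClosed (D : Set (Fk k →L[ℂ] Fk k)) := by
      rw [hDd]
      exact StarSubalgebra.isClosed_topologicalClosure _
    have hBD : ∀ j, B j ≤ D := by
      intro j
      rw [hDd]
      exact (le_iSup B j).trans (StarSubalgebra.le_topologicalClosure _)
    have hφc : Continuous (fun x : Q => (φ x : Fk k →L[ℂ] Fk k)) := by
      have h1 : Isometry (fun x : Q => φ x) := by
        refine AddMonoidHomClass.isometry_of_norm φ (fun x => ?_)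
        exact EXD_norm Q (Alg k) hQc hAc φ x
      exact continuous_subtype_val.comp h1.continuous
    have hE : ∀ z, z ∈ (D.comap ψ).map Q.subtype ↔ ∃ x : Q, (φ x : Fk k →L[ℂ] Fk k) ∈ D ∧
        (x : H →L[ℂ] H) = z := by
      intro z
      rw [StarSubalgebra.mem_map]
      constructor
      · rintro ⟨x, hx, hxy⟩
        refine ⟨x, ?_, hxy⟩
        rw [← hψ]
        exact hx
      · rintro ⟨x, hx, hxy⟩
        refine ⟨x, ?_, hxy⟩
        rw [← hψ] at hx
        exact hx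
    have hEc : IsClosed (((D.comap ψ).map Q.subtype : StarSubalgebra ℂ (H →L[ℂ] H)) :
        Set (H →L[ℂ] H)) := by
      have h1 : (((D.comap ψ).map Q.subtype : StarSubalgebra ℂ (H →L[ℂ] H)) : Set (H →L[ℂ] H)) =
          (Subtype.val : Q → (H →L[ℂ] H)) '' ((fun x : Q => (φ x : Fk k →L[ℂ] Fk k)) ⁻¹'
            (D : Set (Fk k →L[ℂ] Fk k))) := by
        ext z
        rw [SetLike.mem_coe, hE]
        rfl
      rw [h1]
      exact hQc.isClosedEmbedding_subtypeVal.isClosedMap _ (hDc.preimage hφc)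
    have hQE : Q ≤ (D.comap ψ).map Q.subtype := by
      have h1 : (⨆ j, A j : StarSubalgebra ℂ (H →L[ℂ] H)).topologicalClosure ≤
          (D.comap ψ).map Q.subtype := by
        refine StarSubalgebra.topologicalClosure_minimal (iSup_le fun j a ha => ?_) hEc
        rw [hE]
        refine ⟨⟨a, hAQ j ha⟩, hBD j ((hB j _).2 ⟨⟨a, hAQ j ha⟩, ha, rfl⟩), rfl⟩
      rw [← hQ] at h1
      exact h1
    intro y hy
    obtain ⟨x, hx, hxy⟩ := (hE _).1 (hQE (φ.symm ⟨y, hy⟩).2)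
    have h2 : x = φ.symm ⟨y, hy⟩ := Subtype.ext hxy
    rw [h2, StarAlgEquiv.apply_symm_apply] at hx
    exact hx
  -- freeness
  have hfree : FreI B (vac k) := by
    intro l hl hne
    obtain ⟨l', h1, h2⟩ := EXD_lift (fun j => {x : Q | (x : H →L[ℂ] H) ∈ A j})
      (fun j => (B j : Set (Fk k →L[ℂ] Fk k))) (fun x : Q => (φ x : Fk k →L[ℂ] Fk k))
      (fun j y hy => (hB j y).1 hy) l (fun p hp => (hl.1 p hp).1)
    have h3 : (l.map Prod.snd).prod = (φ (l'.map Prod.snd).prod : Fk k →L[ℂ] Fk k) := by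
      rw [h2, ← hψ, map_list_prod, List.map_map, List.map_map]
      congr 1
      refine List.map_congr_left (fun p _ => ?_)
      exact (hψ p.2).symm
    rw [h3, hτ]
    have h4 : (((l'.map Prod.snd).prod : Q) : H →L[ℂ] H) =
        ((l'.map (fun p => (p.1, (p.2 : H →L[ℂ] H)))).map Prod.snd).prod := by
      have h5 : (((l'.map Prod.snd).prod : Q) : H →L[ℂ] H) = Q.subtype (l'.map Prod.snd).prod := rfl
      rw [h5, map_list_prod, List.map_map, List.map_map]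
      congr 1
    rw [h4]
    refine hFre _ ⟨?_, ?_⟩ ?_
    · intro p hp
      obtain ⟨q, hq, rfl⟩ := List.mem_map.1 hp
      refine ⟨h1 q hq, ?_⟩
      rw [← hτ]
      have h6 : (q.1, (φ q.2 : Fk k →L[ℂ] Fk k)) ∈ l := by
        rw [h2]
        exact List.mem_map.2 ⟨q, hq, rfl⟩
      exact (hl.1 _ h6).2
    · have h6 := hl.2
      rw [h2, List.isChain_map] at h6
      rw [List.isChain_map]
      exact h6
    · intro h0
      apply hne
      rw [h2]
      rw [List.map_eq_nil_iff] at h0 ⊢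
      exact h0
  -- Haar unitaries
  have hH : ∀ j, ∃ v ∈ B j, Haar v (vac k) := by
    intro j
    obtain ⟨v, hv, hv1, hv2, hv3⟩ := hHaar j
    obtain ⟨u, hu⟩ : ∃ u : Q, (u : H →L[ℂ] H) = v := ⟨⟨v, hAQ j hv⟩, rfl⟩
    refine ⟨ψ u, (hB j _).2 ⟨u, by rw [hu]; exact hv, (hψ u).symm⟩, ?_, ?_, ?_⟩
    · rw [← map_star, ← map_mul]
      have h1 : star u * u = 1 := Subtype.ext (by
        change star (u : H →L[ℂ] H) * (u : H →L[ℂ] H) = 1
        rw [hu, hv1])
      rw [h1, map_one]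
    · rw [← map_star, ← map_mul]
      have h1 : u * star u = 1 := Subtype.ext (by
        change (u : H →L[ℂ] H) * star (u : H →L[ℂ] H) = 1
        rw [hu, hv2])
      rw [h1, map_one]
    · intro m hm
      rw [← map_pow, hψ, hτ]
      have h1 : ((u ^ m : Q) : H →L[ℂ] H) = v ^ m := by
        rw [← hu]
        rfl
      rw [h1]
      exact hv3 m hm
  refine hD k n B hBA hgen hfree hH T hNuc ?_
  intro i j b hb
  obtain ⟨x, hx, rfl⟩ := (hB j b).1 hb
  exact hT i j x hx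

end Pool.SI
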