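import Pool.Agent.Work.MP_118406_si.Interface2

set_option autoImplicit false

open scoped InnerProductSpace ComplexConjugate Topology
open Set Filter

noncomputable section

namespace Pool.SI

section EXE

variable {H : Type} [NormedAddCommGroup H] [InnerProductSpace ℂ H] [CompleteSpace H] {n : ℕ}

/-- The vector of a list. -/
def EXE_v (o : H) (t : List (Fin n × (H →L[ℂ] H))) : H := (t.map Prod.snd).prod o

theorem EXE_v_nil (o : H) : EXE_v o ([] : List (Fin n × (H →L[ℂ] H))) = o := by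
  simp [EXE_v]

theorem EXE_v_cons (o : H) (p : Fin n × (H →L[ℂ] H)) (t : List (Fin n × (H →L[ℂ] H))) :
    EXE_v o (p :: t) = p.2 (EXE_v o t) := by
  simp [EXE_v]

theorem EXE_v_append (o : H) (s t : List (Fin n × (H →L[ℂ] H))) :
    EXE_v o (s ++ t) = (s.map Prod.snd).prod (EXE_v o t) := by
  simp [EXE_v]

/-- The index of the last factor. -/
def EXE_lst (t : List (Fin n × (H →L[ℂ] H))) : Option (Fin n) := t.getLast?.map Prod.fst

theorem EXE_lst_nil : EXE_lst ([] : List (Fin n × (H →L[ℂ] H))) = none := rfl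

theorem EXE_lst_single (p : Fin n × (H →L[ℂ] H)) : EXE_lst [p] = some p.1 := rfl

theorem EXE_lst_cons (p : Fin n × (H →L[ℂ] H)) (t : List (Fin n × (H →L[ℂ] H))) (ht : t ≠ []) :
    EXE_lst (p :: t) = EXE_lst t := by
  rw [EXE_lst, EXE_lst, List.getLast?_cons_of_ne_nil ht]

theorem EXE_lst_ne_none (t : List (Fin n × (H →L[ℂ] H))) (ht : t ≠ []) : EXE_lst t ≠ none := by
  rw [EXE_lst]
  intro h
  rw [Option.map_eq_none_iff, List.getLast?_eq_none_iff] at h
  exact ht h

theorem EXE_alt_nil (B : Fin n → StarSubalgebra ℂ (H →L[ℂ] H)) (o : H) : AltI B o [] :=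
  ⟨fun p hp => absurd hp (List.not_mem_nil), List.isChain_nil⟩

theorem EXE_alt_cons (B : Fin n → StarSubalgebra ℂ (H →L[ℂ] H)) (o : H)
    (p : Fin n × (H →L[ℂ] H)) (t : List (Fin n × (H →L[ℂ] H))) :
    AltI B o (p :: t) ↔ (p.2 ∈ B p.1 ∧ ⟪o, p.2 o⟫_ℂ = 0) ∧ (∀ q ∈ t.head?, p.1 ≠ q.1) ∧
      AltI B o t := by
  rw [AltI, AltI, List.forall_mem_cons, List.isChain_cons]
  tauto

/-- Star of the reversed list. -/
def EXE_st (t : List (Fin n × (H →L[ℂ] H))) : List (Fin n × (H →L[ℂ] H)) :=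
  t.reverse.map (fun p => (p.1, star p.2))

theorem EXE_st_cons (p : Fin n × (H →L[ℂ] H)) (t : List (Fin n × (H →L[ℂ] H))) :
    EXE_st (p :: t) = EXE_st t ++ [(p.1, star p.2)] := by
  simp [EXE_st]

theorem EXE_inner_st (o x : H) (t : List (Fin n × (H →L[ℂ] H))) :
    ⟪EXE_v o t, x⟫_ℂ = ⟪o, ((EXE_st t).map Prod.snd).prod x⟫_ℂ := by
  induction t generalizing x with
  | nil => simp [EXE_v, EXE_st]
  | cons p t ih =>
    rw [EXE_v_cons, EXE_st_cons, List.map_append, List.prod_append]
    simp only [List.map_cons, List.map_nil, List.prod_cons, List.prod_nil, mul_one,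
      ContinuousLinearMap.mul_apply]
    rw [← ih, ContinuousLinearMap.star_eq_adjoint, ContinuousLinearMap.adjoint_inner_right]

theorem EXE_conj (o : H) (a : H →L[ℂ] H) (h : ⟪o, a o⟫_ℂ = 0) : ⟪o, (star a) o⟫_ℂ = 0 := by
  rw [ContinuousLinearMap.star_eq_adjoint, ContinuousLinearMap.adjoint_inner_right,
    ← inner_conj_symm, h, map_zero]

theorem EXE_st_alt (B : Fin n → StarSubalgebra ℂ (H →L[ℂ] H)) (o : H)
    (t : List (Fin n × (H →L[ℂ] H))) (ht : AltI B o t) : AltI B o (EXE_st t) := by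
  refine ⟨?_, ?_⟩
  · intro p hp
    rw [EXE_st, List.mem_map] at hp
    obtain ⟨q, hq, rfl⟩ := hp
    rw [List.mem_reverse] at hq
    exact ⟨star_mem (ht.1 q hq).1, EXE_conj o q.2 (ht.1 q hq).2⟩
  · rw [EXE_st, List.isChain_map, List.isChain_reverse]
    exact ht.2.imp (fun a b hab => fun h => hab h.symm)

theorem EXE_G (B : Fin n → StarSubalgebra ℂ (H →L[ℂ] H)) (o : H) (hF : FreI B o)
    (t t' : List (Fin n × (H →L[ℂ] H))) (ht : AltI B o t) (ht' : AltI B o t')
    (hd : ∀ p ∈ t.head?, ∀ q ∈ t'.head?, p.1 ≠ q.1) (hne : t ≠ [] ∨ t' ≠ []) :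
    ⟪EXE_v o t, EXE_v o t'⟫_ℂ = 0 := by
  rw [EXE_inner_st, ← EXE_v_append]
  apply hF
  · have h1 := EXE_st_alt B o t ht
    refine ⟨?_, ?_⟩
    · intro p hp
      rw [List.mem_append] at hp
      rcases hp with hp | hp
      · exact h1.1 p hp
      · exact ht'.1 p hp
    · rw [List.isChain_append]
      refine ⟨h1.2, ht'.2, ?_⟩
      intro p hp q hq
      rw [EXE_st, List.getLast?_map, List.getLast?_reverse] at hp
      rw [Option.mem_def, Option.map_eq_some_iff] at hp
      obtain ⟨r, hr, rfl⟩ := hp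
      exact hd r hr q hq
  · intro h
    rw [List.append_eq_nil_iff] at h
    rcases hne with h1 | h1
    · apply h1
      have h2 := h.1
      rw [EXE_st, List.map_eq_nil_iff, List.reverse_eq_nil_iff] at h2
      exact h2
    · exact h1 h.2

/-- Centring. -/
def EXE_c (o : H) (a : H →L[ℂ] H) : H →L[ℂ] H := a - ⟪o, a o⟫_ℂ • (1 : H →L[ℂ] H)

theorem EXE_c_inner (o : H) (ho : ‖o‖ = 1) (a : H →L[ℂ] H) : ⟪o, (EXE_c o a) o⟫_ℂ = 0 := by
  rw [EXE_c, ContinuousLinearMap.sub_apply, ContinuousLinearMap.smul_apply,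
    ContinuousLinearMap.one_apply, inner_sub_right, inner_smul_right,
    inner_self_eq_norm_sq_to_K, ho]
  simp

theorem EXE_c_mem (S : StarSubalgebra ℂ (H →L[ℂ] H)) (o : H) (a : H →L[ℂ] H) (ha : a ∈ S) :
    EXE_c o a ∈ S :=
  sub_mem ha (SMulMemClass.smul_mem _ (one_mem S))

theorem EXE_c_apply (o x : H) (a : H →L[ℂ] H) : a x = ⟪o, a o⟫_ℂ • x + EXE_c o a x := by
  rw [EXE_c, ContinuousLinearMap.sub_apply, ContinuousLinearMap.smul_apply,
    ContinuousLinearMap.one_apply]
  abel

theorem EXE_ORT (B : Fin n → StarSubalgebra ℂ (H →L[ℂ] H)) (o : H) (ho : ‖o‖ = 1)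
    (hF : FreI B o) (t : List (Fin n × (H →L[ℂ] H))) : ∀ t' : List (Fin n × (H →L[ℂ] H)),
    AltI B o t → AltI B o t' → EXE_lst t ≠ EXE_lst t' → ⟪EXE_v o t, EXE_v o t'⟫_ℂ = 0 := by
  induction t with
  | nil =>
    intro t' ht ht' hl
    apply EXE_G B o hF _ _ ht ht'
    · intro p hp
      simp at hp
    · right
      intro h
      rw [h] at hl
      exact hl rfl
  | cons p t ih =>
    intro t' ht ht' hl
    cases t' with
    | nil =>
      apply EXE_G B o hF _ _ ht ht'
      · intro p _ q hq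
        simp at hq
      · left
        exact List.cons_ne_nil _ _
    | cons p' t' =>
      by_cases hp : p.1 = p'.1
      · rw [EXE_alt_cons] at ht ht'
        have hl2 : EXE_lst t ≠ EXE_lst t' := by
          by_cases h1 : t = []
          · by_cases h2 : t' = []
            · subst h1
              subst h2
              rw [EXE_lst_single, EXE_lst_single, hp] at hl
              exact absurd rfl hl
            · rw [h1, EXE_lst_nil]
              exact (EXE_lst_ne_none t' h2).symm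
          · by_cases h2 : t' = []
            · rw [h2, EXE_lst_nil]
              exact EXE_lst_ne_none t h1
            · rw [EXE_lst_cons _ _ h1, EXE_lst_cons _ _ h2] at hl
              exact hl
        rw [EXE_v_cons, EXE_v_cons, ← ContinuousLinearMap.adjoint_inner_right,
          ← ContinuousLinearMap.star_eq_adjoint, ← ContinuousLinearMap.mul_apply,
          EXE_c_apply o (EXE_v o t'), inner_add_right, inner_smul_right,
          ih t' ht.2.2 ht'.2.2 hl2, mul_zero, zero_add]
        have hm : star p.2 * p'.2 ∈ B p'.1 := by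
          apply mul_mem _ ht'.1.1
          rw [← hp]
          exact star_mem ht.1.1
        have ha : AltI B o ((p'.1, EXE_c o (star p.2 * p'.2)) :: t') := by
          rw [EXE_alt_cons]
          exact ⟨⟨EXE_c_mem _ o _ hm, EXE_c_inner o ho _⟩, ht'.2⟩
        have hG := EXE_G B o hF t ((p'.1, EXE_c o (star p.2 * p'.2)) :: t') ht.2.2 ha (by
          intro q hq r hr
          rw [List.head?_cons, Option.mem_def, Option.some.injEq] at hr
          rw [← hr]
          rw [← hp]
          exact (ht.2.1 q hq).symm) (Or.inr (List.cons_ne_nil _ _))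
        rw [EXE_v_cons] at hG
        exact hG
      · apply EXE_G B o hF _ _ ht ht'
        · intro q hq r hr
          rw [List.head?_cons, Option.mem_def, Option.some.injEq] at hq hr
          rw [← hq, ← hr]
          exact hp
        · left
          exact List.cons_ne_nil _ _

/-- The span of the words with a given last index. -/
def EXE_V (B : Fin n → StarSubalgebra ℂ (H →L[ℂ] H)) (o : H) (l : Option (Fin n)) :
    Submodule ℂ H :=
  Submodule.span ℂ {y | ∃ t, AltI B o t ∧ EXE_lst t = l ∧ EXE_v o t = y}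

theorem EXE_mem (B : Fin n → StarSubalgebra ℂ (H →L[ℂ] H)) (o : H)
    (t : List (Fin n × (H →L[ℂ] H))) (ht : AltI B o t) : EXE_v o t ∈ EXE_V B o (EXE_lst t) :=
  Submodule.subset_span ⟨t, ht, rfl, rfl⟩

theorem EXE_V_orth (B : Fin n → StarSubalgebra ℂ (H →L[ℂ] H)) (o : H) (ho : ‖o‖ = 1)
    (hF : FreI B o) (l l' : Option (Fin n)) (hl : l ≠ l') (x y : H) (hx : x ∈ EXE_V B o l)
    (hy : y ∈ EXE_V B o l') : ⟪x, y⟫_ℂ = 0 := by
  have h : EXE_V B o l ⟂ EXE_V B o l' := by
    rw [EXE_V, EXE_V, Submodule.isOrtho_span]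
    rintro x ⟨t, ht, rfl, rfl⟩ y ⟨t', ht', rfl, rfl⟩
    exact EXE_ORT B o ho hF t t' ht ht' hl
  exact h.inner_eq hx hy

/-- The operators. -/
def EXE_E (B : Fin n → StarSubalgebra ℂ (H →L[ℂ] H)) (o : H) (l : Fin n) : H →L[ℂ] H :=
  (EXE_V B o (some l)).topologicalClosure.starProjection

theorem EXE_E_self (B : Fin n → StarSubalgebra ℂ (H →L[ℂ] H)) (o : H) (l : Fin n) (x : H)
    (hx : x ∈ EXE_V B o (some l)) : EXE_E B o l x = x := by
  rw [EXE_E, Submodule.starProjection_eq_self_iff]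
  exact Submodule.le_topologicalClosure _ hx

theorem EXE_E_zero (B : Fin n → StarSubalgebra ℂ (H →L[ℂ] H)) (o : H) (ho : ‖o‖ = 1)
    (hF : FreI B o) (l : Fin n) (l' : Option (Fin n)) (hl : l' ≠ some l) (x : H)
    (hx : x ∈ EXE_V B o l') : EXE_E B o l x = 0 := by
  rw [EXE_E, Submodule.starProjection_apply_eq_zero_iff, Submodule.orthogonal_closure]
  rw [Submodule.mem_orthogonal]
  intro u hu
  exact EXE_V_orth B o ho hF (some l) l' hl.symm u x hu hx

theorem EXE_step (B : Fin n → StarSubalgebra ℂ (H →L[ℂ] H)) (o : H) (ho : ‖o‖ = 1)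
    (j l' : Fin n) (a : H →L[ℂ] H) (ha : a ∈ B j)
    (t : List (Fin n × (H →L[ℂ] H))) (ht : AltI B o t) (hl : EXE_lst t = some l') :
    ∃ s : ℂ, ∃ y ∈ EXE_V B o (some l'), a (EXE_v o t) = s • o + y ∧ (j ≠ l' → s = 0) := by
  cases t with
  | nil =>
    rw [EXE_lst_nil] at hl
    exact absurd hl (by simp)
  | cons p t =>
    by_cases hp : p.1 = j
    · rw [EXE_alt_cons] at ht
      have hm : a * p.2 ∈ B p.1 := mul_mem (hp ▸ ha) ht.1.1
      have hal : AltI B o ((p.1, EXE_c o (a * p.2)) :: t) := by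
        rw [EXE_alt_cons]
        exact ⟨⟨EXE_c_mem _ o _ hm, EXE_c_inner o ho _⟩, ht.2⟩
      have h1 : EXE_v o ((p.1, EXE_c o (a * p.2)) :: t) ∈ EXE_V B o (some l') := by
        have h2 := EXE_mem B o _ hal
        have h3 : EXE_lst ((p.1, EXE_c o (a * p.2)) :: t) = some l' := by
          by_cases h : t = []
          · subst h
            rw [EXE_lst_single] at hl ⊢
            exact hl
          · rw [EXE_lst_cons _ _ h] at hl ⊢
            exact hl
        rw [h3] at h2
        exact h2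
      rw [EXE_v_cons] at h1
      have h4 : a (EXE_v o (p :: t)) = ⟪o, (a * p.2) o⟫_ℂ • EXE_v o t +
          EXE_c o (a * p.2) (EXE_v o t) := by
        rw [← EXE_c_apply, EXE_v_cons, ContinuousLinearMap.mul_apply]
      by_cases h : t = []
      · refine ⟨⟪o, (a * p.2) o⟫_ℂ, EXE_c o (a * p.2) (EXE_v o t), h1, ?_, ?_⟩
        · rw [h4]
          subst h
          rw [EXE_v_nil]
        · intro hj
          subst h
          rw [EXE_lst_single, Option.some.injEq] at hl
          exact absurd (hp.symm.trans hl) hj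
      · refine ⟨0, ⟪o, (a * p.2) o⟫_ℂ • EXE_v o t + EXE_c o (a * p.2) (EXE_v o t), ?_, ?_,
          fun _ => rfl⟩
        · apply Submodule.add_mem _ _ h1
          apply Submodule.smul_mem
          have h5 := EXE_mem B o t ht.2.2
          rw [EXE_lst_cons _ _ h] at hl
          rw [hl] at h5
          exact h5
        · rw [h4, zero_smul, zero_add]
    · have hal : AltI B o ((j, EXE_c o a) :: p :: t) := by
        rw [EXE_alt_cons]
        refine ⟨⟨EXE_c_mem _ o _ ha, EXE_c_inner o ho _⟩, ?_, ht⟩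
        intro q hq
        rw [List.head?_cons, Option.mem_def, Option.some.injEq] at hq
        rw [← hq]
        exact fun h => hp h.symm
      have h1 := EXE_mem B o _ hal
      rw [EXE_lst_cons _ _ (List.cons_ne_nil _ _), hl, EXE_v_cons] at h1
      have h2 := EXE_mem B o _ ht
      rw [hl] at h2
      refine ⟨0, ⟪o, a o⟫_ℂ • EXE_v o (p :: t) + EXE_c o a (EXE_v o (p :: t)),
        Submodule.add_mem _ (Submodule.smul_mem _ _ h2) h1, ?_, fun _ => rfl⟩
      rw [zero_smul, zero_add, ← EXE_c_apply]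

theorem EXE_step0 (B : Fin n → StarSubalgebra ℂ (H →L[ℂ] H)) (o : H) (ho : ‖o‖ = 1)
    (j : Fin n) (a : H →L[ℂ] H) (ha : a ∈ B j) : EXE_c o a o ∈ EXE_V B o (some j) := by
  have hal : AltI B o [(j, EXE_c o a)] := by
    rw [EXE_alt_cons]
    refine ⟨⟨EXE_c_mem _ o _ ha, EXE_c_inner o ho _⟩, ?_, EXE_alt_nil B o⟩
    intro q hq
    simp at hq
  have h1 := EXE_mem B o _ hal
  rw [EXE_lst_single, EXE_v_cons, EXE_v_nil] at h1
  exact h1

/-- The span of all words. -/
def EXE_T (B : Fin n → StarSubalgebra ℂ (H →L[ℂ] H)) (o : H) : Submodule ℂ H :=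
  Submodule.span ℂ {y | ∃ t, AltI B o t ∧ EXE_v o t = y}

theorem EXE_V_le (B : Fin n → StarSubalgebra ℂ (H →L[ℂ] H)) (o : H) (l : Option (Fin n)) :
    EXE_V B o l ≤ EXE_T B o := by
  apply Submodule.span_mono
  rintro y ⟨t, ht, _, h⟩
  exact ⟨t, ht, h⟩

theorem EXE_o_mem (B : Fin n → StarSubalgebra ℂ (H →L[ℂ] H)) (o : H) : o ∈ EXE_T B o :=
  Submodule.subset_span ⟨[], EXE_alt_nil B o, EXE_v_nil o⟩

theorem EXE_inv (B : Fin n → StarSubalgebra ℂ (H →L[ℂ] H)) (o : H) (ho : ‖o‖ = 1)
    (j : Fin n) (a : H →L[ℂ] H) (ha : a ∈ B j) (y : H) (hy : y ∈ EXE_T B o) :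
    a y ∈ EXE_T B o := by
  have h : EXE_T B o ≤ (EXE_T B o).comap (a : H →ₗ[ℂ] H) := by
    conv_lhs => rw [EXE_T]
    rw [Submodule.span_le]
    rintro y ⟨t, ht, rfl⟩
    show a (EXE_v o t) ∈ EXE_T B o
    by_cases h : t = []
    · rw [h, EXE_v_nil, EXE_c_apply o o a]
      exact Submodule.add_mem _ (Submodule.smul_mem _ _ (EXE_o_mem B o))
        (EXE_V_le B o _ (EXE_step0 B o ho j a ha))
    · obtain ⟨l', hl'⟩ := Option.ne_none_iff_exists'.1 (EXE_lst_ne_none t h)
      obtain ⟨s, y, hy, h1, _⟩ := EXE_step B o ho j l' a ha t ht hl'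
      rw [h1]
      exact Submodule.add_mem _ (Submodule.smul_mem _ _ (EXE_o_mem B o)) (EXE_V_le B o _ hy)
  exact h hy

/-- The star subalgebra of the operators leaving the span of the words invariant. -/
def EXE_S (B : Fin n → StarSubalgebra ℂ (H →L[ℂ] H)) (o : H) : StarSubalgebra ℂ (H →L[ℂ] H) where
  carrier := {x | (∀ y ∈ EXE_T B o, x y ∈ EXE_T B o) ∧ (∀ y ∈ EXE_T B o, (star x) y ∈ EXE_T B o)}
  mul_mem' := by
    rintro x z ⟨hx1, hx2⟩ ⟨hz1, hz2⟩
    refine ⟨fun y hy => hx1 _ (hz1 y hy), fun y hy => ?_⟩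
    rw [star_mul]
    exact hz2 _ (hx2 y hy)
  add_mem' := by
    rintro x z ⟨hx1, hx2⟩ ⟨hz1, hz2⟩
    refine ⟨fun y hy => Submodule.add_mem _ (hx1 y hy) (hz1 y hy), fun y hy => ?_⟩
    rw [star_add]
    exact Submodule.add_mem _ (hx2 y hy) (hz2 y hy)
  algebraMap_mem' := by
    intro r
    have h0 : ∀ (r : ℂ), ∀ y ∈ EXE_T B o, (algebraMap ℂ (H →L[ℂ] H) r) y ∈ EXE_T B o := by
      intro r y hy
      rw [Algebra.algebraMap_eq_smul_one, ContinuousLinearMap.smul_apply,
        ContinuousLinearMap.one_apply]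
      exact Submodule.smul_mem _ _ hy
    refine ⟨h0 r, ?_⟩
    rw [← algebraMap_star_comm]
    exact h0 _
  star_mem' := by
    rintro x ⟨hx1, hx2⟩
    refine ⟨hx2, ?_⟩
    rw [star_star]
    exact hx1

theorem EXE_dense (B : Fin n → StarSubalgebra ℂ (H →L[ℂ] H)) (o : H) (ho : ‖o‖ = 1)
    (hD : Dense {y : H | ∃ x ∈ (⨆ j, B j : StarSubalgebra ℂ (H →L[ℂ] H)), x o = y}) :
    Dense (EXE_T B o : Set H) := by
  apply hD.mono
  rintro y ⟨x, hx, rfl⟩
  have hle : (⨆ j, B j : StarSubalgebra ℂ (H →L[ℂ] H)) ≤ EXE_S B o := by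
    apply iSup_le
    intro j a ha
    exact ⟨fun y hy => EXE_inv B o ho j a ha y hy,
      fun y hy => EXE_inv B o ho j (star a) (star_mem ha) y hy⟩
  exact (hle hx).1 o (EXE_o_mem B o)

end EXE

theorem p_EXE : Stmt_EXE := by
  intro H _ _ _ n B o ho hF hD
  have hoV : o ∈ EXE_V B o none := by
    have h := EXE_mem B o [] (EXE_alt_nil B o)
    rw [EXE_v_nil, EXE_lst_nil] at h
    exact h
  have hE0 : ∀ l, EXE_E B o l o = 0 := fun l =>
    EXE_E_zero B o ho hF l none (by simp) o hoV
  refine ⟨EXE_E B o, hE0, ?_⟩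
  intro l j a ha
  have hoo : ⟪o, o⟫_ℂ = 1 := by
    rw [inner_self_eq_norm_sq_to_K, ho]
    simp
  apply ContinuousLinearMap.ext_on (s := {y | ∃ t, AltI B o t ∧ EXE_v o t = y})
    (EXE_dense B o ho hD)
  rintro y ⟨t, ht, rfl⟩
  by_cases h : t = []
  · subst h
    rw [EXE_v_nil]
    have h1 : EXE_E B o l (a o) = if l = j then EXE_c o a o else 0 := by
      rw [EXE_c_apply o o a, map_add, map_smul, hE0, smul_zero, zero_add]
      by_cases hlj : l = j
      · rw [if_pos hlj, hlj]
        exact EXE_E_self B o j _ (EXE_step0 B o ho j a ha)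
      · rw [if_neg hlj]
        apply EXE_E_zero B o ho hF l (some j) _ _ (EXE_step0 B o ho j a ha)
        intro h
        rw [Option.some.injEq] at h
        exact hlj h.symm
    rw [ContinuousLinearMap.sub_apply, ContinuousLinearMap.mul_apply,
      ContinuousLinearMap.mul_apply, hE0, map_zero, sub_zero, h1]
    by_cases hlj : l = j
    · rw [if_pos hlj, if_pos hlj, ContinuousLinearMap.sub_apply, ContinuousLinearMap.mul_apply,
        ContinuousLinearMap.mul_apply, Pr, ContinuousLinearMap.smulRight_apply,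
        ContinuousLinearMap.smulRight_apply, innerSL_apply_apply, innerSL_apply_apply, hoo,
        one_smul, EXE_c, ContinuousLinearMap.sub_apply, ContinuousLinearMap.smul_apply,
        ContinuousLinearMap.one_apply]
    · rw [if_neg hlj, if_neg hlj, ContinuousLinearMap.zero_apply]
  · obtain ⟨l', hl'⟩ := Option.ne_none_iff_exists'.1 (EXE_lst_ne_none t h)
    obtain ⟨s, y, hy, h1, h2⟩ := EXE_step B o ho j l' a ha t ht hl'
    have ht2 := EXE_mem B o t ht
    rw [hl'] at ht2
    have h3 : ⟪o, EXE_v o t⟫_ℂ = 0 := EXE_V_orth B o ho hF none (some l') (by simp) _ _ hoV ht2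
    have h4 : ⟪o, a (EXE_v o t)⟫_ℂ = s := by
      rw [h1, inner_add_right, inner_smul_right, hoo,
        EXE_V_orth B o ho hF none (some l') (by simp) _ _ hoV hy]
      simp
    have hrhs : (if l = j then a * Pr o - Pr o * a else 0 : H →L[ℂ] H) (EXE_v o t) =
        if l = j then - (s • o) else 0 := by
      by_cases hlj : l = j
      · rw [if_pos hlj, if_pos hlj, ContinuousLinearMap.sub_apply, ContinuousLinearMap.mul_apply,
          ContinuousLinearMap.mul_apply, Pr, ContinuousLinearMap.smulRight_apply,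
          ContinuousLinearMap.smulRight_apply, innerSL_apply_apply, innerSL_apply_apply, h3, h4,
          zero_smul, map_zero, zero_sub]
      · rw [if_neg hlj, if_neg hlj, ContinuousLinearMap.zero_apply]
    rw [hrhs, ContinuousLinearMap.sub_apply, ContinuousLinearMap.mul_apply,
      ContinuousLinearMap.mul_apply]
    by_cases hll : l = l'
    · subst hll
      have h5 : EXE_E B o l (a (EXE_v o t)) = y := by
        rw [h1, map_add, map_smul, hE0, smul_zero, zero_add]
        exact EXE_E_self B o l y hy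
      rw [h5, EXE_E_self B o l _ ht2, h1]
      by_cases hlj : l = j
      · rw [if_pos hlj]
        abel
      · rw [if_neg hlj, h2 (fun h => hlj h.symm), zero_smul, zero_add, sub_self]
    · have hne : (some l' : Option (Fin n)) ≠ some l := by
        intro h
        rw [Option.some.injEq] at h
        exact hll h.symm
      rw [EXE_E_zero B o ho hF l (some l') hne _ ht2, map_zero, sub_zero, h1, map_add,
        map_smul, hE0, smul_zero, zero_add, EXE_E_zero B o ho hF l (some l') hne _ hy]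
      by_cases hlj : l = j
      · rw [if_pos hlj, h2 (fun h => hll (hlj.trans h)), zero_smul, neg_zero]
      · rw [if_neg hlj]

end Pool.SI
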