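import Pool.Agent.Work.MP_118406_si.Interface

set_option autoImplicit false

open scoped InnerProductSpace ComplexConjugate Topology
open Set Filter

noncomputable section

namespace Pool.SI

theorem HSE_norm {k : ℕ} (f : Fk k) : ‖f‖ ^ 2 = ∑' u, ‖f u‖ ^ 2 := by
  have h := lp.norm_rpow_eq_tsum (p := 2) (by norm_num) f
  simpa using h

theorem HSE_inj {k : ℕ} (i : Fin k) : Function.Injective
    (fun q : List (Fin k) × List (Fin k) =>
      (⟨q.2 ++ i :: q.1.reverse, ⟨q.2.length, by simp⟩⟩ : Σ w : List (Fin k), Fin w.length)) := by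
  rintro ⟨v, u⟩ ⟨v', u'⟩ h
  have h1 : u ++ i :: v.reverse = u' ++ i :: v'.reverse := congrArg Sigma.fst h
  have h2 : u.length = u'.length := by
    have := congrArg (fun s : (Σ w : List (Fin k), Fin w.length) => (s.2 : ℕ)) h
    exact this
  have h3 := List.append_inj h1 h2
  have h4 : v = v' := by
    have := (List.cons.inj h3.2).2
    exact List.reverse_injective this
  rw [h4, h3.1]

theorem p_HSE (_hBAS : Stmt_BAS) (hENT : Stmt_ENT) : Stmt_HSE := by
  intro k x hx hfin i
  have hs : Summable (fun s : (Σ w : List (Fin k), Fin w.length) => ‖(x (vac k)) s.1‖ ^ 2) := by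
    rw [summable_sigma_of_nonneg (fun s => by positivity)]
    refine ⟨fun w => (hasSum_fintype _).summable, ?_⟩
    have : (fun w : List (Fin k) => ∑' _y : Fin w.length, ‖(x (vac k)) w‖ ^ 2) =
        fun w : List (Fin k) => (w.length : ℝ) * ‖(x (vac k)) w‖ ^ 2 := by
      funext w
      rw [tsum_fintype]
      simp
    rw [this]
    exact hfin
  have h2 := (hs.comp_injective (HSE_inj i)).prod
  refine h2.congr (fun v => ?_)
  rw [HSE_norm]
  refine tsum_congr (fun u => ?_)
  rw [← bs_inner u, hENT k x hx i u v]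
  rfl

end Pool.SI
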