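import Pool.Agent.Work.MP_118406_si.Interface

set_option autoImplicit false

open scoped InnerProductSpace ComplexConjugate Topology
open Set Filter

noncomputable section

namespace Pool.SI

theorem MNA_cj {k k' : ℕ} (U : Fk k' ≃ₗᵢ[ℂ] Fk k) (T : Fk k' →L[ℂ] Fk k') (ξ : Fk k) :
    cj U T ξ = U (T (U.symm ξ)) := rfl

theorem MNA_jf {k k' : ℕ} (U : Fk k' ≃ₗᵢ[ℂ] Fk k) (hJ : ∀ ξ : Fk k', U (Jf ξ) = Jf (U ξ)) (b : Fk k) :
    U (Jf (U.symm b)) = Jf b := by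
  rw [hJ, LinearIsometryEquiv.apply_symm_apply]

theorem MNA_term {k k' : ℕ} (U : Fk k' ≃ₗᵢ[ℂ] Fk k) (hJ : ∀ ξ : Fk k', U (Jf ξ) = Jf (U ξ))
    (T : Fk k' →L[ℂ] Fk k') (a b : Fk k) :
    ⟪Jf (U.symm a), T (Jf (U.symm b))⟫_ℂ = ⟪Jf a, cj U T (Jf b)⟫_ℂ := by
  rw [MNA_cj, ← MNA_jf U hJ a, ← MNA_jf U hJ b, LinearIsometryEquiv.symm_apply_apply,
    LinearIsometryEquiv.inner_map_map]

theorem MNA_sum {k k' : ℕ} (U : Fk k' ≃ₗᵢ[ℂ] Fk k) (T : Fk k →L[ℂ] Fk k) (a b : ℕ → Fk k)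
    (h : ∀ x, HasSum (fun n => ⟪b n, x⟫_ℂ • a n) (T x)) (ξ : Fk k') :
    HasSum (fun n => ⟪U.symm (b n), ξ⟫_ℂ • U.symm (a n)) (cj U.symm T ξ) := by
  have h1 := (h (U ξ)).mapL (U.symm : Fk k →L[ℂ] Fk k')
  have e : (fun n => ⟪U.symm (b n), ξ⟫_ℂ • U.symm (a n)) =
      fun n => (U.symm : Fk k →L[ℂ] Fk k') (⟪b n, U ξ⟫_ℂ • a n) := by
    funext n
    rw [map_smul]
    congr 1
    rw [LinearIsometryEquiv.inner_map_eq_flip]
    rfl
  rw [e]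
  exact h1

theorem p_MNA (hIMP : Stmt_IMP) (hPN1 : Stmt_PN1) (hPN2 : Stmt_PN2) (hCJR : Stmt_CJR) : Stmt_MNA := by
  intro k k' hk hk' φ hN
  obtain ⟨U, hU⟩ := hIMP k k' hk hk' φ
  obtain ⟨c1, c2⟩ := hCJR k k' φ U hU
  have hJ := hU.2.2
  choose a b hs hsum using hN
  have e1 : ∀ j : Fin k', (1 : ℂ) = ∑ i : Fin k, ∑' n, ⟪Jf (a i j n),
      cj U (dq j (φ.symm (ge i) : Fk k' →L[ℂ] Fk k')) (Jf (b i j n))⟫_ℂ := by
    intro j
    obtain ⟨d1, d2, d3⟩ := c1 j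
    have h := hPN2 k (cj U (ContinuousLinearMap.adjoint (rc j))) (φ (ge j) : Fk k →L[ℂ] Fk k)
      (fun i n => a i j n) (fun i n => b i j n) (φ (ge j)).2 d1 (fun i => hs i j) (fun i => hsum i j)
    rw [d3 j, if_pos rfl] at h
    rw [h]
    apply Finset.sum_congr rfl
    intro i _
    rw [d2 i]
  have e2 : ∀ i : Fin k, (1 : ℂ) = ∑ j : Fin k', ∑' n, ⟪Jf (a i j n),
      cj U (dq j (φ.symm (ge i) : Fk k' →L[ℂ] Fk k')) (Jf (b i j n))⟫_ℂ := by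
    intro i
    obtain ⟨d1, d2, d3⟩ := c2 i
    have h := hPN1 k' (cj U.symm (ContinuousLinearMap.adjoint (rc i)))
      (φ.symm (ge i) : Fk k' →L[ℂ] Fk k')
      (fun j n => U.symm (a i j n)) (fun j n => U.symm (b i j n)) (φ.symm (ge i)).2 d1
      (fun j => by
        have := hs i j
        simpa only [LinearIsometryEquiv.norm_map] using this)
      (fun j ξ => by
        rw [d2 j]
        exact MNA_sum U _ _ _ (hsum i j) ξ)
    rw [d3 i, if_pos rfl] at h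
    rw [h]
    apply Finset.sum_congr rfl
    intro j _
    congr 1
    funext n
    exact MNA_term U hJ _ _ _
  have h1 : ∑ _j : Fin k', (1 : ℂ) = ∑ _i : Fin k, (1 : ℂ) := by
    calc ∑ _j : Fin k', (1 : ℂ) = ∑ j : Fin k', ∑ i : Fin k, ∑' n, ⟪Jf (a i j n),
          cj U (dq j (φ.symm (ge i) : Fk k' →L[ℂ] Fk k')) (Jf (b i j n))⟫_ℂ :=
          Finset.sum_congr rfl fun j _ => e1 j
      _ = ∑ i : Fin k, ∑ j : Fin k', ∑' n, ⟪Jf (a i j n),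
          cj U (dq j (φ.symm (ge i) : Fk k' →L[ℂ] Fk k')) (Jf (b i j n))⟫_ℂ := Finset.sum_comm
      _ = _ := Finset.sum_congr rfl fun i _ => (e2 i).symm
  rw [Finset.sum_const, Finset.sum_const, Finset.card_univ, Finset.card_univ, Fintype.card_fin,
    Fintype.card_fin, nsmul_eq_mul, nsmul_eq_mul, mul_one, mul_one] at h1
  exact (Nat.cast_injective h1).symm

end Pool.SI
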