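import Pool.Agent.Work.MP_118406_si.Interface

set_option autoImplicit false

open scoped InnerProductSpace ComplexConjugate Topology
open Set Filter

noncomputable section

namespace Pool.SI

/-- One side of the double counting. -/
theorem MNB_one (hPRS : Stmt_PRS) (hHPR : Stmt_HPR) (k : ℕ) (R x : Fk k →L[ℂ] Fk k)
    (hx : x ∈ Alg k) (hR : R (vac k) = 0) (S : Fin k → (Fk k →L[ℂ] Fk k))
    (hS : ∀ i, R * sc i - sc i * R = S i) (hHS : ∀ i, HS (S i)) (hHT : ∀ i, HS (dq i x)) :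
    ⟪vac k, R (x (vac k))⟫_ℂ = ∑ i, hp (S i) (dq i x) := by
  have h1 := hPRS k R x hx hR
  have h2 : HasSum (fun m : ℕ => ∑ i : Fin k, ∑ p ∈ Finset.HasAntidiagonal.antidiagonal m,
      cc (R * sc i - sc i * R) (dq i x) p.1 p.2) (∑ i, hp (S i) (dq i x)) := by
    refine hasSum_sum (fun i _ => ?_)
    rw [hS i]
    exact hHPR k (S i) (dq i x) (hHS i) (hHT i)
  exact h1.unique h2

theorem p_MNB (hIMP : Stmt_IMP) (hPRS : Stmt_PRS) (hCJR : Stmt_CJR) (hHSE : Stmt_HSE)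
    (hHPR : Stmt_HPR) (hHSU : Stmt_HSU) : Stmt_MNB := by
  intro k k' hk hk' φ hF hG
  obtain ⟨U, hU⟩ := hIMP k k' hk hk' φ
  obtain ⟨h1, h2⟩ := hCJR k k' φ U hU
  obtain ⟨hS1, hS2, hS3⟩ := hHSU k k' U hU.2.2
  have hK : ∀ (i : Fin k) (j : Fin k'), HS (dq i (φ (ge j) : Fk k →L[ℂ] Fk k)) :=
    fun i j => hHSE k _ (φ (ge j)).2 (hF j) i
  have hL : ∀ (j : Fin k') (i : Fin k), HS (dq j (φ.symm (ge i) : Fk k' →L[ℂ] Fk k')) :=
    fun j i => hHSE k' _ (φ.symm (ge i)).2 (hG i) j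
  have hA : ∀ j : Fin k', (1 : ℂ) = ∑ i : Fin k,
      hp (cj U (dq j (φ.symm (ge i) : Fk k' →L[ℂ] Fk k'))) (dq i (φ (ge j) : Fk k →L[ℂ] Fk k)) := by
    intro j
    have h := MNB_one hPRS hHPR k (cj U (ContinuousLinearMap.adjoint (rc j)))
      (φ (ge j) : Fk k →L[ℂ] Fk k) (φ (ge j)).2 (h1 j).1 _ (h1 j).2.1
      (fun i => hS1 _ (hL j i)) (fun i => hK i j)
    rw [(h1 j).2.2 j, if_pos rfl] at h
    exact h
  have hB : ∀ i : Fin k, (1 : ℂ) = ∑ j : Fin k',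
      hp (cj U.symm (dq i (φ (ge j) : Fk k →L[ℂ] Fk k)))
        (dq j (φ.symm (ge i) : Fk k' →L[ℂ] Fk k')) := by
    intro i
    have h := MNB_one hPRS hHPR k' (cj U.symm (ContinuousLinearMap.adjoint (rc i)))
      (φ.symm (ge i) : Fk k' →L[ℂ] Fk k') (φ.symm (ge i)).2 (h2 i).1 _ (h2 i).2.1
      (fun j => hS2 _ (hK i j)) (fun j => hL j i)
    rw [(h2 i).2.2 i, if_pos rfl] at h
    exact h
  have hsum : (k : ℂ) = (k' : ℂ) := by
    calc (k : ℂ) = ∑ _i : Fin k, (1 : ℂ) := by simp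
      _ = ∑ i : Fin k, ∑ j : Fin k', hp (cj U.symm (dq i (φ (ge j) : Fk k →L[ℂ] Fk k)))
          (dq j (φ.symm (ge i) : Fk k' →L[ℂ] Fk k')) := Finset.sum_congr rfl (fun i _ => hB i)
      _ = ∑ i : Fin k, ∑ j : Fin k', hp (cj U (dq j (φ.symm (ge i) : Fk k' →L[ℂ] Fk k')))
          (dq i (φ (ge j) : Fk k →L[ℂ] Fk k)) :=
          Finset.sum_congr rfl (fun i _ => Finset.sum_congr rfl
            (fun j _ => hS3 _ _ (hK i j) (hL j i)))
      _ = ∑ j : Fin k', ∑ i : Fin k, hp (cj U (dq j (φ.symm (ge i) : Fk k' →L[ℂ] Fk k')))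
          (dq i (φ (ge j) : Fk k →L[ℂ] Fk k)) := Finset.sum_comm
      _ = ∑ _j : Fin k', (1 : ℂ) := Finset.sum_congr rfl (fun j _ => (hA j).symm)
      _ = (k' : ℂ) := by simp
  exact_mod_cast hsum

end Pool.SI
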