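import Pool.Agent.Work.MP_118406_si.Interface2

set_option autoImplicit false

open scoped InnerProductSpace ComplexConjugate Topology
open Set Filter

noncomputable section

namespace Pool.SI

theorem PIQ_bd {k : ℕ} (hn : ∀ x : Fk k, ‖Jf x‖ = ‖x‖) (S : Fk k →L[ℂ] Fk k) (a b : Fk k) :
    ‖⟪Jf a, S (Jf b)⟫_ℂ‖ ≤ ‖S‖ * (‖a‖ * ‖b‖) := by
  calc ‖⟪Jf a, S (Jf b)⟫_ℂ‖ ≤ ‖Jf a‖ * ‖S (Jf b)‖ := norm_inner_le_norm _ _
    _ ≤ ‖Jf a‖ * (‖S‖ * ‖Jf b‖) := by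
        gcongr
        exact S.le_opNorm _
    _ = ‖S‖ * (‖a‖ * ‖b‖) := by rw [hn a, hn b]; ring

theorem PIQ_sm {k : ℕ} (hn : ∀ x : Fk k, ‖Jf x‖ = ‖x‖) {α β : ℕ → Fk k}
    (hs : Summable (fun n => ‖α n‖ * ‖β n‖)) (S : Fk k →L[ℂ] Fk k) :
    Summable (fun n => ⟪Jf (α n), S (Jf (β n))⟫_ℂ) :=
  Summable.of_norm_bounded (hs.mul_left ‖S‖) (fun n => PIQ_bd hn S (α n) (β n))

/-- The functional. -/
def PIQ_F {k : ℕ} (hn : ∀ x : Fk k, ‖Jf x‖ = ‖x‖) {α β : ℕ → Fk k}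
    (hs : Summable (fun n => ‖α n‖ * ‖β n‖)) : (Fk k →L[ℂ] Fk k) →L[ℂ] ℂ :=
  LinearMap.mkContinuous
    { toFun := fun S => ∑' n, ⟪Jf (α n), S (Jf (β n))⟫_ℂ
      map_add' := by
        intro S T
        rw [← Summable.tsum_add (PIQ_sm hn hs S) (PIQ_sm hn hs T)]
        apply tsum_congr
        intro n
        rw [ContinuousLinearMap.add_apply, inner_add_right]
      map_smul' := by
        intro c S
        rw [RingHom.id_apply, smul_eq_mul, ← tsum_mul_left]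
        apply tsum_congr
        intro n
        rw [ContinuousLinearMap.smul_apply, inner_smul_right] }
    (∑' n, ‖α n‖ * ‖β n‖) (by
      intro S
      show ‖∑' n, ⟪Jf (α n), S (Jf (β n))⟫_ℂ‖ ≤ _
      rw [mul_comm, ← tsum_mul_left]
      exact tsum_of_norm_bounded (hs.mul_left ‖S‖).hasSum (fun n => PIQ_bd hn S (α n) (β n)))

theorem PIQ_F_apply {k : ℕ} (hn : ∀ x : Fk k, ‖Jf x‖ = ‖x‖) {α β : ℕ → Fk k}
    (hs : Summable (fun n => ‖α n‖ * ‖β n‖)) (S : Fk k →L[ℂ] Fk k) :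
    PIQ_F hn hs S = ∑' n, ⟪Jf (α n), S (Jf (β n))⟫_ℂ := rfl

theorem PIQ_J1 (hJ : Stmt_JOP) (hA : Stmt_ALC) {k : ℕ} (ξ : Fk k) (b : Fk k →L[ℂ] Fk k)
    (hb : b ∈ Alg k) : ⟪Jf ξ, b (vac k)⟫_ℂ = ⟪vac k, b ξ⟫_ℂ := by
  have h1 : b (vac k) = Jf ((star b) (vac k)) := by
    rw [← (hA k).2.1 b hb, (hJ k).2.2.1]
  rw [h1, (hJ k).2.2.2.2.2.1, ContinuousLinearMap.star_eq_adjoint,
    ContinuousLinearMap.adjoint_inner_left]

theorem PIQ_J2 (hJ : Stmt_JOP) (hA : Stmt_ALC) {k : ℕ} (η : Fk k) (d : Fk k →L[ℂ] Fk k)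
    (hd : d ∈ Alg k) : ⟪vac k, d (Jf η)⟫_ℂ = ⟪η, d (vac k)⟫_ℂ := by
  rw [← ContinuousLinearMap.adjoint_inner_left, ← ContinuousLinearMap.star_eq_adjoint,
    ← (hA k).2.1 d hd, (hJ k).2.2.2.2.2.1]

/-- The identity for `x`. -/
def PIQ_Q {k n : ℕ} (E : Fin n → (Fk k →L[ℂ] Fk k)) (R : Fk k →L[ℂ] Fk k)
    (F : Fin n → ((Fk k →L[ℂ] Fk k) →L[ℂ] ℂ)) (x : Fk k →L[ℂ] Fk k) : Prop :=
  ∀ b ∈ Alg k, ∀ c ∈ Alg k, ⟪vac k, (b * (R * x - x * R) * c) (vac k)⟫_ℂ =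
    - ∑ j, F j (b * (E j * x - x * E j) * c)

theorem PIQ_base (hJ : Stmt_JOP) (hA : Stmt_ALC) {k n : ℕ}
    (B : Fin n → StarSubalgebra ℂ (Fk k →L[ℂ] Fk k)) (E : Fin n → (Fk k →L[ℂ] Fk k))
    (R : Fk k →L[ℂ] Fk k) (T : Fin n → (Fk k →L[ℂ] Fk k)) (ξ η : Fin n → ℕ → Fk k)
    (hB : ∀ j, B j ≤ Alg k) (hE : Eop B (vac k) E) (hT : ∀ j, Rep (T j) (ξ j) (η j))
    (hR : ∀ j, ∀ b ∈ B j, R * b - b * R = T j * b - b * T j) (j : Fin n)
    (x : Fk k →L[ℂ] Fk k) (hx : x ∈ B j) :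
    PIQ_Q E R (fun j => PIQ_F (hJ k).2.2.2.2.1 (hT j).1) x := by
  intro b hb c hc
  have hxA : x ∈ Alg k := hB j hx
  have hrhs : ∑ j', PIQ_F (hJ k).2.2.2.2.1 (hT j').1 (b * (E j' * x - x * E j') * c) =
      PIQ_F (hJ k).2.2.2.2.1 (hT j).1 (b * (x * Pr (vac k) - Pr (vac k) * x) * c) := by
    rw [Finset.sum_eq_single j]
    · rw [hE.2 j j x hx, if_pos rfl]
    · intro j' _ hj'
      rw [hE.2 j' j x hx, if_neg hj', mul_zero, zero_mul, map_zero]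
    · intro h
      exact absurd (Finset.mem_univ j) h
  rw [hrhs, hR j x hx, ← map_neg, PIQ_F_apply]
  have h1 := ((innerSL ℂ (vac k)).comp b).hasSum ((hT j).2 (x (c (vac k))))
  have h2 := ((innerSL ℂ (vac k)).comp (b * x)).hasSum ((hT j).2 (c (vac k)))
  have h3 := h1.sub h2
  have h4 : (((innerSL ℂ (vac k)).comp b) (T j (x (c (vac k)))) -
      ((innerSL ℂ (vac k)).comp (b * x)) (T j (c (vac k)))) =
      ⟪vac k, (b * (T j * x - x * T j) * c) (vac k)⟫_ℂ := by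
    simp only [ContinuousLinearMap.comp_apply, innerSL_apply_apply, ContinuousLinearMap.mul_apply,
      ContinuousLinearMap.sub_apply, map_sub, inner_sub_right]
  rw [← h4, ← h3.tsum_eq]
  apply tsum_congr
  intro m
  simp only [ContinuousLinearMap.comp_apply, innerSL_apply_apply, ContinuousLinearMap.mul_apply,
    ContinuousLinearMap.sub_apply, map_sub, inner_sub_right, ContinuousLinearMap.neg_apply,
    inner_neg_right, map_smul, inner_smul_right, Pr, ContinuousLinearMap.smulRight_apply,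
    Function.comp_apply]
  have e1 := PIQ_J1 hJ hA (ξ j m) b hb
  have e2 := PIQ_J1 hJ hA (ξ j m) (b * x) (mul_mem hb hxA)
  have e3 := PIQ_J2 hJ hA (η j m) (x * c) (mul_mem hxA hc)
  have e4 := PIQ_J2 hJ hA (η j m) c hc
  simp only [ContinuousLinearMap.mul_apply] at e1 e2 e3 e4
  rw [e1, e2, e3, e4]
  ring

theorem PIQ_alg {k n : ℕ} {E : Fin n → (Fk k →L[ℂ] Fk k)} {R : Fk k →L[ℂ] Fk k}
    {F : Fin n → ((Fk k →L[ℂ] Fk k) →L[ℂ] ℂ)} (r : ℂ) : PIQ_Q E R F (algebraMap ℂ _ r) := by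
  intro b _ c _
  have h1 : R * algebraMap ℂ (Fk k →L[ℂ] Fk k) r - algebraMap ℂ (Fk k →L[ℂ] Fk k) r * R = 0 := by
    rw [Algebra.commutes r R, sub_self]
  have h2 : ∀ j, E j * algebraMap ℂ (Fk k →L[ℂ] Fk k) r -
      algebraMap ℂ (Fk k →L[ℂ] Fk k) r * E j = 0 := by
    intro j
    rw [Algebra.commutes r (E j), sub_self]
  simp only [h1, h2, mul_zero, zero_mul, map_zero, Finset.sum_const_zero, neg_zero,
    ContinuousLinearMap.zero_apply, inner_zero_right]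

theorem PIQ_add {k n : ℕ} {E : Fin n → (Fk k →L[ℂ] Fk k)} {R : Fk k →L[ℂ] Fk k}
    {F : Fin n → ((Fk k →L[ℂ] Fk k) →L[ℂ] ℂ)} {x y : Fk k →L[ℂ] Fk k}
    (hx : PIQ_Q E R F x) (hy : PIQ_Q E R F y) : PIQ_Q E R F (x + y) := by
  intro b hb c hc
  have h1 : b * (R * (x + y) - (x + y) * R) * c =
      b * (R * x - x * R) * c + b * (R * y - y * R) * c := by noncomm_ring
  have h2 : ∀ j, b * (E j * (x + y) - (x + y) * E j) * c =
      b * (E j * x - x * E j) * c + b * (E j * y - y * E j) * c := by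
    intro j
    noncomm_ring
  simp only [h1, h2, map_add, Finset.sum_add_distrib, ContinuousLinearMap.add_apply,
    inner_add_right]
  rw [hx b hb c hc, hy b hb c hc]
  ring

theorem PIQ_mul {k n : ℕ} {E : Fin n → (Fk k →L[ℂ] Fk k)} {R : Fk k →L[ℂ] Fk k}
    {F : Fin n → ((Fk k →L[ℂ] Fk k) →L[ℂ] ℂ)} {x y : Fk k →L[ℂ] Fk k}
    (hxA : x ∈ Alg k) (hyA : y ∈ Alg k)
    (hx : PIQ_Q E R F x) (hy : PIQ_Q E R F y) : PIQ_Q E R F (x * y) := by
  intro b hb c hc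
  have h1 : b * (R * (x * y) - (x * y) * R) * c =
      b * (R * x - x * R) * (y * c) + (b * x) * (R * y - y * R) * c := by noncomm_ring
  have h2 : ∀ j, b * (E j * (x * y) - (x * y) * E j) * c =
      b * (E j * x - x * E j) * (y * c) + (b * x) * (E j * y - y * E j) * c := by
    intro j
    noncomm_ring
  simp only [h1, h2, map_add, Finset.sum_add_distrib, ContinuousLinearMap.add_apply,
    inner_add_right]
  rw [hx b hb (y * c) (mul_mem hyA hc), hy (b * x) (mul_mem hb hxA) c hc]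
  ring

theorem PIQ_closed {k n : ℕ} (E : Fin n → (Fk k →L[ℂ] Fk k)) (R : Fk k →L[ℂ] Fk k)
    (F : Fin n → ((Fk k →L[ℂ] Fk k) →L[ℂ] ℂ)) : IsClosed {x | PIQ_Q E R F x} := by
  have h0 : {x | PIQ_Q E R F x} = ⋂ b ∈ Alg k, ⋂ c ∈ Alg k,
      {x | ⟪vac k, (b * (R * x - x * R) * c) (vac k)⟫_ℂ =
        - ∑ j, F j (b * (E j * x - x * E j) * c)} := by
    ext x
    simp only [PIQ_Q, mem_setOf_eq, mem_iInter]
  rw [h0]
  apply isClosed_biInter
  intro b _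
  apply isClosed_biInter
  intro c _
  apply isClosed_eq
  · have hc : Continuous (fun x : Fk k →L[ℂ] Fk k => b * (R * x - x * R) * c) := by fun_prop
    have h1 : Continuous (fun x : Fk k →L[ℂ] Fk k => (b * (R * x - x * R) * c) (vac k)) :=
      hc.clm_apply continuous_const
    exact continuous_const.inner h1
  · apply Continuous.neg
    apply continuous_finset_sum
    intro j _
    have hc : Continuous (fun x : Fk k →L[ℂ] Fk k => b * (E j * x - x * E j) * c) := by fun_prop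
    exact (F j).continuous.comp hc

/-- The star subalgebra. -/
def PIQ_S {k n : ℕ} (E : Fin n → (Fk k →L[ℂ] Fk k)) (R : Fk k →L[ℂ] Fk k)
    (F : Fin n → ((Fk k →L[ℂ] Fk k) →L[ℂ] ℂ)) : StarSubalgebra ℂ (Fk k →L[ℂ] Fk k) where
  carrier := {x | x ∈ Alg k ∧ PIQ_Q E R F x ∧ PIQ_Q E R F (star x)}
  mul_mem' := by
    rintro x y ⟨hx1, hx2, hx3⟩ ⟨hy1, hy2, hy3⟩
    refine ⟨mul_mem hx1 hy1, PIQ_mul hx1 hy1 hx2 hy2, ?_⟩
    rw [star_mul]
    exact PIQ_mul (star_mem hy1) (star_mem hx1) hy3 hx3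
  add_mem' := by
    rintro x y ⟨hx1, hx2, hx3⟩ ⟨hy1, hy2, hy3⟩
    refine ⟨add_mem hx1 hy1, PIQ_add hx2 hy2, ?_⟩
    rw [star_add]
    exact PIQ_add hx3 hy3
  algebraMap_mem' := by
    intro r
    refine ⟨algebraMap_mem _ r, PIQ_alg r, ?_⟩
    rw [← algebraMap_star_comm]
    exact PIQ_alg _
  star_mem' := by
    rintro x ⟨hx1, hx2, hx3⟩
    refine ⟨star_mem hx1, hx3, ?_⟩
    rw [star_star]
    exact hx2

theorem p_PIQ (hJ : Stmt_JOP) (hA : Stmt_ALC) : Stmt_PIQ := by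
  intro k n B E R T ξ η hB hE hT hR x hx
  have hle : (⨆ j, B j : StarSubalgebra ℂ (Fk k →L[ℂ] Fk k)).topologicalClosure ≤
      PIQ_S E R (fun j => PIQ_F (hJ k).2.2.2.2.1 (hT j).1) := by
    apply StarSubalgebra.topologicalClosure_minimal
    · apply iSup_le
      intro j y hy
      exact ⟨hB j hy, PIQ_base hJ hA B E R T ξ η hB hE hT hR j y hy,
        PIQ_base hJ hA B E R T ξ η hB hE hT hR j (star y) (star_mem hy)⟩
    · have h1 : ((PIQ_S E R (fun j => PIQ_F (hJ k).2.2.2.2.1 (hT j).1) :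
          StarSubalgebra ℂ (Fk k →L[ℂ] Fk k)) : Set (Fk k →L[ℂ] Fk k)) =
          (Alg k : Set (Fk k →L[ℂ] Fk k)) ∩
          ({x | PIQ_Q E R (fun j => PIQ_F (hJ k).2.2.2.2.1 (hT j).1) x} ∩
          star ⁻¹' {x | PIQ_Q E R (fun j => PIQ_F (hJ k).2.2.2.2.1 (hT j).1) x}) := rfl
      rw [h1]
      apply IsClosed.inter
      · exact StarSubalgebra.isClosed_topologicalClosure _
      · exact (PIQ_closed _ _ _).inter ((PIQ_closed _ _ _).preimage continuous_star)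
  have h := (hle hx).2.1 1 (one_mem _) 1 (one_mem _)
  simp only [one_mul, mul_one] at h
  exact h

end Pool.SI
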