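import Pool.Agent.Work.MP_118406_si.Interface

set_option autoImplicit false

open scoped InnerProductSpace ComplexConjugate Topology
open Set Filter

noncomputable section

namespace Pool.SI

theorem PN1_norm_le {k : ℕ} (f g : Fk k) (e : List (Fin k) ≃ List (Fin k))
    (h : ∀ w, ‖f w‖ ≤ ‖g (e w)‖) : ‖f‖ ≤ ‖g‖ := by
  have h2 : (0 : ℝ) < (2 : ENNReal).toReal := by norm_num
  have hf := (lp.memℓp f).summable h2
  have hg := (lp.memℓp g).summable h2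
  have hg' : Summable fun w => ‖g (e w)‖ ^ (2 : ENNReal).toReal := e.summable_iff.2 hg
  rw [lp.norm_eq_tsum_rpow h2 f, lp.norm_eq_tsum_rpow h2 g]
  refine Real.rpow_le_rpow (tsum_nonneg fun w => by positivity) ?_ (by positivity)
  rw [← e.tsum_eq (fun w => ‖g w‖ ^ (2 : ENNReal).toReal)]
  exact hf.tsum_le_tsum (fun w => Real.rpow_le_rpow (norm_nonneg _) (h w) h2.le) hg'

theorem PN1_J {k : ℕ} (f : Fk k) : ‖Jf f‖ ≤ ‖f‖ :=
  PN1_norm_le (Jf f) f (List.reverse_involutive.toPerm (List.reverse : List (Fin k) → List (Fin k)))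
    fun w => by
      show ‖conj (f w.reverse)‖ ≤ ‖f w.reverse‖
      rw [RCLike.norm_conj]

theorem PN1_cc {k : ℕ} (h : Stmt_CCN) (S T : Fk k →L[ℂ] Fk k) (α β : ℕ → Fk k)
    (hs : Summable (fun n => ‖α n‖ * ‖β n‖)) (hS : ∀ ξ, HasSum (fun n => ⟪β n, ξ⟫_ℂ • α n) (S ξ))
    (a b : ℕ) : ‖cc S T a b‖ ≤ ‖T‖ * ∑' n, ‖α n‖ * ‖β n‖ := by
  obtain ⟨Q, hQ, hc⟩ := h k
  have hq : ∀ a ξ, ‖Q a ξ‖ ≤ ‖ξ‖ := fun a ξ => PN1_norm_le _ _ (Equiv.refl _) fun w => by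
    rw [hQ]
    split_ifs
    · exact le_rfl
    · simp
  refine HasSum.norm_le_of_bounded (hc S T α β hs hS a b) (hs.hasSum.mul_left ‖T‖) fun n => ?_
  calc ‖⟪Jf (Q a (α n)), T (Jf (Q b (β n)))⟫_ℂ‖ ≤ ‖Jf (Q a (α n))‖ * ‖T (Jf (Q b (β n)))‖ :=
        norm_inner_le_norm _ _
    _ ≤ ‖α n‖ * (‖T‖ * ‖β n‖) := by
        refine mul_le_mul ((PN1_J _).trans (hq a _)) ?_ (norm_nonneg _) (norm_nonneg _)
        refine (T.le_opNorm _).trans ?_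
        gcongr
        exact (PN1_J _).trans (hq b _)
    _ = ‖T‖ * (‖α n‖ * ‖β n‖) := by ring

theorem PN1_summ (c : ℕ → ℕ → ℂ) (M : ℝ) (hc : ∀ a b, ‖c a b‖ ≤ M) (r : ℝ) (h0 : 0 < r)
    (h1 : r < 1) : Summable (fun m : ℕ => (r : ℂ) ^ m *
      ∑ p ∈ Finset.HasAntidiagonal.antidiagonal m, c p.1 p.2) := by
  have hr : ‖r‖ < 1 := by rwa [Real.norm_of_nonneg h0.le]
  have hs : Summable (fun m : ℕ => ((m : ℝ) ^ 1 * r ^ m + r ^ m) * M) :=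
    ((summable_pow_mul_geometric_of_norm_lt_one 1 hr).add
      (summable_geometric_of_norm_lt_one hr)).mul_right M
  refine Summable.of_norm_bounded hs fun m => ?_
  rw [norm_mul, norm_pow, Complex.norm_real, Real.norm_of_nonneg h0.le]
  have h2 : ‖∑ p ∈ Finset.HasAntidiagonal.antidiagonal m, c p.1 p.2‖ ≤ ((m : ℝ) + 1) * M := by
    refine (norm_sum_le _ _).trans ?_
    refine (Finset.sum_le_sum fun p _ => hc p.1 p.2).trans ?_
    rw [Finset.sum_const, Finset.Nat.card_antidiagonal, nsmul_eq_mul]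
    push_cast
    exact le_rfl
  calc r ^ m * ‖∑ p ∈ Finset.HasAntidiagonal.antidiagonal m, c p.1 p.2‖
      ≤ r ^ m * (((m : ℝ) + 1) * M) := by gcongr
    _ = ((m : ℝ) ^ 1 * r ^ m + r ^ m) * M := by ring

theorem PN1_abel (c : ℕ → ℂ) (L : ℂ) (hc : HasSum c L) :
    Tendsto (fun r : ℝ => ∑' m : ℕ, (r : ℂ) ^ m * c m) (𝓝[<] 1) (𝓝 L) := by
  have hev : ∀ᶠ r : ℝ in 𝓝[<] 1, 0 < r ∧ r < 1 := Ioo_mem_nhdsLT one_pos
  have h1 : Tendsto (fun r : ℝ => ∑' m : ℕ, (r : ℂ) ^ m * c m) (𝓝[<] 1) (𝓝 (∑' m : ℕ, c m)) := by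
    refine tendsto_tsum_of_dominated_convergence (bound := fun m => ‖c m‖) hc.summable.norm ?_ ?_
    · intro m
      have h3 : Continuous fun r : ℝ => (r : ℂ) ^ m * c m := by fun_prop
      have h4 := (h3.tendsto 1).mono_left (nhdsWithin_le_nhds (s := Iio (1 : ℝ)))
      simpa using h4
    · filter_upwards [hev] with r hr m
      rw [norm_mul, norm_pow, Complex.norm_real, Real.norm_of_nonneg hr.1.le]
      exact mul_le_of_le_one_left (norm_nonneg _) (pow_le_one₀ hr.1.le hr.2.le)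
  rwa [hc.tsum_eq] at h1

theorem PN1_lim {k : ℕ} (c : Fin k → ℕ → ℕ → ℂ) (M : Fin k → ℝ) (hc : ∀ i a b, ‖c i a b‖ ≤ M i)
    (L : ℂ) (hL : HasSum (fun m : ℕ => ∑ i : Fin k,
      ∑ p ∈ Finset.HasAntidiagonal.antidiagonal m, c i p.1 p.2) L) (l : Fin k → ℂ)
    (hl : ∀ i, Tendsto (fun r : ℝ => ∑' m : ℕ, (r : ℂ) ^ m *
      ∑ p ∈ Finset.HasAntidiagonal.antidiagonal m, c i p.1 p.2) (𝓝[<] 1) (𝓝 (l i))) :
    L = ∑ i, l i := by
  have hev : ∀ᶠ r : ℝ in 𝓝[<] 1, 0 < r ∧ r < 1 := Ioo_mem_nhdsLT one_pos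
  have h1 := PN1_abel _ L hL
  have h2 := tendsto_finsetSum Finset.univ fun i _ => hl i
  have h3 : (fun r : ℝ => ∑' m : ℕ, (r : ℂ) ^ m * ∑ i : Fin k,
      ∑ p ∈ Finset.HasAntidiagonal.antidiagonal m, c i p.1 p.2) =ᶠ[𝓝[<] 1]
      (fun r : ℝ => ∑ i : Fin k, ∑' m : ℕ, (r : ℂ) ^ m *
        ∑ p ∈ Finset.HasAntidiagonal.antidiagonal m, c i p.1 p.2) := by
    filter_upwards [hev] with r hr
    rw [← Summable.tsum_finsetSum fun i _ => PN1_summ (c i) (M i) (hc i) r hr.1 hr.2]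
    refine tsum_congr fun m => ?_
    rw [Finset.mul_sum]
  exact tendsto_nhds_unique (h1.congr' h3) h2

theorem p_PN1 (hA : Stmt_PRS) (hB : Stmt_CCN) (hC : Stmt_NPR) : Stmt_PN1 := by
  intro k R x α β hx hR hs hS
  have hS' : ∀ i ξ, HasSum (fun n => ⟪β i n, ξ⟫_ℂ • α i n) ((R * sc i - sc i * R) ξ) := hS
  exact PN1_lim (fun i a b => cc (R * sc i - sc i * R) (dq i x) a b)
    (fun i => ‖dq i x‖ * ∑' n, ‖α i n‖ * ‖β i n‖)
    (fun i a b => PN1_cc hB _ _ (α i) (β i) (hs i) (hS' i) a b) _ (hA k R x hx hR) _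
    (fun i => hC k _ _ (α i) (β i) (hs i) (hS' i))

end Pool.SI
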