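import Pool.Agent.Work.MP_118406_si.Interface

set_option autoImplicit false

/-! # THEOREM SI, block PN2: the pairing formula with nuclear difference quotients -/

open scoped InnerProductSpace ComplexConjugate Topology
open Set Filter

noncomputable section

namespace Pool.SI

/-- comparison of norms of two families -/
theorem PN2_norm {k : ℕ} (η ξ : Fk k) (e : List (Fin k) → List (Fin k))
    (he : Function.Injective e) (h : ∀ w, ‖η w‖ ≤ ‖ξ (e w)‖) : ‖η‖ ≤ ‖ξ‖ := by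
  classical
  have h2 : 0 < ENNReal.toReal 2 := by norm_num
  refine lp.norm_le_of_forall_sum_le h2 (norm_nonneg ξ) ?_
  intro s
  calc ∑ i ∈ s, ‖η i‖ ^ ENNReal.toReal 2
      ≤ ∑ i ∈ s, ‖ξ (e i)‖ ^ ENNReal.toReal 2 := by
        apply Finset.sum_le_sum
        intro i _
        exact Real.rpow_le_rpow (norm_nonneg _) (h i) h2.le
    _ = ∑ j ∈ s.image e, ‖ξ j‖ ^ ENNReal.toReal 2 := by
        rw [Finset.sum_image (fun a _ b _ hab => he hab)]
    _ ≤ ‖ξ‖ ^ ENNReal.toReal 2 := lp.sum_rpow_le_norm_rpow h2 ξ _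

/-- the conjugation does not increase the norm -/
theorem PN2_Jf {k : ℕ} (ξ : Fk k) : ‖Jf ξ‖ ≤ ‖ξ‖ := by
  apply PN2_norm (Jf ξ) ξ List.reverse List.reverse_injective
  intro w
  change ‖conj (ξ w.reverse)‖ ≤ _
  rw [RCLike.norm_conj]

/-- the projections do not increase the norm -/
theorem PN2_Q {k : ℕ} (Q : ℕ → (Fk k →L[ℂ] Fk k))
    (hQ : ∀ (a : ℕ) (ξ : Fk k) (w : List (Fin k)), (Q a ξ) w = if w.length = a then ξ w else 0)
    (a : ℕ) (ξ : Fk k) : ‖Q a ξ‖ ≤ ‖ξ‖ := by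
  apply PN2_norm (Q a ξ) ξ id Function.injective_id
  intro w
  rw [hQ]
  split_ifs
  · exact le_refl _
  · rw [norm_zero]
    exact norm_nonneg _

/-- bound of the pairing with a nuclear operator -/
theorem PN2_bound (hCCN : Stmt_CCN) (k : ℕ) (S T : Fk k →L[ℂ] Fk k) (α β : ℕ → Fk k)
    (hs : Summable (fun n => ‖α n‖ * ‖β n‖)) (hr : ∀ ξ, HasSum (fun n => ⟪β n, ξ⟫_ℂ • α n) (S ξ))
    (a b : ℕ) : ‖cc S T a b‖ ≤ ∑' n, ‖T‖ * (‖α n‖ * ‖β n‖) := by
  obtain ⟨Q, hQ, hcc⟩ := hCCN k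
  refine (hcc S T α β hs hr a b).norm_le_of_bounded (hs.mul_left ‖T‖).hasSum ?_
  intro n
  have h1 : ‖Jf (Q a (α n))‖ ≤ ‖α n‖ := (PN2_Jf _).trans (PN2_Q Q hQ a _)
  have h2 : ‖Jf (Q b (β n))‖ ≤ ‖β n‖ := (PN2_Jf _).trans (PN2_Q Q hQ b _)
  calc ‖⟪Jf (Q a (α n)), T (Jf (Q b (β n)))⟫_ℂ‖
      ≤ ‖Jf (Q a (α n))‖ * ‖T (Jf (Q b (β n)))‖ := norm_inner_le_norm _ _
    _ ≤ ‖α n‖ * (‖T‖ * ‖β n‖) := by
        apply mul_le_mul h1 _ (norm_nonneg _) (norm_nonneg _)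
        exact (T.le_opNorm _).trans (mul_le_mul_of_nonneg_left h2 (norm_nonneg _))
    _ = ‖T‖ * (‖α n‖ * ‖β n‖) := by ring

/-- summability of the series of one generator -/
theorem PN2_summable (hCCN : Stmt_CCN) (k : ℕ) (S T : Fk k →L[ℂ] Fk k) (α β : ℕ → Fk k)
    (hs : Summable (fun n => ‖α n‖ * ‖β n‖)) (hr : ∀ ξ, HasSum (fun n => ⟪β n, ξ⟫_ℂ • α n) (S ξ))
    (r : ℝ) (h0 : 0 < r) (h1 : r < 1) :
    Summable (fun m : ℕ => (r : ℂ) ^ m *
      ∑ p ∈ Finset.HasAntidiagonal.antidiagonal m, cc S T p.1 p.2) := by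
  set C := ∑' n, ‖T‖ * (‖α n‖ * ‖β n‖) with hC
  have hgeo : Summable (fun m : ℕ => (((m : ℝ) ^ 1 * r ^ m + (m : ℝ) ^ 0 * r ^ m)) * C) := by
    have hr1 : ‖r‖ < 1 := by rw [Real.norm_of_nonneg h0.le]; exact h1
    exact ((summable_pow_mul_geometric_of_norm_lt_one 1 hr1).add
      (summable_pow_mul_geometric_of_norm_lt_one 0 hr1)).mul_right C
  refine Summable.of_norm_bounded hgeo ?_
  intro m
  have hb : ‖∑ p ∈ Finset.HasAntidiagonal.antidiagonal m, cc S T p.1 p.2‖ ≤ ((m : ℝ) + 1) * C := by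
    calc ‖∑ p ∈ Finset.HasAntidiagonal.antidiagonal m, cc S T p.1 p.2‖
        ≤ ∑ p ∈ Finset.HasAntidiagonal.antidiagonal m, ‖cc S T p.1 p.2‖ := norm_sum_le _ _
      _ ≤ ∑ _p ∈ Finset.HasAntidiagonal.antidiagonal m, C := by
          apply Finset.sum_le_sum
          intro p _
          exact PN2_bound hCCN k S T α β hs hr p.1 p.2
      _ = ((m : ℝ) + 1) * C := by
          rw [Finset.sum_const, Finset.Nat.card_antidiagonal, nsmul_eq_mul]
          push_cast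
          ring
  rw [norm_mul, norm_pow, Complex.norm_real, Real.norm_of_nonneg h0.le]
  calc r ^ m * ‖∑ p ∈ Finset.HasAntidiagonal.antidiagonal m, cc S T p.1 p.2‖
      ≤ r ^ m * (((m : ℝ) + 1) * C) := mul_le_mul_of_nonneg_left hb (by positivity)
    _ = ((m : ℝ) ^ 1 * r ^ m + (m : ℝ) ^ 0 * r ^ m) * C := by ring

theorem p_PN2 (hPRS : Stmt_PRS) (hCCS : Stmt_CCS) (hCCN : Stmt_CCN) (hNPR : Stmt_NPR) :
    Stmt_PN2 := by
  intro k R x α β hx hR hs hr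
  have hP := hPRS k R x hx hR
  set T : Fin k → (Fk k →L[ℂ] Fk k) := fun i => R * sc i - sc i * R with hT
  have hce : ∀ m : ℕ, (∑ i : Fin k, ∑ p ∈ Finset.HasAntidiagonal.antidiagonal m,
      cc (R * sc i - sc i * R) (dq i x) p.1 p.2)
      = ∑ i : Fin k, ∑ p ∈ Finset.HasAntidiagonal.antidiagonal m, cc (dq i x) (T i) p.1 p.2 := by
    intro m
    apply Finset.sum_congr rfl
    intro i _
    apply Finset.sum_congr rfl
    intro p _
    exact hCCS k _ _ _ _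
  simp only [hce] at hP
  have lim1 : Tendsto (fun r : ℝ => ∑' m : ℕ, (r : ℂ) ^ m *
      ∑ i : Fin k, ∑ p ∈ Finset.HasAntidiagonal.antidiagonal m, cc (dq i x) (T i) p.1 p.2)
      (𝓝[<] 1) (𝓝 ⟪vac k, R (x (vac k))⟫_ℂ) := by
    rw [← hP.tsum_eq]
    refine tendsto_tsum_of_dominated_convergence hP.summable.norm ?_ ?_
    · intro m
      have hc : Continuous (fun r : ℝ => (r : ℂ) ^ m *
          ∑ i : Fin k, ∑ p ∈ Finset.HasAntidiagonal.antidiagonal m,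
            cc (dq i x) (T i) p.1 p.2) := by fun_prop
      have h3 := hc.tendsto 1
      simp only [Complex.ofReal_one, one_pow, one_mul] at h3
      exact h3.mono_left nhdsWithin_le_nhds
    · filter_upwards [Ioo_mem_nhdsLT (show (0 : ℝ) < 1 by norm_num)] with r hr m
      rw [norm_mul, norm_pow, Complex.norm_real, Real.norm_of_nonneg hr.1.le]
      exact mul_le_of_le_one_left (norm_nonneg _) (pow_le_one₀ hr.1.le hr.2.le)
  have lim2 : Tendsto (fun r : ℝ => ∑ i : Fin k, ∑' m : ℕ, (r : ℂ) ^ m *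
      ∑ p ∈ Finset.HasAntidiagonal.antidiagonal m, cc (dq i x) (T i) p.1 p.2)
      (𝓝[<] 1) (𝓝 (∑ i, ∑' n, ⟪Jf (α i n), (R * sc i - sc i * R) (Jf (β i n))⟫_ℂ)) :=
    tendsto_finsetSum _ (fun i _ => hNPR k (dq i x) (T i) (α i) (β i) (hs i) (hr i))
  have heq : (fun r : ℝ => ∑ i : Fin k, ∑' m : ℕ, (r : ℂ) ^ m *
      ∑ p ∈ Finset.HasAntidiagonal.antidiagonal m, cc (dq i x) (T i) p.1 p.2)
      =ᶠ[𝓝[<] 1] (fun r : ℝ => ∑' m : ℕ, (r : ℂ) ^ m *
      ∑ i : Fin k, ∑ p ∈ Finset.HasAntidiagonal.antidiagonal m, cc (dq i x) (T i) p.1 p.2) := by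
    filter_upwards [Ioo_mem_nhdsLT (show (0 : ℝ) < 1 by norm_num)] with r hr'
    rw [← Summable.tsum_finsetSum]
    · apply tsum_congr
      intro m
      rw [Finset.mul_sum]
    · intro i _
      exact PN2_summable hCCN k (dq i x) (T i) (α i) (β i) (hs i) (hr i) r hr'.1 hr'.2
  exact tendsto_nhds_unique lim1 (lim2.congr' heq)

end Pool.SI
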