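import Pool.Agent.Work.MP_118406_si.Interface2
import Pool.Agent.Work.MP_118406_si.B_PN2

set_option autoImplicit false

/-! # Block PNG: the pairing formula without the condition at the vacuum vector -/

open scoped InnerProductSpace ComplexConjugate Topology
open Set Filter

noncomputable section

namespace Pool.SI

theorem p_PNG (hPRG : Stmt_PRG) (hCCS : Stmt_CCS) (hCCN : Stmt_CCN) (hNPR : Stmt_NPR) :
    Stmt_PNG := by
  intro k R x α β hx hrep
  have hs : ∀ i, Summable (fun n => ‖α i n‖ * ‖β i n‖) := fun i => (hrep i).1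
  have hr : ∀ i ξ, HasSum (fun n => ⟪β i n, ξ⟫_ℂ • α i n) ((dq i x) ξ) := fun i => (hrep i).2
  have hP := hPRG k R x hx
  set T : Fin k → (Fk k →L[ℂ] Fk k) := fun i => R * sc i - sc i * R with hT
  have hce : ∀ m : ℕ, (∑ i : Fin k, ∑ p ∈ Finset.HasAntidiagonal.antidiagonal m,
      cc (R * sc i - sc i * R) (dq i x) p.1 p.2)
      = ∑ i : Fin k, ∑ p ∈ Finset.HasAntidiagonal.antidiagonal m, cc (dq i x) (T i) p.1 p.2 := by
    intro m
    apply Finset.sum_congr rfl
    intro i _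
    apply Finset.sum_congr rfl
    intro p _
    exact hCCS k _ _ _ _
  simp only [hce] at hP
  have lim1 : Tendsto (fun r : ℝ => ∑' m : ℕ, (r : ℂ) ^ m *
      ∑ i : Fin k, ∑ p ∈ Finset.HasAntidiagonal.antidiagonal m, cc (dq i x) (T i) p.1 p.2)
      (𝓝[<] 1) (𝓝 ⟪vac k, (R * x - x * R) (vac k)⟫_ℂ) := by
    rw [← hP.tsum_eq]
    refine tendsto_tsum_of_dominated_convergence hP.summable.norm ?_ ?_
    · intro m
      have hc : Continuous (fun r : ℝ => (r : ℂ) ^ m *
          ∑ i : Fin k, ∑ p ∈ Finset.HasAntidiagonal.antidiagonal m,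
            cc (dq i x) (T i) p.1 p.2) := by fun_prop
      have h3 := hc.tendsto 1
      simp only [Complex.ofReal_one, one_pow, one_mul] at h3
      exact h3.mono_left nhdsWithin_le_nhds
    · filter_upwards [Ioo_mem_nhdsLT (show (0 : ℝ) < 1 by norm_num)] with r hr m
      rw [norm_mul, norm_pow, Complex.norm_real, Real.norm_of_nonneg hr.1.le]
      exact mul_le_of_le_one_left (norm_nonneg _) (pow_le_one₀ hr.1.le hr.2.le)
  have lim2 : Tendsto (fun r : ℝ => ∑ i : Fin k, ∑' m : ℕ, (r : ℂ) ^ m *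
      ∑ p ∈ Finset.HasAntidiagonal.antidiagonal m, cc (dq i x) (T i) p.1 p.2)
      (𝓝[<] 1) (𝓝 (∑ i, ∑' n, ⟪Jf (α i n), (R * sc i - sc i * R) (Jf (β i n))⟫_ℂ)) :=
    tendsto_finsetSum _ (fun i _ => hNPR k (dq i x) (T i) (α i) (β i) (hs i) (hr i))
  have heq : (fun r : ℝ => ∑ i : Fin k, ∑' m : ℕ, (r : ℂ) ^ m *
      ∑ p ∈ Finset.HasAntidiagonal.antidiagonal m, cc (dq i x) (T i) p.1 p.2)
      =ᶠ[𝓝[<] 1] (fun r : ℝ => ∑' m : ℕ, (r : ℂ) ^ m *
      ∑ i : Fin k, ∑ p ∈ Finset.HasAntidiagonal.antidiagonal m, cc (dq i x) (T i) p.1 p.2) := by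
    filter_upwards [Ioo_mem_nhdsLT (show (0 : ℝ) < 1 by norm_num)] with r hr'
    rw [← Summable.tsum_finsetSum]
    · apply tsum_congr
      intro m
      rw [Finset.mul_sum]
    · intro i _
      exact PN2_summable hCCN k (dq i x) (T i) (α i) (β i) (hs i) (hr i) r hr'.1 hr'.2
  exact tendsto_nhds_unique lim1 (lim2.congr' heq)

end Pool.SI
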