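import Pool.Agent.Work.MP_118406_si.Interface2
import Pool.Agent.Work.MP_118406_si.B_CYC

set_option autoImplicit false

/-! # Block PNT: the pairing formula for a unitary -/

open scoped InnerProductSpace ComplexConjugate Topology
open Set Filter

noncomputable section

namespace Pool.SI

/-- the operator `J x J` -/
theorem PNT_rho (hJ : Stmt_JOP) {k : ℕ} (x : Fk k →L[ℂ] Fk k) :
    ∃ ρ : Fk k →L[ℂ] Fk k, ∀ ξ, ρ ξ = Jf (x (Jf ξ)) := by
  obtain ⟨h1, h2, h3, h4, h5, h6, h7⟩ := hJ k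
  let L : Fk k →ₗ[ℂ] Fk k :=
    { toFun := fun ξ => Jf (x (Jf ξ))
      map_add' := fun a b => by rw [h1, map_add, h1]
      map_smul' := fun c a => by
        rw [h2, map_smul, h2]
        simp }
  refine ⟨L.mkContinuous ‖x‖ (fun ξ => ?_), fun ξ => rfl⟩
  change ‖Jf (x (Jf ξ))‖ ≤ _
  rw [h5]
  calc ‖x (Jf ξ)‖ ≤ ‖x‖ * ‖Jf ξ‖ := x.le_opNorm _
    _ = ‖x‖ * ‖ξ‖ := by rw [h5]

/-- `J x J` commutes with the algebra -/
theorem PNT_comm (hB : Stmt_BAS) (hA : Stmt_ALC) {k : ℕ}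
    (x ρ : Fk k →L[ℂ] Fk k) (hx : x ∈ Alg k) (hρ : ∀ ξ, ρ ξ = Jf (x (Jf ξ)))
    (y : Fk k →L[ℂ] Fk k) (hy : y ∈ Alg k) : ρ * y = y * ρ := by
  have hval : ∀ z ∈ Alg k, ρ (z (vac k)) = (z * star x) (vac k) := by
    intro z hz
    rw [hρ, (hA k).2.1 z hz]
    have h1 := (hA k).2.1 (x * star z) (mul_mem hx (star_mem hz))
    rw [star_mul, star_star] at h1
    exact h1
  apply (hB k).2.2.2.2.1
  intro w
  obtain ⟨z, hz, hzw⟩ := p_CYC hB k w
  have hz' : z ∈ Alg k := StarSubalgebra.le_topologicalClosure _ hz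
  rw [← hzw]
  have e1 : (ρ * y) (z (vac k)) = ρ ((y * z) (vac k)) := rfl
  have e2 : (y * ρ) (z (vac k)) = y (ρ (z (vac k))) := rfl
  rw [e1, e2, hval z hz', hval (y * z) (mul_mem hy hz')]
  rfl

/-- interleaving -/
def PNT_il {X : Type} (a b : ℕ → X) : ℕ → X := fun m => if m % 2 = 0 then a (m / 2) else b (m / 2)

theorem PNT_il_even {X : Type} (a b : ℕ → X) (n : ℕ) : PNT_il a b (2 * n) = a n := by
  simp [PNT_il]

theorem PNT_il_odd {X : Type} (a b : ℕ → X) (n : ℕ) : PNT_il a b (2 * n + 1) = b n := by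
  have h1 : (2 * n + 1) % 2 = 1 := by omega
  have h2 : (2 * n + 1) / 2 = n := by omega
  simp [PNT_il, h1, h2]

/-- the nuclear representation of a commutator -/
theorem PNT_rep {k : ℕ} (T x : Fk k →L[ℂ] Fk k) (ξ η : ℕ → Fk k) (h : Rep T ξ η) :
    Rep (T * x - x * T) (PNT_il ξ (fun n => -(x (ξ n))))
      (PNT_il (fun n => (star x) (η n)) η) := by
  obtain ⟨hs, hr⟩ := h
  constructor
  · have h1 : Summable (fun n => ‖ξ n‖ * ‖(star x) (η n)‖) := by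
      refine Summable.of_nonneg_of_le (fun n => by positivity) (fun n => ?_) (hs.mul_left ‖star x‖)
      calc ‖ξ n‖ * ‖(star x) (η n)‖ ≤ ‖ξ n‖ * (‖star x‖ * ‖η n‖) :=
            mul_le_mul_of_nonneg_left ((star x).le_opNorm _) (norm_nonneg _)
        _ = ‖star x‖ * (‖ξ n‖ * ‖η n‖) := by ring
    have h2 : Summable (fun n => ‖-(x (ξ n))‖ * ‖η n‖) := by
      refine Summable.of_nonneg_of_le (fun n => by positivity) (fun n => ?_) (hs.mul_left ‖x‖)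
      rw [norm_neg]
      calc ‖x (ξ n)‖ * ‖η n‖ ≤ (‖x‖ * ‖ξ n‖) * ‖η n‖ :=
            mul_le_mul_of_nonneg_right (x.le_opNorm _) (norm_nonneg _)
        _ = ‖x‖ * (‖ξ n‖ * ‖η n‖) := by ring
    refine (HasSum.even_add_odd (m := ∑' n, ‖ξ n‖ * ‖(star x) (η n)‖)
      (m' := ∑' n, ‖-(x (ξ n))‖ * ‖η n‖) ?_ ?_).summable
    · simp only [PNT_il_even]
      exact h1.hasSum
    · simp only [PNT_il_odd]
      exact h2.hasSum
  · intro ζ
    have e : (T * x - x * T) ζ = T (x ζ) + -(x (T ζ)) := by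
      change T (x ζ) - x (T ζ) = _
      rw [sub_eq_add_neg]
    rw [e]
    refine HasSum.even_add_odd ?_ ?_
    · simp only [PNT_il_even]
      have h1 := hr (x ζ)
      have e2 : (fun n => ⟪(star x) (η n), ζ⟫_ℂ • ξ n) = fun n => ⟪η n, x ζ⟫_ℂ • ξ n := by
        funext n
        rw [ContinuousLinearMap.star_eq_adjoint, ContinuousLinearMap.adjoint_inner_left]
      rw [e2]
      exact h1
    · simp only [PNT_il_odd]
      have h1 := ((hr ζ).mapL x).neg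
      have e2 : (fun n => ⟪η n, ζ⟫_ℂ • -(x (ξ n))) = fun n => -(x (⟪η n, ζ⟫_ℂ • ξ n)) := by
        funext n
        rw [map_smul, smul_neg]
      rw [e2]
      exact h1

theorem PNT_sum (hJ : Stmt_JOP) {k : ℕ} (S : Fk k →L[ℂ] Fk k) (a b : ℕ → Fk k)
    (hs : Summable (fun n => ‖a n‖ * ‖b n‖)) : Summable (fun n => ⟪Jf (a n), S (Jf (b n))⟫_ℂ) := by
  refine Summable.of_norm_bounded (hs.mul_left ‖S‖) (fun n => ?_)
  calc ‖⟪Jf (a n), S (Jf (b n))⟫_ℂ‖ ≤ ‖Jf (a n)‖ * ‖S (Jf (b n))‖ := norm_inner_le_norm _ _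
    _ ≤ ‖Jf (a n)‖ * (‖S‖ * ‖Jf (b n)‖) :=
        mul_le_mul_of_nonneg_left (S.le_opNorm _) (norm_nonneg _)
    _ = ‖S‖ * (‖a n‖ * ‖b n‖) := by
        rw [(hJ k).2.2.2.2.1, (hJ k).2.2.2.2.1]
        ring

theorem p_PNT (hB : Stmt_BAS) (hJ : Stmt_JOP) (hA : Stmt_ALC) (hP : Stmt_PNG) : Stmt_PNT := by
  intro k R x T ξ η hx hx1 hx2 hT hD
  obtain ⟨ρ, hρ⟩ := PNT_rho hJ x
  have hcom := PNT_comm hB hA x ρ hx hρ
  obtain ⟨j1, j2, j3, j4, j5, j6, j7⟩ := hJ k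
  have hΩ : ρ (vac k) = (star x) (vac k) := by
    have h1 := (hA k).2.1 x hx
    rw [hρ, show (vac k : Fk k) = bs [] from rfl, j4, List.reverse_nil,
      show (bs [] : Fk k) = vac k from rfl, h1]
  have hrep : ∀ i, Rep (dq i x) (PNT_il (ξ i) (fun n => -(x (ξ i n))))
      (PNT_il (fun n => (star x) (η i n)) (η i)) := by
    intro i
    rw [hD i]
    exact PNT_rep (T i) x (ξ i) (η i) (hT i)
  have hmain := hP k (R * ρ) x _ _ hx hrep
  have hL : (R * ρ * x - x * (R * ρ)) (vac k) = ((R * x - x * R) * star x) (vac k) := by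
    have e1 : R * ρ * x - x * (R * ρ) = (R * x - x * R) * ρ := by
      rw [mul_assoc R ρ x, hcom x hx, sub_mul, mul_assoc, mul_assoc]
    rw [e1]
    change (R * x - x * R) (ρ (vac k)) = (R * x - x * R) ((star x) (vac k))
    rw [hΩ]
  rw [hL] at hmain
  rw [hmain]
  refine Finset.sum_congr rfl fun i _ => ?_
  have e2 : R * ρ * sc i - sc i * (R * ρ) = (R * sc i - sc i * R) * ρ := by
    rw [mul_assoc R ρ (sc i), hcom (sc i) (sc_mem i), sub_mul, mul_assoc, mul_assoc]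
  rw [e2]
  set S := R * sc i - sc i * R with hS
  have hxx : ∀ ζ : Fk k, x ((star x) ζ) = ζ := fun ζ => by
    have := congrArg (fun A : Fk k →L[ℂ] Fk k => A ζ) hx2
    simpa using this
  have r1 : ∀ ζ : Fk k, ρ (Jf ((star x) ζ)) = Jf ζ := fun ζ => by
    rw [hρ, j3, hxx]
  have r2 : ∀ ζ : Fk k, ρ (Jf ζ) = Jf (x ζ) := fun ζ => by
    rw [hρ, j3]
  have hsx : Summable (fun n => ‖x (ξ i n)‖ * ‖x (η i n)‖) := by
    refine Summable.of_nonneg_of_le (fun n => by positivity) (fun n => ?_)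
      ((hT i).1.mul_left (‖x‖ * ‖x‖))
    calc ‖x (ξ i n)‖ * ‖x (η i n)‖ ≤ (‖x‖ * ‖ξ i n‖) * (‖x‖ * ‖η i n‖) :=
          mul_le_mul (x.le_opNorm _) (x.le_opNorm _) (norm_nonneg _) (by positivity)
      _ = (‖x‖ * ‖x‖) * (‖ξ i n‖ * ‖η i n‖) := by ring
  have s1 := PNT_sum hJ S (ξ i) (η i) (hT i).1
  have s2 := PNT_sum hJ S (fun n => x (ξ i n)) (fun n => x (η i n)) hsx
  have t1 : ∀ n, ⟪Jf (PNT_il (ξ i) (fun n => -(x (ξ i n))) (2 * n)),
      (S * ρ) (Jf (PNT_il (fun n => (star x) (η i n)) (η i) (2 * n)))⟫_ℂ =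
      ⟪Jf (ξ i n), S (Jf (η i n))⟫_ℂ := by
    intro n
    rw [PNT_il_even, PNT_il_even]
    change ⟪Jf (ξ i n), S (ρ (Jf ((star x) (η i n))))⟫_ℂ = _
    rw [r1]
  have t2 : ∀ n, ⟪Jf (PNT_il (ξ i) (fun n => -(x (ξ i n))) (2 * n + 1)),
      (S * ρ) (Jf (PNT_il (fun n => (star x) (η i n)) (η i) (2 * n + 1)))⟫_ℂ =
      -⟪Jf (x (ξ i n)), S (Jf (x (η i n)))⟫_ℂ := by
    intro n
    rw [PNT_il_odd, PNT_il_odd]
    change ⟪Jf (-(x (ξ i n))), S (ρ (Jf (η i n)))⟫_ℂ = _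
    have e3 : Jf (-(x (ξ i n))) = -Jf (x (ξ i n)) := by
      rw [← neg_one_smul ℂ, j2]
      simp
    rw [r2, e3, inner_neg_left]
  have hh : HasSum (fun m => ⟪Jf (PNT_il (ξ i) (fun n => -(x (ξ i n))) m),
      (S * ρ) (Jf (PNT_il (fun n => (star x) (η i n)) (η i) m))⟫_ℂ)
      ((∑' n, ⟪Jf (ξ i n), S (Jf (η i n))⟫_ℂ) +
        -(∑' n, ⟪Jf (x (ξ i n)), S (Jf (x (η i n)))⟫_ℂ)) := by
    refine HasSum.even_add_odd ?_ ?_
    · simp only [t1]
      exact s1.hasSum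
    · simp only [t2]
      exact s2.hasSum.neg
  rw [hh.tsum_eq, sub_eq_add_neg]

end Pool.SI
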