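import Pool.Agent.Work.MP_118406_si.Interface2
import Pool.Agent.Work.MP_118406_si.B_PRS

set_option autoImplicit false

/-! Block PRG (helper94): the pairing series without the condition `R Ω = 0`. -/

open scoped InnerProductSpace ComplexConjugate Topology
open Set Filter

noncomputable section

namespace Pool.SI

theorem PRG_congr {ι : Type} {f g : ι → ℂ} {a : ℂ} (h : ∀ m, f m = g m) (hg : HasSum g a) :
    HasSum f a := by
  have : f = g := funext h
  rw [this]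
  exact hg

theorem PRG_second {k : ℕ} (ζ η : Fk k) :
    HasSum (fun w : List (Fin k) => ζ w * ⟪(bs w.reverse : Fk k), η⟫_ℂ) ⟪Jf ζ, η⟫_ℂ := by
  have h1 := lp.hasSum_inner (𝕜 := ℂ) (Jf ζ) η
  have h2 := ((List.reverse_involutive (α := Fin k)).toPerm).hasSum_iff.mpr h1
  refine PRG_congr (fun w => ?_) h2
  rw [bs_inner]
  show ζ w * η w.reverse = ⟪(conj (ζ w.reverse.reverse) : ℂ), η w.reverse⟫_ℂ
  rw [List.reverse_reverse]
  simp [mul_comm]

theorem p_PRG (hA : Stmt_ALC) (hE : Stmt_ENT) (hT : Stmt_TLG) : Stmt_PRG := by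
  intro k R x hx
  set ζ : Fk k := x (vac k) with hζ
  -- the functional
  let L : Fk k →L[ℂ] ℂ := (innerSL ℂ (vac k)).comp R
  have hL : ∀ ξ, L ξ = ⟪vac k, R ξ⟫_ℂ := fun ξ => rfl
  have s1 : HasSum (fun w : List (Fin k) => ζ w • (bs w : Fk k)) ζ := by
    have := lp.hasSum_single (by norm_num : (2 : ENNReal) ≠ ⊤) ζ
    convert this using 1
    funext w
    rw [bs, ← lp.single_smul, smul_eq_mul, mul_one]
  have s2a : HasSum (fun w : List (Fin k) => ζ w * ⟪vac k, R (bs w)⟫_ℂ) ⟪vac k, R ζ⟫_ℂ := by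
    have := L.hasSum s1
    simpa [hL, inner_smul_right] using this
  have e1 : ⟪Jf ζ, R (vac k)⟫_ℂ = ⟪vac k, x (R (vac k))⟫_ℂ := by
    rw [(hA k).2.1 x hx, ContinuousLinearMap.star_eq_adjoint,
      ContinuousLinearMap.adjoint_inner_left]
  have s2 : HasSum (fun w : List (Fin k) => ζ w * (⟪vac k, R (bs w)⟫_ℂ -
      ⟪bs w.reverse, R (vac k)⟫_ℂ)) ⟪vac k, (R * x - x * R) (vac k)⟫_ℂ := by
    have h := s2a.sub (PRG_second ζ (R (vac k)))
    rw [e1, ← inner_sub_right] at h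
    exact PRG_congr (fun w => by rw [mul_sub]) h
  have s3 := (List.equivSigmaTuple (α := Fin k)).symm.hasSum_iff.mpr s2
  have s4 := s3.sigma (g := fun n => ∑ u : Fin n → Fin k, ζ (List.ofFn u) *
    (⟪vac k, R (bs (List.ofFn u))⟫_ℂ - ⟪bs (List.ofFn u).reverse, R (vac k)⟫_ℂ))
    (fun n => hasSum_fintype _)
  have s5 := (hasSum_nat_add_iff' 1).mpr s4
  have z : ∑ i ∈ Finset.range 1, ∑ u : Fin i → Fin k, ζ (List.ofFn u) *
    (⟪vac k, R (bs (List.ofFn u))⟫_ℂ - ⟪bs (List.ofFn u).reverse, R (vac k)⟫_ℂ) = 0 := by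
    rw [Finset.sum_range_one, Fintype.sum_unique]
    have : (List.ofFn (default : Fin 0 → Fin k)) = [] := by simp
    rw [this, List.reverse_nil]
    show ζ [] * (⟪vac k, R (vac k)⟫_ℂ - ⟪vac k, R (vac k)⟫_ℂ) = 0
    rw [sub_self, mul_zero]
  rw [z, sub_zero] at s5
  refine PRS_congr (fun m => Eq.symm ?_) s5
  show ∑ w : Fin (m + 1) → Fin k, ζ (List.ofFn w) * (⟪vac k, R (bs (List.ofFn w))⟫_ℂ -
    ⟪bs (List.ofFn w).reverse, R (vac k)⟫_ℂ) = _
  have h1 : ∀ w : Fin (m + 1) → Fin k, ζ (List.ofFn w) * (⟪vac k, R (bs (List.ofFn w))⟫_ℂ -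
      ⟪bs (List.ofFn w).reverse, R (vac k)⟫_ℂ) =
      ∑ p ∈ Finset.range (m + 1), ((List.ofFn w)[p]?).elim 0
      (fun j => (fun a i b => ζ (a ++ i :: b) *
        ⟪bs a.reverse, (R * sc i - sc i * R) (bs b)⟫_ℂ) ((List.ofFn w).take p) j
        ((List.ofFn w).drop (p + 1))) := by
    intro w
    rw [← hT k R]
    have := PRS_word ζ (fun a i b => ⟪bs a.reverse, (R * sc i - sc i * R) (bs b)⟫_ℂ) (List.ofFn w)
    refine this.trans ?_
    rw [List.length_ofFn]
  rw [Finset.sum_congr rfl fun w _ => h1 w]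
  refine (PRS_comb (fun a i b => ζ (a ++ i :: b) *
        ⟪bs a.reverse, (R * sc i - sc i * R) (bs b)⟫_ℂ) m).trans ?_
  refine Finset.sum_congr rfl fun i _ => Finset.sum_congr rfl fun p _ =>
    Finset.sum_congr rfl fun u _ => Finset.sum_congr rfl fun v _ => ?_
  rw [hE k x hx i]
  simp only [wd, List.reverse_reverse]
  rfl

end Pool.SI
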