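import Pool.Agent.Work.MP_118406_si.Interface2
import Pool.Agent.Work.MP_118406_si.B_TEL

set_option autoImplicit false

/-! # Block TLG: the telescoping sum without the condition at the vacuum vector -/

open scoped InnerProductSpace ComplexConjugate Topology
open Set Filter

noncomputable section

namespace Pool.SI

theorem p_TLG (hB : Stmt_BAS) : Stmt_TLG := by
  intro k R w
  have h := TEL_aux hB R w []
  have h1 : TEL_C R [] w = 0 := by
    cases w with
    | nil => rfl
    | cons i w =>
      show ⟪ContinuousLinearMap.adjoint (lc i) (bs []), R (bs w)⟫_ℂ = 0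
      rw [show (bs [] : Fk k) = vac k from rfl, ((hB k).2.2.1 i).1, inner_zero_left]
  rw [h1, show (bs [] : Fk k) = vac k from rfl, sub_zero, List.append_nil] at h
  rw [← h]
  refine Finset.sum_congr rfl fun p _ => ?_
  rw [List.append_nil]

end Pool.SI
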