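import Pool.Agent.Work.MP_118406_si.Interface2

set_option autoImplicit false

/-! # WKZ: the powers of a Haar unitary converge weakly to zero (helper86) -/

open scoped InnerProductSpace ComplexConjugate Topology
open Set Filter

noncomputable section

namespace Pool.SI

/-- Equi-Lipschitz functions which converge to zero on a dense set converge to zero. -/
theorem WKZ_dense {H : Type} [NormedAddCommGroup H] (f : ℕ → H → ℂ) (C : ℝ) (hC : 0 ≤ C)
    (hlip : ∀ N x y, ‖f N x - f N y‖ ≤ C * ‖x - y‖) (D : Set H) (hD : Dense D)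
    (h : ∀ x ∈ D, Tendsto (fun N => f N x) atTop (𝓝 0)) (x : H) :
    Tendsto (fun N => f N x) atTop (𝓝 0) := by
  rw [Metric.tendsto_atTop]
  intro ε hε
  have hpos : 0 < ε / (2 * (C + 1)) := by positivity
  obtain ⟨x', hx'D, hx'⟩ := Metric.dense_iff.mp hD x _ hpos
  rw [Metric.mem_ball, dist_eq_norm] at hx'D
  obtain ⟨N0, hN0⟩ := Metric.tendsto_atTop.mp (h x' hx') (ε / 2) (by positivity)
  refine ⟨N0, fun N hN => ?_⟩
  have h1 := hN0 N hN
  rw [dist_zero_right] at h1 ⊢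
  have h2 := hlip N x x'
  have h3 : ‖x - x'‖ < ε / (2 * (C + 1)) := by
    rw [norm_sub_rev]
    exact hx'D
  have h4 : C * ‖x - x'‖ ≤ (C + 1) * (ε / (2 * (C + 1))) := by
    refine mul_le_mul (by linarith) h3.le (norm_nonneg _) (by linarith)
  have h5 : (C + 1) * (ε / (2 * (C + 1))) = ε / 2 := by
    field_simp
  have h6 : f N x = (f N x - f N x') + f N x' := by ring
  calc ‖f N x‖ = ‖(f N x - f N x') + f N x'‖ := by rw [← h6]
    _ ≤ ‖f N x - f N x'‖ + ‖f N x'‖ := norm_add_le _ _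
    _ < ε / 2 + ε / 2 := by linarith
    _ = ε := by ring

theorem WKZ_norm {H : Type} [NormedAddCommGroup H] [InnerProductSpace ℂ H] [CompleteSpace H]
    (v : H →L[ℂ] H) (hv : star v * v = 1) (x : H) : ‖v x‖ = ‖x‖ := by
  have h1 : ⟪v x, v x⟫_ℂ = ⟪x, x⟫_ℂ := by
    rw [← ContinuousLinearMap.adjoint_inner_right]
    have h2 : ContinuousLinearMap.adjoint v (v x) = (star v * v) x := rfl
    rw [h2, hv]
    rfl
  have h3 : ‖v x‖ ^ 2 = ‖x‖ ^ 2 := by
    rw [← @inner_self_eq_norm_sq ℂ, ← @inner_self_eq_norm_sq ℂ, h1]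
  have h4 := congrArg Real.sqrt h3
  rwa [Real.sqrt_sq (norm_nonneg _), Real.sqrt_sq (norm_nonneg _)] at h4

theorem WKZ_pow {H : Type} [NormedAddCommGroup H] [InnerProductSpace ℂ H] [CompleteSpace H]
    (v : H →L[ℂ] H) (hv : star v * v = 1) (n : ℕ) : star (v ^ n) * v ^ n = 1 := by
  induction n with
  | zero => simp
  | succ n ih =>
    rw [pow_succ', star_mul]
    calc star (v ^ n) * star v * (v * v ^ n) = star (v ^ n) * (star v * v) * v ^ n := by
          simp only [mul_assoc]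
      _ = 1 := by rw [hv, mul_one, ih]

theorem WKZ_pow_norm {H : Type} [NormedAddCommGroup H] [InnerProductSpace ℂ H] [CompleteSpace H]
    (v : H →L[ℂ] H) (hv : star v * v = 1) (n : ℕ) (x : H) : ‖(v ^ n) x‖ = ‖x‖ :=
  WKZ_norm (v ^ n) (WKZ_pow v hv n) x

theorem WKZ_lt {H : Type} [NormedAddCommGroup H] [InnerProductSpace ℂ H] [CompleteSpace H]
    (v : H →L[ℂ] H) (o : H) (hv : Haar v o) (m n : ℕ) (hmn : m < n) :
    ⟪(v ^ m) o, (v ^ n) o⟫_ℂ = 0 := by
  obtain ⟨d, rfl⟩ := Nat.exists_eq_add_of_lt hmn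
  have h1 : v ^ (m + d + 1) = v ^ m * v ^ (d + 1) := by
    rw [← pow_add]
    rfl
  rw [h1]
  have h2 : (v ^ m * v ^ (d + 1)) o = (v ^ m) ((v ^ (d + 1)) o) := rfl
  rw [h2, ← ContinuousLinearMap.adjoint_inner_right]
  have h3 : ContinuousLinearMap.adjoint (v ^ m) ((v ^ m) ((v ^ (d + 1)) o))
      = (star (v ^ m) * v ^ m) ((v ^ (d + 1)) o) := rfl
  rw [h3, WKZ_pow v hv.1 m]
  exact hv.2.2 (d + 1) (Nat.succ_pos d)

theorem WKZ_orth {H : Type} [NormedAddCommGroup H] [InnerProductSpace ℂ H] [CompleteSpace H]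
    (v : H →L[ℂ] H) (o : H) (ho : ‖o‖ = 1) (hv : Haar v o) :
    Orthonormal ℂ (fun n : ℕ => (v ^ n) o) := by
  refine ⟨fun n => ?_, fun m n hmn => ?_⟩
  · rw [WKZ_pow_norm v hv.1, ho]
  · rcases lt_or_gt_of_ne hmn with h | h
    · exact WKZ_lt v o hv m n h
    · have h1 := WKZ_lt v o hv n m h
      change ⟪(v ^ m) o, (v ^ n) o⟫_ℂ = 0
      rw [← inner_conj_symm, h1, map_zero]

/-- Bessel: the vectors of an orthonormal sequence converge weakly to zero. -/
theorem WKZ_bessel {H : Type} [NormedAddCommGroup H] [InnerProductSpace ℂ H]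
    (e : ℕ → H) (he : Orthonormal ℂ e) (x : H) :
    Tendsto (fun n => ⟪x, e n⟫_ℂ) atTop (𝓝 0) := by
  have h1 : Summable (fun n => ‖⟪e n, x⟫_ℂ‖ ^ 2) := he.inner_products_summable x
  have h2 := h1.tendsto_atTop_zero
  have h3 : Tendsto (fun n => ‖⟪e n, x⟫_ℂ‖) atTop (𝓝 0) := by
    have h4 := h2.sqrt
    simp only [Real.sqrt_zero] at h4
    refine h4.congr fun n => ?_
    rw [Real.sqrt_sq (norm_nonneg _)]
  rw [tendsto_zero_iff_norm_tendsto_zero]
  refine h3.congr fun n => ?_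
  rw [norm_inner_symm]

/-- The vectors `x Ω`, `x ∈ Alg k`. -/
def WKZ_D (k : ℕ) : Submodule ℂ (Fk k) where
  carrier := {y | ∃ x ∈ Alg k, x (vac k) = y}
  add_mem' := by
    rintro a b ⟨x, hx, rfl⟩ ⟨y, hy, rfl⟩
    exact ⟨x + y, add_mem hx hy, rfl⟩
  zero_mem' := ⟨0, zero_mem _, rfl⟩
  smul_mem' := by
    rintro c a ⟨x, hx, rfl⟩
    exact ⟨c • x, (Alg k).smul_mem hx c, rfl⟩

theorem WKZ_D_dense (hBAS : Stmt_BAS) (hCYC : Stmt_CYC) (k : ℕ) :
    Dense ((WKZ_D k : Submodule ℂ (Fk k)) : Set (Fk k)) := by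
  have h1 := (hBAS k).2.2.2.2.2.1
  refine h1.mono ?_
  have h2 : Submodule.span ℂ (range (bs : List (Fin k) → Fk k)) ≤ WKZ_D k := by
    rw [Submodule.span_le]
    rintro _ ⟨w, rfl⟩
    obtain ⟨x, hx, hxw⟩ := hCYC k w
    exact ⟨x, StarSubalgebra.le_topologicalClosure _ hx, hxw⟩
  exact h2

theorem p_WKZ (hBAS : Stmt_BAS) (hCYC : Stmt_CYC) (hALC : Stmt_ALC) : Stmt_WKZ := by
  intro k v hv hH ζ η
  have hvac : ‖vac k‖ = 1 := bs_orthonormal.1 []
  have horth := WKZ_orth v (vac k) hvac hH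
  have hDd := WKZ_D_dense hBAS hCYC k
  -- vectors of the form z Ω, y Ω
  have hbase : ∀ z ∈ Alg k, ∀ y ∈ Alg k,
      Tendsto (fun N : ℕ => ⟪z (vac k), (v ^ N) (y (vac k))⟫_ℂ) atTop (𝓝 0) := by
    intro z hz y hy
    have h1 := WKZ_bessel _ horth ((z * star y) (vac k))
    refine h1.congr fun N => ?_
    have hzs : star z ∈ Alg k := star_mem hz
    have h2 := (hALC k).2.2 (star z * v ^ N) (mul_mem hzs (pow_mem hv N)) y hy
    have h3 : ⟪z (vac k), (v ^ N) (y (vac k))⟫_ℂ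
        = ⟪vac k, (star z * v ^ N * y) (vac k)⟫_ℂ := by
      have h4 : (star z * v ^ N * y) (vac k)
          = ContinuousLinearMap.adjoint z ((v ^ N) (y (vac k))) := rfl
      rw [h4, ContinuousLinearMap.adjoint_inner_right]
    have h5 : ⟪vac k, (y * (star z * v ^ N)) (vac k)⟫_ℂ
        = ⟪(z * star y) (vac k), (v ^ N) (vac k)⟫_ℂ := by
      have h6 : (y * (star z * v ^ N)) (vac k)
          = ContinuousLinearMap.adjoint (z * star y) ((v ^ N) (vac k)) := by
        have h7 : ContinuousLinearMap.adjoint (z * star y) = y * star z := by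
          change star (z * star y) = y * star z
          rw [star_mul, star_star]
        rw [h7]
        rfl
      rw [h6, ContinuousLinearMap.adjoint_inner_right]
    rw [h3, h2, h5]
  -- η arbitrary
  have hsecond : ∀ z ∈ Alg k, ∀ x : Fk k,
      Tendsto (fun N : ℕ => ⟪z (vac k), (v ^ N) x⟫_ℂ) atTop (𝓝 0) := by
    intro z hz x
    refine WKZ_dense (fun N x => ⟪z (vac k), (v ^ N) x⟫_ℂ) ‖z (vac k)‖ (norm_nonneg _) ?_ _ hDd ?_ x
    · intro N a b
      rw [← inner_sub_right, ← map_sub]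
      refine (norm_inner_le_norm _ _).trans ?_
      rw [WKZ_pow_norm v hH.1]
    · rintro _ ⟨y, hy, rfl⟩
      exact hbase z hz y hy
  refine WKZ_dense (fun N x => ⟪x, (v ^ N) η⟫_ℂ) ‖η‖ (norm_nonneg _) ?_ _ hDd ?_ ζ
  · intro N a b
    rw [← inner_sub_left]
    refine (norm_inner_le_norm _ _).trans ?_
    rw [WKZ_pow_norm v hH.1, mul_comm]
  · rintro _ ⟨z, hz, rfl⟩
    exact hsecond z hz η

end Pool.SI
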