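import Mathlib

set_option autoImplicit false

/-!
# The C*-algebras of free semicircular families: definitions

`Fk k` is the full Fock space over `ℂ^k`: the Hilbert space with the orthonormal basis `bs w`,
`w` a word (list) in the letters `Fin k`; `vac k = bs []` is the vacuum vector.  `lc i` and `rc i` are
the left and right creation operators (`lc i (bs w) = bs (i :: w)`, `rc i (bs w) = bs (w ++ [i])`),
`sc i = lc i + (lc i)*` the semicircular operators, `Alg k` the C*-algebra they generate.
-/

open scoped InnerProductSpace ComplexConjugate Topology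
open Set

noncomputable section

namespace Pool.SI

/-- The full Fock space over `ℂ^k`. -/
abbrev Fk (k : ℕ) := lp (fun _ : List (Fin k) => ℂ) 2

/-- The basis vector of the word `w`. -/
def bs {k : ℕ} (w : List (Fin k)) : Fk k := lp.single 2 w (1 : ℂ)

/-- The vacuum vector. -/
def vac (k : ℕ) : Fk k := bs []

theorem bs_inner {k : ℕ} (w : List (Fin k)) (f : Fk k) : ⟪bs w, f⟫_ℂ = f w := by
  rw [bs, lp.inner_single_left]
  simp

theorem bs_apply {k : ℕ} (w v : List (Fin k)) : (bs w : Fk k) v = if v = w then 1 else 0 := by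
  rw [bs, lp.single_apply]
  by_cases h : v = w
  · subst h
    simp
  · simp [h]

theorem bs_orthonormal {k : ℕ} : Orthonormal ℂ (bs : List (Fin k) → Fk k) := by
  classical
  rw [orthonormal_iff_ite]
  intro w v
  rw [bs_inner, bs_apply]

theorem lc_orth {k : ℕ} (i : Fin k) : Orthonormal ℂ (fun w : List (Fin k) => (bs (i :: w) : Fk k)) :=
  bs_orthonormal.comp (fun w : List (Fin k) => i :: w) (fun a b h => by simpa using h)

theorem rc_orth {k : ℕ} (i : Fin k) :
    Orthonormal ℂ (fun w : List (Fin k) => (bs (w ++ [i]) : Fk k)) :=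
  bs_orthonormal.comp (fun w : List (Fin k) => w ++ [i]) (fun a b h => by simpa using h)

/-- The left creation operator: the isometry with `lc i (bs w) = bs (i :: w)`. -/
def lc {k : ℕ} (i : Fin k) : Fk k →L[ℂ] Fk k :=
  (lc_orth i).orthogonalFamily.linearIsometry.toContinuousLinearMap

/-- The right creation operator: the isometry with `rc i (bs w) = bs (w ++ [i])`. -/
def rc {k : ℕ} (i : Fin k) : Fk k →L[ℂ] Fk k :=
  (rc_orth i).orthogonalFamily.linearIsometry.toContinuousLinearMap

theorem lc_bs {k : ℕ} (i : Fin k) (w : List (Fin k)) : lc i (bs w) = bs (i :: w) := by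
  rw [lc, bs]
  simp

theorem rc_bs {k : ℕ} (i : Fin k) (w : List (Fin k)) : rc i (bs w) = bs (w ++ [i]) := by
  rw [rc, bs]
  simp

/-- The semicircular operators. -/
def sc {k : ℕ} (i : Fin k) : Fk k →L[ℂ] Fk k := lc i + ContinuousLinearMap.adjoint (lc i)

/-- The C*-algebra generated by `k` free semicircular operators. -/
def Alg (k : ℕ) : StarSubalgebra ℂ (Fk k →L[ℂ] Fk k) :=
  (StarAlgebra.adjoin ℂ (Set.range (sc : Fin k → (Fk k →L[ℂ] Fk k)))).topologicalClosure

theorem sc_mem {k : ℕ} (i : Fin k) : (sc i : Fk k →L[ℂ] Fk k) ∈ Alg k :=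
  (StarAlgebra.adjoin ℂ (Set.range (sc : Fin k → (Fk k →L[ℂ] Fk k)))).le_topologicalClosure
    (StarAlgebra.subset_adjoin ℂ _ ⟨i, rfl⟩)

/-- The canonical generators of `Alg k`. -/
def ge {k : ℕ} (i : Fin k) : Alg k := ⟨sc i, sc_mem i⟩

/-- The free difference quotient with respect to the generator `i`, as an operator on the Fock
space: the commutator with the right annihilation operator. -/
def dq {k : ℕ} (i : Fin k) (x : Fk k →L[ℂ] Fk k) : Fk k →L[ℂ] Fk k :=
  ContinuousLinearMap.adjoint (rc i) * x - x * ContinuousLinearMap.adjoint (rc i)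

/-- Trace class (nuclear) operators on a Hilbert space. -/
def Nuc {H : Type} [NormedAddCommGroup H] [InnerProductSpace ℂ H] (T : H →L[ℂ] H) : Prop :=
  ∃ a b : ℕ → H, Summable (fun n => ‖a n‖ * ‖b n‖) ∧ ∀ x, HasSum (fun n => ⟪b n, x⟫_ℂ • a n) (T x)

/-- Finite free Dirichlet energy: the coefficients `c w` of the vector `x vac` satisfy
`∑ |w| |c w|² < ∞` (`|w|` the length of the word `w`). -/
def FinEn {k : ℕ} (x : Fk k →L[ℂ] Fk k) : Prop :=
  Summable (fun w : List (Fin k) => (w.length : ℝ) * ‖(x (vac k)) w‖ ^ 2)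

end Pool.SI
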