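import Pool.Agent.Work.MP_118406_si.Interface

set_option autoImplicit false

open scoped InnerProductSpace ComplexConjugate Topology
open Set Filter

noncomputable section

namespace Pool.SI

/-- The statement of the theorem. -/
def Main : Prop :=
  (∀ k k' : ℕ, 2 ≤ k → 2 ≤ k' → ∀ φ : Alg k' ≃⋆ₐ[ℂ] Alg k,
    (∀ (i : Fin k) (j : Fin k'), Nuc (dq i (φ (ge j) : Fk k →L[ℂ] Fk k))) → k = k') ∧
  (∀ k k' : ℕ, 2 ≤ k → 2 ≤ k' → ∀ φ : Alg k' ≃⋆ₐ[ℂ] Alg k,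
    (∀ j : Fin k', (φ (ge j) : Fk k →L[ℂ] Fk k) ∈
      StarAlgebra.adjoin ℂ (Set.range (sc : Fin k → (Fk k →L[ℂ] Fk k)))) → k = k') ∧
  (∀ k k' : ℕ, 2 ≤ k → 2 ≤ k' → ∀ φ : Alg k' ≃⋆ₐ[ℂ] Alg k,
    (∀ j : Fin k', FinEn (φ (ge j) : Fk k →L[ℂ] Fk k)) →
    (∀ i : Fin k, FinEn (φ.symm (ge i) : Fk k' →L[ℂ] Fk k')) → k = k')

theorem main (hA : Stmt_MNA) (hP : Stmt_POL) (hB : Stmt_MNB) : Main :=
  ⟨hA, fun k k' hk hk' φ h => hA k k' hk hk' φ (fun i j => hP k _ (h j) i), hB⟩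

end Pool.SI
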