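import Pool.Agent.Work.MP_118406_si.Defs

set_option autoImplicit false

/-!
# Smooth isomorphisms between the C*-algebras `Alg k`: interface

The file of block `X` is `Pool/Agent/Work/MP_118406_si/B_X.lean`: `import` this file, open the same
namespaces, `namespace Pool.SI`, `theorem p_X (hA : Stmt_A) (hB : Stmt_B) .. : Stmt_X` with the
blocks of the column `uses` as hypotheses in that order; auxiliary lemmas with prefix `X_`.

Notation of the comments: `Ω = vac k`, `s_i = sc i`, `l_i = lc i`, `r_i = rc i`, `D_i = dq i`,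
`T*` the adjoint (`star T`, `ContinuousLinearMap.star_eq_adjoint`), `P = Pv k` the projection onto
`ℂ Ω`, `J = Jf`.
-/

open scoped InnerProductSpace ComplexConjugate Topology
open Set Filter

noncomputable section

namespace Pool.SI

/-! ## Auxiliary definitions -/

/-- The projection onto the line of the vacuum vector. -/
def Pv (k : ℕ) : Fk k →L[ℂ] Fk k := (innerSL ℂ (vac k)).smulRight (vac k)

/-- The right semicircular operators. -/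
def rs {k : ℕ} (i : Fin k) : Fk k →L[ℂ] Fk k := rc i + ContinuousLinearMap.adjoint (rc i)

theorem Jf_mem {k : ℕ} (ξ : Fk k) : Memℓp (fun w : List (Fin k) => conj (ξ w.reverse)) 2 := by
  have h := (lp.memℓp ξ).summable (by norm_num)
  apply memℓp_gen
  have h2 := (List.reverse_involutive.toPerm (List.reverse : List (Fin k) → List (Fin k))).summable_iff.2 h
  simpa [Function.comp_def] using h2

/-- The conjugation `(J ξ) w = conj (ξ (reverse w))`. -/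
def Jf {k : ℕ} (ξ : Fk k) : Fk k := ⟨fun w => conj (ξ w.reverse), Jf_mem ξ⟩

/-- Monomials. -/
def mon {k : ℕ} (w : List (Fin k)) : Fk k →L[ℂ] Fk k := (w.map sc).prod

/-- The words of length `n`. -/
def wd {k n : ℕ} (u : Fin n → Fin k) : List (Fin k) := List.ofFn u

/-- The pairing of the parts of degree `(a, b)` of two operators. -/
def cc {k : ℕ} (S T : Fk k →L[ℂ] Fk k) (a b : ℕ) : ℂ :=
  ∑ u : Fin a → Fin k, ∑ v : Fin b → Fin k,
    ⟪bs (wd u), T (bs (wd v).reverse)⟫_ℂ * ⟪bs (wd u).reverse, S (bs (wd v))⟫_ℂ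

/-- Hilbert-Schmidt operators. -/
def HS {k : ℕ} (T : Fk k →L[ℂ] Fk k) : Prop := Summable (fun v : List (Fin k) => ‖T (bs v)‖ ^ 2)

/-- `∑ ⟨J T J e_v, S e_v⟩`. -/
def hp {k : ℕ} (S T : Fk k →L[ℂ] Fk k) : ℂ :=
  ∑' v : List (Fin k), ⟪Jf (T (Jf (bs v))), S (bs v)⟫_ℂ

/-- Alternating lists of centred elements of `A` (type `true`) and `B` (type `false`), the first
factor of type `b`. -/
def Alt {H : Type} [NormedAddCommGroup H] [InnerProductSpace ℂ H] [CompleteSpace H]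
    (A B : StarSubalgebra ℂ (H →L[ℂ] H)) (o : H) : Bool → List (H →L[ℂ] H) → Prop
  | _, [] => True
  | b, c :: l => (if b = true then c ∈ A else c ∈ B) ∧ ⟪o, c o⟫_ℂ = 0 ∧ Alt A B o (!b) l

/-- `A` and `B` are free with respect to the vector `o`. -/
def Fre {H : Type} [NormedAddCommGroup H] [InnerProductSpace ℂ H] [CompleteSpace H]
    (A B : StarSubalgebra ℂ (H →L[ℂ] H)) (o : H) : Prop :=
  ∀ (b : Bool) (l : List (H →L[ℂ] H)), Alt A B o b l → l ≠ [] → ⟪o, l.prod o⟫_ℂ = 0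

/-- `u` is a Haar unitary. -/
def Haar {H : Type} [NormedAddCommGroup H] [InnerProductSpace ℂ H] [CompleteSpace H]
    (u : H →L[ℂ] H) (o : H) : Prop :=
  star u * u = 1 ∧ u * star u = 1 ∧ ∀ n : ℕ, 0 < n → ⟪o, (u ^ n) o⟫_ℂ = 0

/-- The C*-algebra generated by `s_i`. -/
def Aone {k : ℕ} (i : Fin k) : StarSubalgebra ℂ (Fk k →L[ℂ] Fk k) :=
  (StarAlgebra.adjoin ℂ {sc i}).topologicalClosure

/-- The C*-algebra generated by the `s_j`, `j ≠ i`. -/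
def Aoth {k : ℕ} (i : Fin k) : StarSubalgebra ℂ (Fk k →L[ℂ] Fk k) :=
  (StarAlgebra.adjoin ℂ {x | ∃ j, j ≠ i ∧ x = sc j}).topologicalClosure

/-- The unitary `U` implements the isomorphism `φ`. -/
def Imp {k k' : ℕ} (φ : Alg k' ≃⋆ₐ[ℂ] Alg k) (U : Fk k' ≃ₗᵢ[ℂ] Fk k) : Prop :=
  U (vac k') = vac k ∧
  (∀ (x : Alg k') (ξ : Fk k'), U ((x : Fk k' →L[ℂ] Fk k') ξ) = (φ x : Fk k →L[ℂ] Fk k) (U ξ)) ∧
  ∀ ξ : Fk k', U (Jf ξ) = Jf (U ξ)

/-- The operator `U T U*`. -/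
def cj {k k' : ℕ} (U : Fk k' ≃ₗᵢ[ℂ] Fk k) (T : Fk k' →L[ℂ] Fk k') : Fk k →L[ℂ] Fk k :=
  (U : Fk k' →L[ℂ] Fk k).comp (T.comp (U.symm : Fk k →L[ℂ] Fk k'))

/-! ## A. The Fock space -/

/-- BLOCK BAS (uses nothing): annihilation operators on the basis.
PROOF.  `lc_bs`, `rc_bs`, `bs_inner`, `bs_apply`: the value at `v` of `(lc i)* ξ` is
`⟪bs v, (lc i)* ξ⟫ = ⟪lc i (bs v), ξ⟫ = ξ (i :: v)`; apply to `ξ = bs w` and use `lp` extensionality.  (5), (6): the span of the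
`bs w` is dense (`bs w = lp.single 2 w 1`, `lp.hasSum_single`), continuous linear maps which agree on a set with dense span
agree.  (7) `star_add`, `star_star`, `ContinuousLinearMap.star_eq_adjoint`.  (8) `‖lc i ξ‖ = ‖ξ‖` (`LinearIsometry.norm_map`), the same for
`(lc i)*`. -/
def Stmt_BAS : Prop := ∀ k : ℕ,
  (∀ (i : Fin k) (ξ : Fk k) (v : List (Fin k)),
    (ContinuousLinearMap.adjoint (lc i) ξ : Fk k) v = ξ (i :: v)) ∧
  (∀ (i : Fin k) (ξ : Fk k) (v : List (Fin k)),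
    (ContinuousLinearMap.adjoint (rc i) ξ : Fk k) v = ξ (v ++ [i])) ∧
  (∀ i : Fin k, ContinuousLinearMap.adjoint (lc i) (vac k) = 0 ∧
    ContinuousLinearMap.adjoint (rc i) (vac k) = 0) ∧
  (∀ (i j : Fin k) (w : List (Fin k)),
    ContinuousLinearMap.adjoint (lc i) (bs (j :: w)) = (if i = j then bs w else 0) ∧
    ContinuousLinearMap.adjoint (rc i) (bs (w ++ [j])) = (if i = j then bs w else 0)) ∧
  (∀ S T : Fk k →L[ℂ] Fk k, (∀ w, S (bs w) = T (bs w)) → S = T) ∧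
  Dense (Submodule.span ℂ (range (bs : List (Fin k) → Fk k)) : Set (Fk k)) ∧
  (∀ i : Fin k, star (sc i : Fk k →L[ℂ] Fk k) = sc i) ∧
  (∀ i : Fin k, ‖(sc i : Fk k →L[ℂ] Fk k)‖ ≤ 2)

/-- BLOCK JOP (uses nothing): the conjugation.
PROOF.  Coordinatewise; (6) `⟪x, y⟫ = ∑' conj (x w) * y w` (`lp.inner_eq_tsum`) and the bijection `reverse` of the words; (5) from (6) with
`y = x`; (7) continuity from (1), (5). -/
def Stmt_JOP : Prop := ∀ k : ℕ,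
  (∀ x y : Fk k, Jf (x + y) = Jf x + Jf y) ∧
  (∀ (c : ℂ) (x : Fk k), Jf (c • x) = conj c • Jf x) ∧
  (∀ x : Fk k, Jf (Jf x) = x) ∧
  (∀ w : List (Fin k), Jf (bs w : Fk k) = bs w.reverse) ∧
  (∀ x : Fk k, ‖Jf x‖ = ‖x‖) ∧
  (∀ x y : Fk k, ⟪Jf x, Jf y⟫_ℂ = ⟪y, x⟫_ℂ) ∧
  Continuous (Jf : Fk k → Fk k)

/-- BLOCK COM (uses BAS, JOP): commutation relations.
PROOF.  All identities between operators are checked on the basis (BAS (5)); every nonempty word is of the form `j :: w` and of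
the form `w ++ [j]` (`List.eq_nil_or_concat`).  (1) `[r_i*, l_j] = δ_ij P`, `[r_i*, l_j*] = 0`; (2) is the adjoint of (1) with `i`, `j` exchanged
(`star (dq j (sc i)) = sc i * rc j - rc j * sc i`); (3) from (1), (2); (4) both sides are continuous and additive in `ξ` and
conjugate linear; on the basis `s_i (bs w) = bs (i :: w) + l_i* (bs w)`, `J (bs w) = bs w.reverse`. -/
def Stmt_COM : Prop := ∀ k : ℕ,
  (∀ i j : Fin k, dq i (sc j : Fk k →L[ℂ] Fk k) = if i = j then Pv k else 0) ∧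
  (∀ i j : Fin k, (sc i : Fk k →L[ℂ] Fk k) * rc j - rc j * sc i = if i = j then Pv k else 0) ∧
  (∀ i j : Fin k, (sc i : Fk k →L[ℂ] Fk k) * rs j = rs j * sc i) ∧
  (∀ (i : Fin k) (ξ : Fk k), Jf (sc i ξ) = rs i (Jf ξ))

/-- BLOCK SPN (uses BAS): monomials.
PROOF.  The span of the monomials is a subalgebra (products of monomials are monomials, `mon (v ++ w) = mon v * mon w`), closed under
`star` (`s_i* = s_i`, so `star (mon w) = mon w.reverse`), so it is the star subalgebra generated by the `s_i`.  (2) is the definition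
of the topological closure. -/
def Stmt_SPN : Prop := ∀ k : ℕ,
  ((StarAlgebra.adjoin ℂ (Set.range (sc : Fin k → (Fk k →L[ℂ] Fk k))) :
      StarSubalgebra ℂ (Fk k →L[ℂ] Fk k)) : Set (Fk k →L[ℂ] Fk k)) =
    (Submodule.span ℂ (range (mon : List (Fin k) → (Fk k →L[ℂ] Fk k))) : Set (Fk k →L[ℂ] Fk k)) ∧
  ((Alg k : StarSubalgebra ℂ (Fk k →L[ℂ] Fk k)) : Set (Fk k →L[ℂ] Fk k)) =
    closure (Submodule.span ℂ (range (mon : List (Fin k) → (Fk k →L[ℂ] Fk k))) :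
      Set (Fk k →L[ℂ] Fk k)) ∧
  (∀ w : List (Fin k), star (mon w : Fk k →L[ℂ] Fk k) = mon w.reverse)

/-- BLOCK CYC (uses BAS): the vacuum vector is cyclic.
PROOF.  Strong induction on the length: `s_i (bs w) = bs (i :: w) + (bs v if w = i :: v, else 0)`, so `bs (i :: w)` is
`s_i x_w Ω - (x_v Ω or 0)`. -/
def Stmt_CYC : Prop := ∀ (k : ℕ) (w : List (Fin k)),
  ∃ x ∈ StarAlgebra.adjoin ℂ (Set.range (sc : Fin k → (Fk k →L[ℂ] Fk k))), x (vac k) = bs w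

/-- BLOCK ALC (uses BAS, JOP, COM, SPN): the elements of `Alg k`.
PROOF.  (1) by COM (3) `rs j` commutes with the monomials, so with their span and its closure.  (2) the set of `x` with
`J (x Ω) = x* Ω` is closed under addition, multiplication by scalars and limits; for a monomial
`J (s_{i1} .. s_{im} Ω) = rs_{i1} .. rs_{im} Ω` (COM (4), `J Ω = Ω`) and `rs_{i1} .. rs_{im} Ω = s_{im} .. s_{i1} Ω` by induction on `m`:
`rs_i Ω = s_i Ω = bs [i]` and `rs` commutes with `s` (COM (3)).  (3) `⟪Ω, x y Ω⟫ = ⟪x* Ω, y Ω⟫ = ⟪J (x Ω), y Ω⟫ = ⟪J (y Ω), x Ω⟫ = ⟪y* Ω, x Ω⟫` (JOP (6), (3)). -/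
def Stmt_ALC : Prop := ∀ k : ℕ,
  (∀ x ∈ Alg k, ∀ j : Fin k, x * rs j = rs j * x) ∧
  (∀ x ∈ Alg k, Jf (x (vac k)) = (star x) (vac k)) ∧
  (∀ x ∈ Alg k, ∀ y ∈ Alg k, ⟪vac k, (x * y) (vac k)⟫_ℂ = ⟪vac k, (y * x) (vac k)⟫_ℂ)

/-- BLOCK ENT (uses BAS, ALC): the entries of the difference quotient.
PROOF.  `r_i* rs_j = δ_ij + r_i* r_j*` (`r_i* r_j = δ_ij`).  As `x` commutes with `rs_j`,
`D_i(x) rs_j = r_i* rs_j x - x r_i* rs_j = [r_i* r_j*, x] = r_i* D_j(x) + D_i(x) r_j*`, so `D_i(x) r_j = r_i* D_j(x)`.  Induction on the length of `v`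
(all `i`, `u`; `List.reverseRecOn`): `⟪bs u, D_i(x) Ω⟫ = ⟪bs u, r_i* x Ω⟫ = ⟪bs (u ++ [i]), x Ω⟫`, and
`⟪bs u, D_i(x) bs (v ++ [j])⟫ = ⟪bs u, D_i(x) r_j bs v⟫ = ⟪bs u, r_i* D_j(x) bs v⟫ = ⟪bs (u ++ [i]), D_j(x) bs v⟫`. -/
def Stmt_ENT : Prop := ∀ (k : ℕ) (x : Fk k →L[ℂ] Fk k), x ∈ Alg k →
  ∀ (i : Fin k) (u v : List (Fin k)), ⟪bs u, dq i x (bs v)⟫_ℂ = (x (vac k)) (u ++ i :: v.reverse)

/-- BLOCK FEX (uses BAS): words starting with a given letter; the two parts of the algebra.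
PROOF.  `R_w` the isometry `bs u ↦ bs (u ++ w)` (`Orthonormal` family as in `lc_orth`, or a product of operators `rc`).  If the first letter of `w`
is not `j` then `s_j R_w = R_w s_j` (check on the basis: `s_j bs (u ++ w) = bs (j :: u ++ w) + l_j* bs (u ++ w)`, and for `u = []` the last term is `0`
because the first letter of `w` is not `j`), so `x R_w = R_w x` for `x` in the C*-algebra generated by these `s_j`.
(1): `w = i :: w'`, `x = B`-element: `x bs w = x R_w Ω = R_w x Ω`; `x Ω` is in the closed span `V` of the words in the letters `≠ i` (it is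
mapped into itself by all `s_j`, `j ≠ i`, so by `Aoth i`), and its coefficient at `[]` is `⟪Ω, x Ω⟫ = 0`: so `R_w x Ω` is in the closed span of the words
which start with a letter `≠ i`.  (2): the same with `V` = closed span of the words `[i, .., i]`.  (3), (4): `w = []`. -/
def Stmt_FEX : Prop := ∀ (k : ℕ) (i : Fin k),
  (∀ x ∈ Aoth i, ⟪vac k, x (vac k)⟫_ℂ = 0 → ∀ w : List (Fin k), (w = [] ∨ w.head? = some i) →
    ∀ v : List (Fin k), (v = [] ∨ v.head? = some i) → (x (bs w)) v = 0) ∧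
  (∀ x ∈ Aone i, ⟪vac k, x (vac k)⟫_ℂ = 0 → ∀ w : List (Fin k), (w = [] ∨ w.head? ≠ some i) →
    ∀ v : List (Fin k), (v = [] ∨ v.head? ≠ some i) → (x (bs w)) v = 0)

/-- BLOCK FRE (uses BAS, FEX): freeness of `s_i` and the other generators.
PROOF.  Let `H1` be the closed subspace of the `ξ` with `ξ v = 0` for `v = []` or `v.head? ≠ some i`, `H2` the closed subspace with `ξ v = 0` for `v = []` or
`v.head? = some i`.  By FEX and continuity (`ξ = ∑ ξ w • bs w`) centred elements of `Aone i` map `ℂ Ω + H2` into `H1`, centred elements of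
`Aoth i` map `ℂ Ω + H1` into `H2`.  By induction on the list `l` (from the right) `l.prod Ω ∈ H1` or `H2` according to the type of the
first factor, so it is orthogonal to `Ω`. -/
def Stmt_FRE : Prop := ∀ (k : ℕ) (i : Fin k), Fre (Aone i) (Aoth i) (vac k)

/-! ## B. Uniqueness of the trace -/

/-- BLOCK POW (uses nothing): Powers averaging.
PROOF.  `P` the orthogonal projection onto `K`, `P_p = v_p P v_p*`: projections onto the mutually orthogonal spaces `v_p K`.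
`X = P X + (1 - P) X P` because `(1 - P) X (1 - P) = 0` (`Kᗮ` is mapped into `K`).  For every `ξ`
`‖∑ P_p (v_p X v_p* ξ)‖² = ∑ ‖P_p ..‖² ≤ N ‖X‖² ‖ξ‖²`, so `‖∑ v_p P X v_p*‖ ≤ √N ‖X‖`; `∑ v_p (1 - P) X P v_p*` is the adjoint of `∑ P_p (v_p X* (1 - P) v_p*)`, with the same
bound. -/
def Stmt_POW : Prop := ∀ (H : Type) [NormedAddCommGroup H] [InnerProductSpace ℂ H]
  [CompleteSpace H] (K : Submodule ℂ H) (X : H →L[ℂ] H) (N : ℕ) (v : Fin N → (H →L[ℂ] H)),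
  IsClosed (K : Set H) → (∀ x ∈ Kᗮ, X x ∈ K) →
  (∀ p, star (v p) * v p = 1 ∧ v p * star (v p) = 1) →
  (∀ p q, p ≠ q → ∀ x ∈ K, ∀ y ∈ K, ⟪v p x, v q y⟫_ℂ = 0) →
  ‖∑ p, v p * X * star (v p)‖ ≤ 2 * Real.sqrt N * ‖X‖

/-- BLOCK UTA (uses POW): odd alternating products.
PROOF.  We treat the case `b = true` (first and last factor in `A`); the other case is the same with `A`, `B` exchanged
(prove a lemma with `A`, `B` in general position and the sets `Alt`).  `K` = closure of the span of the `m.prod o`, `m` alternating of type `true`, `m ≠ []`.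
`Kᗮ`: the vectors `o`, `m.prod o` with `m` alternating of type `false` or `true` span a dense subspace (`hcyc`; a product of two elements
`c`, `d` of the same algebra is `τ(c d) + centred`, induction on the length), those of type `false` and `o` are orthogonal to `K`
(`Fre` for the list `(m.map star).reverse ++ m'`), so `Kᗮ` is the closure of the span `K'` of `o` and the `m.prod o` of type `false`.
`X = l.prod` maps `K'` into `K`: `l ++ m` is alternating when `l` has odd length and type `true`, `m` has type `false`.  `v_p = v ^ p`: for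
`x = m.prod o`, `y = m'.prod o` in `K` `⟪v^p x, v^q y⟫ = ± ⟪o, (m.map star).reverse.prod v^(q-p) m'.prod o⟫ = 0`.  POW: `σ(X) = σ(N⁻¹ ∑ v_p X v_p*)`, so
`|σ(X)| ≤ ‖σ‖ 2 ‖X‖ / √N` for all `N`. -/
def Stmt_UTA : Prop := ∀ (H : Type) [NormedAddCommGroup H] [InnerProductSpace ℂ H]
  [CompleteSpace H] (o : H) (A B : StarSubalgebra ℂ (H →L[ℂ] H)) (u v : H →L[ℂ] H), ‖o‖ = 1 →
  Fre A B o → u ∈ A → v ∈ B → Haar u o → Haar v o →
  (Dense {y : H | ∃ x ∈ A ⊔ B, x o = y}) →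
  ∀ (σ : ((A ⊔ B).topologicalClosure : StarSubalgebra ℂ (H →L[ℂ] H)) →L[ℂ] ℂ),
  (∀ x y, σ (x * y) = σ (y * x)) →
  ∀ (b : Bool) (l : List (H →L[ℂ] H)), Alt A B o b l → l.length % 2 = 1 →
  ∀ x : ((A ⊔ B).topologicalClosure : StarSubalgebra ℂ (H →L[ℂ] H)), (x : H →L[ℂ] H) = l.prod →
  σ x = 0

/-- BLOCK UTB (uses UTA): a free product has only one trace.
PROOF.  (i) even alternating products `X = a_1 b_1 .. a_m b_m` (type `true`, `m ≥ 1`): for `p ≥ 1`, with `v^{-p} = (star v)^p`,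
`σ(X) = σ(v^{-p} X v^p)`; `b_m v^p = c_p + d_p`, `c_p = ⟪o, b_m v^p o⟫`, `d_p` centred.  `v^{-p} a_1 .. a_m d_p` is alternating of odd length, of type `false`: `σ = 0` by UTA.  So
`|σ(X)| = |c_p| |σ(v^{-p} a_1 .. a_m)| ≤ |c_p| ‖σ‖ ‖a_1 .. a_m‖`, and `c_p = ⟪b_m* o, v^p o⟫ → 0` because the `v^p o` are orthonormal (Bessel,
`Orthonormal.inner_products_summable` or `tendsto`).  Type `false`: the same with `u` (or rotate, `σ(x y) = σ(y x)`).  (ii) so `σ(l.prod) = 0` for all alternating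
`l ≠ []`, and `⟪o, l.prod o⟫ = 0` by `Fre`.  (iii) `A ⊔ B` is spanned by `1` and the alternating products (see UTA), on which `σ(x) = ⟪o, x o⟫`
(`σ(1) = 1`), and both sides are continuous. -/
def Stmt_UTB : Prop := ∀ (H : Type) [NormedAddCommGroup H] [InnerProductSpace ℂ H]
  [CompleteSpace H] (o : H) (A B : StarSubalgebra ℂ (H →L[ℂ] H)) (u v : H →L[ℂ] H), ‖o‖ = 1 →
  Fre A B o → u ∈ A → v ∈ B → Haar u o → Haar v o →
  (Dense {y : H | ∃ x ∈ A ⊔ B, x o = y}) →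
  ∀ (σ : ((A ⊔ B).topologicalClosure : StarSubalgebra ℂ (H →L[ℂ] H)) →L[ℂ] ℂ),
  (∀ x y, σ (x * y) = σ (y * x)) → σ 1 = 1 → ∀ x, σ x = ⟪o, (x : H →L[ℂ] H) o⟫_ℂ

/-- BLOCK SCM (uses BAS): the distribution of a semicircular operator.
PROOF.  `W_n = aeval s_i (U_n(X / 2))`, `U_n = Polynomial.Chebyshev.U ℝ n`: `W_0 = 1`, `W_1 = s_i`, `W_{n+1} = s_i W_n - W_{n-1}`, so
`W_n Ω = bs [i, .., i]` (`n` letters) and `⟪Ω, W_n Ω⟫ = 0` for `n ≥ 1`, `= 1` for `n = 0`.  On the right `U_n(cos θ) sin θ = sin ((n + 1) θ)`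
(`Polynomial.Chebyshev.U_real_cos`), and `(2 / π) ∫ sin ((n+1) θ) sin θ = 0` for `n ≥ 1`, `= 1` for `n = 0`.  Both sides are linear in `p` and the `U_n(X / 2)` span
`ℝ[X]` (induction: `X U_n(X/2) = U_{n+1}(X/2) + U_{n-1}(X/2)`). -/
def Stmt_SCM : Prop := ∀ (k : ℕ) (i : Fin k) (p : Polynomial ℝ),
  ⟪vac k, (Polynomial.aeval (sc i : Fk k →L[ℂ] Fk k) p) (vac k)⟫_ℂ =
    (((2 / Real.pi) * ∫ θ in (0 : ℝ)..Real.pi,
      p.eval (2 * Real.cos θ) * Real.sin θ ^ 2 : ℝ) : ℂ)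

/-- BLOCK HAA (uses BAS, SCM): a Haar unitary in `C*(s_i)`.
PROOF.  `s = s_i` is self-adjoint with `‖s‖ ≤ 2`, so its (real) spectrum is in `[-2, 2]`.  For continuous `f : ℝ → ℝ`:
`⟪Ω, cfc f s Ω⟫ = (2 / π) ∫ f(2 cos θ) sin² θ` (true for polynomials by SCM, both sides are continuous for the sup norm on `[-2, 2]`, Weierstrass; `cfc` of a
polynomial: `cfc_polynomial` / `cfc_aeval`).  Let `g(x) = 2 arccos (x / 2) - sin (2 arccos (x / 2))`, continuous, `g(2 cos θ) = 2 θ - sin 2 θ` on `[0, π]`, and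
`h = cfc g s`, `u = exp(i h) = cfc (cos ∘ g) s + i cfc (sin ∘ g) s`.  `u^n = cfc (cos (n g)) s + i cfc (sin (n g)) s` (induction, addition theorems, `cfc_mul`), so
`u* u = u u* = 1` and `⟪Ω, u^n Ω⟫ = (2 / π) ∫ exp(i n (2 θ - sin 2 θ)) sin² θ dθ = (2 i π n)⁻¹ [exp(i n (2 θ - sin 2 θ))]_0^π = 0`, because `(2 θ - sin 2 θ)' = 4 sin² θ`.
`cfc f s` is in the closed algebra generated by `s`. -/
def Stmt_HAA : Prop := ∀ (k : ℕ) (i : Fin k),
  ∃ u : Fk k →L[ℂ] Fk k, u ∈ Aone i ∧ Haar u (vac k)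

/-- BLOCK UTF (uses BAS, CYC, FRE, HAA, UTB): `Alg k` has only one trace for `k ≥ 2`.
PROOF.  `i = 0`, `A = Aone 0`, `B = Aoth 0`; `u ∈ A` by HAA, `v ∈ Aone 1 ≤ B`.  `Alg k = (A ⊔ B).topologicalClosure`: every `s_j` is in `A` or `B`; `A, B ≤ Alg k`, which
is closed.  `Dense`: CYC and BAS (6).  Transport `σ` along the equality of star subalgebras. -/
def Stmt_UTF : Prop := ∀ k : ℕ, 2 ≤ k → ∀ σ : Alg k →L[ℂ] ℂ, (∀ x y, σ (x * y) = σ (y * x)) →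
  σ 1 = 1 → ∀ x, σ x = ⟪vac k, (x : Fk k →L[ℂ] Fk k) (vac k)⟫_ℂ

/-- BLOCK IMP (uses BAS, JOP, CYC, ALC, UTF): isomorphisms are implemented by unitaries.
PROOF.  `φ` is isometric (both algebras are closed star subalgebras of `B(H)`, so C*-algebras: `StarSubalgebra.cstarAlgebra` with the
instance `IsClosed`; `StarAlgEquiv.isometry` or `NonUnitalStarAlgHom.norm_map`), so `σ(x) = ⟪Ω, φ(x) Ω⟫` is a bounded trace on `Alg k'` (ALC (3)) with `σ(1) = 1`: by UTF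
`⟪Ω, φ(x) Ω⟫ = ⟪Ω', x Ω'⟫`.  Let `x_w ∈ Alg k'` with `x_w Ω' = bs w` (CYC), `f_w = φ(x_w) Ω`: `⟪f_w, f_v⟫ = ⟪Ω, φ(x_w* x_v) Ω⟫ = ⟪bs w, bs v⟫`, so there is a
linear isometry `U` with `U bs w = f_w`.  `⟪f_w, φ(x) Ω⟫ = ⟪bs w, x Ω'⟫` for all `w`, so `⟪U ξ, φ(x) Ω⟫ = ⟪ξ, x Ω'⟫` for all `ξ` and `‖U x Ω' - φ(x) Ω‖² = 0` because
`‖φ(x) Ω‖ = ‖x Ω'‖`.  So `U x Ω' = φ(x) Ω`; `U` has closed range and all `bs w = y Ω = φ(φ⁻¹ y) Ω` are in it, so `U` is onto.  `U x (y Ω') = φ(x) φ(y) Ω = φ(x) U (y Ω')`, and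
the `y Ω'` are dense.  `U J (x Ω') = U (x* Ω') = φ(x)* Ω = J (φ(x) Ω) = J U (x Ω')` (ALC (2)). -/
def Stmt_IMP : Prop := ∀ k k' : ℕ, 2 ≤ k → 2 ≤ k' → ∀ φ : Alg k' ≃⋆ₐ[ℂ] Alg k,
  ∃ U : Fk k' ≃ₗᵢ[ℂ] Fk k, Imp φ U

/-! ## C. The pairing -/

/-- BLOCK TEL (uses BAS): a telescoping sum.
PROOF.  Let `G(u, v) = ⟪bs u, R (bs v)⟫` and, for lists `u`, `w`, `F(u, []) = 0`, `F(u, i :: w) = ⟪bs u, (R s_i - s_i R) bs w⟫ + F(i :: u, w)`.  As
`s_i bs v = bs (i :: v) + (bs v' if v = i :: v')` and `s_i* = s_i`, `⟪bs u, (R s_i - s_i R) bs w⟫ = G(u, i :: w) + [w = i :: w'] G(u, w') - G(i :: u, w) - [u = i :: u'] G(u', w)`.  By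
induction on `w`: `F(u, w) = G(u, w) - G(w.reverse ++ u, []) - C(u, w)` with `C(u, []) = 0`, `C(u, i :: w) = [u = i :: u'] G(u', w)`.  For `u = []`:
`F([], w) = G([], w) - G(w.reverse, []) = ⟪Ω, R bs w⟫` since `R Ω = 0`.  The right side below is `F([], w)`. -/
def Stmt_TEL : Prop := ∀ (k : ℕ) (R : Fk k →L[ℂ] Fk k), R (vac k) = 0 →
  ∀ w : List (Fin k), ⟪vac k, R (bs w)⟫_ℂ =
    ∑ p : Fin w.length, ⟪bs (w.take p).reverse,
      (R * sc (w.get p) - sc (w.get p) * R) (bs (w.drop ((p : ℕ) + 1)))⟫_ℂ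

/-- BLOCK PRS (uses ENT, TEL): the pairing series.
PROOF.  `x Ω = ∑ ζ_w bs w`, `ζ_w = (x Ω) w`, so `⟪Ω, R x Ω⟫ = ∑_w ζ_w ⟪Ω, R bs w⟫` (absolutely, `lp.hasSum_single` and continuity); the term `w = []` is `0`; group
the words by their length `m + 1` (`HasSum.sigma`).  For `w` of length `m + 1` use TEL; the pairs (word `w` of length `m + 1`, position `p`) correspond to
`i`, `(a, b)` with `a + b = m`, `u` of length `a`, `v` of length `b` by `w = u ++ i :: v`, and `ζ_w = ⟪bs u, D_i(x) bs v.reverse⟫` (ENT). -/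
def Stmt_PRS : Prop := ∀ (k : ℕ) (R x : Fk k →L[ℂ] Fk k), x ∈ Alg k → R (vac k) = 0 →
  HasSum (fun m : ℕ => ∑ i : Fin k, ∑ p ∈ Finset.HasAntidiagonal.antidiagonal m,
    cc (R * sc i - sc i * R) (dq i x) p.1 p.2) ⟪vac k, R (x (vac k))⟫_ℂ

/-- BLOCK CCS (uses nothing): the pairing is symmetric.
PROOF.  Substitute `u ↦ u ∘ Fin.rev`, `v ↦ v ∘ Fin.rev` (bijections; `List.reverse_ofFn` or `List.ofFn` of `Fin.rev`) and `mul_comm`. -/
def Stmt_CCS : Prop := ∀ (k : ℕ) (S T : Fk k →L[ℂ] Fk k) (a b : ℕ), cc S T a b = cc T S a b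

/-- BLOCK CCN (uses BAS, JOP): the pairing with a nuclear operator, one degree.
PROOF.  `Q_a` is the projection onto the words of length `a`: `(Q_a ξ) w = ξ w` if `w.length = a`, else `0` (for example
`Q_a ξ = ∑ u : Fin a → Fin k, ξ (wd u) • bs (wd u)`).  `⟪bs u.reverse, S bs v⟫ = ∑_n ⟪β_n, bs v⟫ ⟪bs u.reverse, α_n⟫`, and for all `α`, `β`
`∑_{u, v} ⟪bs u, T bs v.reverse⟫ ⟪bs u.reverse, α⟫ ⟪β, bs v⟫ = ⟪J Q_a α, T J Q_b β⟫` (`⟪J ξ, bs u⟫ = ⟪bs u.reverse, ξ⟫`, JOP; `J Q_a = Q_a J`). -/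
def Stmt_CCN : Prop := ∀ (k : ℕ), ∃ Q : ℕ → (Fk k →L[ℂ] Fk k),
  (∀ (a : ℕ) (ξ : Fk k) (w : List (Fin k)), (Q a ξ) w = if w.length = a then ξ w else 0) ∧
  (∀ (S T : Fk k →L[ℂ] Fk k) (α β : ℕ → Fk k), Summable (fun n => ‖α n‖ * ‖β n‖) →
    (∀ ξ, HasSum (fun n => ⟪β n, ξ⟫_ℂ • α n) (S ξ)) → ∀ a b : ℕ,
    HasSum (fun n => ⟪Jf (Q a (α n)), T (Jf (Q b (β n)))⟫_ℂ) (cc S T a b))

/-- BLOCK NPR (uses JOP, CCN): the Abel limit of the pairing with a nuclear operator.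
PROOF.  For `0 < r < 1` let `N_r ξ = ∑_a r^a Q_a ξ` (that is `(N_r ξ) w = r^(w.length) ξ w`).  `‖Q_a ξ‖ ≤ ‖ξ‖`, so `|⟪J Q_a α_n, T J Q_b β_n⟫| ≤ ‖T‖ ‖α_n‖ ‖β_n‖`, all sums
converge absolutely and `∑_m r^m ∑_{a+b=m} cc S T a b = ∑_n ⟪J N_r α_n, T J N_r β_n⟫`.  For `r → 1` `N_r ξ → ξ` and `‖N_r ξ‖ ≤ ‖ξ‖`: dominated convergence
(`tendsto_tsum_of_dominated_convergence` with the bound `‖T‖ ‖α_n‖ ‖β_n‖`). -/
def Stmt_NPR : Prop := ∀ (k : ℕ) (S T : Fk k →L[ℂ] Fk k) (α β : ℕ → Fk k),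
  Summable (fun n => ‖α n‖ * ‖β n‖) → (∀ ξ, HasSum (fun n => ⟪β n, ξ⟫_ℂ • α n) (S ξ)) →
  Tendsto (fun r : ℝ => ∑' m : ℕ, (r : ℂ) ^ m * ∑ p ∈ Finset.HasAntidiagonal.antidiagonal m, cc S T p.1 p.2)
    (𝓝[<] 1) (𝓝 (∑' n, ⟪Jf (α n), T (Jf (β n))⟫_ℂ))

/-- BLOCK PN1 (uses PRS, CCN, NPR): the pairing formula with nuclear commutators.
PROOF.  By PRS and dominated convergence `∑_m r^m c_m → ⟪Ω, R x Ω⟫` for `r → 1`, `c_m` the terms of PRS; `c_m = ∑_i ∑_{a+b=m} cc ..`, and NPR for each `i` (`S = R s_i - s_i R`,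
`T = D_i(x)`; for `0 < r < 1` the sums over `m` converge absolutely since `|cc S T a b| ≤ ‖T‖ ∑ ‖α_n‖ ‖β_n‖` by CCN). -/
def Stmt_PN1 : Prop := ∀ (k : ℕ) (R x : Fk k →L[ℂ] Fk k) (α β : Fin k → ℕ → Fk k),
  x ∈ Alg k → R (vac k) = 0 → (∀ i, Summable (fun n => ‖α i n‖ * ‖β i n‖)) →
  (∀ i ξ, HasSum (fun n => ⟪β i n, ξ⟫_ℂ • α i n) ((R * sc i - sc i * R) ξ)) →
  ⟪vac k, R (x (vac k))⟫_ℂ = ∑ i, ∑' n, ⟪Jf (α i n), (dq i x) (Jf (β i n))⟫_ℂ

/-- BLOCK PN2 (uses PRS, CCS, CCN, NPR): the pairing formula with nuclear difference quotients.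
PROOF.  As PN1, with `cc S T = cc T S` (CCS) and NPR for the nuclear operator `D_i(x)` and the bounded operator `R s_i - s_i R`. -/
def Stmt_PN2 : Prop := ∀ (k : ℕ) (R x : Fk k →L[ℂ] Fk k) (α β : Fin k → ℕ → Fk k),
  x ∈ Alg k → R (vac k) = 0 → (∀ i, Summable (fun n => ‖α i n‖ * ‖β i n‖)) →
  (∀ i ξ, HasSum (fun n => ⟪β i n, ξ⟫_ℂ • α i n) ((dq i x) ξ)) →
  ⟪vac k, R (x (vac k))⟫_ℂ = ∑ i, ∑' n, ⟪Jf (α i n), (R * sc i - sc i * R) (Jf (β i n))⟫_ℂ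

/-- BLOCK CJR (uses BAS): conjugation by the unitary of an isomorphism.
PROOF.  `y_i = φ.symm s_i`, `z_j = φ s'_j`, `U y_i = s_i U`, `U s'_j = z_j U`.  (1) `U r'_j* U* Ω = U r'_j* Ω' = 0`; `U r'_j* U* s_i - s_i U r'_j* U* = U (r'_j* y_i - y_i r'_j*) U*`.
`⟪Ω, U r'_j* U* z_l Ω⟫ = ⟪Ω', r'_j* s'_l Ω'⟫ = ⟪bs [j], bs [l]⟫`.  (2) the same for the inverse. -/
def Stmt_CJR : Prop := ∀ (k k' : ℕ) (φ : Alg k' ≃⋆ₐ[ℂ] Alg k) (U : Fk k' ≃ₗᵢ[ℂ] Fk k), Imp φ U →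
  (∀ j : Fin k', (cj U (ContinuousLinearMap.adjoint (rc j))) (vac k) = 0 ∧
    (∀ i : Fin k, cj U (ContinuousLinearMap.adjoint (rc j)) * sc i -
      sc i * cj U (ContinuousLinearMap.adjoint (rc j)) =
        cj U (dq j (φ.symm (ge i) : Fk k' →L[ℂ] Fk k'))) ∧
    ∀ l : Fin k', ⟪vac k, cj U (ContinuousLinearMap.adjoint (rc j))
      ((φ (ge l) : Fk k →L[ℂ] Fk k) (vac k))⟫_ℂ = if j = l then 1 else 0) ∧
  (∀ i : Fin k, (cj U.symm (ContinuousLinearMap.adjoint (rc i))) (vac k') = 0 ∧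
    (∀ j : Fin k', cj U.symm (ContinuousLinearMap.adjoint (rc i)) * sc j -
      sc j * cj U.symm (ContinuousLinearMap.adjoint (rc i)) =
        cj U.symm (dq i (φ (ge j) : Fk k →L[ℂ] Fk k))) ∧
    ∀ m : Fin k, ⟪vac k', cj U.symm (ContinuousLinearMap.adjoint (rc i))
      ((φ.symm (ge m) : Fk k' →L[ℂ] Fk k') (vac k'))⟫_ℂ = if i = m then 1 else 0)

/-- BLOCK MNA (uses IMP, PN1, PN2, CJR): THEOREM (A).
PROOF.  `U` from IMP; `α i j n`, `β i j n` from the nuclear operators `D_i(φ s'_j)`.  PN2 on `Fk k` with `R = cj U (r'_j)*`, `x = φ s'_j` (CJR (1), `l = j`):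
`1 = ∑_i ∑'_n ⟪J α i j n, U D'_j(y_i) U* J β i j n⟫`.  PN1 on `Fk k'` with `R = cj U.symm (r_i)*`, `x = y_i = φ.symm s_i` (CJR (2), `m = i`), the nuclear representation
`U* α i j n`, `U* β i j n` of `cj U.symm (D_i(φ s'_j))`: `1 = ∑_j ∑'_n ⟪J U* α i j n, D'_j(y_i) J U* β i j n⟫`.  The terms are equal (`J U* = U* J`, `U*` is the
adjoint of `U`), so summing over `j` and over `i`: `k' = k` (in `ℂ`, `Nat.cast_injective`). -/
def Stmt_MNA : Prop := ∀ k k' : ℕ, 2 ≤ k → 2 ≤ k' → ∀ φ : Alg k' ≃⋆ₐ[ℂ] Alg k,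
  (∀ (i : Fin k) (j : Fin k'), Nuc (dq i (φ (ge j) : Fk k →L[ℂ] Fk k))) → k = k'

/-- BLOCK POL (uses BAS, COM, SPN): polynomials have nuclear difference quotients.
PROOF.  `Nuc` is closed under sums (interleave the two sequences), scalar multiples, products with bounded operators on both sides; `0` and `P` are nuclear.
`D_i(x y) = D_i(x) y + x D_i(y)`, `D_i(s_j) = δ_ij P`, `D_i(1) = 0`: so `D_i(mon w)` is nuclear by induction on `w`, and SPN (1). -/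
def Stmt_POL : Prop := ∀ (k : ℕ) (x : Fk k →L[ℂ] Fk k),
  x ∈ StarAlgebra.adjoin ℂ (Set.range (sc : Fin k → (Fk k →L[ℂ] Fk k))) →
  ∀ i : Fin k, Nuc (dq i x)

/-! ## D. Hilbert-Schmidt operators -/

/-- BLOCK HSB (uses nothing): Hilbert-Schmidt operators and change of basis.
PROOF.  `∑_w ‖T f_w‖² = ∑_w ∑_v |⟪e_v, T f_w⟫|² = ∑_v ∑_w |⟪T* e_v, f_w⟫|² = ∑_v ‖T* e_v‖²` (sums of nonnegative terms; Parseval), and the same with `f = e`: so all three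
are equal and finite.  `∑_w ⟪T f_w, S f_w⟫ = ∑_w ∑_v ⟪T f_w, e_v⟫ ⟪e_v, S f_w⟫` converges absolutely (Cauchy-Schwarz), exchange the sums:
`= ∑_v ⟪S* e_v, T* e_v⟫`, and the same with `f = e`. -/
def Stmt_HSB : Prop := ∀ (H : Type) [NormedAddCommGroup H] [InnerProductSpace ℂ H]
  [CompleteSpace H] (ι κ : Type) (e : HilbertBasis ι ℂ H) (f : HilbertBasis κ ℂ H)
  (S T : H →L[ℂ] H), Summable (fun v => ‖T (e v)‖ ^ 2) → Summable (fun v => ‖S (e v)‖ ^ 2) →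
  Summable (fun w => ‖T (f w)‖ ^ 2) ∧
  Summable (fun v => ‖⟪T (e v), S (e v)⟫_ℂ‖) ∧
  HasSum (fun w => ⟪T (f w), S (f w)⟫_ℂ) (∑' v, ⟪T (e v), S (e v)⟫_ℂ)

/-- BLOCK HSE (uses BAS, ENT): finite energy means Hilbert-Schmidt difference quotients.
PROOF.  `‖D_i(x) bs v‖² = ∑_u |⟪bs u, D_i(x) bs v⟫|² = ∑_u |ζ (u ++ i :: v.reverse)|²`, `ζ = x Ω`.  The map `(u, v) ↦ u ++ i :: v.reverse` hits each word `w` at most
`w.length` times, so the sum over all `(u, v)` is at most `∑ |w| |ζ w|²` (for example: it is injective as a map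
to the pairs (word `w`, position `u.length < w.length`); `summable_sigma_of_nonneg`). -/
def Stmt_HSE : Prop := ∀ (k : ℕ) (x : Fk k →L[ℂ] Fk k), x ∈ Alg k → FinEn x →
  ∀ i : Fin k, HS (dq i x)

/-- BLOCK HPR (uses BAS, JOP): the pairing of Hilbert-Schmidt operators.
PROOF.  `⟪J T J bs v, S bs v⟫ = ∑_u ⟪J T J bs v, bs u.reverse⟫ ⟪bs u.reverse, S bs v⟫ = ∑_u ⟪bs u, T bs v.reverse⟫ ⟪bs u.reverse, S bs v⟫` (JOP (6), (4)).  The double sum over `(u, v)` converges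
absolutely by Cauchy-Schwarz (`∑ |⟪bs u, T bs v.reverse⟫|² = ∑_v ‖T bs v‖²`); group the pairs `(u, v)` by their lengths `(a, b)` and these by `a + b`. -/
def Stmt_HPR : Prop := ∀ (k : ℕ) (S T : Fk k →L[ℂ] Fk k), HS S → HS T →
  HasSum (fun m : ℕ => ∑ p ∈ Finset.HasAntidiagonal.antidiagonal m, cc S T p.1 p.2) (hp S T)

/-- BLOCK HSU (uses BAS, JOP, HSB): invariance of the pairing.
PROOF.  `e` = the Hilbert basis `bs` of `Fk k`, `f` = the Hilbert basis `U (bs v)` (or work with `U.symm` and `Fk k'`), `L~ = cj U L`.  `‖(cj U L) (U bs v)‖ = ‖L bs v‖`, so `cj U L` is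
Hilbert-Schmidt (HSB).  `hp (cj U.symm K) L = ∑_v ⟪J L J bs v, U* K U bs v⟫ = ∑_v ⟪(J L~ J) U bs v, K (U bs v)⟫` (`U J = J U`) `= ∑_w ⟪(J L~ J) bs w, K bs w⟫` (HSB; `J L~ J` is a bounded
linear operator, Hilbert-Schmidt) and `⟪J L~ J bs w, K bs w⟫ = ⟪J K bs w, L~ J bs w⟫ = ⟪J K J bs w.reverse, L~ bs w.reverse⟫` (JOP (6), (4)): the sum is `hp L~ K`. -/
def Stmt_HSU : Prop := ∀ (k k' : ℕ) (U : Fk k' ≃ₗᵢ[ℂ] Fk k), (∀ ξ : Fk k', U (Jf ξ) = Jf (U ξ)) →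
  (∀ L : Fk k' →L[ℂ] Fk k', HS L → HS (cj U L)) ∧
  (∀ K : Fk k →L[ℂ] Fk k, HS K → HS (cj U.symm K)) ∧
  ∀ (K : Fk k →L[ℂ] Fk k) (L : Fk k' →L[ℂ] Fk k'), HS K → HS L →
    hp (cj U.symm K) L = hp (cj U L) K

/-- BLOCK MNB (uses IMP, PRS, CJR, HSE, HPR, HSU): THEOREM (B).
PROOF.  `K i j = D_i(φ s'_j)`, `L j i = D'_j(φ.symm s_i)` are Hilbert-Schmidt (HSE).  PRS and HPR (uniqueness of sums, `hasSum_sum`) on `Fk k` with `R = cj U (r'_j)*`, `x = φ s'_j`: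
`1 = ∑_i hp (cj U (L j i)) (K i j)`; on `Fk k'` with `R = cj U.symm (r_i)*`, `x = φ.symm s_i`: `1 = ∑_j hp (cj U.symm (K i j)) (L j i)`.  HSU: equal terms; sum over `j` and over `i`: `k' = k`. -/
def Stmt_MNB : Prop := ∀ k k' : ℕ, 2 ≤ k → 2 ≤ k' → ∀ φ : Alg k' ≃⋆ₐ[ℂ] Alg k,
  (∀ j : Fin k', FinEn (φ (ge j) : Fk k →L[ℂ] Fk k)) →
  (∀ i : Fin k, FinEn (φ.symm (ge i) : Fk k' →L[ℂ] Fk k')) → k = k'

end Pool.SI
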