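import Pool.Agent.Work.MP_118406_si.Interface

set_option autoImplicit false

/-!
# Smooth free decompositions of `Alg k`: interface

Second theorem for MP_118406_an.  THEOREM.  Let `B_1, .., B_n ⊆ Alg k` be *-subalgebras which are free with respect to the
vacuum vector and generate `Alg k` as a C*-algebra, each of which contains a Haar unitary, and let `T_ij` be nuclear operators
such that `D_i(b) = [T_ij, b]` for `b ∈ B_j`.  Then `n = k`.  (For an isomorphism `φ` from a reduced free product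
`A_1 * .. * A_n`, for example `𝒵 * .. * 𝒵`, to `Alg k` take `B_j = φ(A_j)`.)

The file of block `X` is `Pool/Agent/Work/MP_118406_si/B_X.lean`: `import` this file, open the same namespaces,
`namespace Pool.SI`, `theorem p_X (hA : Stmt_A) (hB : Stmt_B) .. : Stmt_X` with the blocks of the column `uses` as
hypotheses in that order; auxiliary lemmas with prefix `X_`.  Finished files `B_Y.lean` of the first part may be
imported for their auxiliary lemmas.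

Notation of the comments: `Ω = vac k`, `s_i = sc i`, `r_i = rc i`, `D_i = dq i`, `T*` the adjoint, `P = Pr o` the projection onto
`ℂ o`, `J = Jf`.
-/

open scoped InnerProductSpace ComplexConjugate Topology
open Set Filter

noncomputable section

namespace Pool.SI

/-- The projection onto the line of the unit vector `o`. -/
def Pr {H : Type} [NormedAddCommGroup H] [InnerProductSpace ℂ H] (o : H) : H →L[ℂ] H :=
  (innerSL ℂ o).smulRight o

/-- Alternating lists of centred elements. -/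
def AltI {H : Type} [NormedAddCommGroup H] [InnerProductSpace ℂ H] [CompleteSpace H] {n : ℕ}
    (B : Fin n → StarSubalgebra ℂ (H →L[ℂ] H)) (o : H) (l : List (Fin n × (H →L[ℂ] H))) : Prop :=
  (∀ p ∈ l, p.2 ∈ B p.1 ∧ ⟪o, p.2 o⟫_ℂ = 0) ∧ l.IsChain (fun p q => p.1 ≠ q.1)

/-- The algebras `B j` are free with respect to the vector `o`. -/
def FreI {H : Type} [NormedAddCommGroup H] [InnerProductSpace ℂ H] [CompleteSpace H] {n : ℕ}
    (B : Fin n → StarSubalgebra ℂ (H →L[ℂ] H)) (o : H) : Prop :=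
  ∀ l : List (Fin n × (H →L[ℂ] H)), AltI B o l → l ≠ [] → ⟪o, (l.map Prod.snd).prod o⟫_ℂ = 0

/-- The operators `E l` (projections onto the span of the words ending in `B l`). -/
def Eop {H : Type} [NormedAddCommGroup H] [InnerProductSpace ℂ H] [CompleteSpace H] {n : ℕ}
    (B : Fin n → StarSubalgebra ℂ (H →L[ℂ] H)) (o : H) (E : Fin n → (H →L[ℂ] H)) : Prop :=
  (∀ l, E l o = 0) ∧
  ∀ l j, ∀ a ∈ B j, E l * a - a * E l = if l = j then a * Pr o - Pr o * a else 0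

/-- A nuclear representation of `T`. -/
def Rep {k : ℕ} (T : Fk k →L[ℂ] Fk k) (α β : ℕ → Fk k) : Prop :=
  Summable (fun n => ‖α n‖ * ‖β n‖) ∧ ∀ ξ, HasSum (fun n => ⟪β n, ξ⟫_ℂ • α n) (T ξ)

/-- BLOCK TLG (uses BAS): the telescoping sum without the condition `R Ω = 0`.
PROOF.  As TEL (see `B_TEL.lean`): `F([], w) = G([], w) - G(w.reverse, [])`. -/
def Stmt_TLG : Prop := ∀ (k : ℕ) (R : Fk k →L[ℂ] Fk k) (w : List (Fin k)),
  ∑ p : Fin w.length, ⟪bs (w.take p).reverse,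
      (R * sc (w.get p) - sc (w.get p) * R) (bs (w.drop ((p : ℕ) + 1)))⟫_ℂ =
    ⟪vac k, R (bs w)⟫_ℂ - ⟪bs w.reverse, R (vac k)⟫_ℂ

/-- BLOCK PRG (uses ALC, ENT, TLG): the pairing series without the condition `R Ω = 0`.
PROOF.  As PRS (see `B_PRS.lean`), with TLG: `x Ω = ∑ ζ_w bs w`; `∑_w ζ_w ⟪Ω, R bs w⟫ = ⟪Ω, R x Ω⟫` and
`∑_w ζ_w ⟪bs w.reverse, R Ω⟫ = ⟪J x Ω, R Ω⟫ = ⟪x* Ω, R Ω⟫ = ⟪Ω, x R Ω⟫` (ALC (2); `(J x Ω) w = conj ζ_(w.reverse)`); the term `w = []` is `0`. -/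
def Stmt_PRG : Prop := ∀ (k : ℕ) (R x : Fk k →L[ℂ] Fk k), x ∈ Alg k →
  HasSum (fun m : ℕ => ∑ i : Fin k, ∑ p ∈ Finset.HasAntidiagonal.antidiagonal m,
    cc (R * sc i - sc i * R) (dq i x) p.1 p.2) ⟪vac k, (R * x - x * R) (vac k)⟫_ℂ

/-- BLOCK PNG (uses PRG, CCS, CCN, NPR): the pairing formula without the condition `R Ω = 0`.
PROOF.  As PN2 (see `B_PN2.lean`) with PRG instead of PRS. -/
def Stmt_PNG : Prop := ∀ (k : ℕ) (R x : Fk k →L[ℂ] Fk k) (α β : Fin k → ℕ → Fk k),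
  x ∈ Alg k → (∀ i, Rep (dq i x) (α i) (β i)) →
  ⟪vac k, (R * x - x * R) (vac k)⟫_ℂ =
    ∑ i, ∑' n, ⟪Jf (α i n), (R * sc i - sc i * R) (Jf (β i n))⟫_ℂ

/-- BLOCK PNT (uses BAS, JOP, ALC, PNG): the pairing formula for a unitary `x` with `D_i(x) = [T_i, x]`.
PROOF.  Let `ρ ξ = J (x (J ξ))` (a bounded linear operator, JOP).  `ρ` commutes with `Alg k`: for `y, z ∈ Alg k`
`ρ y z Ω = J x J (y z Ω) = J x (y z)* Ω = ((x (y z)*)* ) Ω = y z x* Ω` and `y ρ z Ω = y (z x* Ω)` (ALC (2); `Alg k Ω` is dense).  `ρ Ω = x* Ω`.  Apply PNG to `R ρ`: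
`⟪Ω, (R ρ x - x R ρ) Ω⟫ = ⟪Ω, (R x - x R) ρ Ω⟫ = ⟪Ω, (R x - x R) x* Ω⟫`, `(R ρ) s_i - s_i (R ρ) = (R s_i - s_i R) ρ`, and `D_i(x) = T_i x - x T_i` has the nuclear
representation with the terms `(ξ_n, x* η_n)` and `(- x ξ_n, η_n)` (interleave them: even and odd indices).  `ρ J (x* η) = J x x* η = J η` and `ρ J η = J x η`. -/
def Stmt_PNT : Prop := ∀ (k : ℕ) (R x : Fk k →L[ℂ] Fk k) (T : Fin k → (Fk k →L[ℂ] Fk k))
  (ξ η : Fin k → ℕ → Fk k), x ∈ Alg k → star x * x = 1 → x * star x = 1 →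
  (∀ i, Rep (T i) (ξ i) (η i)) → (∀ i, dq i x = T i * x - x * T i) →
  ⟪vac k, ((R * x - x * R) * star x) (vac k)⟫_ℂ =
    ∑ i, ((∑' n, ⟪Jf (ξ i n), (R * sc i - sc i * R) (Jf (η i n))⟫_ℂ) -
      ∑' n, ⟪Jf (x (ξ i n)), (R * sc i - sc i * R) (Jf (x (η i n)))⟫_ℂ)

/-- BLOCK EXE (uses nothing): the projections `E l`.
PROOF.  `K_l` = closure of the span of the `(m.map Prod.snd).prod o`, `m` alternating (`AltI`), nonempty, whose LAST element has index `l`.  The `K_l` are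
orthogonal to `o` and to each other: `⟪m.prod o, m'.prod o⟫ = ⟪o, ((m.map star).reverse ++ m').prod o⟫`; if the first elements have different indices this is
`0` by freeness, otherwise multiply the two adjacent factors, `c* d = τ(c* d) + centred`, and use induction on the lengths (for different last indices the words
never cancel completely).  `o` and the `K_l` span a dense subspace (the elements of `⨆ B_j` are sums of products; `c d = τ(c d) + centred`,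
`c = τ(c) + centred`).  `E l` = the orthogonal projection onto `K_l`.  Both sides of the commutation relation are continuous; check them on `o` and on the words
`m.prod o`, `m` alternating with last index `l'`, for `a ∈ B_j`, `a = τ(a) + a'`, `a'` centred: `a (c_1 .. c_m o)` is, for `c_1 ∉ B_j` (index different from `j`),
`τ(a) c_1 .. c_m o + a' c_1 .. c_m o`, and for `c_1` of index `j` `τ(a c_1) c_2 .. c_m o + (a c_1)' c_2 .. c_m o`: the last index stays `l'` except for `m = 1`, `j = l'`, where the first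
term is `τ(a c_1) o`.  So `E l a - a E l = 0` except on `o` and on the words of length one for `j = l = l'`, where it is `a P - P a`. -/
def Stmt_EXE : Prop := ∀ (H : Type) [NormedAddCommGroup H] [InnerProductSpace ℂ H]
  [CompleteSpace H] (n : ℕ) (B : Fin n → StarSubalgebra ℂ (H →L[ℂ] H)) (o : H), ‖o‖ = 1 →
  FreI B o → Dense {y : H | ∃ x ∈ (⨆ j, B j : StarSubalgebra ℂ (H →L[ℂ] H)), x o = y} →
  ∃ E : Fin n → (H →L[ℂ] H), Eop B o E

/-- BLOCK WKZ (uses BAS, CYC, ALC): the powers of a Haar unitary converge weakly to zero.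
PROOF.  For `y, z ∈ Alg k`: `⟪z Ω, v^N y Ω⟫ = τ(z* v^N y) = τ(y z* v^N) = ⟪z y* Ω, v^N Ω⟫ → 0` (ALC (3); the `v^N Ω` are orthonormal: Bessel).  The `y Ω` are dense
(CYC, BAS (6)) and `‖v^N‖ ≤ 1`. -/
def Stmt_WKZ : Prop := ∀ (k : ℕ) (v : Fk k →L[ℂ] Fk k), v ∈ Alg k → Haar v (vac k) →
  ∀ ζ η : Fk k, Tendsto (fun N : ℕ => ⟪ζ, (v ^ N) η⟫_ℂ) atTop (𝓝 0)

/-- BLOCK CPT (uses JOP, WKZ): the commutators with `E l` are limits of finite rank operators.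
PROOF.  Let `ξ_N = J (v^N ξ)`, `η_N = J (v^N η)`: `‖ξ_N‖ ≤ ‖ξ‖`, `‖η_N‖ ≤ ‖η‖`, and `⟪ζ, η_N⟫ = ⟪v^N η, J ζ⟫ → 0`, `⟪ξ_N, ζ⟫ → 0` for all `ζ` (WKZ).  The set of the operators `S` with
`⟪b ξ_N, S c η_N⟫ → 0` for all bounded `b`, `c` is closed in norm, a linear space, stable by multiplication with bounded operators on both sides,
and contains `Pr Ω`.  So the set of the `y` such that `E l y - y E l` and `E l y* - y* E l` are in it is a star subalgebra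
(`[E, y z] = [E, y] z + y [E, z]`) containing all `B_j` (`Eop`), and it is closed. -/
def Stmt_CPT : Prop := ∀ (k n : ℕ) (B : Fin n → StarSubalgebra ℂ (Fk k →L[ℂ] Fk k))
  (E : Fin n → (Fk k →L[ℂ] Fk k)), Eop B (vac k) E →
  ∀ v ∈ Alg k, Haar v (vac k) →
  ∀ y ∈ (⨆ j, B j : StarSubalgebra ℂ (Fk k →L[ℂ] Fk k)).topologicalClosure,
  ∀ (l : Fin n) (ξ η : Fk k), Tendsto (fun N : ℕ =>
    ⟪Jf ((v ^ N) ξ), (E l * y - y * E l) (Jf ((v ^ N) η))⟫_ℂ) atTop (𝓝 0)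

/-- BLOCK PIQ (uses JOP, ALC): the pairing formula for the derivations `ad (E j)`.
PROOF.  Let `Q(x)` be the statement: for all `b, c ∈ Alg k`
`⟪Ω, b (R x - x R) c Ω⟫ = - ∑_j ∑'_n ⟪J ξ_jn, b (E_j x - x E_j) c J η_jn⟫` (the sums converge absolutely).  If `x ∈ B_j` then `R x - x R = T_j x - x T_j`,
`E_j x - x E_j = x P - P x`, `E_{j'} x - x E_{j'} = 0` for `j' ≠ j`, and for all vectors `ξ`, `η`
`⟪Ω, b (|ξ⟩⟨η| x - x |ξ⟩⟨η|) c Ω⟫ = ⟪b* Ω, ξ⟫ ⟪η, x c Ω⟫ - ⟪(b x)* Ω, ξ⟫ ⟪η, c Ω⟫ = ⟪J ξ, b (P x - x P) c J η⟫`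
because `⟪J ξ, b Ω⟫ = ⟪J b Ω, ξ⟫ = ⟪b* Ω, ξ⟫` and `⟪d* Ω, J η⟫ = ⟪η, J d* Ω⟫ = ⟪η, d Ω⟫` (JOP (6), ALC (2)).  The set of the `x ∈ Alg k` with `Q(x)` and `Q(x*)` is a star subalgebra
(`[R, x y] = [R, x] y + x [R, y]`, the same for `E_j`; `b`, `c` are arbitrary in `Alg k`), it contains all `B_j`, and it is closed (both sides of `Q(x)` are continuous in `x`).
Take `b = c = 1`. -/
def Stmt_PIQ : Prop := ∀ (k n : ℕ) (B : Fin n → StarSubalgebra ℂ (Fk k →L[ℂ] Fk k))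
  (E : Fin n → (Fk k →L[ℂ] Fk k)) (R : Fk k →L[ℂ] Fk k) (T : Fin n → (Fk k →L[ℂ] Fk k))
  (ξ η : Fin n → ℕ → Fk k), (∀ j, B j ≤ Alg k) → Eop B (vac k) E →
  (∀ j, Rep (T j) (ξ j) (η j)) → (∀ j, ∀ b ∈ B j, R * b - b * R = T j * b - b * T j) →
  ∀ x ∈ (⨆ j, B j : StarSubalgebra ℂ (Fk k →L[ℂ] Fk k)).topologicalClosure,
  ⟪vac k, (R * x - x * R) (vac k)⟫_ℂ =
    - ∑ j, ∑' n, ⟪Jf (ξ j n), (E j * x - x * E j) (Jf (η j n))⟫_ℂ

/-- BLOCK DEC (uses BAS, JOP, COM, CYC, PNT, EXE, CPT, PIQ): smooth free decompositions of `Alg k`.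
PROOF.  `E` from EXE for `H = Fk k`, `o = Ω` (`⨆ B_j` is dense in `Alg k`, and `Alg k Ω` is dense: CYC).  `(ξ_ij, η_ij)` nuclear representations of `T_ij`,
`c_ij = ∑'_n ⟪J ξ_ijn, (E_j s_i - s_i E_j) J η_ijn⟫`.  (II) PIQ with `R = r_i*`, `T_j = T_ij`, `x = s_i`: `1 = ⟪Ω, D_i(s_i) Ω⟫ = - ∑_j c_ij` (COM (1)).
(I) PNT with `R = E_j`, `x = v^N`, `v = v_j` the Haar unitary in `B_j`, `N ≥ 1`: with `a = (v^N)* ∈ B_j`, `τ(a) = 0`, `E_j a Ω = a E_j Ω + (a P - P a) Ω = a Ω`, so the left side is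
`⟪Ω, E_j Ω⟫ - ⟪a Ω, E_j a Ω⟫ = - 1`; the right side is `∑_i (c_ij - ∑'_n ⟪J v^N ξ_ijn, (E_j s_i - s_i E_j) J v^N η_ijn⟫)`, and the last sums tend to `0` for `N → ∞` by CPT (`y = s_i`) and
dominated convergence.  So `∑_i c_ij = - 1` for all `j` and `∑_j c_ij = - 1` for all `i`: `k = n`. -/
def Stmt_DEC : Prop := ∀ (k n : ℕ) (B : Fin n → StarSubalgebra ℂ (Fk k →L[ℂ] Fk k)),
  (∀ j, B j ≤ Alg k) → Alg k ≤ (⨆ j, B j : StarSubalgebra ℂ (Fk k →L[ℂ] Fk k)).topologicalClosure →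
  FreI B (vac k) → (∀ j, ∃ v ∈ B j, Haar v (vac k)) →
  ∀ T : Fin k → Fin n → (Fk k →L[ℂ] Fk k), (∀ i j, Nuc (T i j)) →
  (∀ i j, ∀ b ∈ B j, dq i b = T i j * b - b * T i j) → k = n

/-- BLOCK EXD (uses UTF, DEC): isomorphisms from reduced free products to `Alg k`.
PROOF.  `Q = (⨆ A_j).topologicalClosure`.  `φ` is isometric (see `B_IMP.lean`), so `σ(y) = ⟪o, φ⁻¹(y) o⟫` is a bounded trace on `Alg k` with `σ(1) = 1`; by UTF
`⟪Ω, φ(x) Ω⟫ = ⟪o, x o⟫` for all `x ∈ Q`.  Let `B_j` be the image of `A_j ≤ Q` under `φ`, composed with the inclusion of `Alg k` (`StarSubalgebra.map`).  The `B_j` are free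
(the preimages of an alternating centred list are alternating and centred), generate `Alg k` topologically (`φ` is a homeomorphism), contain the Haar
unitaries `φ(v_j)`.  DEC. -/
def Stmt_EXD : Prop := ∀ (k n : ℕ), 2 ≤ k → ∀ (H : Type) [NormedAddCommGroup H]
  [InnerProductSpace ℂ H] [CompleteSpace H] (A : Fin n → StarSubalgebra ℂ (H →L[ℂ] H)) (o : H),
  ‖o‖ = 1 → FreI A o →
  (∀ x ∈ (⨆ j, A j : StarSubalgebra ℂ (H →L[ℂ] H)).topologicalClosure,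
    ∀ y ∈ (⨆ j, A j : StarSubalgebra ℂ (H →L[ℂ] H)).topologicalClosure,
      ⟪o, (x * y) o⟫_ℂ = ⟪o, (y * x) o⟫_ℂ) →
  (∀ j, ∃ v ∈ A j, Haar v o) →
  ∀ (φ : (⨆ j, A j : StarSubalgebra ℂ (H →L[ℂ] H)).topologicalClosure ≃⋆ₐ[ℂ] Alg k)
    (T : Fin k → Fin n → (Fk k →L[ℂ] Fk k)), (∀ i j, Nuc (T i j)) →
  (∀ i j, ∀ a : (⨆ j, A j : StarSubalgebra ℂ (H →L[ℂ] H)).topologicalClosure,
    (a : H →L[ℂ] H) ∈ A j → dq i (φ a : Fk k →L[ℂ] Fk k) =
      T i j * (φ a : Fk k →L[ℂ] Fk k) - (φ a : Fk k →L[ℂ] Fk k) * T i j) → k = n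

end Pool.SI
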